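import Pool.Agent.Lib.MP_16285c_agN.T3.SpecC
import Pool.Agent.Lib.MP_16285c_agN.Iface
import Pool.Agent.Lib.MP_16285c_agN.TpPos
import Pool.Agent.Lib.MP_16285c_agN.FinNN
import Pool.Agent.Lib.MP_16285c_ag.Desc

/-!
# Threefolds with `λ₁ > λ₃`: final assembly
-/

set_option autoImplicit false

namespace Pool.Agent.Lib.MP_16285c_agN

open Pool.Agent.Lib.MP_16285c_ag

namespace T3XFinM

theorem map_map_rm {K₀ K L : Type} [Field K₀] [Field K] [Field L] [Algebra K₀ K] [Algebra K₀ L]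
    [Algebra K L] [IsScalarTower K₀ K L] {n : ℕ} (f : RM K₀ n) :
    (f.map (algebraMap K₀ K)).map (algebraMap K L) = f.map (algebraMap K₀ L) := by
  simp only [RM.map, MvPolynomial.map_map, ← IsScalarTower.algebraMap_eq]

theorem cmp_of {K₀ K : Type} [Field K₀] [Field K] [Algebra K₀ K] {n : ℕ} (f : RM K₀ n)
    (σ₀ : RF n K₀ →ₐ[K₀] RF n K₀) (σ : RF n K →ₐ[K] RF n K) (h₀ : Of f σ₀)
    (h : Of (f.map (algebraMap K₀ K)) σ) : Cmp σ₀ σ := by
  intro i
  have e1 := congrArg (bc n K₀ K) (h₀ i).2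
  rw [map_mul, bc_fr, bc_fr] at e1
  have e2 := (h i).2
  have e3 : fr ((f.map (algebraMap K₀ K)).den i) ≠ 0 := fr_ne_zero (h i).1
  apply mul_right_cancel₀ e3
  rw [e2]
  exact e1.symm

theorem eval_coe2 {K₀ K L : Type} [Field K₀] [Field K] [Field L] [Algebra K₀ K] [Algebra K₀ L]
    [Algebra K L] [IsScalarTower K₀ K L] {n : ℕ} (x : Fin n → K) (G : Pl n K₀) :
    MvPolynomial.eval (fun i => algebraMap K L (x i)) (MvPolynomial.map (algebraMap K₀ L) G) =
      algebraMap K L (MvPolynomial.aeval x G) := by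
  rw [MvPolynomial.aeval_def, ← MvPolynomial.eval_map, ← FinNNM.eval_coe (K := K) (L := L),
    MvPolynomial.map_map, ← IsScalarTower.algebraMap_eq]

theorem orb_up {K L : Type} [Field K] [Field L] [Algebra K L] {n : ℕ} (f : RM K n)
    (z : ℕ → Fin n → K) (h : f.Orb z) :
    (f.map (algebraMap K L)).Orb (fun m i => algebraMap K L (z m i)) := by
  intro m i
  obtain ⟨hd, he⟩ := h m i
  have e1 : MvPolynomial.eval (fun i => algebraMap K L (z m i)) ((f.map (algebraMap K L)).den i) =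
      algebraMap K L (MvPolynomial.eval (z m) (f.den i)) := by
    rw [← FinNNM.eval_coe]
    rfl
  have e2 : MvPolynomial.eval (fun i => algebraMap K L (z m i)) ((f.map (algebraMap K L)).num i) =
      algebraMap K L (MvPolynomial.eval (z m) (f.num i)) := by
    rw [← FinNNM.eval_coe]
    rfl
  rw [e1, e2]
  refine ⟨fun h0 => hd ((map_eq_zero_iff _ (algebraMap K L).injective).1 h0), ?_⟩
  rw [← he, map_mul]

theorem orb_down {K L : Type} [Field K] [Field L] [Algebra K L] {n : ℕ} (f : RM K n)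
    (z : ℕ → Fin n → K) (h : (f.map (algebraMap K L)).Orb (fun m i => algebraMap K L (z m i))) :
    f.Orb z := by
  intro m i
  obtain ⟨hd, he⟩ := h m i
  have e1 : MvPolynomial.eval (fun i => algebraMap K L (z m i)) ((f.map (algebraMap K L)).den i) =
      algebraMap K L (MvPolynomial.eval (z m) (f.den i)) := by
    rw [← FinNNM.eval_coe]
    rfl
  have e2 : MvPolynomial.eval (fun i => algebraMap K L (z m i)) ((f.map (algebraMap K L)).num i) =
      algebraMap K L (MvPolynomial.eval (z m) (f.num i)) := by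
    rw [← FinNNM.eval_coe]
    rfl
  rw [e1] at hd he
  rw [e2] at he
  refine ⟨fun h0 => hd (by rw [h0, map_zero]), ?_⟩
  apply (algebraMap K L).injective
  rw [map_mul]
  exact he

theorem tow2 {k : Type} [Field k] (A B : Subfield k) (h : A ≤ B) :
    @IsScalarTower A B k (Subfield.inclusion h).toAlgebra.toSMul _ _ :=
  letI : Algebra A B := (Subfield.inclusion h).toAlgebra
  IsScalarTower.of_algebraMap_eq fun _ => rfl

theorem tow3 {k : Type} [Field k] (A B C : Subfield k) (h : A ≤ B) (h' : B ≤ C) (h'' : A ≤ C) :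
    @IsScalarTower A B C (Subfield.inclusion h).toAlgebra.toSMul
      (Subfield.inclusion h').toAlgebra.toSMul (Subfield.inclusion h'').toAlgebra.toSMul :=
  letI : Algebra A B := (Subfield.inclusion h).toAlgebra
  letI : Algebra B C := (Subfield.inclusion h').toAlgebra
  letI : Algebra A C := (Subfield.inclusion h'').toAlgebra
  IsScalarTower.of_algebraMap_eq fun _ => rfl

/-- A shift by an element of residue zero. -/
theorem lies_add1 {k : Type} [Field k] (V : ValuationSubring k) (p : ℕ)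
    (hp : CharP (IsLocalRing.ResidueField V) p) (x z : k) (a : IsLocalRing.ResidueField V)
    (h : Lies V x a) (hz : z ∈ V) : Lies V (x + (p : k) * z) a := by
  obtain ⟨h0, h1⟩ := h
  have hm : (p : k) * z ∈ V := mul_mem (natCast_mem V p) hz
  refine ⟨add_mem h0 hm, ?_⟩
  have h3 : (⟨(p : k) * z, hm⟩ : V) = (p : V) * ⟨z, hz⟩ := by
    apply Subtype.ext
    push_cast
    rfl
  have h4 : (⟨x + (p : k) * z, add_mem h0 hm⟩ : V) = ⟨x, h0⟩ + ⟨(p : k) * z, hm⟩ := rfl
  rw [h4, map_add, h1, h3, map_mul, map_natCast, CharP.cast_eq_zero, zero_mul, add_zero]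

end T3XFinM

open T3XFinM FinNNM in
theorem tXFin : StmtXFast → StmtXSup → StmtXHL → StmtXCore → StmtXEnd → StmtXLs → StmtXFin := by
  classical
  intro hFast hSup hHL hCore hEnd hLs k _ _ _ σ hno hlam f hOf b hb
  have htp : 1 ≤ tp σ := tTpPos k 3 σ
  have hden : ∀ i, f.den i ≠ 0 := fun i => (hOf i).1
  have hjac : jac f ≠ 0 := iJac k 3 f σ hOf
  have hinj : Function.Injective f.comp := by
    intro A B hAB
    rw [← sig_fr hOf, ← sig_fr hOf] at hAB
    exact fr_injective (σ.injective hAB)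
  obtain ⟨S₁, hS₁⟩ := iTpGe k 3 σ ((iTpPow.2 k 3 σ).1 htp)
  -- the first field of definition
  set S : Finset k := S₁ ∪ (Finset.univ.biUnion fun i : Fin 3 =>
    cf (f.num i) ∪ cf (f.den i)) with hS
  set K₀ : Subfield k := Subfield.closure (S : Set k) with hK₀
  have hSS : S₁ ⊆ S := fun s hs => by
    rw [hS, Finset.mem_union]
    exact Or.inl hs
  have hSnum : ∀ i, cf (f.num i) ⊆ S := fun i s hs => by
    rw [hS, Finset.mem_union]
    refine Or.inr ?_
    exact Finset.mem_biUnion.2 ⟨i, Finset.mem_univ _, Finset.mem_union_left _ hs⟩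
  have hSden : ∀ i, cf (f.den i) ⊆ S := fun i s hs => by
    rw [hS, Finset.mem_union]
    refine Or.inr ?_
    exact Finset.mem_biUnion.2 ⟨i, Finset.mem_univ _, Finset.mem_union_right _ hs⟩
  obtain ⟨f₀, hf₀⟩ := desc_rm (K := K₀) f (fun i => desc_cf S _ (hSnum i))
    (fun i => desc_cf S _ (hSden i))
  obtain ⟨σ₀, hσ₀, hc₀⟩ := iDesc.1 K₀ k 3 f₀ σ (by rw [hf₀]; exact hOf)
  have htp₀ : tp σ₀ = tp σ :=
    hS₁ K₀ σ₀ (fun s hs => ⟨⟨s, Subfield.subset_closure (hSS hs)⟩, rfl⟩) hc₀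
  have hlam₀ : (tp σ₀ : ℝ) < lam0 (fun m => dg (it σ₀ m)) := by
    rw [htp₀]
    exact hlam.trans_le (hLs _ _ (fun a b => iDgMul K₀ 3 σ₀ a b)
      (fun m => cDgMul.2.2.1 3 K₀ k σ₀ σ hc₀ m))
  obtain ⟨m, β, B₀, hm1, hβ2, htpβ, hB₀, hfast⟩ := hFast K₀ σ₀ hlam₀
  have hB₀k : MvPolynomial.map (algebraMap K₀ k) B₀ ≠ 0 := by
    rw [Ne, map_eq_zero_iff _ (MvPolynomial.map_injective _ (algebraMap K₀ k).injective)]
    exact hB₀
  have hB : b * jac f * MvPolynomial.map (algebraMap K₀ k) B₀ ≠ 0 :=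
    mul_ne_zero (mul_ne_zero hb hjac) hB₀k
  obtain ⟨V, p, a, N, hp, hp2, hch, hN, hr, hbox⟩ :=
    Pool.Agent.ZDO.box2 f hden hinj hjac _ hB 2
  obtain ⟨V', p', a', N', hp', hpp', hch', hN', hr', hbox'⟩ :=
    Pool.Agent.ZDO.box2 f hden hinj hjac _ hB p
  have hne : p ≠ p' := by omega
  have hM : 1 ≤ N * N' := Nat.mul_pos (by omega) (by omega)
  obtain ⟨c, hcV, hcV'⟩ := iLiftC2 k 3 V V' p p' hp hp' hne hch hch' a a' hr hr'
  -- the field with heights
  obtain ⟨K, hadm, t, hSK, ht0, htV, htV', hsup⟩ := hSup k V V' p p' hp hp' hp2 (by omega) hch hch'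
    (S ∪ Finset.univ.image c)
  -- the finitely generated field
  set S₂ : Finset k := (S ∪ Finset.univ.image c) ∪ {(t : k)} with hS₂
  set K₁ : Subfield k := Subfield.closure (S₂ : Set k) with hK₁
  have hSS₂ : S ⊆ S₂ := fun s hs => by
    rw [hS₂, Finset.mem_union, Finset.mem_union]
    exact Or.inl (Or.inl hs)
  have hcS₂ : ∀ i, c i ∈ S₂ := fun i => by
    rw [hS₂, Finset.mem_union, Finset.mem_union]
    exact Or.inl (Or.inr (Finset.mem_image_of_mem _ (Finset.mem_univ _)))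
  have htS₂ : (t : k) ∈ S₂ := by
    rw [hS₂, Finset.mem_union]
    exact Or.inr (Finset.mem_singleton_self _)
  have hle₀ : K₀ ≤ K₁ := Subfield.closure_mono (Finset.coe_subset.2 hSS₂)
  have hle₁ : K₁ ≤ K := Subfield.closure_le.2 fun s hs => by
    rw [Finset.mem_coe, hS₂, Finset.mem_union, Finset.mem_singleton] at hs
    rcases hs with hs | hs
    · exact hSK (Finset.mem_coe.2 hs)
    · rw [hs]
      exact t.2
  let : Algebra K₀ K₁ := (Subfield.inclusion hle₀).toAlgebra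
  let : Algebra K₁ K := (Subfield.inclusion hle₁).toAlgebra
  let : Algebra K₀ K := (Subfield.inclusion (hle₀.trans hle₁)).toAlgebra
  have : IsScalarTower K₀ K₁ K := tow3 K₀ K₁ K hle₀ hle₁ (hle₀.trans hle₁)
  have : IsScalarTower K₀ K₁ k := tow2 K₀ K₁ hle₀
  have : IsScalarTower K₀ K k := tow2 K₀ K (hle₀.trans hle₁)
  have : IsScalarTower K₁ K k := tow2 K₁ K hle₁
  set f₁ : RM K₁ 3 := f₀.map (algebraMap K₀ K₁) with hf₁
  have hf₁k : f₁.map (algebraMap K₁ k) = f := by rw [hf₁, map_map_rm, hf₀]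
  have hf₁K : f₁.map (algebraMap K₁ K) = f₀.map (algebraMap K₀ K) := by rw [hf₁, map_map_rm]
  obtain ⟨σ₁, hσ₁, hc₁⟩ := iDesc.1 K₁ k 3 f₁ σ (by rw [hf₁k]; exact hOf)
  have htp₁ : tp σ₁ = tp σ :=
    hS₁ K₁ σ₁ (fun s hs => ⟨⟨s, Subfield.subset_closure (hSS₂ (hSS hs))⟩, rfl⟩) hc₁
  have hno₁ : NoI σ₁ := iDesc.2 K₁ k 3 σ₁ σ hc₁ hno
  obtain ⟨σK, hσK, hcK⟩ := iDesc.1 K k 3 (f₁.map (algebraMap K₁ K)) σ
    (by rw [map_map_rm, hf₁k]; exact hOf)
  have hc0K : Cmp σ₀ σK := cmp_of f₀ σ₀ σK hσ₀ (by rw [← hf₁K]; exact hσK)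
  obtain ⟨F, G, hFm, hFi, hG, hcore⟩ := hCore K₁ 3 f₁ σ₁ (by norm_num) hσ₁
    (by rw [htp₁]; exact htp) hno₁ (N * N') hM
  set c1 : Fin 3 → K₁ := fun i => ⟨c i, Subfield.subset_closure (hcS₂ i)⟩ with hc1
  have hBc : MvPolynomial.aeval c1 B₀ ≠ 0 := by
    obtain ⟨x, hx0, -, hxB, -⟩ := hbox c hcV
    intro h0
    have h1 := hxB 0
    rw [hx0, map_mul] at h1
    apply right_ne_zero_of_mul h1
    have h2 := eval_coe2 (K₀ := K₀) (K := K₁) (L := k) c1 B₀
    rw [h0, map_zero] at h2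
    exact h2
  obtain ⟨R, hR, hfastR⟩ := hfast K₁ K σK hc0K c1 hBc
  obtain ⟨w, hwR, hHLq⟩ := hHL K₁ (fg_closure S₂) 3 F G R hFm hFi hG hR c1
  obtain ⟨H₀, hH₀⟩ := hfastR (fun i => (w i : K₁)) hwR
  obtain ⟨j₀, hj₀⟩ := hsup H₀
  set t1 : K₁ := ⟨(t : k), Subfield.subset_closure htS₂⟩ with ht1
  have ht10 : t1 ≠ 0 := by
    intro h0
    apply ht0
    apply Subtype.ext
    exact congrArg (fun z : K₁ => (z : k)) h0
  set q : K₁ := (p : K₁) * p' * t1 ^ j₀ with hq
  have hq0 : q ≠ 0 := mul_ne_zero (mul_ne_zero (Nat.cast_ne_zero.2 hp.ne_zero)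
    (Nat.cast_ne_zero.2 hp'.ne_zero)) (pow_ne_zero _ ht10)
  obtain ⟨s, hs0, hsi, hsG⟩ := hHLq q hq0
  set y : K₁ := q * (s : K₁) with hy
  have hyK : H₀ < Height.logHeight₁ (algebraMap K₁ K y) := by
    have h1 : algebraMap K₁ K y = (p : K) * p' * t ^ j₀ * s := by
      rw [hy, hq]
      simp only [map_mul, map_pow, map_natCast, map_intCast]
      rfl
    rw [h1]
    exact hj₀ j₀ le_rfl s hs0
  set x₀ : Fin 3 → k := fun i => algebraMap K₁ k (lptN c1 (fun i => (w i : K₁)) y i) with hx₀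
  have hx₀V : ∀ i, x₀ i = c i + (p : k) * ((p' : k) * (t : k) ^ j₀ * (s : k) * (w i : k)) := by
    intro i
    have h1 : x₀ i = c i + (p : k) * p' * (t : k) ^ j₀ * (s : k) * (w i : k) := by
      rw [hx₀, hy, hq]
      simp only [lptN, map_add, map_mul, map_pow, map_natCast, map_intCast]
      rfl
    rw [h1]
    ring
  have hx₀V' : ∀ i, x₀ i = c i + (p' : k) * ((p : k) * (t : k) ^ j₀ * (s : k) * (w i : k)) := by
    intro i
    rw [hx₀V]
    ring
  have hLV : ∀ i, Lies V (x₀ i) (a i) := fun i => by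
    rw [hx₀V]
    exact lies_add1 V p hch _ _ _ (hcV i) (mul_mem (mul_mem (mul_mem (natCast_mem V _)
      (pow_mem htV _)) (intCast_mem V _)) (intCast_mem V _))
  have hLV' : ∀ i, Lies V' (x₀ i) (a' i) := fun i => by
    rw [hx₀V']
    exact lies_add1 V' p' hch' _ _ _ (hcV' i) (mul_mem (mul_mem (mul_mem (natCast_mem V' _)
      (pow_mem htV' _)) (intCast_mem V' _)) (intCast_mem V' _))
  obtain ⟨x, hx0, hxo, hxB, hxCl⟩ := hbox x₀ hLV
  obtain ⟨x', hx0', hxo', -, hxCl'⟩ := hbox' x₀ hLV'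
  have hxx : x = x' := f.orb_unique x x' hxo hxo' (hx0.trans hx0'.symm)
  rw [← hxx] at hxCl'
  -- the orbit is defined over `K₁`
  have hmem : ∀ m i, x m i ∈ K₁ := by
    intro m
    induction m with
    | zero =>
      intro i
      rw [hx0]
      exact (lptN c1 (fun i => (w i : K₁)) y i).2
    | succ m ih =>
      intro i
      obtain ⟨hd, he⟩ := hxo m i
      set v : Fin 3 → K₁ := fun i => ⟨x m i, ih i⟩ with hv
      have hxv : x m = fun i => algebraMap K₁ k (v i) := rfl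
      have e1 : MvPolynomial.eval (x m) (f.den i) =
          algebraMap K₁ k (MvPolynomial.eval v (f₁.den i)) := by
        rw [hxv, ← eval_coe, ← hf₁k]
        rfl
      have e2 : MvPolynomial.eval (x m) (f.num i) =
          algebraMap K₁ k (MvPolynomial.eval v (f₁.num i)) := by
        rw [hxv, ← eval_coe, ← hf₁k]
        rfl
      rw [eq_div_of_mul_eq hd he, e1, e2]
      exact div_mem (SetLike.coe_mem _) (SetLike.coe_mem _)
  set x1 : ℕ → Fin 3 → K₁ := fun m i => ⟨x m i, hmem m i⟩ with hx1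
  have hxx1 : x = fun m i => algebraMap K₁ k (x1 m i) := rfl
  have horb1 : f₁.Orb x1 := by
    apply orb_down (L := k)
    rw [hf₁k]
    exact hxo
  have hflow1 : Flow σ₁ x1 := tVal.2.2.2.1 3 K₁ f₁ σ₁ x1 hσ₁ horb1
  have hx10 : x1 0 = lptN c1 (fun i => (w i : K₁)) y := by
    funext i
    apply Subtype.ext
    change x 0 i = _
    rw [hx0]
    rfl
  have hCl1 : ∀ (N p : ℕ), Pool.Agent.ZDO.ClN N p x → Pool.Agent.ZDO.ClN N p x1 := by
    intro N p h G i hi
    obtain ⟨J, hJ⟩ := h (MvPolynomial.map (algebraMap K₁ k) G) i (by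
      rw [hxx1, eval_coe]
      exact fun h0 => hi ((map_eq_zero_iff _ (algebraMap K₁ k).injective).1 h0))
    refine ⟨J, fun s h0 => hJ s ?_⟩
    rw [hxx1, eval_coe, h0, map_zero]
  have hjm : MvPolynomial.map (algebraMap K₁ k) (jac f₁) = jac f := by
    rw [← hf₁k]
    exact (Pool.Agent.ZDO.map_Jc f₁ (algebraMap K₁ k)).symm
  have hxb : ∀ m, MvPolynomial.eval (x m) b ≠ 0 := fun m h0 => hxB m (by
    rw [map_mul, map_mul, h0, zero_mul, zero_mul])
  have hxj : ∀ m, MvPolynomial.eval (x1 m) (jac f₁) ≠ 0 := fun m h0 => hxB m (by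
    have h1 : MvPolynomial.eval (x m) (jac f) = 0 := by
      rw [hxx1, ← hjm, eval_coe, h0, map_zero]
    rw [map_mul, map_mul, h1, mul_zero, zero_mul])
  refine ⟨x, hxo, hxb, ?_⟩
  rcases hcore N N' p p' hp hp' hne rfl x1 horb1 hxj (hCl1 _ _ hxCl) (hCl1 _ _ hxCl')
    (by rw [hx10]; exact hsi) (by rw [hx10]; exact hsG) with hvan | ⟨hpr, hrk1, hrk2, hpres, hfin⟩
  · suffices hd : Dns x1 from descP k K₁ 3 x1 hd
    intro G' hG'
    by_contra hcon
    push Not at hcon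
    apply hG'
    have h5 : G' ∈ van x1 (N * N') := (mem_van _ _ _).2 fun s => hcon _
    rw [hvan] at h5
    exact (Submodule.mem_bot _).1 h5
  · exfalso
    set xK : ℕ → Fin 3 → K := fun m i => algebraMap K₁ K (x1 m i) with hxK
    have horbK : (f₁.map (algebraMap K₁ K)).Orb xK := orb_up f₁ x1 horb1
    have hflowK : Flow σK xK := tVal.2.2.2.1 3 K _ σK xK hσK horbK
    have hBK : ∀ t, MvPolynomial.aeval (xK t) B₀ ≠ 0 := fun t h0 => hxB t (by
      have h1 : MvPolynomial.eval (x t) (MvPolynomial.map (algebraMap K₀ k) B₀) = 0 := by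
        have h2 := eval_coe2 (K₀ := K₀) (K := K) (L := k) (xK t) B₀
        rw [h0, map_zero] at h2
        exact h2
      rw [map_mul, h1, mul_zero])
    obtain ⟨hpos, hgrow⟩ := hH₀ y hyK xK (by
      rw [hxK]
      funext i
      exact congrArg (fun v : Fin 3 → K₁ => algebraMap K₁ K (v i)) hx10) hflowK hBK
    exact hEnd K₁ K 3 σ₁ m (N * N') β x1 hm1 hM hβ2 (by rw [htp₁]; exact htp)
      (by rw [htp₁, ← htp₀]; exact htpβ) hflow1 hpos hgrow hpr (by omega) hpres
      (fun L _ _ _ _ _ ρb h => hfin L ρb h)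

end Pool.Agent.Lib.MP_16285c_agN
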