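import Pool.Agent.Lib.MP_16285c_agN.T3.SpecA

/-!
# Bezout's inequality on a surface

Proof of `StmtXBZ`.
-/

set_option autoImplicit false

namespace Pool.Agent.Lib.MP_16285c_agN

open Pool.Agent.Lib.MP_16285c_ag

namespace T3XBZM

open scoped IntermediateField.algebraAdjoinAdjoin

section

variable {κ F : Type} [Field κ] [Field F] [Algebra κ F]

theorem pow_mem_Vd {c : ℕ} (x : Fin c → F) (j : Fin c) (k : ℕ) : x j ^ k ∈ Vd κ x k := by
  refine Submodule.mem_map.2 ⟨MvPolynomial.X j ^ k, ?_, by simp⟩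
  rw [MvPolynomial.mem_restrictTotalDegree, MvPolynomial.totalDegree_X_pow]

theorem Vd_sub {s : ℕ} (l : Fin s → F) (a : ℕ) {v : F} (hv : v ∈ Vd κ l a) :
    v ∈ IntermediateField.adjoin κ (Set.range l) := by
  obtain ⟨p, -, rfl⟩ := Submodule.mem_map.1 hv
  have h : MvPolynomial.aeval l p ∈ Algebra.adjoin κ (Set.range l) := by
    rw [Algebra.adjoin_range_eq_range_aeval]
    exact ⟨p, rfl⟩
  exact IntermediateField.algebra_adjoin_le_adjoin κ _ h

/-- The space `Vd` is finitely generated. -/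
theorem Vd_fg {c : ℕ} (x : Fin c → F) (a : ℕ) : (Vd κ x a).FG :=
  Module.Finite.iff_fg.1 (Module.Finite.map (MvPolynomial.restrictTotalDegree (Fin c) κ a)
    (MvPolynomial.aeval x).toLinearMap)

/-- The elements `x j` are integral over `κ(l)`. -/
theorem int_of_le {c s : ℕ} (x : Fin c → F) (l : Fin s → F) (W : Submodule κ F) (hW : W.FG)
    (hV : ∀ a : ℕ, Vd κ x a ≤ W * Vd κ l a) (j : Fin c) :
    IsIntegral (IntermediateField.adjoin κ (Set.range l)) (x j) := by
  set F0 := IntermediateField.adjoin κ (Set.range l) with hF0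
  let M : Submodule F0 F := Submodule.span F0 (W : Set F)
  have hM : M.FG := by
    obtain ⟨t, ht⟩ := hW
    refine ⟨t, ?_⟩
    show Submodule.span F0 (t : Set F) = Submodule.span F0 (W : Set F)
    rw [← ht, Submodule.span_span_of_tower]
  have hMf : Module.Finite F0 M := Module.Finite.iff_fg.2 hM
  have hle : ∀ a : ℕ, ∀ y ∈ Vd κ x a, y ∈ M := by
    intro a y hy
    have h1 : W * Vd κ l a ≤ M.restrictScalars κ := by
      rw [Submodule.mul_le]
      intro w hw v hv
      have h2 : w * v = (⟨v, Vd_sub l a hv⟩ : F0) • w := by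
        rw [mul_comm]
        rfl
      rw [h2]
      exact M.smul_mem _ (Submodule.subset_span hw)
    exact h1 (hV a hy)
  have hA : (Subalgebra.toSubmodule (Algebra.adjoin F0 {x j})) ≤ M := by
    rw [Algebra.adjoin_eq_span, Submodule.span_le]
    intro y hy
    obtain ⟨k, rfl⟩ := Submonoid.mem_closure_singleton.1 hy
    exact hle k _ (pow_mem_Vd x j k)
  exact IsIntegral.of_mem_of_fg (Algebra.adjoin F0 {x j})
    (Submodule.FG.of_le_of_isNoetherian hA) (x j) (Algebra.subset_adjoin rfl)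

/-- `F` is finite over `κ(l)`. -/
theorem fin_of_le {c s : ℕ} (x : Fin c → F) (l : Fin s → F) (W : Submodule κ F) (hW : W.FG)
    (hV : ∀ a : ℕ, Vd κ x a ≤ W * Vd κ l a)
    (hx : Module.Finite (IntermediateField.adjoin κ (Set.range x)) F) :
    Module.Finite (IntermediateField.adjoin κ (Set.range l)) F := by
  set F0 := IntermediateField.adjoin κ (Set.range l) with hF0
  set F1 := IntermediateField.adjoin F0 (Set.range x) with hF1
  have h1 : Module.Finite F0 F1 := by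
    apply IntermediateField.finiteDimensional_adjoin
    rintro _ ⟨j, rfl⟩
    exact int_of_le x l W hW hV j
  have h3 : IntermediateField.adjoin κ (Set.range x) ≤ F1.restrictScalars κ := by
    rw [IntermediateField.adjoin_le_iff]
    exact IntermediateField.subset_adjoin _ _
  have h4 : Module.Finite F1 F := by
    obtain ⟨t, ht⟩ := (Module.Finite.fg_top : (⊤ : Submodule (IntermediateField.adjoin κ (Set.range x)) F).FG)
    refine ⟨t, ?_⟩
    rw [eq_top_iff]
    intro z _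
    have hz : z ∈ Submodule.span (IntermediateField.adjoin κ (Set.range x)) (t : Set F) := by
      rw [ht]
      exact Submodule.mem_top
    refine Submodule.span_induction (fun u hu => Submodule.subset_span hu) (Submodule.zero_mem _)
      (fun u v _ _ hu hv => Submodule.add_mem _ hu hv) (fun a u _ hu => ?_) hz
    have h5 : a • u = (⟨(a : F), h3 a.2⟩ : F1) • u := rfl
    rw [h5]
    exact Submodule.smul_mem _ _ hu
  exact Module.Finite.trans F1 F

/-- A transcendence basis. -/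
theorem basis_of {s : ℕ} (l : Fin s → F) (hl : AlgebraicIndependent κ l)
    (hf : Module.Finite (IntermediateField.adjoin κ (Set.range l)) F) : IsTranscendenceBasis κ l := by
  refine isTranscendenceBasis_iff_algebraicIndependent_isAlgebraic.2 ⟨hl, ?_⟩
  have : Algebra.IsAlgebraic (IntermediateField.adjoin κ (Set.range l)) F := inferInstance
  exact Algebra.IsAlgebraic.trans (Algebra.adjoin κ (Set.range l))
    (IntermediateField.adjoin κ (Set.range l)) F

end

/-- A basis of a field over a subfield. -/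
theorem ex_basis {κ F : Type} [Field κ] [Field F] [Algebra κ F] (L : IntermediateField κ F)
    (hL : Module.Finite L F) :
    ∃ (e : ℕ) (θ : Fin e → F), LinearIndependent L θ ∧ Module.finrank L F = e :=
  ⟨_, Module.finBasis L F, (Module.finBasis L F).linearIndependent, rfl⟩

/-- Polynomials with coefficients in the small field. -/
theorem mem_Vd_of {K E : Type} [Field K] [Field E] [Algebra K E] (κ : IntermediateField K E) {n : ℕ}
    (y : Fin n → E) (G : MvPolynomial (Fin n) K) (a : ℕ) (h : G.totalDegree ≤ a) :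
    MvPolynomial.aeval y G ∈ Vd κ y a := by
  unfold Vd
  refine ⟨MvPolynomial.map (algebraMap K κ) G, ?_, ?_⟩
  · rw [SetLike.mem_coe, MvPolynomial.mem_restrictTotalDegree]
    refine le_trans ?_ h
    unfold MvPolynomial.totalDegree
    exact Finset.sup_mono (MvPolynomial.support_map_subset _ _)
  · rw [AlgHom.toLinearMap_apply, MvPolynomial.aeval_map_algebraMap]

/-- Powers of fractions. -/
theorem pow_mem {K E : Type} [Field K] [Field E] [Algebra K E] {n : ℕ}
    (y : Fin n → E) (A B : MvPolynomial (Fin n) K) (w : E) (d p i : ℕ)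
    (h : MvPolynomial.aeval y B * w = MvPolynomial.aeval y A) (hA : A.totalDegree ≤ d)
    (hB : B.totalDegree ≤ d) (hi : i ≤ p) :
    ∃ G : MvPolynomial (Fin n) K, G.totalDegree ≤ p * d ∧
      MvPolynomial.aeval y G = MvPolynomial.aeval y B ^ p * w ^ i := by
  refine ⟨A ^ i * B ^ (p - i), ?_, ?_⟩
  · refine (MvPolynomial.totalDegree_mul _ _).trans ?_
    have h1 := (MvPolynomial.totalDegree_pow A i).trans (Nat.mul_le_mul_left i hA)
    have h2 := (MvPolynomial.totalDegree_pow B (p - i)).trans (Nat.mul_le_mul_left (p - i) hB)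
    refine (add_le_add h1 h2).trans (le_of_eq ?_)
    rw [← add_mul]
    congr 1
    omega
  · rw [map_mul, map_pow, map_pow, ← h, mul_pow]
    have h3 : MvPolynomial.aeval y B ^ p =
        MvPolynomial.aeval y B ^ i * MvPolynomial.aeval y B ^ (p - i) := by
      rw [← pow_add]
      congr 1
      omega
    rw [h3]
    ring

/-- The number of monomials in two variables. -/
theorem cnt_two (a : ℕ) : cnt 2 a ≤ (a + 1) ^ 2 := by
  unfold cnt
  have hb : ∀ (b : {b : Fin 2 → ℕ // ∑ i, b i ≤ a}) (i : Fin 2), b.1 i < a + 1 := fun b i =>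
    Nat.lt_succ_of_le ((Finset.single_le_sum (f := b.1) (fun _ _ => Nat.zero_le _)
      (Finset.mem_univ i)).trans b.2)
  have h := Nat.card_le_card_of_injective
    (fun b : {b : Fin 2 → ℕ // ∑ i, b i ≤ a} => fun i : Fin 2 => (⟨b.1 i, hb b i⟩ : Fin (a + 1)))
    (fun b c hbc => by
      apply Subtype.ext
      funext i
      exact congrArg Fin.val (congrFun hbc i))
  refine h.trans (le_of_eq ?_)
  rw [Nat.card_eq_fintype_card, Fintype.card_fun, Fintype.card_fin, Fintype.card_fin]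

/-- Arithmetic. -/
theorem arith (e d₁ d₂ e₂ C : ℕ) (h₁ : 1 ≤ d₁) (h₂ : 1 ≤ d₂)
    (h : (d₁ * (C + 1) + 1) * ((d₂ * (C + 1) + 1) * e) ≤
      e₂ * (d₂ * (C + 1) * d₁ + d₁ * (C + 1) * d₂ + C + 1) ^ 2) : e ≤ 9 * d₁ * d₂ * e₂ := by
  have hd : 1 ≤ d₁ * d₂ := Nat.one_le_iff_ne_zero.2 (Nat.mul_ne_zero (by omega) (by omega))
  have h3 : d₂ * (C + 1) * d₁ + d₁ * (C + 1) * d₂ + C + 1 ≤ 3 * (d₁ * d₂) * (C + 1) := by
    have h4 : (C + 1) ≤ d₁ * d₂ * (C + 1) := Nat.le_mul_of_pos_left _ hd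
    nlinarith [h4]
  have h5 : (d₁ * d₂ * (C + 1) ^ 2) * e ≤ (d₁ * d₂ * (C + 1) ^ 2) * (9 * d₁ * d₂ * e₂) := by
    calc (d₁ * d₂ * (C + 1) ^ 2) * e = (d₁ * (C + 1)) * ((d₂ * (C + 1)) * e) := by ring
      _ ≤ (d₁ * (C + 1) + 1) * ((d₂ * (C + 1) + 1) * e) :=
        Nat.mul_le_mul (Nat.le_succ _) (Nat.mul_le_mul_right _ (Nat.le_succ _))
      _ ≤ e₂ * (d₂ * (C + 1) * d₁ + d₁ * (C + 1) * d₂ + C + 1) ^ 2 := h
      _ ≤ e₂ * (3 * (d₁ * d₂) * (C + 1)) ^ 2 := Nat.mul_le_mul_left _ (Nat.pow_le_pow_left h3 2)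
      _ = (d₁ * d₂ * (C + 1) ^ 2) * (9 * d₁ * d₂ * e₂) := by ring
  exact Nat.le_of_mul_le_mul_left h5 (Nat.mul_pos hd (Nat.pow_pos (Nat.succ_pos C)))

end T3XBZM

open T3XBZM in
/-- (XBZ) Bezout's inequality on a surface. -/
theorem tXBZ : StmtNN → StmtXUpW → StmtXLB → StmtXBZ := by
  intro hNN hUp hLB K E _ _ _ _ κ n y w₁ w₂ d₁ d₂ e₂ hfin hA hw hd₁ hd₂ A₁ B₁ A₂ B₂ hb₁ hb₂ h₁ h₂
    hA₁ hB₁ hA₂ hB₂
  have hset : ({w₁, w₂} : Set E) = insert w₁ (Set.range ![w₂]) := by
    rw [Matrix.range_cons, Matrix.range_empty, Set.union_empty]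
  have hset2 : insert w₁ (Set.range ![w₂]) = Set.range ![w₁, w₂] := by
    rw [Matrix.range_cons w₁ ![w₂], Set.singleton_union]
  rw [hset]
  by_cases he : Module.finrank (IntermediateField.adjoin κ (insert w₁ (Set.range ![w₂]))) E = 0
  · rw [he]
    exact Nat.zero_le _
  have hfw : Module.Finite (IntermediateField.adjoin κ (insert w₁ (Set.range ![w₂]))) E :=
    Module.finite_of_finrank_pos (Nat.pos_of_ne_zero he)
  obtain ⟨s, A, hl, W, hW, hV⟩ := hNN K κ E n y
  change AlgebraicIndependent κ (lc A y) at hl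
  change ∀ a : ℕ, Vd κ y a ≤ W * Vd κ (lc A y) a at hV
  have hfl := fin_of_le y (lc A y) W hW hV hfin
  have hs : s = 2 := by
    have hb1 := basis_of (lc A y) hl hfl
    have hb2 : IsTranscendenceBasis κ ![w₁, w₂] := by
      apply basis_of _ hw
      rw [← hset2]
      exact hfw
    have hc := hb1.cardinalMk_eq hb2
    rw [Cardinal.mk_fintype, Cardinal.mk_fintype, Nat.cast_inj, Fintype.card_fin,
      Fintype.card_fin] at hc
    exact hc
  subst hs
  obtain ⟨e, θ, hθ, hee⟩ := ex_basis (IntermediateField.adjoin κ (insert w₁ (Set.range ![w₂]))) hfw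
  rw [hee]
  let Θ : Submodule κ E := Submodule.span κ (Set.range θ)
  have hΘ : Θ.FG := Submodule.fg_span (Set.finite_range θ)
  obtain ⟨C, hC⟩ := hUp κ E 2 (lc A y) (Θ * W) hl (hΘ.mul hW) hfl
  set p := d₂ * (C + 1) with hp
  set q := d₁ * (C + 1) with hq
  have hlin := hLB κ E 1 e ![w₂] w₁ θ hw hθ q p
  set b₁ := MvPolynomial.aeval y B₁ with hb₁d
  set b₂ := MvPolynomial.aeval y B₂ with hb₂d
  set D := p * d₁ + q * d₂ with hD
  set S : Submodule κ E := Θ * W * Vd κ (lc A y) D with hS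
  have hSf : Module.Finite κ S := Module.Finite.iff_fg.2 ((hΘ.mul hW).mul (Vd_fg _ _))
  let emb : Fin (q + 1) × Fin (p + 1) × Fin e →
      {β : Fin 1 → ℕ // ∑ i, β i ≤ q} × Fin (p + 1) × Fin e :=
    fun t => (⟨fun _ => t.1, by
      rw [Fin.sum_univ_one]
      exact Nat.lt_succ_iff.1 t.1.2⟩, t.2)
  have hemb : Function.Injective emb := by
    rintro ⟨a, b⟩ ⟨a', b'⟩ h
    have h3 : b = b' := congrArg Prod.snd h
    have h4 : (a : ℕ) = a' := congrFun (congrArg (fun t => (t.1 : Fin 1 → ℕ)) h) 0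
    exact Prod.ext (Fin.ext h4) h3
  have hlin2 := hlin.comp emb hemb
  have hne : b₁ ^ p * b₂ ^ q ≠ 0 := mul_ne_zero (pow_ne_zero _ hb₁) (pow_ne_zero _ hb₂)
  have hlin3 := hlin2.map' (LinearMap.mulLeft κ (b₁ ^ p * b₂ ^ q))
    (LinearMap.ker_eq_bot_of_injective fun u v huv => mul_left_cancel₀ hne huv)
  have hmem : ∀ t, (LinearMap.mulLeft κ (b₁ ^ p * b₂ ^ q) ∘
      (fun t : {β : Fin 1 → ℕ // ∑ i, β i ≤ q} × Fin (p + 1) × Fin e =>
        θ t.2.2 * (∏ i, ![w₂] i ^ (t.1 : Fin 1 → ℕ) i) * w₁ ^ (t.2.1 : ℕ)) ∘ emb) t ∈ S := by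
    rintro ⟨a, b, k⟩
    obtain ⟨G₁, hG₁, hG₁'⟩ := pow_mem y A₁ B₁ w₁ d₁ p b h₁ hA₁ hB₁ (Nat.lt_succ_iff.1 b.2)
    obtain ⟨G₂, hG₂, hG₂'⟩ := pow_mem y A₂ B₂ w₂ d₂ q a h₂ hA₂ hB₂ (Nat.lt_succ_iff.1 a.2)
    have h5 : (LinearMap.mulLeft κ (b₁ ^ p * b₂ ^ q) ∘
      (fun t : {β : Fin 1 → ℕ // ∑ i, β i ≤ q} × Fin (p + 1) × Fin e =>
        θ t.2.2 * (∏ i, ![w₂] i ^ (t.1 : Fin 1 → ℕ) i) * w₁ ^ (t.2.1 : ℕ)) ∘ emb) (a, b, k) =
        θ k * MvPolynomial.aeval y (G₁ * G₂) := by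
      rw [map_mul, hG₁', hG₂']
      change (b₁ ^ p * b₂ ^ q) * (θ k * (∏ i, ![w₂] i ^ (a : ℕ)) * w₁ ^ (b : ℕ)) = _
      rw [Fin.prod_univ_one]
      change (b₁ ^ p * b₂ ^ q) * (θ k * w₂ ^ (a : ℕ) * w₁ ^ (b : ℕ)) = _
      ring
    rw [h5]
    have h6 : Θ * Vd κ y D ≤ S := by
      rw [hS, mul_assoc]
      exact mul_le_mul' le_rfl (hV D)
    apply h6
    refine Submodule.mul_mem_mul (Submodule.subset_span ⟨k, rfl⟩) (mem_Vd_of κ y _ _ ?_)
    exact (MvPolynomial.totalDegree_mul _ _).trans (add_le_add hG₁ hG₂)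
  have hv : LinearIndependent κ (fun t => (⟨_, hmem t⟩ : S)) := by
    apply LinearIndependent.of_comp S.subtype
    exact hlin3
  have h7 := hv.fintype_card_le_finrank
  rw [Fintype.card_prod, Fintype.card_prod, Fintype.card_fin, Fintype.card_fin,
    Fintype.card_fin] at h7
  have h8 := (h7.trans (hC D)).trans (Nat.mul_le_mul (hA A) (cnt_two (D + C)))
  exact arith e d₁ d₂ e₂ C hd₁ hd₂ h8

end Pool.Agent.Lib.MP_16285c_agN
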