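import Pool.Agent.Lib.MP_16285c_agN.T3.SpecB

/-!
# (XDgGe) The degree of a rational map by linear forms: lower bound
-/

set_option autoImplicit false

namespace Pool.Agent.Lib.MP_16285c_agN

open Pool.Agent.Lib.MP_16285c_ag

namespace T3XDgGeM

open scoped IntermediateField.algebraAdjoinAdjoin

/-! ### Polynomials along a line -/

section Line

variable {K R : Type} [Field K] [CommRing R] [Algebra K R]

/-- The substitution `x ↦ a + v Y`. -/
noncomputable def ln {n : ℕ} (a : Fin n → R) (v : Fin n → K) :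
    MvPolynomial (Fin n) K →ₐ[K] Polynomial R :=
  MvPolynomial.aeval fun i =>
    Polynomial.C (a i) + Polynomial.C (algebraMap K R (v i)) * Polynomial.X

theorem ln_X {n : ℕ} (a : Fin n → R) (v : Fin n → K) (i : Fin n) :
    ln a v (MvPolynomial.X i) =
      Polynomial.C (a i) + Polynomial.C (algebraMap K R (v i)) * Polynomial.X := by
  rw [ln, MvPolynomial.aeval_X]

/-- Degree at most `m`, coefficient `c` of `Y ^ m`. -/
def Tq (p : Polynomial R) (m : ℕ) (c : R) : Prop := p.natDegree ≤ m ∧ p.coeff m = c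

theorem Tq.mul {p q : Polynomial R} {m m' : ℕ} {c c' : R} (h : Tq p m c) (h' : Tq q m' c') :
    Tq (p * q) (m + m') (c * c') := by
  refine ⟨Polynomial.natDegree_mul_le.trans (add_le_add h.1 h'.1), ?_⟩
  rw [Polynomial.coeff_mul_add_eq_of_natDegree_le h.1 h'.1, h.2, h'.2]

theorem Tq.one : Tq (1 : Polynomial R) 0 1 := ⟨by simp, by simp⟩

theorem Tq.pow {p : Polynomial R} {c : R} (h : Tq p 1 c) (k : ℕ) : Tq (p ^ k) k (c ^ k) := by
  induction k with
  | zero => simpa using Tq.one (R := R)
  | succ k ih =>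
    rw [pow_succ, pow_succ]
    exact ih.mul h

theorem Tq.prod {ι : Type} (s : Finset ι) (p : ι → Polynomial R) (m : ι → ℕ) (c : ι → R)
    (h : ∀ i, Tq (p i) (m i) (c i)) : Tq (∏ i ∈ s, p i) (∑ i ∈ s, m i) (∏ i ∈ s, c i) := by
  classical
  induction s using Finset.induction_on with
  | empty => simpa using Tq.one (R := R)
  | insert i s hi ih =>
    rw [Finset.prod_insert hi, Finset.prod_insert hi, Finset.sum_insert hi]
    exact (h i).mul ih

theorem Tq.lin (a b : R) : Tq (Polynomial.C a + Polynomial.C b * Polynomial.X) 1 b := by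
  constructor
  · refine (Polynomial.natDegree_add_le _ _).trans ?_
    rw [Polynomial.natDegree_C]
    refine max_le (Nat.zero_le _) ?_
    exact (Polynomial.natDegree_C_mul_le _ _).trans Polynomial.natDegree_X_le
  · simp

theorem ln_Tq {n : ℕ} (a : Fin n → R) (v : Fin n → K) (G : MvPolynomial (Fin n) K) (d : ℕ)
    (hG : G.totalDegree ≤ d) :
    Tq (ln a v G) d (algebraMap K R (MvPolynomial.eval v
      (MvPolynomial.homogeneousComponent d G))) := by
  classical
  have hmon : ∀ s : Fin n →₀ ℕ, Tq (∏ i, (Polynomial.C (a i) +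
      Polynomial.C (algebraMap K R (v i)) * Polynomial.X) ^ s i) (∑ i, s i)
      (∏ i, algebraMap K R (v i) ^ s i) := fun s =>
    Tq.prod _ _ _ _ fun i => (Tq.lin _ _).pow _
  have hdeg : ∀ s ∈ G.support, ∑ i, s i ≤ d := by
    intro s hs
    refine le_trans ?_ hG
    have h1 := MvPolynomial.le_totalDegree hs
    rwa [Finsupp.sum_fintype _ _ fun _ => rfl] at h1
  have hln : ln a v G = ∑ s ∈ G.support, Polynomial.C (algebraMap K R (G.coeff s)) *
      ∏ i, (Polynomial.C (a i) + Polynomial.C (algebraMap K R (v i)) * Polynomial.X) ^ s i := by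
    rw [ln, MvPolynomial.aeval_def, MvPolynomial.eval₂_eq']
    rfl
  constructor
  · rw [hln]
    refine Polynomial.natDegree_sum_le_of_forall_le _ _ fun s hs => ?_
    exact (Polynomial.natDegree_C_mul_le _ _).trans ((hmon s).1.trans (hdeg s hs))
  · rw [hln, Polynomial.finsetSum_coeff, MvPolynomial.homogeneousComponent_apply, map_sum, map_sum,
      Finset.sum_filter]
    refine Finset.sum_congr rfl fun s hs => ?_
    rw [Polynomial.coeff_C_mul, Finsupp.degree_eq_sum]
    by_cases h : ∑ i, s i = d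
    · rw [if_pos h, ← h, (hmon s).2, MvPolynomial.eval_monomial,
        Finsupp.prod_fintype _ _ (fun i => pow_zero _), map_mul, map_prod]
      simp_rw [map_pow]
    · rw [if_neg h, Polynomial.coeff_eq_zero_of_natDegree_lt, mul_zero]
      exact lt_of_le_of_lt (hmon s).1 (lt_of_le_of_ne (hdeg s hs) h)

end Line

/-- Relatively prime bases: a sum of products of powers. -/
theorem core {R : Type} [CommRing R] [IsDomain R] [DecompositionMonoid R] (N F : R)
    (hNF : IsRelPrime N F) (hN : N ≠ 0) : ∀ (M : ℕ) (q : ℕ → R), (∀ j, N ∣ q j → q j = 0) →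
    ∑ j ∈ Finset.range (M + 1), N ^ j * F ^ (M - j) * q j = 0 → ∀ j, j ≤ M → q j = 0 := by
  intro M
  induction M with
  | zero =>
    intro q _ h j hj
    have hj0 : j = 0 := by omega
    subst hj0
    simpa using h
  | succ M ih =>
    intro q hq h
    rw [Finset.sum_range_succ'] at h
    have e : ∑ k ∈ Finset.range (M + 1), N ^ (k + 1) * F ^ (M + 1 - (k + 1)) * q (k + 1) =
        N * ∑ k ∈ Finset.range (M + 1), N ^ k * F ^ (M - k) * q (k + 1) := by
      rw [Finset.mul_sum]
      refine Finset.sum_congr rfl fun k _ => ?_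
      have e1 : M + 1 - (k + 1) = M - k := by omega
      rw [e1]
      ring
    rw [e, pow_zero, one_mul, Nat.sub_zero] at h
    have h0 : N ∣ F ^ (M + 1) * q 0 := by
      rw [← neg_eq_iff_add_eq_zero] at h
      rw [← h]
      exact Dvd.dvd.neg_right (Dvd.intro _ rfl)
    have h1 : q 0 = 0 := hq 0 ((hNF.pow_right).dvd_of_dvd_mul_left h0)
    rw [h1, mul_zero, add_zero] at h
    have h2 := (mul_eq_zero.1 h).resolve_left hN
    have h3 := ih (fun k => q (k + 1)) (fun k => hq (k + 1)) h2
    intro j hj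
    rcases Nat.eq_zero_or_pos j with hj0 | hj0
    · subst hj0
      exact h1
    · have h4 := h3 (j - 1) (by omega)
      have e2 : j - 1 + 1 = j := by omega
      simpa only [e2] using h4

/-! ### The coordinates adapted to a direction -/

section Dir

variable {K : Type} [Field K] (v : Fin 3 → K) (r : Fin 3)

/-- The linear forms which are constant in the direction `v`. -/
noncomputable def lp (a : Fin 2) : Pl 3 K :=
  MvPolynomial.X (r.succAbove a) - MvPolynomial.C (v (r.succAbove a) / v r) * MvPolynomial.X r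

/-- The parameter. -/
noncomputable def tp1 : Pl 3 K := MvPolynomial.C (v r)⁻¹ * MvPolynomial.X r

/-- The origin of the line. -/
noncomputable def org {S : Type} [Zero S] (l : Fin 2 → S) (i : Fin 3) : S :=
  Fin.insertNth (α := fun _ => S) r 0 l i

theorem org_same {S : Type} [Zero S] (l : Fin 2 → S) : org r l r = 0 :=
  Fin.insertNth_apply_same (α := fun _ => S) r 0 l

theorem org_succAbove {S : Type} [Zero S] (l : Fin 2 → S) (a : Fin 2) :
    org r l (r.succAbove a) = l a :=
  Fin.insertNth_apply_succAbove (α := fun _ => S) r 0 l a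

/-- The polynomials in the new coordinates. -/
noncomputable def rho : Pl 3 K →ₐ[K] Polynomial (MvPolynomial (Fin 2) K) :=
  ln (org r fun a => MvPolynomial.X a) v

theorem rho_C (c : K) : rho v r (MvPolynomial.C c) = Polynomial.C (MvPolynomial.C c) := by
  have h := (rho v r).commutes c
  exact h

theorem rho_r : rho v r (MvPolynomial.X r) = Polynomial.C (MvPolynomial.C (v r)) * Polynomial.X := by
  rw [rho, ln_X, org_same, map_zero, zero_add]
  rfl

theorem rho_lp (hv : v r ≠ 0) (a : Fin 2) : rho v r (lp v r a) = Polynomial.C (MvPolynomial.X a) := by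
  have h1 : rho v r (MvPolynomial.X (r.succAbove a)) = Polynomial.C (MvPolynomial.X a) +
      Polynomial.C (MvPolynomial.C (v (r.succAbove a))) * Polynomial.X := by
    rw [rho, ln_X, org_succAbove]
    rfl
  rw [lp, map_sub, map_mul, h1, rho_C, rho_r, ← mul_assoc, ← map_mul, ← map_mul,
    div_mul_cancel₀ _ hv]
  ring

theorem rho_t (hv : v r ≠ 0) : rho v r (tp1 v r) = Polynomial.X := by
  rw [tp1, map_mul, rho_C, rho_r, ← mul_assoc, ← map_mul, ← map_mul, inv_mul_cancel₀ hv, map_one,
    map_one, one_mul]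

theorem rho_aeval (hv : v r ≠ 0) (p : MvPolynomial (Fin 2) K) :
    rho v r (MvPolynomial.aeval (lp v r) p) = Polynomial.C p := by
  induction p using MvPolynomial.induction_on with
  | C c =>
    rw [MvPolynomial.aeval_C]
    exact rho_C v r c
  | add p q hp hq => rw [map_add, map_add, hp, hq, map_add]
  | mul_X p i hp => rw [map_mul, map_mul, hp, MvPolynomial.aeval_X, rho_lp v r hv, map_mul]

theorem rho_sum (hv : v r ≠ 0) (d : ℕ) (p : Fin d → MvPolynomial (Fin 2) K) :
    rho v r (∑ i, MvPolynomial.aeval (lp v r) (p i) * tp1 v r ^ (i : ℕ)) =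
      ∑ i, Polynomial.C (p i) * Polynomial.X ^ (i : ℕ) := by
  rw [map_sum]
  refine Finset.sum_congr rfl fun i _ => ?_
  rw [map_mul, map_pow, rho_aeval v r hv, rho_t v r hv]

theorem coeff_sum (d : ℕ) (p : Fin d → MvPolynomial (Fin 2) K) (i : Fin d) :
    (∑ i, Polynomial.C (p i) * Polynomial.X ^ (i : ℕ) :
      Polynomial (MvPolynomial (Fin 2) K)).coeff i = p i := by
  rw [Polynomial.finsetSum_coeff, Finset.sum_eq_single i]
  · rw [Polynomial.coeff_C_mul, Polynomial.coeff_X_pow, if_pos rfl, mul_one]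
  · intro j _ hj
    rw [Polynomial.coeff_C_mul, Polynomial.coeff_X_pow, if_neg, mul_zero]
    intro h
    exact hj (Fin.ext h.symm)
  · intro h
    exact absurd (Finset.mem_univ i) h

theorem deg_sum (d : ℕ) (p : Fin d → MvPolynomial (Fin 2) K) :
    (∑ i, Polynomial.C (p i) * Polynomial.X ^ (i : ℕ) :
      Polynomial (MvPolynomial (Fin 2) K)).degree < d :=
  Polynomial.degree_sum_fin_lt p

/-- A combination of small degree divisible by a polynomial of degree `d` along the line. -/
theorem zero_of_dvd (hv : v r ≠ 0) (d : ℕ) (G : Pl 3 K) (hG : G.totalDegree ≤ d)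
    (hGv : MvPolynomial.eval v (MvPolynomial.homogeneousComponent d G) ≠ 0)
    (p : Fin d → MvPolynomial (Fin 2) K)
    (h : G ∣ ∑ i, MvPolynomial.aeval (lp v r) (p i) * tp1 v r ^ (i : ℕ)) : ∀ i, p i = 0 := by
  have h1 : rho v r G ∣ ∑ i, Polynomial.C (p i) * Polynomial.X ^ (i : ℕ) := by
    rw [← rho_sum v r hv d p]
    exact map_dvd _ h
  have h2 := ln_Tq (org r fun a => (MvPolynomial.X a : MvPolynomial (Fin 2) K)) v G d hG
  have h3 : (rho v r G).coeff d ≠ 0 := by
    rw [rho, h2.2]
    exact (map_ne_zero_iff _ (MvPolynomial.C_injective (Fin 2) K)).2 hGv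
  have h4 : (d : WithBot ℕ) ≤ (rho v r G).degree := Polynomial.le_degree_of_ne_zero h3
  have h5 : (∑ i, Polynomial.C (p i) * Polynomial.X ^ (i : ℕ) :
      Polynomial (MvPolynomial (Fin 2) K)) = 0 := by
    by_contra hne
    have h6 := Polynomial.degree_le_of_dvd h1 hne
    exact absurd (h4.trans h6) (not_le.2 (deg_sum d p))
  intro i
  rw [← coeff_sum d p i, h5, Polynomial.coeff_zero]

theorem zero_of_eq (hv : v r ≠ 0) (d : ℕ) (p : Fin d → MvPolynomial (Fin 2) K)
    (h : ∑ i, MvPolynomial.aeval (lp v r) (p i) * tp1 v r ^ (i : ℕ) = 0) : ∀ i, p i = 0 := by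
  have h1 := rho_sum v r hv d p
  rw [h, map_zero] at h1
  intro i
  rw [← coeff_sum d p i, ← h1, Polynomial.coeff_zero]

end Dir

/-! ### The field -/

section Fd

variable {K : Type} [Field K] (v : Fin 3 → K) (r : Fin 3)

theorem fr_C (c : K) : fr (MvPolynomial.C c : Pl 3 K) = algebraMap K (RF 3 K) c := by
  rw [IsScalarTower.algebraMap_apply K (MvPolynomial (Fin 3) K) (RF 3 K)]
  rfl

theorem fr_add (G H : Pl 3 K) : fr (G + H) = fr G + fr H := map_add _ _ _

theorem fr_mul (G H : Pl 3 K) : fr (G * H) = fr G * fr H := map_mul _ _ _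

theorem fr_inj {G H : Pl 3 K} (h : fr G = fr H) : G = H :=
  IsFractionRing.injective (MvPolynomial (Fin 3) K) (RF 3 K) h

theorem fr_ne {G : Pl 3 K} (h : G ≠ 0) : fr G ≠ 0 := by
  intro h'
  apply h
  apply fr_inj
  rw [h', fr, map_zero]

/-- The linear forms as rational functions. -/
noncomputable def le (a : Fin 2) : RF 3 K := fr (lp v r a)

theorem fr_aeval (p : MvPolynomial (Fin 2) K) :
    fr (MvPolynomial.aeval (lp v r) p) = MvPolynomial.aeval (le v r) p := by
  induction p using MvPolynomial.induction_on with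
  | C c =>
    rw [MvPolynomial.aeval_C, MvPolynomial.aeval_C]
    exact fr_C c
  | add p q hp hq =>
    rw [map_add, map_add, ← hp, ← hq, fr, map_add]
  | mul_X p i hp =>
    rw [map_mul, map_mul, ← hp, MvPolynomial.aeval_X, MvPolynomial.aeval_X, fr, map_mul]
    rfl

theorem cons_aeval (w : RF 3 K) (P : MvPolynomial (Fin 3) K) :
    MvPolynomial.aeval (Fin.cons w (le v r) : Fin 3 → RF 3 K) P =
      Polynomial.eval₂ (MvPolynomial.aeval (le v r) : MvPolynomial (Fin 2) K →ₐ[K] RF 3 K).toRingHom
        w (MvPolynomial.finSuccEquiv K 2 P) := by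
  induction P using MvPolynomial.induction_on with
  | C c =>
    rw [MvPolynomial.aeval_C, ← MvPolynomial.algebraMap_eq, AlgEquiv.commutes]
    have e : algebraMap K (Polynomial (MvPolynomial (Fin 2) K)) c =
        Polynomial.C (MvPolynomial.C c) := rfl
    rw [e, Polynomial.eval₂_C]
    show algebraMap K (RF 3 K) c = MvPolynomial.aeval (le v r) (MvPolynomial.C c)
    rw [MvPolynomial.aeval_C]
  | add p q hp hq => rw [map_add, map_add, Polynomial.eval₂_add, hp, hq]
  | mul_X p i hp =>
    rw [map_mul, map_mul, Polynomial.eval₂_mul, hp, MvPolynomial.aeval_X]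
    congr 1
    refine Fin.cases ?_ (fun j => ?_) i
    · rw [MvPolynomial.finSuccEquiv_X_zero, Polynomial.eval₂_X]
      rfl
    · rw [MvPolynomial.finSuccEquiv_X_succ, Polynomial.eval₂_C]
      show (Fin.cons w (le v r) : Fin 3 → RF 3 K) j.succ =
        MvPolynomial.aeval (le v r) (MvPolynomial.X j)
      rw [MvPolynomial.aeval_X, Fin.cons_succ]

/-- The relation of degree smaller than `d`, as a relation of polynomials. -/
theorem rel (d : ℕ) (N F : Pl 3 K) (w : RF 3 K) (hw : w * fr F = fr N) (M : ℕ)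
    (Q : Fin d → Polynomial (MvPolynomial (Fin 2) K)) (hQ : ∀ i, (Q i).natDegree < M + 1)
    (h : ∑ i : Fin d, Polynomial.eval₂
      (MvPolynomial.aeval (le v r) : MvPolynomial (Fin 2) K →ₐ[K] RF 3 K).toRingHom w (Q i) *
        fr (tp1 v r) ^ (i : ℕ) = 0) :
    ∑ j ∈ Finset.range (M + 1), N ^ j * F ^ (M - j) *
      (∑ i : Fin d, MvPolynomial.aeval (lp v r) ((Q i).coeff j) * tp1 v r ^ (i : ℕ)) = 0 := by
  apply fr_inj
  have e0 : fr (0 : Pl 3 K) = 0 := map_zero _
  rw [e0]
  have e1 : fr (∑ j ∈ Finset.range (M + 1), N ^ j * F ^ (M - j) *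
      (∑ i : Fin d, MvPolynomial.aeval (lp v r) ((Q i).coeff j) * tp1 v r ^ (i : ℕ))) =
      ∑ j ∈ Finset.range (M + 1), fr N ^ j * fr F ^ (M - j) *
      (∑ i : Fin d, MvPolynomial.aeval (le v r) ((Q i).coeff j) * fr (tp1 v r) ^ (i : ℕ)) := by
    simp only [fr, map_sum, map_mul, map_pow]
    refine Finset.sum_congr rfl fun j _ => ?_
    congr 1
    refine Finset.sum_congr rfl fun i _ => ?_
    congr 1
    exact fr_aeval v r _
  rw [e1]
  have e2 : ∀ i, Polynomial.eval₂
      (MvPolynomial.aeval (le v r) : MvPolynomial (Fin 2) K →ₐ[K] RF 3 K).toRingHom w (Q i) =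
      ∑ j ∈ Finset.range (M + 1), MvPolynomial.aeval (le v r) ((Q i).coeff j) * w ^ j := by
    intro i
    rw [Polynomial.eval₂_eq_sum_range' _ (hQ i)]
    rfl
  simp only [e2] at h
  have h2 : (∑ i : Fin d, (∑ j ∈ Finset.range (M + 1),
      MvPolynomial.aeval (le v r) ((Q i).coeff j) * w ^ j) * fr (tp1 v r) ^ (i : ℕ)) * fr F ^ M = 0 := by
    rw [h, zero_mul]
  rw [← h2]
  simp only [Finset.sum_mul, Finset.mul_sum]
  rw [Finset.sum_comm]
  refine Finset.sum_congr rfl fun i _ => Finset.sum_congr rfl fun j hj => ?_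
  rw [Finset.mem_range] at hj
  have e3 : fr N ^ j * fr F ^ (M - j) = w ^ j * fr F ^ M := by
    rw [← hw, mul_pow, mul_assoc, ← pow_add]
    congr 2
    omega
  rw [e3]
  ring

/-- The powers of the parameter are linearly independent. -/
theorem indep (hv : v r ≠ 0) (d : ℕ) (N F : Pl 3 K) (hNF : IsRelPrime N F)
    (hN : N.totalDegree ≤ d) (hF : F.totalDegree ≤ d)
    (hdir : MvPolynomial.eval v (MvPolynomial.homogeneousComponent d N) ≠ 0 ∨
      MvPolynomial.eval v (MvPolynomial.homogeneousComponent d F) ≠ 0)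
    (w : RF 3 K) (hw : w * fr F = fr N) (S : Set (RF 3 K))
    (hS : S = Set.range (Fin.cons w (le v r) : Fin 3 → RF 3 K)) :
    LinearIndependent (IntermediateField.adjoin K S) fun i : Fin d => fr (tp1 v r) ^ (i : ℕ) := by
  subst hS
  rw [← LinearIndependent.iff_fractionRing 
    (Algebra.adjoin K (Set.range (Fin.cons w (le v r) : Fin 3 → RF 3 K)))
    (IntermediateField.adjoin K (Set.range (Fin.cons w (le v r) : Fin 3 → RF 3 K))),
    Fintype.linearIndependent_iff]
  intro c hc
  have hP : ∀ i, ∃ P : MvPolynomial (Fin 3) K,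
      MvPolynomial.aeval (Fin.cons w (le v r) : Fin 3 → RF 3 K) P = (c i : RF 3 K) := by
    intro i
    have h1 : ∀ y : RF 3 K, y ∈ Algebra.adjoin K (Set.range (Fin.cons w (le v r) :
        Fin 3 → RF 3 K)) → ∃ P : MvPolynomial (Fin 3) K,
        MvPolynomial.aeval (Fin.cons w (le v r) : Fin 3 → RF 3 K) P = y := by
      intro y hy
      rw [Algebra.adjoin_range_eq_range_aeval] at hy
      exact hy
    exact h1 _ (c i).2
  choose P hP using hP
  have hsum : ∑ i : Fin d, Polynomial.eval₂
      (MvPolynomial.aeval (le v r) : MvPolynomial (Fin 2) K →ₐ[K] RF 3 K).toRingHom w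
      (MvPolynomial.finSuccEquiv K 2 (P i)) * fr (tp1 v r) ^ (i : ℕ) = 0 := by
    rw [← hc]
    refine Finset.sum_congr rfl fun i _ => ?_
    rw [← cons_aeval, hP]
    rfl
  set Q : Fin d → Polynomial (MvPolynomial (Fin 2) K) := fun i =>
    MvPolynomial.finSuccEquiv K 2 (P i) with hQ
  set M : ℕ := ∑ i, (Q i).natDegree with hM
  have hQM : ∀ i, (Q i).natDegree < M + 1 := fun i =>
    Nat.lt_succ_of_le (Finset.single_le_sum (f := fun i => (Q i).natDegree)
      (fun _ _ => Nat.zero_le _) (Finset.mem_univ i))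
  have hrel := rel v r d N F w hw M Q hQM hsum
  set q : ℕ → Pl 3 K := fun j =>
    ∑ i : Fin d, MvPolynomial.aeval (lp v r) ((Q i).coeff j) * tp1 v r ^ (i : ℕ) with hq
  have hq0 : ∀ j, (∀ i, (Q i).coeff j = 0) → q j = 0 := by
    intro j hj
    simp only [hq, hj, map_zero, zero_mul, Finset.sum_const_zero]
  have hqj : ∀ j, j ≤ M → q j = 0 := by
    rcases hdir with h | h
    · refine core N F hNF ?_ M q ?_ hrel
      · rintro rfl
        simp at h
      · intro j hj
        exact hq0 j (zero_of_dvd v r hv d N hN h _ hj)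
    · have hrel' : ∑ j ∈ Finset.range (M + 1), F ^ j * N ^ (M - j) * q (M - j) = 0 := by
        rw [← hrel, ← Finset.sum_range_reflect]
        refine Finset.sum_congr rfl fun j hj => ?_
        rw [Finset.mem_range] at hj
        have e1 : M + 1 - 1 - j = M - j := by omega
        have e2 : M - (M - j) = j := by omega
        rw [e1, e2]
        ring
      have h3 := core F N hNF.symm (by
        rintro rfl
        simp at h) M (fun j => q (M - j)) (by
        intro j hj
        exact hq0 (M - j) (zero_of_dvd v r hv d F hF h _ hj)) hrel'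
      intro j hj
      have h4 := h3 (M - j) (by omega)
      have e2 : M - (M - j) = j := by omega
      simpa only [e2] using h4
  intro i
  have hQi : Q i = 0 := by
    ext1 j
    rw [Polynomial.coeff_zero]
    rcases le_or_gt j M with hj | hj
    · exact zero_of_eq v r hv d _ (hqj j hj) i
    · exact Polynomial.coeff_eq_zero_of_natDegree_lt (lt_of_lt_of_le (hQM i) hj)
  have hPi : P i = 0 := (MvPolynomial.finSuccEquiv K 2).injective (by rw [map_zero]; exact hQi)
  apply Subtype.ext
  rw [← hP i, hPi, map_zero]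
  rfl

theorem lp_add (a : Fin 2) :
    lp v r a + MvPolynomial.C (v (r.succAbove a)) * tp1 v r = MvPolynomial.X (r.succAbove a) := by
  rw [lp, tp1, div_eq_mul_inv, map_mul]
  ring

theorem r_mul (hv : v r ≠ 0) : MvPolynomial.C (v r) * tp1 v r = MvPolynomial.X r := by
  rw [tp1, ← mul_assoc, ← map_mul, mul_inv_cancel₀ hv, map_one, one_mul]

theorem fr_mem' (L : IntermediateField K (RF 3 K)) (h : ∀ i, gen 3 K i ∈ L) (G : Pl 3 K) :
    fr G ∈ L := by
  induction G using MvPolynomial.induction_on with
  | C a =>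
    rw [fr_C]
    exact L.algebraMap_mem a
  | add p q hp hq =>
    rw [fr, map_add]
    exact L.add_mem hp hq
  | mul_X p i hp =>
    rw [fr, map_mul]
    exact L.mul_mem hp (h i)

theorem eq_top' (L : IntermediateField K (RF 3 K)) (h : ∀ i, gen 3 K i ∈ L) : L = ⊤ := by
  rw [eq_top_iff]
  rintro z -
  obtain ⟨a, b, hb, rfl⟩ := IsFractionRing.div_surjective (A := MvPolynomial (Fin 3) K) z
  exact L.div_mem (fr_mem' L h a) (fr_mem' L h b)

/-- The field is finite. -/
theorem fin_dim (hv : v r ≠ 0) (d : ℕ) (hd : 1 ≤ d) (N F : Pl 3 K) (hNF : IsRelPrime N F)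
    (hN : N.totalDegree ≤ d) (hF : F.totalDegree ≤ d)
    (hdir : MvPolynomial.eval v (MvPolynomial.homogeneousComponent d N) ≠ 0 ∨
      MvPolynomial.eval v (MvPolynomial.homogeneousComponent d F) ≠ 0)
    (w : RF 3 K) (hw : w * fr F = fr N) (S : Set (RF 3 K))
    (hS : S = Set.range (Fin.cons w (le v r) : Fin 3 → RF 3 K)) :
    Module.Finite (IntermediateField.adjoin K S) (RF 3 K) := by
  set κ := IntermediateField.adjoin K S with hκ
  have hwκ : w ∈ κ := IntermediateField.subset_adjoin K S (by rw [hS]; exact ⟨0, rfl⟩)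
  have hlκ : ∀ a, le v r a ∈ κ := fun a =>
    IntermediateField.subset_adjoin K S (by rw [hS]; exact ⟨a.succ, rfl⟩)
  set a0 : Fin 3 → κ := org r (fun a => (⟨le v r a, hlκ a⟩ : κ)) with ha0
  set τ : RF 3 K := fr (tp1 v r) with hτ
  have hX : ∀ i, Polynomial.aeval τ (ln a0 v (MvPolynomial.X i)) = fr (MvPolynomial.X i) := by
    intro i
    have h1 : Polynomial.aeval τ (ln a0 v (MvPolynomial.X i)) =
        ((a0 i : κ) : RF 3 K) + algebraMap K (RF 3 K) (v i) * τ := by
      rw [ln_X, map_add, map_mul, Polynomial.aeval_C, Polynomial.aeval_C, Polynomial.aeval_X,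
        ← IsScalarTower.algebraMap_apply]
      rfl
    rw [h1]
    rcases Fin.eq_self_or_eq_succAbove r i with h | ⟨a, h⟩
    · subst h
      rw [ha0, org_same, ← r_mul v i hv, fr, map_mul]
      have e : algebraMap (MvPolynomial (Fin 3) K) (FractionRing (MvPolynomial (Fin 3) K))
          (MvPolynomial.C (v i)) = algebraMap K (RF 3 K) (v i) := fr_C (v i)
      rw [e]
      show (0 : RF 3 K) + _ = _
      rw [zero_add]
    · subst h
      rw [ha0, org_succAbove, ← lp_add v r a, fr, map_add, map_mul]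
      have e : algebraMap (MvPolynomial (Fin 3) K) (FractionRing (MvPolynomial (Fin 3) K))
          (MvPolynomial.C (v (r.succAbove a))) = algebraMap K (RF 3 K) (v (r.succAbove a)) := fr_C _
      rw [e]
      rfl
  have hev : ∀ G : Pl 3 K, Polynomial.aeval τ (ln a0 v G) = fr G := by
    intro G
    induction G using MvPolynomial.induction_on with
    | C c =>
      have h1 : ln a0 v (MvPolynomial.C c) = Polynomial.C (algebraMap K κ c) := (ln a0 v).commutes c
      rw [h1, Polynomial.aeval_C, ← IsScalarTower.algebraMap_apply, fr_C]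
    | add p q hp hq =>
      rw [map_add, map_add, hp, hq, fr_add]
    | mul_X p i hp =>
      rw [map_mul, map_mul, hp, hX, fr_mul]
  set Pk : Polynomial κ := ln a0 v N - Polynomial.C (⟨w, hwκ⟩ : κ) * ln a0 v F with hPk
  have hPe : Polynomial.aeval τ Pk = 0 := by
    rw [hPk, map_sub, map_mul, hev, hev, Polynomial.aeval_C]
    show fr N - w * fr F = 0
    rw [hw, sub_self]
  have hPne : Pk ≠ 0 := by
    intro h0
    have h1 : Pk.coeff d = 0 := by rw [h0, Polynomial.coeff_zero]
    rw [hPk, Polynomial.coeff_sub, Polynomial.coeff_C_mul, (ln_Tq a0 v N d hN).2,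
      (ln_Tq a0 v F d hF).2] at h1
    set nd := MvPolynomial.eval v (MvPolynomial.homogeneousComponent d N) with hnd
    set fd := MvPolynomial.eval v (MvPolynomial.homogeneousComponent d F) with hfd
    have h2 : algebraMap K (RF 3 K) nd - w * algebraMap K (RF 3 K) fd = 0 := by
      have h3 := congrArg (fun x : κ => (x : RF 3 K)) h1
      exact h3
    by_cases hf : fd = 0
    · rw [hf, map_zero, mul_zero, sub_zero, map_eq_zero] at h2
      rcases hdir with h | h
      · exact h h2
      · exact h hf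
    · have hf' : algebraMap K (RF 3 K) fd ≠ 0 := by
        rwa [Ne, map_eq_zero]
      have h3 : algebraMap K (RF 3 K) nd * fr F = algebraMap K (RF 3 K) fd * fr N := by
        rw [sub_eq_zero] at h2
        rw [h2, ← hw]
        ring
      have h4 : MvPolynomial.C nd * F = MvPolynomial.C fd * N := by
        apply fr_inj
        rw [fr_mul, fr_mul, fr_C, fr_C]
        exact h3
      have h5 : F ∣ N := by
        refine ⟨MvPolynomial.C (fd⁻¹ * nd), ?_⟩
        have h6 : N = MvPolynomial.C fd⁻¹ * (MvPolynomial.C fd * N) := by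
          rw [← mul_assoc, ← map_mul, inv_mul_cancel₀ hf, map_one, one_mul]
        rw [h6, ← h4, map_mul]
        ring
      have h6 : IsUnit F := hNF h5 dvd_rfl
      have h7 : F.totalDegree = 0 := by
        obtain ⟨c, hc, rfl⟩ := MvPolynomial.isUnit_iff_eq_C_of_isReduced.1 h6
        exact MvPolynomial.totalDegree_C c
      apply hf
      rw [hfd, MvPolynomial.homogeneousComponent_eq_zero _ _ (by omega), map_zero]
  have halg : IsAlgebraic κ τ := ⟨Pk, hPne, hPe⟩
  have hint : IsIntegral κ τ := halg.isIntegral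
  have htop : IntermediateField.adjoin κ {τ} = ⊤ := by
    have h1 : (IntermediateField.adjoin κ {τ}).restrictScalars K = ⊤ := by
      apply eq_top'
      intro i
      have h2 : gen 3 K i = Polynomial.aeval τ (ln a0 v (MvPolynomial.X i)) := (hX i).symm
      rw [h2, ln_X, map_add, map_mul, Polynomial.aeval_C, Polynomial.aeval_C, Polynomial.aeval_X]
      have h3 : τ ∈ IntermediateField.adjoin κ {τ} :=
        IntermediateField.subset_adjoin κ _ (Set.mem_singleton τ)
      exact (IntermediateField.adjoin κ {τ}).add_mem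
        ((IntermediateField.adjoin κ {τ}).algebraMap_mem _)
        ((IntermediateField.adjoin κ {τ}).mul_mem
          ((IntermediateField.adjoin κ {τ}).algebraMap_mem _) h3)
    exact IntermediateField.restrictScalars_eq_top_iff.1 h1
  have h2 : FiniteDimensional κ (IntermediateField.adjoin κ {τ}) :=
    IntermediateField.adjoin.finiteDimensional hint
  rw [htop] at h2
  exact IntermediateField.topEquiv.toLinearEquiv.finiteDimensional

end Fd

/-! ### The choice of the combination -/

section Ch

variable {K : Type} [Field K]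

/-- The homogeneous component of top degree is not zero. -/
theorem top_ne {c : ℕ} (P : MvPolynomial (Fin c) K) (hP : P ≠ 0) :
    MvPolynomial.homogeneousComponent P.totalDegree P ≠ 0 := by
  intro h
  have hne : P.support.Nonempty := by
    rw [Finset.nonempty_iff_ne_empty]
    intro h'
    exact hP (MvPolynomial.support_eq_empty.mp h')
  obtain ⟨s, hs, he⟩ := Finset.exists_mem_eq_sup P.support hne (fun s => s.sum fun _ e => e)
  have h1 : MvPolynomial.coeff s (MvPolynomial.homogeneousComponent P.totalDegree P) =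
      MvPolynomial.coeff s P := by
    rw [MvPolynomial.coeff_homogeneousComponent, if_pos]
    rw [Finsupp.degree_eq_sum]
    have h2 : P.totalDegree = s.sum fun _ e => e := he
    rw [h2, Finsupp.sum_fintype _ _ (fun _ => rfl)]
  rw [h, MvPolynomial.coeff_zero] at h1
  exact MvPolynomial.mem_support_iff.mp hs h1.symm

/-- The numerator. -/
noncomputable def Nn (u : K) (F : Fin 4 → Pl 3 K) : Pl 3 K :=
  ∑ j : Fin 3, MvPolynomial.C (u ^ ((j : ℕ) + 1)) * F j.succ

theorem luN_eq (u : K) (F : Fin 4 → Pl 3 K) : luN (MvPolynomial.C u) F = F 0 + Nn u F := by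
  rw [luN, Fin.sum_univ_succ, Nn]
  congr 1
  · rw [Fin.val_zero, pow_zero, one_mul]
  · refine Finset.sum_congr rfl fun j _ => ?_
    rw [Fin.val_succ, map_pow]

theorem rel_Nn (u : K) (F : Fin 4 → Pl 3 K) (h : IsRelPrime (luN (MvPolynomial.C u) F) (F 0)) :
    IsRelPrime (Nn u F) (F 0) := by
  intro c h1 h2
  refine h ?_ h2
  rw [luN_eq]
  exact dvd_add h2 h1

theorem deg_Nn (u : K) (F : Fin 4 → Pl 3 K) (d : ℕ) (h : ∀ i, (F i).totalDegree ≤ d) :
    (Nn u F).totalDegree ≤ d := by
  refine MvPolynomial.totalDegree_finsetSum_le fun j _ => ?_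
  refine (MvPolynomial.totalDegree_mul _ _).trans ?_
  rw [MvPolynomial.totalDegree_C, zero_add]
  exact h _

theorem exists_u [Infinite K] (F : Fin 4 → Pl 3 K) (d : ℕ) (hd : 1 ≤ d)
    (hfin : {u : K | ¬ IsRelPrime (luN (MvPolynomial.C u) F) (F 0)}.Finite)
    (hex : ∃ i, (F i).totalDegree = d) :
    ∃ u : K, IsRelPrime (Nn u F) (F 0) ∧
      (MvPolynomial.homogeneousComponent d (Nn u F) ≠ 0 ∨
        MvPolynomial.homogeneousComponent d (F 0) ≠ 0) := by
  classical
  by_cases h0 : MvPolynomial.homogeneousComponent d (F 0) = 0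
  · obtain ⟨i, hi⟩ := hex
    have hFi : F i ≠ 0 := by
      intro h
      rw [h, MvPolynomial.totalDegree_zero] at hi
      omega
    have h1 := top_ne (F i) hFi
    rw [hi] at h1
    obtain ⟨j1, rfl⟩ : ∃ j1 : Fin 3, i = j1.succ := by
      refine Fin.exists_succ_eq.2 ?_ |>.imp fun a ha => ha.symm
      rintro rfl
      exact h1 h0
    obtain ⟨s, hs⟩ : ∃ s, MvPolynomial.coeff s
        (MvPolynomial.homogeneousComponent d (F j1.succ)) ≠ 0 := by
      by_contra hcon
      push Not at hcon
      exact h1 (MvPolynomial.ext _ _ fun s => by rw [hcon s, MvPolynomial.coeff_zero])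
    set p : Polynomial K := ∑ j : Fin 3, Polynomial.C (MvPolynomial.coeff s
      (MvPolynomial.homogeneousComponent d (F j.succ))) * Polynomial.X ^ ((j : ℕ) + 1) with hp
    have hpne : p ≠ 0 := by
      intro hp0
      have h2 : p.coeff ((j1 : ℕ) + 1) = 0 := by rw [hp0, Polynomial.coeff_zero]
      rw [hp, Polynomial.finsetSum_coeff, Finset.sum_eq_single j1] at h2
      · rw [Polynomial.coeff_C_mul, Polynomial.coeff_X_pow, if_pos rfl, mul_one] at h2
        exact hs h2
      · intro j _ hj
        rw [Polynomial.coeff_C_mul, Polynomial.coeff_X_pow, if_neg, mul_zero]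
        intro h
        apply hj
        apply Fin.ext
        omega
      · intro h
        exact absurd (Finset.mem_univ j1) h
    have hbad : ({u : K | ¬ IsRelPrime (luN (MvPolynomial.C u) F) (F 0)} ∪
        (p.roots.toFinset : Set K)).Finite := hfin.union p.roots.toFinset.finite_toSet
    obtain ⟨u, hu⟩ := hbad.exists_notMem
    rw [Set.mem_union, not_or] at hu
    refine ⟨u, rel_Nn u F (not_not.1 hu.1), Or.inl fun hz => ?_⟩
    apply hu.2
    rw [Finset.mem_coe, Multiset.mem_toFinset, Polynomial.mem_roots hpne, Polynomial.IsRoot.def]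
    have h2 : MvPolynomial.coeff s (MvPolynomial.homogeneousComponent d (Nn u F)) = 0 := by
      rw [hz, MvPolynomial.coeff_zero]
    rw [Nn, map_sum, MvPolynomial.coeff_sum] at h2
    rw [hp, Polynomial.eval_finset_sum, ← h2]
    refine Finset.sum_congr rfl fun j _ => ?_
    rw [MvPolynomial.homogeneousComponent_C_mul, MvPolynomial.coeff_C_mul, Polynomial.eval_mul,
      Polynomial.eval_C, Polynomial.eval_pow, Polynomial.eval_X, mul_comm]
  · obtain ⟨u, hu⟩ := hfin.exists_notMem
    exact ⟨u, rel_Nn u F (not_not.1 hu), Or.inr h0⟩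

theorem exists_dir [Infinite K] (d : ℕ) (hd : 1 ≤ d) (H : Pl 3 K)
    (hH : MvPolynomial.homogeneousComponent d H ≠ 0) :
    ∃ v : Fin 3 → K, MvPolynomial.eval v (MvPolynomial.homogeneousComponent d H) ≠ 0 ∧
      ∃ r, v r ≠ 0 := by
  have h1 : ∃ v : Fin 3 → K, MvPolynomial.eval v (MvPolynomial.homogeneousComponent d H) ≠ 0 := by
    by_contra hcon
    push Not at hcon
    exact hH (MvPolynomial.funext fun v => by rw [hcon v, map_zero])
  obtain ⟨v, hv⟩ := h1
  refine ⟨v, hv, ?_⟩
  by_contra hcon
  push Not at hcon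
  apply hv
  have h2 : v = fun _ => (0 : K) := funext hcon
  rw [h2, MvPolynomial.eval_zero', MvPolynomial.constantCoeff_eq,
    MvPolynomial.coeff_homogeneousComponent, if_neg]
  rw [map_zero]
  omega

end Ch

end T3XDgGeM

open T3XDgGeM

/-- (XDgGe) The first degree is attained. -/
theorem tXDgGe : StmtXGen → StmtXDgGe := by
  classical
  intro hGen K _ _ g F d hRep hd hle hex
  obtain ⟨u, hrel, hcomp⟩ := exists_u F d hd (hGen K 3 F hRep.cop hRep.ne) hex
  have hchoice : ∃ (v : Fin 3 → K) (r : Fin 3), v r ≠ 0 ∧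
      (MvPolynomial.eval v (MvPolynomial.homogeneousComponent d (Nn u F)) ≠ 0 ∨
        MvPolynomial.eval v (MvPolynomial.homogeneousComponent d (F 0)) ≠ 0) := by
    rcases hcomp with h | h
    · obtain ⟨v, hv, r, hr⟩ := exists_dir d hd _ h
      exact ⟨v, r, hr, Or.inl hv⟩
    · obtain ⟨v, hv, r, hr⟩ := exists_dir d hd _ h
      exact ⟨v, r, hr, Or.inr hv⟩
  obtain ⟨v, r, hr, hdir⟩ := hchoice
  set A : Fin 2 → Fin 3 → K := fun a j =>
    (if j = r.succAbove a then 1 else 0) - (if j = r then v (r.succAbove a) / v r else 0) with hA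
  set B : Fin 1 → Fin 3 → K := fun _ j => u ^ ((j : ℕ) + 1) with hB
  refine ⟨A, B, ?_⟩
  have hlA : lf A (gen 3 K) = le v r := by
    funext a
    rw [lf, le, T3XDgGeM.lp, hA]
    simp only [map_sub, sub_mul, Finset.sum_sub_distrib]
    congr 1
    · rw [Finset.sum_eq_single (r.succAbove a)]
      · rw [if_pos rfl, map_one, one_mul]
        rfl
      · intro j _ hj
        rw [if_neg hj, map_zero, zero_mul]
      · intro h
        exact absurd (Finset.mem_univ _) h
    · rw [Finset.sum_eq_single r]
      · rw [if_pos rfl, map_mul, ← fr_C]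
        rfl
      · intro j _ hj
        rw [if_neg hj, map_zero, zero_mul]
      · intro h
        exact absurd (Finset.mem_univ _) h
  set w : RF 3 K := lf B g 0 with hw
  have hwF : w * fr (F 0) = fr (Nn u F) := by
    rw [hw, lf, Nn, Finset.sum_mul, fr, fr, map_sum]
    refine Finset.sum_congr rfl fun j _ => ?_
    rw [map_mul]
    have e : algebraMap (MvPolynomial (Fin 3) K) (FractionRing (MvPolynomial (Fin 3) K))
          (MvPolynomial.C (u ^ ((j : ℕ) + 1))) = algebraMap K (RF 3 K) (u ^ ((j : ℕ) + 1)) :=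
      fr_C _
    rw [e]
    have h1 := hRep.eq j
    rw [fr, fr] at h1
    rw [h1, ← mul_assoc]
  have hS : Set.range (lf A (gen 3 K)) ∪ Set.range (lf B g) =
      Set.range (Fin.cons w (le v r) : Fin 3 → RF 3 K) := by
    have h1 : Set.range (lf B g) = {w} := Set.range_unique (f := lf B g)
    rw [hlA, Fin.range_cons, h1, Set.union_singleton]
  have hfin : Module.Finite (fld A B g) (RF 3 K) :=
    fin_dim v r hr d hd (Nn u F) (F 0) hrel (deg_Nn u F d hle) (hle 0) hdir w hwF _ hS
  have hind : LinearIndependent (fld A B g) fun i : Fin d => fr (tp1 v r) ^ (i : ℕ) :=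
    indep v r hr d (Nn u F) (F 0) hrel (deg_Nn u F d hle) (hle 0) hdir w hwF _ hS
  have h := hind.fintype_card_le_finrank
  rwa [Fintype.card_fin] at h

end Pool.Agent.Lib.MP_16285c_agN
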