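import Pool.Agent.Lib.MP_16285c_agN.T3.SpecB

/-!
# Heights of products of linear forms, lower bound
-/

set_option autoImplicit false

namespace Pool.Agent.Lib.MP_16285c_agN

namespace T3XLowM

/-- The coordinates are combinations of `n + 1` distinct forms. -/
theorem basisN {K : Type} [Field K] {n : ℕ} (v : Fin (n + 1) → K) (hv : Function.Injective v)
    (k : Fin (n + 1)) :
    ∃ c : Fin (n + 1) → K, ∀ a : Fin (n + 1) → K, a k = ∑ i, c i * luN (v i) a := by
  have hdet : IsUnit (Matrix.vandermonde v).det := by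
    rw [isUnit_iff_ne_zero]
    exact Matrix.det_vandermonde_ne_zero_iff.2 hv
  refine ⟨fun i => (Matrix.vandermonde v)⁻¹ k i, fun a => ?_⟩
  have h1 : ∀ i, luN (v i) a = (Matrix.vandermonde v).mulVec a i := by
    intro i
    simp [luN, Matrix.mulVec, dotProduct, Matrix.vandermonde_apply]
  simp only [h1]
  have h2 : (Matrix.vandermonde v)⁻¹.mulVec ((Matrix.vandermonde v).mulVec a) = a := by
    rw [Matrix.mulVec_mulVec, Matrix.nonsing_inv_mul _ hdet, Matrix.one_mulVec]
  exact (congrFun h2 k).symm

/-- The products of linear forms, as functions. -/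
def pr {K₀ : Type} (K : Type) [Field K₀] [Field K] [Algebra K₀ K] (n : ℕ) (t : Finset K₀) :
    (Fin (n + 1) → K) → K := fun a => ∏ u ∈ t, luN (algebraMap K₀ K u) a

theorem span_pow {K₀ K : Type} [Field K₀] [Field K] [Algebra K₀ K] {n : ℕ} (k : Fin (n + 1))
    (N : ℕ) :
    ∀ s : Finset K₀, N + n ≤ s.card →
    (fun a : Fin (n + 1) → K => a k ^ N) ∈ Submodule.span K
      (pr K n '' {t : Finset K₀ | t ⊆ s ∧ t.card = N}) := by
  classical
  induction N with
  | zero =>
    intro s _
    refine Submodule.subset_span ⟨∅, ⟨Finset.empty_subset _, rfl⟩, ?_⟩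
    funext a
    simp [pr]
  | succ N ih =>
    intro s hs
    obtain ⟨v, hv⟩ := Function.Embedding.exists_of_card_le_finset (α := Fin (n + 1)) (s := s) (by
      rw [Fintype.card_fin]
      omega)
    have hvs : ∀ i, v i ∈ s := fun i => hv ⟨i, rfl⟩
    obtain ⟨c, hc⟩ := basisN (fun i => algebraMap K₀ K (v i))
      ((algebraMap K₀ K).injective.comp v.injective) k
    have e : (fun a : Fin (n + 1) → K => a k ^ (N + 1)) =
        ∑ i, c i • ((fun a : Fin (n + 1) → K => luN (algebraMap K₀ K (v i)) a) *
          fun a : Fin (n + 1) → K => a k ^ N) := by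
      funext a
      rw [pow_succ', Finset.sum_apply]
      have h0 : a k * a k ^ N = (∑ i, c i * luN (algebraMap K₀ K (v i)) a) * a k ^ N := by
        rw [← hc a]
      rw [h0, Finset.sum_mul]
      refine Finset.sum_congr rfl fun i _ => ?_
      simp only [Pi.smul_apply, Pi.mul_apply, smul_eq_mul]
      ring
    rw [e]
    refine Submodule.sum_mem _ fun i _ => Submodule.smul_mem _ _ ?_
    have h1 := ih (s.erase (v i)) (by
      rw [Finset.card_erase_of_mem (hvs i)]
      omega)
    have h2 := Submodule.mem_map_of_mem (f := LinearMap.mulLeft K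
      (fun a : Fin (n + 1) → K => luN (algebraMap K₀ K (v i)) a)) h1
    rw [Submodule.map_span] at h2
    refine Submodule.span_mono ?_ h2
    rintro _ ⟨_, ⟨t, ⟨ht1, ht2⟩, rfl⟩, rfl⟩
    have hni : v i ∉ t := fun h => Finset.notMem_erase _ _ (ht1 h)
    refine ⟨insert (v i) t, ⟨Finset.insert_subset (hvs i)
      (ht1.trans (Finset.erase_subset _ _)), by rw [Finset.card_insert_of_notMem hni, ht2]⟩, ?_⟩
    funext a
    simp only [pr, LinearMap.mulLeft_apply, Pi.mul_apply]
    rw [Finset.prod_insert hni]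

end T3XLowM

open T3XLowM in
theorem tXLow : StmtXLow := by
  classical
  intro K₀ _ n s N hn K _ _ _
  have key : ∀ k : Fin (n + 1), ∃ c : ↥(Finset.powersetCard N s) → K,
      ∀ a : Fin (n + 1) → K,
      ∑ t, c t * ∏ u ∈ (t : Finset K₀), luN (algebraMap K₀ K u) a = a k ^ N := by
    intro k
    have h := span_pow (K := K) k N s hn
    have e : pr K n '' {t : Finset K₀ | t ⊆ s ∧ t.card = N} =
        Set.range (fun t : ↥(Finset.powersetCard N s) => pr K n (t : Finset K₀)) := by
      ext φ
      constructor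
      · rintro ⟨t, ht, rfl⟩
        exact ⟨⟨t, Finset.mem_powersetCard.2 ht⟩, rfl⟩
      · rintro ⟨t, rfl⟩
        exact ⟨t, Finset.mem_powersetCard.1 t.2, rfl⟩
    rw [e, Submodule.mem_span_range_iff_exists_fun] at h
    obtain ⟨c, hc⟩ := h
    refine ⟨c, fun a => ?_⟩
    have := congrFun hc a
    rw [Finset.sum_apply] at this
    exact this
  choose c hc using key
  obtain ⟨C, hC⟩ := Height.logHeight_eval_ge' (K := K) (ι := Fin (n + 1))
    (ι' := ↥(Finset.powersetCard N s)) (M := 0) (N := N)
    (q := fun a => MvPolynomial.C (c a.1 a.2)) (fun a => MvPolynomial.isHomogeneous_C _ _)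
  refine ⟨-C, fun a => ?_⟩
  have hev : ∀ t : ↥(Finset.powersetCard N s), MvPolynomial.eval a
      (∏ u ∈ (t : Finset K₀), luN (MvPolynomial.C (algebraMap K₀ K u))
        (MvPolynomial.X : Fin (n + 1) → MvPolynomial (Fin (n + 1)) K)) =
      ∏ u ∈ (t : Finset K₀), luN (algebraMap K₀ K u) a := by
    intro t
    rw [map_prod]
    refine Finset.prod_congr rfl fun u _ => ?_
    simp [luN]
  have h := hC (fun t => ∏ u ∈ (t : Finset K₀), luN (MvPolynomial.C (algebraMap K₀ K u))
    (MvPolynomial.X : Fin (n + 1) → MvPolynomial (Fin (n + 1)) K)) (x := a) (fun k => by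
      rw [zero_add, ← hc k a]
      refine Finset.sum_congr rfl fun t _ => ?_
      rw [hev t, MvPolynomial.eval_C])
  simp only [hev] at h
  linarith

end Pool.Agent.Lib.MP_16285c_agN
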