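import Pool.Agent.Lib.MP_16285c_agN.T3.SpecB
import Pool.Agent.Lib.MP_16285c_ag.Pow

/-!
# Heights of the values of polynomials in one variable without common zeros
-/

set_option autoImplicit false

namespace Pool.Agent.Lib.MP_16285c_agN

open Polynomial

namespace T3XBinM

theorem comb {K : Type} [Field K] {n : ℕ} (g : Fin (n + 1) → Polynomial K) (d : ℕ) (hd0 : 0 < d)
    (hd : ∃ i, (g i).natDegree = d) (hspan : Ideal.span (Set.range g) = ⊤) :
    ∃ (M : ℕ) (A B : Fin (n + 1) → Polynomial K), (∀ i, (A i).natDegree < M + 1) ∧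
      (∀ i, (B i).natDegree < M + 1) ∧ ∑ i, A i * g i = X ^ (M + d) ∧ ∑ i, B i * g i = 1 := by
  classical
  obtain ⟨r, hr⟩ := hd
  have h1 : (1 : Polynomial K) ∈ Ideal.span (Set.range g) := by rw [hspan]; trivial
  obtain ⟨u, hu⟩ := (Ideal.mem_span_range_iff_exists_fun).1 h1
  have hg0 : g r ≠ 0 := by
    intro h
    rw [h, natDegree_zero] at hr
    omega
  set δ : ℕ := ∑ i, (u i).natDegree with hδ
  have hδi : ∀ i, (u i).natDegree ≤ δ := fun i =>
    Finset.single_le_sum (f := fun i => (u i).natDegree) (fun _ _ => Nat.zero_le _) (Finset.mem_univ i)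
  set M := d + δ with hM
  set a := X ^ (M + d) / g r with ha
  set v := X ^ (M + d) % g r with hv
  have hav : g r * a + v = X ^ (M + d) := EuclideanDomain.div_add_mod _ _
  have hvd : v.natDegree ≤ d := by
    have := natDegree_mod_lt (X ^ (M + d) : Polynomial K) (q := g r) (by omega)
    rw [← hv] at this
    omega
  have had : a.natDegree ≤ M := by
    rcases eq_or_ne a 0 with h | h
    · rw [h, natDegree_zero]; omega
    · have h2 : g r * a = X ^ (M + d) - v := by rw [← hav]; ring
      have h3 : (g r * a).natDegree ≤ M + d := by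
        rw [h2]
        refine (natDegree_sub_le _ _).trans (max_le ?_ ?_)
        · rw [natDegree_X_pow]
        · omega
      rw [natDegree_mul hg0 h] at h3
      omega
  refine ⟨M, fun i => (if i = r then a else 0) + v * u i, u, fun i => ?_, fun i => ?_, ?_, hu⟩
  · rw [Nat.lt_succ_iff]
    refine (natDegree_add_le _ _).trans (max_le ?_ ?_)
    · split_ifs
      · exact had
      · simp
    · refine natDegree_mul_le.trans ?_
      have := hδi i
      omega
  · have := hδi i
    omega
  · have h2 : ∀ i, ((if i = r then a else 0) + v * u i) * g i =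
        (if i = r then g r * a else 0) + v * (u i * g i) := by
      intro i
      split_ifs with h
      · rw [h]; ring
      · ring
    rw [Finset.sum_congr rfl fun i _ => h2 i, Finset.sum_add_distrib, ← Finset.mul_sum, hu, mul_one,
      Finset.sum_ite_eq' Finset.univ r (fun _ => g r * a), if_pos (Finset.mem_univ r), hav]

end T3XBinM

open T3XBinM in
/-- (XBin) -/
theorem tXBin : StmtXBin := by
  classical
  intro K _ _ n g d _hg hd hspan
  rcases Nat.eq_zero_or_pos d with rfl | hd0
  · refine ⟨0, fun y => ?_⟩
    rw [Nat.cast_zero, zero_mul, add_zero]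
    exact Height.logHeight_nonneg _
  obtain ⟨M, A, B, hA, hB, hA1, hB1⟩ := comb g d hd0 hd hspan
  let c : Fin 2 × (Fin (M + 1) × Fin (n + 1)) → K := fun c =>
    if c.1 = 0 then (A c.2.2).coeff c.2.1 else (B c.2.2).coeff c.2.1
  refine ⟨Height.totalWeight K * Real.log (Nat.card (Fin (M + 1) × Fin (n + 1))) + Height.logHeight c,
    fun y => ?_⟩
  have hev : ∀ P : Polynomial K, P.natDegree < M + 1 →
      P.eval y = ∑ i : Fin (M + 1), P.coeff i * y ^ (i : ℕ) := by
    intro P hP
    rw [eval_eq_sum_range' hP, ← Fin.sum_univ_eq_sum_range (fun i => P.coeff i * y ^ i)]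
  have hvec : (![y ^ (M + d), 1] : Fin 2 → K) =
      fun e => ∑ i : Fin (M + 1) × Fin (n + 1), c (e, i) * (y ^ (i.1 : ℕ) * (g i.2).eval y) := by
    funext e
    rw [Fintype.sum_prod_type, Finset.sum_comm]
    fin_cases e
    · simp only [c, Fin.zero_eta, Fin.isValue, Matrix.cons_val_zero, ↓reduceIte]
      have h2 := congrArg (fun P : Polynomial K => P.eval y) hA1
      simp only [eval_finsetSum, eval_mul, eval_pow, eval_X] at h2
      rw [← h2]
      refine Finset.sum_congr rfl fun i _ => ?_
      rw [hev _ (hA i), Finset.sum_mul]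
      exact Finset.sum_congr rfl fun j _ => by ring
    · simp only [c, Fin.mk_one, Fin.isValue, Matrix.cons_val_one, one_ne_zero, ↓reduceIte,
        Matrix.cons_val_zero]
      have h2 := congrArg (fun P : Polynomial K => P.eval y) hB1
      simp only [eval_finsetSum, eval_mul, eval_one] at h2
      rw [← h2]
      refine Finset.sum_congr rfl fun i _ => ?_
      rw [hev _ (hB i), Finset.sum_mul]
      exact Finset.sum_congr rfl fun j _ => by ring
  have h4 := Height.logHeight_linearMap_apply_le (K := K) c
    (fun i : Fin (M + 1) × Fin (n + 1) => y ^ (i.1 : ℕ) * (g i.2).eval y)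
  rw [← hvec, ← Height.logHeight₁_eq_logHeight, Height.logHeight₁_pow] at h4
  have hne1 : (fun i : Fin (M + 1) => y ^ (i : ℕ)) ≠ 0 := by
    intro h
    have := congrFun h 0
    simp at this
  have hne2 : (fun i => (g i).eval y) ≠ 0 := by
    intro h
    have h2 := congrArg (fun P : Polynomial K => P.eval y) hB1
    simp only [eval_finsetSum, eval_mul, eval_one] at h2
    rw [Finset.sum_eq_zero] at h2
    · exact zero_ne_one h2
    · intro i _
      have := congrFun h i
      simp only [Pi.zero_apply] at this
      rw [this, mul_zero]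
  have h7 := Height.logHeight_fun_mul_eq hne1 hne2
  rw [h7, Pool.Agent.Lib.MP_16285c_ag.powP K y M] at h4
  push_cast at h4
  linarith

end Pool.Agent.Lib.MP_16285c_agN
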