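import Pool.Agent.Lib.MP_16285c_agN.T3.SpecA
import Pool.Agent.Lib.MP_16285c_agZ.HF
import Pool.Agent.Lib.MP_16285c_agN.Degr.UpF

/-!
# Threefolds with `λ₁ ≠ λ₃`: transcendence degree one (XUB1)
-/

set_option autoImplicit false

namespace Pool.Agent.Lib.MP_16285c_agN

open Pool.Agent.Lib.MP_16285c_ag
open Pool.Agent.Lib.MP_16285c_agZ.HFM

namespace T3XUB1M

section

variable {κ E : Type} [Field κ] [Field E] [Algebra κ E]

/-- Finiteness over a subfield over which the generators are integral. -/
theorem fin_of {n : ℕ} (y : Fin n → E)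
    (hf : Module.Finite (IntermediateField.adjoin κ (Set.range y)) E) (F₁ : IntermediateField κ E)
    (hi : ∀ j, IsIntegral F₁ (y j)) : Module.Finite F₁ E := by
  have h1 : FiniteDimensional F₁ (IntermediateField.adjoin F₁ (Set.range y)) := by
    apply IntermediateField.finiteDimensional_adjoin
    rintro _ ⟨j, rfl⟩
    exact hi j
  have h3 : IntermediateField.adjoin κ (Set.range y) ≤
      (IntermediateField.adjoin F₁ (Set.range y)).restrictScalars κ := by
    rw [IntermediateField.adjoin_le_iff]
    exact IntermediateField.subset_adjoin _ _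
  have h4 : FiniteDimensional ((IntermediateField.adjoin F₁ (Set.range y)).restrictScalars κ) E :=
    fd_of_le h3 hf
  have h5 : FiniteDimensional (IntermediateField.adjoin F₁ (Set.range y)) E := h4
  exact FiniteDimensional.trans F₁ (IntermediateField.adjoin F₁ (Set.range y)) E

/-- The elements `x j` are integral over `κ(l)`. -/
theorem int_of {c s : ℕ} (x : Fin c → E) (l : Fin s → E) (W : Submodule κ E) (hW : W.FG)
    (hV : ∀ a : ℕ, Vd κ x a ≤ W * Vd κ l a) (j : Fin c) :
    IsIntegral (IntermediateField.adjoin κ (Set.range l)) (x j) := by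
  set F0 := IntermediateField.adjoin κ (Set.range l) with hF0
  let M : Submodule F0 E := Submodule.span F0 (W : Set E)
  have hM : M.FG := by
    obtain ⟨t, ht⟩ := hW
    refine ⟨t, ?_⟩
    show Submodule.span F0 (t : Set E) = Submodule.span F0 (W : Set E)
    rw [← ht, Submodule.span_span_of_tower]
  have hMf : Module.Finite F0 M := Module.Finite.iff_fg.2 hM
  have hle : ∀ a : ℕ, ∀ y ∈ Vd κ x a, y ∈ M := by
    intro a y hy
    have h1 : W * Vd κ l a ≤ M.restrictScalars κ := by
      rw [Submodule.mul_le]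
      intro w hw v hv
      have h2 : w * v = (⟨v, DegrUpFM.Vd_sub l a hv⟩ : F0) • w := by
        rw [mul_comm]
        rfl
      rw [h2]
      exact M.smul_mem _ (Submodule.subset_span hw)
    exact h1 (hV a hy)
  have hA : (Subalgebra.toSubmodule (Algebra.adjoin F0 {x j})) ≤ M := by
    rw [Algebra.adjoin_eq_span, Submodule.span_le]
    intro y hy
    obtain ⟨k, rfl⟩ := Submonoid.mem_closure_singleton.1 hy
    exact hle k _ (DegrUpFM.pow_mem_Vd x j k)
  exact IsIntegral.of_mem_of_fg (Algebra.adjoin F0 {x j})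
    (Submodule.FG.of_le_of_isNoetherian hA) (x j) (Algebra.subset_adjoin rfl)

/-- `E` is algebraic over the algebra generated by `S`. -/
theorem alg_of_adjoin (S : Set E)
    (h : Algebra.IsAlgebraic (IntermediateField.adjoin κ S) E) :
    Algebra.IsAlgebraic (Algebra.adjoin κ S) E := by
  open scoped IntermediateField.algebraAdjoinAdjoin in
  exact Algebra.IsAlgebraic.trans (Algebra.adjoin κ S) (IntermediateField.adjoin κ S) E

/-- The growth estimate. -/
theorem core (hPol : Pool.Agent.Lib.MP_16285c_agZ.StmtPol) (U w : E) (hU : Transcendental κ U)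
    (hw : Transcendental κ w) (fU : FiniteDimensional (IntermediateField.adjoin κ {U}) E)
    (fw : FiniteDimensional (IntermediateField.adjoin κ {w}) E) (Θ : Submodule κ E)
    (hΘ : Θ.FG) : ∃ C : ℕ, ∀ p r : ℕ,
      Module.finrank κ (Θ * PP κ U w p r : Submodule κ E) ≤
        p * Module.finrank (IntermediateField.adjoin κ {U}) E +
          r * Module.finrank (IntermediateField.adjoin κ {w}) E + C := by
  classical
  obtain ⟨T, hT⟩ := hΘ
  let F : IntermediateField κ E := IntermediateField.adjoin κ {U, w}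
  have fF : FiniteDimensional F E :=
    fd_of_le (IntermediateField.adjoin.mono κ {U} {U, w} (by
      intro x hx
      rw [Set.mem_singleton_iff] at hx
      exact Or.inl hx)) fU
  let b := Module.finBasis F E
  obtain ⟨d, hd, hd0, h1⟩ := fin_den (κ := κ) (U := U) (η := w)
    (T ×ˢ (Finset.univ : Finset (Fin (Module.finrank F E))))
    (fun q => ((b.repr q.1 q.2 : F) : E)) fun q _ => (b.repr q.1 q.2).2
  obtain ⟨p₁, s₁, h2⟩ := fin_PP (κ := κ) (U := U) (η := w) _ _ h1
  have hrepr : ∀ x : E, x = ∑ l, ((b.repr x l : F) : E) * b l := fun x =>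
    (b.sum_repr x).symm
  refine ⟨(p₁ + 1) * Module.finrank (IntermediateField.adjoin κ {U}) E +
    (s₁ + 1) * Module.finrank (IntermediateField.adjoin κ {w}) E, fun p r => ?_⟩
  have f1 : Module.Finite κ (PP κ U w (p + p₁) (r + s₁)) := PP_fin U w _ _
  let Φ : (Fin (Module.finrank F E) → PP κ U w (p + p₁) (r + s₁)) →ₗ[κ] E :=
    { toFun := fun f => ∑ l, b l * (f l : E)
      map_add' := fun f g => by
        rw [← Finset.sum_add_distrib]
        exact Finset.sum_congr rfl fun l _ => by
          rw [← mul_add]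
          rfl
      map_smul' := fun a f => by
        rw [RingHom.id_apply, Finset.smul_sum]
        exact Finset.sum_congr rfl fun l _ => by
          rw [← mul_smul_comm]
          rfl }
  have h3 : (Θ * PP κ U w p r).map (LinearMap.mulLeft κ d) ≤ LinearMap.range Φ := by
    rw [Submodule.map_le_iff_le_comap, Submodule.mul_le]
    intro x hx z hz
    have hx' : Θ ≤ ((LinearMap.range Φ).comap (LinearMap.mulLeft κ d)).comap
        (LinearMap.mulRight κ z) := by
      rw [← hT, Submodule.span_le]
      intro x hx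
      have h5 : ∀ l, (d * ((b.repr x l : F) : E)) * z ∈ PP κ U w (p + p₁) (r + s₁) := by
        intro l
        rw [add_comm p, add_comm r]
        exact PP_mul (h2 (x, l) (Finset.mem_product.2 ⟨hx, Finset.mem_univ l⟩)) hz
      refine ⟨fun l => ⟨_, h5 l⟩, ?_⟩
      change (∑ l, b l * ((d * ((b.repr x l : F) : E)) * z)) = d * (x * z)
      conv_rhs => rw [hrepr x, Finset.sum_mul, Finset.mul_sum]
      exact Finset.sum_congr rfl fun l _ => by ring
    exact hx' hx
  have hinj : Function.Injective (LinearMap.mulLeft κ d) := by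
    intro a b h
    simpa [hd0] using h
  have h5 := Submodule.finrank_mono h3
  have h6 := LinearMap.finrank_range_le Φ
  rw [(Submodule.equivMapOfInjective _ hinj _).finrank_eq.symm] at h5
  have h7 : Module.finrank κ (Fin (Module.finrank F E) → PP κ U w (p + p₁) (r + s₁)) =
      Module.finrank κ (PP κ U w (p + p₁) (r + s₁)) * Module.finrank F E := by
    rw [Module.finrank_pi_fintype, Finset.sum_const, Finset.card_univ, Fintype.card_fin,
      smul_eq_mul, mul_comm]
  rw [h7] at h6
  have h8 := hPol κ E U w hU hw fU fw (p + p₁) (r + s₁)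
  refine (h5.trans (h6.trans h8)).trans (le_of_eq ?_)
  ring

/-- Polynomials in one element. -/
theorem Vd_one (l : Fin 1 → E) (a : ℕ) {z : E} (hz : z ∈ Vd κ l a) :
    z ∈ Submodule.span κ {v : E | ∃ i ≤ a, v = l 0 ^ i} := by
  obtain ⟨P, hP, rfl⟩ := Submodule.mem_map.1 hz
  have hP' : P.totalDegree ≤ a := by
    rwa [MvPolynomial.mem_restrictTotalDegree] at hP
  change MvPolynomial.aeval l P ∈ _
  rw [MvPolynomial.aeval_def, MvPolynomial.eval₂_eq']
  refine Submodule.sum_mem _ fun m hm => ?_
  rw [← Algebra.smul_def]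
  refine Submodule.smul_mem _ _ (Submodule.subset_span ⟨m 0, ?_, by simp⟩)
  have h1 := MvPolynomial.le_totalDegree hm
  have h2 : (m.sum fun _ e => e) = m 0 := by
    rw [Finsupp.sum_fintype _ _ (fun _ => rfl)]
    simp
  omega

end

end T3XUB1M

open T3XUB1M

theorem tXUB1 : StmtNN → Pool.Agent.Lib.MP_16285c_agZ.StmtPol → StmtXUB1 := by
  intro hNN hPol K E _ _ _ _ κ n y w e₀ e₁ hfin htr hw H₀ H₁ Θ hΘ
  obtain ⟨s, A, hAI, W, hWfg, hW⟩ := hNN K κ E n y
  have hAI' : AlgebraicIndependent κ (lc A y) := hAI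
  have hW' : ∀ a : ℕ, Vd κ y a ≤ W * Vd κ (lc A y) a := hW
  have hfl : Module.Finite (IntermediateField.adjoin κ (Set.range (lc A y))) E :=
    fin_of y hfin _ (int_of y (lc A y) W hWfg hW')
  have hb : IsTranscendenceBasis κ (lc A y) :=
    isTranscendenceBasis_iff_algebraicIndependent_isAlgebraic.2
      ⟨hAI', alg_of_adjoin _ inferInstance⟩
  have hs : s = 1 := by
    have := hb.cardinalMk_eq_trdeg
    rw [htr, Cardinal.mk_fin] at this
    exact_mod_cast this
  subst hs
  have hrange : Set.range (lc A y) = {lc A y 0} := by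
    ext x
    rw [Set.mem_range, Set.mem_singleton_iff]
    constructor
    · rintro ⟨i, rfl⟩
      rw [Subsingleton.elim i 0]
    · rintro rfl
      exact ⟨0, rfl⟩
  have hU : Transcendental κ (lc A y 0) := hAI'.transcendental 0
  have h0 := H₀ A
  rw [hrange] at hfl h0
  -- finiteness over `κ(w)`
  have hwb : IsTranscendenceBasis κ (fun _ : Fin 1 => w) := by
    refine AlgebraicIndependent.isTranscendenceBasis_of_trdeg_le_of_finite
      (algebraicIndependent_unique_type_iff.2 hw) ?_
    rw [htr]
    simp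
  have hwalg : Algebra.IsAlgebraic (IntermediateField.adjoin κ {w}) E := by
    have := hwb.isAlgebraic_field
    rwa [Set.range_const] at this
  have hfw : Module.Finite (IntermediateField.adjoin κ {w}) E := by
    refine fin_of (fun _ : Fin 1 => lc A y 0) ?_ _ fun j => ?_
    · rw [Set.range_const]
      exact hfl
    · exact (hwalg.isAlgebraic _).isIntegral
  obtain ⟨C, hC⟩ := core hPol (lc A y 0) w hU hw hfl hfw (Θ * W) (hΘ.mul hWfg)
  refine ⟨C, fun p j => ?_⟩
  have hle : Θ * Vd κ y p * Vd κ (fun _ : Fin 1 => w) j ≤ Θ * W * PP κ (lc A y 0) w p j := by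
    refine Submodule.mul_le.2 fun x hx v hv => ?_
    have h1 : Θ * Vd κ y p ≤ Θ * W * PP κ (lc A y 0) w p 0 := by
      refine (mul_le_mul' (le_refl Θ) (hW' p)).trans ?_
      rw [← mul_assoc]
      refine mul_le_mul' (le_refl (Θ * W)) fun z hz => ?_
      have h2 := Vd_one _ _ hz
      refine Submodule.span_le.2 ?_ h2
      rintro _ ⟨i, hi, rfl⟩
      have h3 := PP_gen (κ := κ) (U := lc A y 0) (η := w) hi (le_refl 0)
      rwa [pow_zero, mul_one] at h3
    have h2 : v ∈ PP κ (lc A y 0) w 0 j := by
      refine Submodule.span_le.2 ?_ (Vd_one _ _ hv)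
      rintro _ ⟨i, hi, rfl⟩
      have h3 := PP_gen (κ := κ) (U := lc A y 0) (η := w) (le_refl 0) hi
      rwa [pow_zero, one_mul] at h3
    have h3 : Θ * W * PP κ (lc A y 0) w p 0 * PP κ (lc A y 0) w 0 j ≤
        Θ * W * PP κ (lc A y 0) w p j := by
      rw [mul_assoc (Θ * W)]
      refine mul_le_mul' (le_refl (Θ * W)) ?_
      refine Submodule.mul_le.2 fun a ha b hb => ?_
      have := PP_mul ha hb
      rwa [add_zero, zero_add] at this
    exact h3 (Submodule.mul_mem_mul (h1 hx) h2)
  have hfg : (Θ * W * PP κ (lc A y 0) w p j).FG :=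
    (hΘ.mul hWfg).mul (Module.Finite.iff_fg.1 (PP_fin _ _ _ _))
  have : Module.Finite κ (Θ * W * PP κ (lc A y 0) w p j : Submodule κ E) :=
    Module.Finite.iff_fg.2 hfg
  refine (Submodule.finrank_mono hle).trans ((hC p j).trans ?_)
  gcongr

end Pool.Agent.Lib.MP_16285c_agN
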