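import Pool.Agent.Lib.MP_16285c_agN.T3.SpecC
import Pool.Agent.Lib.MP_16285c_agZ.Gro

/-!
# (XRl1) Growth of a real sequence from the first step
-/

set_option autoImplicit false

namespace Pool.Agent.Lib.MP_16285c_agN

theorem tXRl1 : StmtXRl1 := by
  intro a b d C C' ha hb hab hbd
  have hb0 : 0 < b := by linarith
  have hd : 0 < d := by
    by_contra h
    have h1 : b * d ≤ 0 := mul_nonpos_of_nonneg_of_nonpos hb0.le (not_lt.1 h)
    linarith
  have he : 0 < b * d - 4 * a := by linarith
  have hbd0 : 0 < b * d := mul_pos hb0 hd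
  refine ⟨max ((b * C' + 4 * a * C') / (b * d - 4 * a))
    (max ((4 * C + b * C') / (b * d)) (C' / d)), ?_⟩
  intro h m η hh hη h0 hm hrec
  have e1 : (b * C' + 4 * a * C') / (b * d - 4 * a) < η := lt_of_le_of_lt (le_max_left _ _) hη
  have e2 : (4 * C + b * C') / (b * d) < η :=
    lt_of_le_of_lt ((le_max_left _ _).trans (le_max_right _ _)) hη
  have e3 : C' / d < η := lt_of_le_of_lt ((le_max_right _ _).trans (le_max_right _ _)) hη
  rw [div_lt_iff₀ he] at e1
  rw [div_lt_iff₀ hbd0] at e2
  rw [div_lt_iff₀ hd] at e3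
  have hm' : b * (d * η - C') ≤ b * h m := mul_le_mul_of_nonneg_left (by linarith) hb0.le
  have h0' : 4 * a * h 0 ≤ 4 * a * (η + C') := mul_le_mul_of_nonneg_left h0 (by linarith)
  refine ⟨by linarith, fun j hj => ?_⟩
  have hg := Pool.Agent.Lib.MP_16285c_agZ.stmtGro (fun j => h (m * j)) a b C ha hb hab
    (fun j => hh _) 0 (fun j _ => by
      have h1 := hrec (m * j)
      have i1 : m * (j + 1) = m * j + m := by ring
      have i2 : m * (j + 2) = m * j + 2 * m := by ring
      simp only [i1, i2]
      exact h1) (by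
      simp only [Nat.mul_zero, Nat.zero_add, Nat.mul_one]
      nlinarith) (by
      simp only [Nat.zero_add, Nat.mul_one]
      nlinarith) j (by omega)
  exact hg

end Pool.Agent.Lib.MP_16285c_agN
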