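import Pool.Agent.Lib.MP_16285c_agN.Degr.Spec
import Pool.Agent.Lib.MP_16285c_agZ.Spec

/-!
# Threefolds with `λ₁ ≠ λ₃`: counting (statements)

Notation: see `Defs.lean` and `Degr/Spec.lean` (`Vd κ x a` = polynomials of degree `≤ a` in the `x_i` with coefficients in `κ`, `cnt s a` = number of monomials of degree
`≤ a` in `s` variables, `lf A g` = linear combinations, `fld A B g = K(lf A x, lf B g)`). Every lemma is a `Prop` with its complete proof in the docstring; the files proving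
them are independent: used statements are hypotheses (file `T3/XNm.lean`, theorem `tXNm : StmtY → StmtXNm`). The aim of this part is an upper bound for the `κ`-dimension
of the span of the products (polynomial of degree `≤ p` in `y`) `* w ^ j`, over fields `κ` over which the transcendence degree is `2`.
-/

set_option autoImplicit false

namespace Pool.Agent.Lib.MP_16285c_agN

open Pool.Agent.Lib.MP_16285c_ag

/-- Linear combinations of elements of a field, with coefficients in a subfield `K`. -/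
noncomputable def lc {K E : Type} [Field K] [Field E] [Algebra K E] {n c : ℕ} (A : Fin c → Fin n → K)
    (y : Fin n → E) (i : Fin c) : E := ∑ j, algebraMap K E (A i j) * y j

/-! ## Dimensions over `κ` and over `κ(T)` -/

/-- (XEv) Evaluation at `q + 1` points. `B` is a `κ`-subspace of `E` such that the sums `∑ T ^ i b_i`, `b_i ∈ B`, are direct; `V` consists of such sums with `i ≤ q`. PROOF. Let `κ₁ = κ(T)`, `n₁ = dim` of the `κ₁`-span of `V` (finite). Choose distinct `c_0, …, c_q ∈ κ`.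
For `v ∈ V`, `v = ∑ i ≤ q, T ^ i b_i` with unique `b_i ∈ B`; put `ev_c v = ∑ i, c ^ i b_i ∈ B`, a `κ`-linear map `V → B` (uniqueness of the `b_i`: from the directness applied to differences). (1) `v ↦ (ev_{c_k} v)_k` is injective: a Vandermonde system (`∑ i, c_k ^ i b_i = 0` for `q + 1` distinct `c_k` implies
all `b_i = 0`; e.g. `Matrix.det_vandermonde_ne_zero_iff`, or apply `κ`-linear functionals and count roots). (2) `dim ev_c V ≤ n₁`: any `n₁ + 1` elements `v_k` of `V` satisfy a relation `∑ P_k(T) v_k = 0` with `P_k ∈ κ[X]`, not all zero (they are linearly dependent over `κ₁`, whose elements are quotients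
of polynomials in `T`); dividing by a power of `X - c` we may assume that not all `P_k(c)` are zero (`T ≠ c`: `T` is transcendental, by directness, if `B ≠ 0`; if `B = 0` everything is trivial). Write `v_k = ∑ T ^ i b_(k i)`: `0 = ∑_m T ^ m (∑_(k, j + i = m) P_(k j) b_(k i))`, so by directness
`∑_(k, j + i = m) P_(k j) b_(k i) = 0` for all `m`; multiply by `c ^ m` and sum over `m`: `∑ k, P_k(c) ev_c v_k = 0`, a nontrivial relation. So `dim V ≤ ∑ k, dim ev_{c_k} V ≤ (q + 1) n₁`. -/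
def StmtXEv : Prop :=
  ∀ (κ E : Type) [Field κ] [Infinite κ] [Field E] [Algebra κ E] (T : E) (B : Submodule κ E),
    (∀ b : ℕ →₀ B, (b.sum fun i x => T ^ i * (x : E)) = 0 → b = 0) →
    ∀ (V : Submodule κ E) (q : ℕ), Module.Finite κ V →
      (∀ v ∈ V, ∃ b : ℕ → E, (∀ i, b i ∈ B) ∧ v = ∑ i ∈ Finset.range (q + 1), T ^ i * b i) →
      Module.finrank κ V ≤ (q + 1) * Module.finrank (IntermediateField.adjoin κ {T})
        (Submodule.span (IntermediateField.adjoin κ {T}) (V : Set E))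

/-- (XLat) A lattice. PROOF. `F₀ = k(l)` (`IntermediateField.adjoin k (Set.range l)`), `η_1, …, η_e` a basis of `E` over `F₀`. Every element of `F₀` is `P(l) / Q(l)` with polynomials over `k`, `Q(l) ≠ 0`. `Θ * W'` is finitely generated; let `g = Q(l) ≠ 0` be a common denominator of the coordinates of its generators
with respect to `η`, so `g * (Θ * W') ≤ ∑ i, η_i * Vd k l C` for some `C`; hence `g * (Θ * Vd k y a) ≤ g * (Θ * (W' * Vd k l a)) ≤ ∑ i, η_i * Vd k l (a + C)` (`Vd k l C * Vd k l a ≤ Vd k l (a + C)`). Let `R' = Algebra.adjoin k {l i : i ≠ 0}` and `B = {x : g * x ∈ ∑ i, η_i R'}` (a `k`-submodule: preimage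
of the span of the `η_i * r` under multiplication by `g`). An element of `Vd k l (a + C)` is `∑ i ≤ a + C, (l 0) ^ i * r_i`, `r_i ∈ R'` (expand the monomials). So the elements of `Θ * Vd k y a` have the required form. Directness: `∑ (l 0) ^ i b_i = 0`, multiply by `g`: `∑ k, η_k (∑ i, (l 0) ^ i r_(i k)) = 0`, so
`∑ i, (l 0) ^ i r_(i k) = 0` for all `k`, and `r_(i k) = 0` as `l` is algebraically independent (`l 0` is transcendental over `R'`: `AlgebraicIndependent` with `Fin.cons`/`Option`, `algebraicIndependent_fin_succ`-type lemmas or the coefficients of `MvPolynomial.finSuccEquiv`). -/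
def StmtXLat : Prop :=
  ∀ (k E : Type) [Field k] [Field E] [Algebra k E] (n t : ℕ) (y : Fin n → E) (l : Fin (t + 1) → E)
    (W' : Submodule k E), AlgebraicIndependent k l → W'.FG → (∀ a : ℕ, Vd k y a ≤ W' * Vd k l a) →
    Module.Finite (IntermediateField.adjoin k (Set.range l)) E →
    ∀ Θ : Submodule k E, Θ.FG → ∃ (B : Submodule k E) (C : ℕ),
      (∀ b : ℕ →₀ B, (b.sum fun i x => l 0 ^ i * (x : E)) = 0 → b = 0) ∧
      ∀ a : ℕ, ∀ v ∈ Θ * Vd k y a, ∃ b : ℕ → E, (∀ i, b i ∈ B) ∧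
        v = ∑ i ∈ Finset.range (a + C + 1), l 0 ^ i * b i

/-- (XUpW) The bound of `StmtUp` in a slightly more general form. PROOF (uses `StmtVd`). The same as the proof of `StmtUp` (file `Degr/Up.lean`, which proves exactly this on the way): `q * (W * Vd κ l a) ≤ ∑ j, (Vd κ l (a + C)) η_j` for a fixed `q ≠ 0`. -/
def StmtXUpW : Prop :=
  ∀ (κ F : Type) [Field κ] [Field F] [Algebra κ F] (s : ℕ) (l : Fin s → F)
    (W : Submodule κ F), AlgebraicIndependent κ l → W.FG →
    Module.Finite (IntermediateField.adjoin κ (Set.range l)) F →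
    ∃ C : ℕ, ∀ a : ℕ, Module.finrank κ (W * Vd κ l a : Submodule κ F) ≤
      Module.finrank (IntermediateField.adjoin κ (Set.range l)) F * cnt s (a + C)

/-- (XUB1) Transcendence degree one. PROOF (uses `StmtNN` for `K`, `κ`, `E`, `y`, and `StmtPol` of `Lib/MP_16285c_agZ`). `StmtNN`: `s`, `A`, `W` with `l = lc A y` algebraically independent over `κ` and `Vd κ y a ≤ W * Vd κ l a`. The `y i` are algebraic over `κ(l)` (`y i ^ a ∈ W * Vd κ l a` for all `a`; or `StmtUpF` for
`x = y` if `κ(y) = E`; simplest: all `y i` are integral over `κ[l]` as in `StmtUpF`), and `E` is finite over `κ(y)`, so `E` is algebraic over `κ(l)` and `l` is a transcendence basis: `s = 1` (`Algebra.trdeg κ E = 1`). Let `U = l 0`. `E` is a finitely generated field over `κ` (finite over `κ(y)`), algebraic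
over `κ(U)` and over `κ(w)` (`w` transcendental, transcendence degree one), so finite over both. `g = [E : κ(U, w)]`, `Pol p r = span {U ^ a * w ^ s : a ≤ p, s ≤ r}`; `StmtPol`: `dim (Pol p r) * g ≤ (p + 1) [E : κ(U)] + (r + 1) [E : κ(w)] ≤ (p + 1) e₀ + (r + 1) e₁` (the hypotheses `H₀` for `A`, `H₁` for
the empty matrix: `insert w (range (Fin 0 → E)) = {w}`). Let `θ_1, …, θ_g` be a basis of `E` over `κ(U, w)`; `Θ * W` is finitely generated: `c * (Θ * W) ≤ ∑ k, θ_k Pol p₁ s₁` for some `c ≠ 0`, `p₁`, `s₁` (common denominator; elements of `κ(U, w)` are quotients of polynomials in `U, w`). So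
`c * (Θ * Vd κ y p * Vd κ w j) ≤ ∑ k, θ_k Pol (p + p₁) (j + s₁)`, of dimension `≤ g * dim Pol (p + p₁) (j + s₁) ≤ (p + p₁ + 1) e₀ + (j + s₁ + 1) e₁`. Take `C = (p₁ + 1) e₀ + (s₁ + 1) e₁`. (Compare `HF.lean` in `Lib/MP_16285c_agZ`.) -/
def StmtXUB1 : Prop :=
  ∀ (K E : Type) [Field K] [Infinite K] [Field E] [Algebra K E] (κ : IntermediateField K E) (n : ℕ)
    (y : Fin n → E) (w : E) (e₀ e₁ : ℕ), Module.Finite (IntermediateField.adjoin κ (Set.range y)) E →
    Algebra.trdeg κ E = 1 → Transcendental κ w →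
    (∀ A : Fin 1 → Fin n → K,
      Module.finrank (IntermediateField.adjoin κ (Set.range (lc A y))) E ≤ e₀) →
    Module.finrank (IntermediateField.adjoin κ {w}) E ≤ e₁ →
    ∀ Θ : Submodule κ E, Θ.FG → ∃ C : ℕ, ∀ p j : ℕ,
      Module.finrank κ (Θ * Vd κ y p * Vd κ (fun _ : Fin 1 => w) j : Submodule κ E) ≤
        p * e₀ + j * e₁ + C

/-- (XUB2) Transcendence degree two. PROOF (uses `StmtNN`, `StmtUpF`, `StmtXEv`, `StmtXLat`, `StmtXUB1`). Let `k₂ = κ(w)`. `E` is finitely generated over `κ` and `trdeg k₂ E = 1` (`w` transcendental over `κ`; additivity of `trdeg`). `StmtNN` for `K, k₂, E, y`: `l = lc A y : Fin s → E` algebraically independent over `k₂`, `Vd k₂ y a ≤ W' * Vd k₂ l a`;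
`E` is finite over `k₂(l)` (all `y i` are integral over `k₂[l]`, `E` finite over `κ(y)`), so `s = 1`. Let `T = l 0`, `κ₁ = κ(T)` (as an intermediate field of `E / K`: `(IntermediateField.adjoin κ {T}).restrictScalars K`). `T` is transcendental over `k₂ = κ(w)`, so `w, T` are algebraically independent over `κ`, `w` is transcendental over `κ₁` and
`trdeg κ₁ E = 1`. `StmtXUB1` for `κ₁`: its hypotheses: `κ₁(lc A' y) = κ(T, lc A' y) = κ(lc (Fin.cons (A 0) A') y)` (`IntermediateField.adjoin_adjoin_left`), `κ₁(w) = κ(w, lc A y)`; so `e₀`, `e₁` are the same numbers. `Θ₁ = span κ₁ Θ`. It gives `C₁` with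
`dim_{κ₁} (Θ₁ * Vd κ₁ y p * Vd κ₁ w j) ≤ p e₀ + j e₁ + C₁`, and the `κ₁`-span of `V = Θ * Vd κ y p * Vd κ w j` is contained in this space. `StmtXLat` for `k₂`, `l`, `W'` and `Θ₂ = span k₂ Θ`: `B`, `C₂`; every `v ∈ V` is in `Θ₂ * Vd k₂ y p` (as `w ∈ k₂`), so it is `∑ i ≤ p + C₂, T ^ i b_i` with `b_i ∈ B`. `StmtXEv` for `κ`, `T`, `B`
(restricted to scalars `κ`), `V`, `q = p + C₂`: `dim_κ V ≤ (p + C₂ + 1) * dim_{κ₁} (span κ₁ V) ≤ (p + C₂ + 1) (p e₀ + j e₁ + C₁)`. `C = max (C₂ + 1) C₁`. -/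
def StmtXUB2 : Prop :=
  ∀ (K E : Type) [Field K] [Infinite K] [Field E] [Algebra K E] (κ : IntermediateField K E) (n : ℕ)
    (y : Fin n → E) (w : E) (e₀ e₁ : ℕ), Module.Finite (IntermediateField.adjoin κ (Set.range y)) E →
    Algebra.trdeg κ E = 2 → Transcendental κ w →
    (∀ A : Fin 2 → Fin n → K,
      Module.finrank (IntermediateField.adjoin κ (Set.range (lc A y))) E ≤ e₀) →
    (∀ A : Fin 1 → Fin n → K,
      Module.finrank (IntermediateField.adjoin κ (insert w (Set.range (lc A y)))) E ≤ e₁) →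
    ∀ Θ : Submodule κ E, Θ.FG → ∃ C : ℕ, ∀ p j : ℕ,
      Module.finrank κ (Θ * Vd κ y p * Vd κ (fun _ : Fin 1 => w) j : Submodule κ E) ≤
        (p + C) * (p * e₀ + j * e₁ + C)

/-- (XLB) Lower bound. PROOF. The products `(∏ i, m i ^ β i) * w ^ r` are different monomials in the algebraically independent elements `w, m_i`, so they are linearly independent over `K` and belong to the field `K(w, m)`; the `θ_k` are linearly independent over this field
(`LinearIndependent.smul` / the tower law `LinearIndependent` over `K ⊆ K(w, m) ⊆ E`). -/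
def StmtXLB : Prop :=
  ∀ (K E : Type) [Field K] [Field E] [Algebra K E] (s e : ℕ) (m : Fin s → E) (w : E) (θ : Fin e → E),
    AlgebraicIndependent K (Fin.cons w m : Fin (s + 1) → E) →
    LinearIndependent (IntermediateField.adjoin K (insert w (Set.range m))) θ →
    ∀ j p : ℕ, LinearIndependent K
      (fun t : {β : Fin s → ℕ // ∑ i, β i ≤ j} × Fin (p + 1) × Fin e =>
        θ t.2.2 * (∏ i, m i ^ (t.1 : Fin s → ℕ) i) * w ^ (t.2.1 : ℕ))

/-- (XBZ) Bezout's inequality on a surface. PROOF (uses `StmtNN`, `StmtUpF`, `StmtXUpW`, `StmtXLB`). Let `e = [E : κ(w₁, w₂)]`; we may assume `e ≥ 1`. `θ_1, …, θ_e` a basis, `Θ` its `κ`-span. `StmtNN` for `K, κ, E, y`: `l = lc A y` algebraically independent over `κ`, `Vd κ y a ≤ W * Vd κ l a`, `E` finite over `κ(l)`, so `l : Fin s → E` with `s = trdeg κ E = 2` (`w₁, w₂` is a transcendence basis).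
`StmtXUpW` for `Θ * W`: `dim_κ (Θ * Vd κ y a) ≤ e₂ * cnt 2 (a + C) ≤ e₂ (a + C + 1) ^ 2` (`H₂` for this `A`; `cnt 2 a ≤ (a + 1) ^ 2`: both coordinates are `≤ a`). Put `b_i = aeval y B_i`. For `I : ℕ` the elements `b₁ ^ (d₂ I) b₂ ^ (d₁ I) w₁ ^ i w₂ ^ j θ_k`, `i ≤ d₂ I`, `j ≤ d₁ I`, are linearly independent over `κ` and belong to
`Θ * Vd κ y (2 d₁ d₂ I)` (`b₁ ^ (d₂ I) w₁ ^ i = (b₁ w₁) ^ i b₁ ^ (d₂ I - i)` is the value at `y` of a polynomial of degree `≤ d₁ d₂ I`). So `e d₁ d₂ I ^ 2 ≤ e₂ (2 d₁ d₂ I + C + 1) ^ 2` for all `I`; with `I = C + 1`: `≤ e₂ (3 d₁ d₂ I) ^ 2`, so `e ≤ 9 d₁ d₂ e₂`. -/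
def StmtXBZ : Prop :=
  ∀ (K E : Type) [Field K] [Infinite K] [Field E] [Algebra K E] (κ : IntermediateField K E) (n : ℕ)
    (y : Fin n → E) (w₁ w₂ : E) (d₁ d₂ e₂ : ℕ),
    Module.Finite (IntermediateField.adjoin κ (Set.range y)) E →
    (∀ A : Fin 2 → Fin n → K,
      Module.finrank (IntermediateField.adjoin κ (Set.range (lc A y))) E ≤ e₂) →
    AlgebraicIndependent κ ![w₁, w₂] → 1 ≤ d₁ → 1 ≤ d₂ →
    ∀ A₁ B₁ A₂ B₂ : MvPolynomial (Fin n) K, MvPolynomial.aeval y B₁ ≠ 0 → MvPolynomial.aeval y B₂ ≠ 0 →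
      MvPolynomial.aeval y B₁ * w₁ = MvPolynomial.aeval y A₁ →
      MvPolynomial.aeval y B₂ * w₂ = MvPolynomial.aeval y A₂ →
      A₁.totalDegree ≤ d₁ → B₁.totalDegree ≤ d₁ → A₂.totalDegree ≤ d₂ → B₂.totalDegree ≤ d₂ →
      Module.finrank (IntermediateField.adjoin κ {w₁, w₂}) E ≤ 9 * d₁ * d₂ * e₂

/-! ## Divisibility by powers -/

/-- (XSub) The vanishing conditions. PROOF. `t = Λ / Λ'`. (i) Any `n + 1` elements `w_i` of `W`, `n = finrank κ V`, have a nontrivial `K`-combination divisible by `Λ`: there are `c_i ∈ K[T]`, not all divisible by `T`, with `∑ c_i(t) w_i = 0` (clear denominators, divide by a power of `T`; `t ≠ 0`); multiply by `Λ' ^ s`: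
`Λ' ^ s ∑ c_i(0) w_i = - Λ' ^ s ∑ (c_i(t) - c_i(0)) w_i ∈ Λ A`, so `Λ ∣ ∑ c_i(0) w_i`. So `W₁ = {w ∈ W : Λ ∣ w}` has codimension `≤ n` in `W`. (ii) Induction on `q`: `W' = {Λ' w / Λ : w ∈ W₁} = t⁻¹ W₁` is contained in `A` and in `V`, `dim W' = dim W₁ > (q - 1) n`. The element `S' = Λ' w / Λ` of `W'`, divisible by
`Λ ^ (q - 1)`, gives `Λ ^ q ∣ Λ' w`, so `Λ ^ q ∣ w`. (This is `StmtSub` of `Lib/MP_16285c_agZ`, file `Sub.lean`, with `Fin n` in place of `Fin 2`: copy.) -/
def StmtXSub : Prop :=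
  ∀ (K : Type) [Field K] (n : ℕ) (Λ Λ' : Pl n K), IsRelPrime Λ Λ' → Λ ≠ 0 → Λ' ≠ 0 →
    ∀ κ : IntermediateField K (RF n K), κ = IntermediateField.adjoin K {fr Λ / fr Λ'} →
    ∀ V : Submodule κ (RF n K), Module.Finite κ V → ∀ W : Submodule K (Pl n K),
      (∀ w ∈ W, fr w ∈ V) → ∀ q : ℕ, q * Module.finrank κ V < Module.finrank K W →
      ∃ S ∈ W, S ≠ 0 ∧ Λ ^ q ∣ S

end Pool.Agent.Lib.MP_16285c_agN
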