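import Pool.Agent.Lib.MP_16285c_agN.T3.SpecC
import Pool.Agent.Lib.MP_16285c_agZ.UPP.Dh

/-!
# Relations on a curve in affine space (proof of `StmtXCv`)
-/

set_option autoImplicit false

open Polynomial

namespace Pool.Agent.Lib.MP_16285c_agN

namespace T3XCvM

section

variable {K L : Type} [Field K] [Field L] [Algebra K L]

/-- In transcendence degree one every transcendental element is a transcendence basis. -/
theorem alg_over (h1 : Algebra.trdeg K L = 1) (w : L) (hw : Transcendental K w) :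
    Algebra.IsAlgebraic (IntermediateField.adjoin K {w}) L := by
  have hind : AlgebraicIndependent K (fun _ : Unit => w) :=
    algebraicIndependent_unique_type_iff.mpr hw
  have hb : IsTranscendenceBasis K (fun _ : Unit => w) :=
    hind.isTranscendenceBasis_of_trdeg_le_of_finite (by rw [h1]; simp)
  have h := hb.isAlgebraic_field
  rwa [Set.range_const] at h

variable {n : ℕ} (𝔭 : Ideal (Pl n K)) [Algebra (CR 𝔭) L] [IsScalarTower K (CR 𝔭) L]

theorem trdeg_one [𝔭.IsPrime] [IsFractionRing (CR 𝔭) L] (h : rk 𝔭 = 1) :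
    Algebra.trdeg K L = 1 := by
  have h1 : Algebra.trdeg K (CR 𝔭) = 1 := Cardinal.toNat_eq_one.mp h
  have h2 : Algebra.IsAlgebraic (CR 𝔭) L := IsLocalization.isAlgebraic L (nonZeroDivisors (CR 𝔭))
  have hadd := trdeg_add_eq K (CR 𝔭) (A := L)
  rw [h1, trdeg_eq_zero (R := CR 𝔭) (A := L), add_zero] at hadd
  exact hadd.symm

/-- The restriction of polynomials to the curve. -/
noncomputable def rs (𝔭 : Ideal (Pl n K)) (L : Type) [Field L] [Algebra (CR 𝔭) L] [Algebra K L]
    [IsScalarTower K (CR 𝔭) L] : Pl n K →ₐ[K] L :=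
  (IsScalarTower.toAlgHom K (CR 𝔭) L).comp (Ideal.Quotient.mkₐ K 𝔭)

theorem rs_apply (H : Pl n K) : rs 𝔭 L H = algebraMap (CR 𝔭) L (cl 𝔭 H) := rfl

/-- `L` is generated by the coordinate functions. -/
theorem adjoin_top [𝔭.IsPrime] [IsFractionRing (CR 𝔭) L] (F : Type) [Field F] [Algebra F L]
    [Algebra K F] [IsScalarTower K F L] :
    IntermediateField.adjoin F (Set.range fun i : Fin n => rs 𝔭 L (MvPolynomial.X i)) = ⊤ := by
  rw [eq_top_iff]
  intro x _
  have hmem : ∀ H : Pl n K, rs 𝔭 L H ∈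
      IntermediateField.adjoin F (Set.range fun i : Fin n => rs 𝔭 L (MvPolynomial.X i)) := by
    intro H
    induction H using MvPolynomial.induction_on with
    | C a =>
      have e : rs 𝔭 L (MvPolynomial.C a) = algebraMap F L (algebraMap K F a) := by
        rw [← IsScalarTower.algebraMap_apply, ← AlgHom.commutes (rs 𝔭 L) a]
        rfl
      rw [e]
      exact (IntermediateField.adjoin F _).algebraMap_mem _
    | add p q hp hq =>
      rw [map_add]
      exact add_mem hp hq
    | mul_X p i hp =>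
      rw [map_mul]
      exact mul_mem hp (IntermediateField.subset_adjoin _ _ ⟨i, rfl⟩)
  obtain ⟨a, b, -, hab⟩ := IsFractionRing.div_surjective (A := CR 𝔭) x
  obtain ⟨H, rfl⟩ := Ideal.Quotient.mk_surjective a
  obtain ⟨H', rfl⟩ := Ideal.Quotient.mk_surjective b
  rw [← hab]
  exact div_mem (hmem H) (hmem H')

theorem finDim [𝔭.IsPrime] [IsFractionRing (CR 𝔭) L] (h1 : Algebra.trdeg K L = 1) (w : L)
    (hw : Transcendental K w) : FiniteDimensional (IntermediateField.adjoin K {w}) L := by
  have halg := alg_over h1 w hw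
  have hfin : FiniteDimensional (IntermediateField.adjoin K {w})
      (IntermediateField.adjoin (IntermediateField.adjoin K {w})
        (Set.range fun i : Fin n => rs 𝔭 L (MvPolynomial.X i))) :=
    IntermediateField.finiteDimensional_adjoin fun z _ => (halg.isAlgebraic z).isIntegral
  rw [adjoin_top] at hfin
  exact (IntermediateField.topEquiv (F := IntermediateField.adjoin K {w})
    (E := L)).toLinearEquiv.finiteDimensional

/-- One of the coordinate functions is transcendental. -/
theorem exists_transcendental [𝔭.IsPrime] [IsFractionRing (CR 𝔭) L]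
    (h1 : Algebra.trdeg K L = 1) :
    ∃ i : Fin n, Transcendental K (rs 𝔭 L (MvPolynomial.X i)) := by
  by_contra hcon
  push Not at hcon
  have halg : ∀ i : Fin n, IsAlgebraic K (rs 𝔭 L (MvPolynomial.X i)) := fun i =>
    not_not.1 (hcon i)
  have h2 : Algebra.IsAlgebraic K (IntermediateField.adjoin K
      (Set.range fun i : Fin n => rs 𝔭 L (MvPolynomial.X i))) := by
    apply IntermediateField.isAlgebraic_adjoin
    rintro x ⟨i, rfl⟩
    exact (halg i).isIntegral
  rw [adjoin_top] at h2
  have h3 : Algebra.IsAlgebraic K L :=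
    (IntermediateField.topEquiv (F := K) (E := L)).isAlgebraic
  rw [trdeg_eq_zero (R := K) (A := L)] at h1
  exact zero_ne_one h1

end

end T3XCvM

open T3XCvM in
theorem tXCv : StmtXCv := by
  intro K _ n 𝔭 _ hrk L _ _ _ _ _ ρb
  have h1 : Algebra.trdeg K L = 1 := trdeg_one 𝔭 hrk
  obtain ⟨i, hi⟩ := exists_transcendental (L := L) 𝔭 h1
  have hT : ∀ N : ℕ, Transcendental K ((ρb ^ N) (rs 𝔭 L (MvPolynomial.X i))) :=
    fun N h => hi ((isAlgebraic_algHom_iff (ρb ^ N) (ρb ^ N).injective).1 h)
  refine ⟨?_, i, Module.finrank (IntermediateField.adjoin K {rs 𝔭 L (MvPolynomial.X i)}) L, hi,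
    ?_, ?_⟩
  · have := finDim 𝔭 h1 _ (hT 1)
    have h2 : 0 < Module.finrank
        (IntermediateField.adjoin K {(ρb ^ 1) (rs 𝔭 L (MvPolynomial.X i))}) L := Module.finrank_pos
    rw [Pool.Agent.Lib.MP_16285c_agZ.finrank_pow', pow_one] at h2
    exact Nat.pos_of_mul_pos_left h2
  · intro N
    have halg := alg_over h1 _ (hT N)
    have hfd := finDim 𝔭 h1 _ (hT N)
    obtain ⟨Φ, h1, h2, h3⟩ := Pool.Agent.Lib.MP_16285c_agZ.biv_rel (K := K)
      ((ρb ^ N) (rs 𝔭 L (MvPolynomial.X i))) (rs 𝔭 L (MvPolynomial.X i))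
      (halg.isAlgebraic _) _ le_rfl
    refine ⟨Φ, h1, fun j => (h2 j).trans ?_, ?_⟩
    · rw [← Pool.Agent.Lib.MP_16285c_agZ.finrank_pow']
      exact minpoly.natDegree_le _
    · rw [Pool.Agent.Lib.MP_16285c_agZ.aa_eq] at h3
      exact h3
  · intro j
    have halg := alg_over h1 _ hi
    obtain ⟨Φ, h2, -, h3⟩ := Pool.Agent.Lib.MP_16285c_agZ.biv_rel (K := K)
      (rs 𝔭 L (MvPolynomial.X i)) (rs 𝔭 L (MvPolynomial.X j))
      (halg.isAlgebraic _) _ le_rfl
    refine ⟨Bivariate.swap Φ, ?_, ?_⟩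
    · intro h0
      exact h2 ((map_eq_zero_iff (Bivariate.swap (R := K)) (Bivariate.swap (R := K)).injective).1
        h0)
    · rw [← Bivariate.aevalAeval_swap, Pool.Agent.Lib.MP_16285c_agZ.aa_eq] at h3
      exact h3

end Pool.Agent.Lib.MP_16285c_agN
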