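import Pool.Agent.Lib.MP_16285c_agN.T3.SpecB
import Pool.Agent.Lib.MP_16285c_agN.Degr.Trd

/-!
# The first degree is at most the degree of the components
-/

set_option autoImplicit false

namespace Pool.Agent.Lib.MP_16285c_agN

open Pool.Agent.Lib.MP_16285c_ag

namespace T3XDgLeM

section

variable {K : Type} [Field K]

theorem trdeg3 : Algebra.trdeg K (RF 3 K) = 3 := by
  rw [← (DegrTrdM.basis_gen (K := K) (n := 3)).cardinalMk_eq_trdeg]
  simp

/-- Three-space is not algebraic over a field generated by two elements. -/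
theorem two_gen (L : IntermediateField K (RF 3 K)) (hL : Algebra.IsAlgebraic L (RF 3 K))
    (u : Fin 2 → RF 3 K) (h : L ≤ IntermediateField.adjoin K (Set.range u)) : False := by
  have h1 : Algebra.IsAlgebraic (IntermediateField.adjoin K (Set.range u)) (RF 3 K) := by
    constructor
    intro x
    obtain ⟨p, hp, hx⟩ := hL.isAlgebraic x
    refine ⟨p.map (IntermediateField.inclusion h).toRingHom, ?_, ?_⟩
    · rwa [Ne, Polynomial.map_eq_zero]
    · rw [Polynomial.aeval_def, Polynomial.eval₂_map]
      exact hx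
  have h2 := DegrTrdM.alg_of_adjoin _ h1
  have h3 := Algebra.IsAlgebraic.trdeg_le_cardinalMk K (Set.range u)
  rw [trdeg3] at h3
  have h4 : Cardinal.mk (Set.range u) ≤ 2 := by
    refine Cardinal.mk_range_le.trans ?_
    simp
  have h5 := h3.trans h4
  exact absurd h5 (by norm_num)

/-- Three generators of a field of finite degree are algebraically independent. -/
theorem three_gen (v : Fin 3 → RF 3 K)
    (h : Algebra.IsAlgebraic (IntermediateField.adjoin K (Set.range v)) (RF 3 K)) :
    AlgebraicIndependent K v := by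
  have h2 := DegrTrdM.alg_of_adjoin _ h
  refine (Algebra.IsAlgebraic.isTranscendenceBasis_of_le_trdeg_of_finite K v ?_).1
  rw [trdeg3]
  simp

/-- Membership in a subfield. -/
theorem mem_of_gen (S : Subfield (RF 3 K)) (hK : ∀ c : K, algebraMap K (RF 3 K) c ∈ S)
    (h : ∀ i, gen 3 K i ∈ S) (z : RF 3 K) : z ∈ S := by
  have h1 : ∀ G : Pl 3 K, fr G ∈ S := by
    intro G
    induction G using MvPolynomial.induction_on with
    | C a =>
      have := hK a
      rwa [← fr_C] at this
    | add p q hp hq =>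
      rw [fr, map_add]
      exact S.add_mem hp hq
    | mul_X p i hp =>
      rw [fr, map_mul]
      exact S.mul_mem hp (h i)
  obtain ⟨N, D, -, rfl⟩ := exists_fr z
  exact S.div_mem (h1 N) (h1 D)

/-- Two linear forms can be completed by a coordinate. -/
theorem complete (l : Fin 2 → RF 3 K) (hl : LinearIndependent K l)
    (hV : ∀ i, l i ∈ Submodule.span K (Set.range (gen 3 K))) :
    ∃ j₀ : Fin 3, ∀ j, ∃ a ∈ Submodule.span K (Set.range l), ∃ b : K,
      gen 3 K j = a + b • gen 3 K j₀ := by
  have hg : LinearIndependent K (gen 3 K) := (DegrTrdM.basis_gen (K := K) (n := 3)).1.linearIndependent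
  set V := Submodule.span K (Set.range (gen 3 K)) with hVd
  set S := Submodule.span K (Set.range l) with hS
  have hVf : Module.finrank K V = 3 := by
    rw [hVd, finrank_span_eq_card hg, Fintype.card_fin]
  have hSf : Module.finrank K S = 2 := by
    rw [hS, finrank_span_eq_card hl, Fintype.card_fin]
  have hfin : Module.Finite K V := Module.finite_of_finrank_pos (by rw [hVf]; norm_num)
  have hSV : S ≤ V := Submodule.span_le.2 (by rintro _ ⟨i, rfl⟩; exact hV i)
  obtain ⟨j₀, hj₀⟩ : ∃ j₀, gen 3 K j₀ ∉ S := by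
    by_contra hcon
    push Not at hcon
    have h1 : V ≤ S := Submodule.span_le.2 (by rintro _ ⟨i, rfl⟩; exact hcon i)
    have h2 : S = V := le_antisymm hSV h1
    rw [h2, hVf] at hSf
    omega
  refine ⟨j₀, ?_⟩
  have h1 : S ⊔ Submodule.span K {gen 3 K j₀} ≤ V := by
    refine sup_le hSV (Submodule.span_le.2 ?_)
    rintro _ rfl
    exact Submodule.subset_span ⟨j₀, rfl⟩
  have hfin2 : Module.Finite K ↥(S ⊔ Submodule.span K {gen 3 K j₀}) :=
    Submodule.finiteDimensional_of_le h1
  have h2 : S < S ⊔ Submodule.span K {gen 3 K j₀} := by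
    refine lt_of_le_of_ne le_sup_left fun h0 => hj₀ ?_
    rw [h0]
    exact Submodule.mem_sup_right (Submodule.mem_span_singleton_self _)
  have h3 := Submodule.finrank_lt_finrank_of_lt h2
  have h4 : S ⊔ Submodule.span K {gen 3 K j₀} = V :=
    Submodule.eq_of_le_of_finrank_le h1 (by omega)
  intro j
  have h5 : gen 3 K j ∈ S ⊔ Submodule.span K {gen 3 K j₀} := by
    rw [h4]
    exact Submodule.subset_span ⟨j, rfl⟩
  obtain ⟨a, ha, z, hz, h6⟩ := Submodule.mem_sup.1 h5
  obtain ⟨b, rfl⟩ := Submodule.mem_span_singleton.1 hz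
  exact ⟨a, ha, b, h6.symm⟩

/-- Polynomials in one more variable, with coefficients in a subfield. -/
theorem sub_poly (F₀ : IntermediateField K (RF 3 K)) (j₀ : Fin 3) (a : Fin 3 → F₀) (b : Fin 3 → K)
    (h : ∀ j, gen 3 K j = a j + b j • gen 3 K j₀) (P : Pl 3 K) {d : ℕ} (hP : P.totalDegree ≤ d) :
    ∃ Q : Polynomial F₀, Q.natDegree ≤ d ∧ Polynomial.aeval (gen 3 K j₀) Q = fr P := by
  set f : Fin 3 → Polynomial F₀ := fun j => Polynomial.C (a j) +
    Polynomial.C (algebraMap K F₀ (b j)) * Polynomial.X with hf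
  refine ⟨MvPolynomial.aeval f (MvPolynomial.map (algebraMap K F₀) P), ?_, ?_⟩
  · have h1 := MvPolynomial.aeval_natDegree_le (m := d) (n := 1) (MvPolynomial.map (algebraMap K F₀) P)
      ((Finset.sup_mono (MvPolynomial.support_map_subset _ P)).trans hP) f (fun j => by
        simp only [hf]
        rw [add_comm]
        exact Polynomial.natDegree_linear_le)
    rwa [mul_one] at h1
  · induction P using MvPolynomial.induction_on generalizing d with
    | C c =>
      rw [MvPolynomial.map_C, MvPolynomial.aeval_C, Polynomial.algebraMap_eq, Polynomial.aeval_C, fr_C]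
      rfl
    | add p q hp hq =>
      rw [map_add, map_add, map_add, hp le_rfl, hq le_rfl, fr_add]
    | mul_X p i hp =>
      rw [map_mul, map_mul, map_mul, hp le_rfl, fr_mul, MvPolynomial.map_X, MvPolynomial.aeval_X]
      congr 1
      rw [hf]
      simp only [map_add, map_mul, Polynomial.aeval_C, Polynomial.aeval_X]
      have := h i
      rw [gen] at this
      rw [this, Algebra.smul_def]
      rfl

end

end T3XDgLeM

open T3XDgLeM in
/-- (XDgLe) -/
theorem tXDgLe : StmtXDgLe := by
  intro K _ _ g F d hF hd A B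
  by_cases h0 : Module.finrank (fld A B g) (RF 3 K) = 0
  · rw [h0]
    exact Nat.zero_le _
  have hfin : Module.Finite (fld A B g) (RF 3 K) := Module.finite_of_finrank_pos (Nat.pos_of_ne_zero h0)
  have halg : Algebra.IsAlgebraic (fld A B g) (RF 3 K) := inferInstance
  set l : Fin 2 → RF 3 K := lf A (gen 3 K) with hl
  set w : RF 3 K := lf B g 0 with hw
  set v : Fin 3 → RF 3 K := ![l 0, l 1, w] with hv
  have hrange : fld A B g = IntermediateField.adjoin K (Set.range v) := by
    unfold fld
    congr 1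
    rw [hv, ← hl]
    ext z
    simp only [Set.mem_union, Set.mem_range]
    constructor
    · rintro (⟨i, rfl⟩ | ⟨i, rfl⟩)
      · fin_cases i
        · exact ⟨0, rfl⟩
        · exact ⟨1, rfl⟩
      · fin_cases i
        exact ⟨2, rfl⟩
    · rintro ⟨i, rfl⟩
      fin_cases i
      · exact Or.inl ⟨0, rfl⟩
      · exact Or.inl ⟨1, rfl⟩
      · exact Or.inr ⟨0, rfl⟩
  have hvi : AlgebraicIndependent K v := three_gen v (by rw [← hrange]; exact halg)
  have hli : LinearIndependent K l := by
    have h1 := hvi.linearIndependent.comp (fun i : Fin 2 => i.castSucc) (Fin.castSucc_injective 2)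
    have h2 : v ∘ (fun i : Fin 2 => i.castSucc) = l := by
      funext i
      fin_cases i <;> rfl
    rwa [h2] at h1
  obtain ⟨j₀, hj₀⟩ := complete l hli (fun i => by
    rw [hl]
    unfold lf
    refine Submodule.sum_mem _ fun j _ => ?_
    rw [← Algebra.smul_def]
    exact Submodule.smul_mem _ _ (Submodule.subset_span ⟨j, rfl⟩))
  set F₀ : IntermediateField K (RF 3 K) := IntermediateField.adjoin K (Set.range l) with hF₀
  have hspan : ∀ a ∈ Submodule.span K (Set.range l), a ∈ F₀ := by
    intro a ha
    refine Submodule.span_induction ?_ ?_ ?_ ?_ ha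
    · exact fun x hx => IntermediateField.subset_adjoin K _ hx
    · exact F₀.zero_mem
    · exact fun x y _ _ hx hy => F₀.add_mem hx hy
    · exact fun c x _ hx => F₀.smul_mem hx
  have hw0 : w ∉ F₀ := by
    intro hcon
    refine two_gen (fld A B g) halg l ?_
    rw [hrange, IntermediateField.adjoin_le_iff]
    rintro _ ⟨i, rfl⟩
    fin_cases i
    · exact IntermediateField.subset_adjoin K _ ⟨0, rfl⟩
    · exact IntermediateField.subset_adjoin K _ ⟨1, rfl⟩
    · exact hcon
  choose a ha b hab using hj₀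
  obtain ⟨Q₀, hQ₀, hQ₀v⟩ := sub_poly F₀ j₀ (fun j => ⟨a j, hspan _ (ha j)⟩) b hab (F 0) (hd 0)
  set N : Pl 3 K := ∑ j, MvPolynomial.C (B 0 j) * F j.succ with hN
  have hNd : N.totalDegree ≤ d := by
    refine (MvPolynomial.totalDegree_finsetSum_le fun j _ => ?_)
    refine (MvPolynomial.totalDegree_mul _ _).trans ?_
    rw [MvPolynomial.totalDegree_C, zero_add]
    exact hd _
  obtain ⟨Q₁, hQ₁, hQ₁v⟩ := sub_poly F₀ j₀ (fun j => ⟨a j, hspan _ (ha j)⟩) b hab N hNd
  have hwN : w * fr (F 0) = fr N := by
    have h1 : fr N = ∑ j, fr (MvPolynomial.C (B 0 j) * F j.succ) := by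
      rw [hN]
      exact map_sum (algebraMap (MvPolynomial (Fin 3) K) (FractionRing (MvPolynomial (Fin 3) K))) _ _
    rw [h1, hw, lf, Finset.sum_mul]
    refine Finset.sum_congr rfl fun j _ => ?_
    rw [fr_mul, hF.eq j, fr_C]
    ring
  have hle : F₀ ≤ fld A B g := by
    rw [hrange, hF₀, IntermediateField.adjoin_le_iff]
    rintro _ ⟨i, rfl⟩
    fin_cases i
    · exact IntermediateField.subset_adjoin K _ ⟨0, rfl⟩
    · exact IntermediateField.subset_adjoin K _ ⟨1, rfl⟩
  have hwL : w ∈ fld A B g := by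
    rw [hrange]
    exact IntermediateField.subset_adjoin K _ ⟨2, rfl⟩
  set inc : F₀ →+* fld A B g := (IntermediateField.inclusion hle).toRingHom with hinc
  have hincv : ∀ x : F₀, algebraMap (fld A B g) (RF 3 K) (inc x) = (x : RF 3 K) := fun x => rfl
  set Q : Polynomial (fld A B g) := Q₁.map inc - Polynomial.C ⟨w, hwL⟩ * Q₀.map inc with hQ
  have hev : ∀ R : Polynomial F₀, Polynomial.aeval (gen 3 K j₀) (R.map inc) =
      Polynomial.aeval (gen 3 K j₀) R := by
    intro R
    rw [Polynomial.aeval_def, Polynomial.eval₂_map]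
    rfl
  have hQv : Polynomial.aeval (gen 3 K j₀) Q = 0 := by
    rw [hQ, map_sub, map_mul, hev, hev, hQ₁v, hQ₀v, Polynomial.aeval_C, ← hwN]
    exact sub_self _
  have hQd : Q.natDegree ≤ d := by
    rw [hQ]
    refine (Polynomial.natDegree_sub_le _ _).trans (max_le ?_ ?_)
    · exact (Polynomial.natDegree_map_le).trans hQ₁
    · refine (Polynomial.natDegree_C_mul_le _ _).trans ((Polynomial.natDegree_map_le).trans hQ₀)
  have hQ0 : Q ≠ 0 := by
    intro h1
    have h2 : Q₀ ≠ 0 := by
      intro h3
      rw [h3, map_zero] at hQ₀v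
      exact fr_ne_zero hF.ne hQ₀v.symm
    obtain ⟨i, hi⟩ : ∃ i, Q₀.coeff i ≠ 0 := by
      by_contra hcon
      push Not at hcon
      exact h2 (Polynomial.ext hcon)
    have h3 := congrArg (fun R : Polynomial (fld A B g) => ((R.coeff i : fld A B g) : RF 3 K)) h1
    simp only [hQ, Polynomial.coeff_sub, Polynomial.coeff_map, Polynomial.coeff_C_mul,
      Polynomial.coeff_zero] at h3
    have h4 : ((Q₁.coeff i : F₀) : RF 3 K) - w * ((Q₀.coeff i : F₀) : RF 3 K) = 0 := h3
    have h5 : ((Q₀.coeff i : F₀) : RF 3 K) ≠ 0 := fun h6 => hi (Subtype.ext h6)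
    have h6 : w = ((Q₁.coeff i / Q₀.coeff i : F₀) : RF 3 K) := by
      rw [IntermediateField.coe_div, eq_div_iff h5]
      exact (sub_eq_zero.1 h4).symm
    exact hw0 (h6 ▸ (Q₁.coeff i / Q₀.coeff i : F₀).2)
  have htop : IntermediateField.adjoin (fld A B g) {gen 3 K j₀} = ⊤ := by
    rw [eq_top_iff]
    rintro z -
    refine mem_of_gen (IntermediateField.adjoin (fld A B g) {gen 3 K j₀}).toSubfield (fun c => ?_)
      (fun j => ?_) z
    · exact (IntermediateField.adjoin (fld A B g) {gen 3 K j₀}).algebraMap_mem (algebraMap K (fld A B g) c)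
    · rw [hab j]
      refine (IntermediateField.adjoin (fld A B g) {gen 3 K j₀}).add_mem ?_ ?_
      · exact (IntermediateField.adjoin (fld A B g) {gen 3 K j₀}).algebraMap_mem
          ⟨a j, hle (hspan _ (ha j))⟩
      · rw [Algebra.smul_def]
        refine (IntermediateField.adjoin (fld A B g) {gen 3 K j₀}).mul_mem ?_ ?_
        · exact (IntermediateField.adjoin (fld A B g) {gen 3 K j₀}).algebraMap_mem
            (algebraMap K (fld A B g) (b j))
        · exact IntermediateField.mem_adjoin_simple_self _ _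
  have hint : IsIntegral (fld A B g) (gen 3 K j₀) := Algebra.IsIntegral.isIntegral _
  have hfr : Module.finrank (fld A B g) (RF 3 K) = (minpoly (fld A B g) (gen 3 K j₀)).natDegree := by
    rw [← IntermediateField.adjoin.finrank hint, htop, IntermediateField.finrank_top']
  rw [hfr]
  exact (Polynomial.natDegree_le_natDegree (minpoly.degree_le_of_ne_zero _ _ hQ0 hQv)).trans hQd

end Pool.Agent.Lib.MP_16285c_agN
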