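import Pool.Agent.Lib.MP_16285c_agN.T3.SpecB
import Pool.Agent.Lib.MP_16285c_agN.KLV.TpPow

/-!
# Threefolds with `λ₁ ≠ λ₃`: the degree of the image of a section field (XE0)
-/

set_option autoImplicit false

namespace Pool.Agent.Lib.MP_16285c_agN

open Pool.Agent.Lib.MP_16285c_ag

namespace T3XE0M

variable {K : Type} [Field K]

theorem it_dbl (σ : RF 3 K →ₐ[K] RF 3 K) (m : ℕ) (i : Fin 3) :
    it σ (2 * m) i = (σ ^ m) (it σ m i) := by
  unfold it
  rw [two_mul, pow_add]
  rfl

theorem lu_eq {g : Fin 3 → RF 3 K} {F : Fin 4 → Pl 3 K} (hW : Wk g F) (u : K) :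
    fr (luN (MvPolynomial.C u) F) / fr (F 0) =
      1 + ∑ j : Fin 3, algebraMap K (RF 3 K) (u ^ ((j : ℕ) + 1)) * g j := by
  have h0 : fr (F 0) ≠ 0 := by
    intro h
    exact hW.ne (IsFractionRing.injective (MvPolynomial (Fin 3) K) (RF 3 K)
      (h.trans (map_zero _).symm))
  rw [div_eq_iff h0, luN, Fin.sum_univ_succ, fr, map_add, map_sum, add_mul, Finset.sum_mul]
  congr 1
  · rw [Fin.val_zero, pow_zero, one_mul, one_mul]
  · refine Finset.sum_congr rfl fun j _ => ?_
    have h1 : algebraMap (MvPolynomial (Fin 3) K) (RF 3 K) (F j.succ) = g j * fr (F 0) := hW.eq j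
    have h2 : algebraMap (MvPolynomial (Fin 3) K) (RF 3 K) (MvPolynomial.C u) =
        algebraMap K (RF 3 K) u := by
      rw [← MvPolynomial.algebraMap_eq, ← IsScalarTower.algebraMap_apply]
    rw [map_mul, map_pow, h2, h1, map_pow, Fin.val_succ]
    ring

/-- The degree over the image of a field. -/
theorem finrank_map (ρ : RF 3 K →ₐ[K] RF 3 K) (L : IntermediateField K (RF 3 K)) :
    Module.finrank (L.map ρ) (RF 3 K) = Module.finrank L (RF 3 K) * tp ρ := by
  have hB : ρ.fieldRange = (⊤ : IntermediateField K (RF 3 K)).map ρ := AlgHom.fieldRange_eq_map ρ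
  have hle : L.map ρ ≤ (⊤ : IntermediateField K (RF 3 K)).map ρ :=
    IntermediateField.map_mono ρ le_top
  have h1 := IntermediateField.relfinrank_mul_finrank_top hle
  have h2 : IntermediateField.relfinrank (L.map ρ) ((⊤ : IntermediateField K (RF 3 K)).map ρ) =
      Module.finrank L (RF 3 K) := by
    rw [IntermediateField.relfinrank_map_map, IntermediateField.relfinrank_top_right]
  unfold tp
  rw [← h1, h2, hB]

/-- The constant `1` does not change the field. -/
theorem adjoin_one (w : RF 3 K) (S : Set (RF 3 K)) :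
    IntermediateField.adjoin K (insert (1 + w) S) = IntermediateField.adjoin K ({w} ∪ S) := by
  apply le_antisymm
  · rw [IntermediateField.adjoin_le_iff]
    intro x hx
    rcases hx with rfl | hx
    · exact add_mem (one_mem _) (IntermediateField.subset_adjoin _ _ (Or.inl rfl))
    · exact IntermediateField.subset_adjoin _ _ (Or.inr hx)
  · rw [IntermediateField.adjoin_le_iff]
    intro x hx
    rcases hx with hx | hx
    · have hxw : x = w := hx
      have h1 : 1 + w ∈ IntermediateField.adjoin K (insert (1 + w) S) :=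
        IntermediateField.subset_adjoin _ _ (Or.inl rfl)
      have h2 := sub_mem h1 (one_mem (IntermediateField.adjoin K (insert (1 + w) S)))
      rw [add_sub_cancel_left] at h2
      rw [hxw]
      exact h2
    · exact IntermediateField.subset_adjoin _ _ (Or.inr hx)

end T3XE0M

open T3XE0M in
/-- (XE0) The degree over `K(T, m₁(z), m₂(z))`. -/
theorem tXE0 : StmtXMd → StmtXE0 := by
  intro hMd K _ _ σ m F _ hW u B
  set A : Fin 1 → Fin 3 → K := fun _ j => u ^ ((j : ℕ) + 1) with hA
  have hT : fr (luN (MvPolynomial.C u) F) / fr (F 0) =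
      1 + (σ ^ m) (lf A (gen 3 K) 0) := by
    rw [lu_eq hW u, lf, map_sum]
    congr 1
    refine Finset.sum_congr rfl fun j _ => ?_
    rw [map_mul, AlgHom.commutes]
    rfl
  have hz : ∀ i : Fin 2, lf B (it σ (2 * m)) i = (σ ^ m) (lf B (it σ m) i) := by
    intro i
    rw [lf, lf, map_sum]
    refine Finset.sum_congr rfl fun j _ => ?_
    rw [map_mul, AlgHom.commutes, it_dbl]
  have hS : Set.range (lf B (it σ (2 * m))) = (σ ^ m) '' Set.range (lf B (it σ m)) := by
    rw [← Set.range_comp]
    congr 1
    funext i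
    exact hz i
  have hR : ({(σ ^ m) (lf A (gen 3 K) 0)} : Set (RF 3 K)) =
      (σ ^ m) '' Set.range (lf A (gen 3 K)) := by
    have h2 : Set.range (lf A (gen 3 K)) = {lf A (gen 3 K) 0} := by
      ext x
      constructor
      · rintro ⟨i, rfl⟩
        rw [Subsingleton.elim i 0]
        rfl
      · intro hx
        exact ⟨0, hx.symm⟩
    rw [h2, Set.image_singleton]
  have hL : IntermediateField.adjoin K (insert (fr (luN (MvPolynomial.C u) F) / fr (F 0))
      (Set.range (lf B (it σ (2 * m))))) = (fld A B (it σ m)).map (σ ^ m) := by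
    rw [hT, adjoin_one, hR, hS, ← Set.image_union, fld, IntermediateField.adjoin_map]
  rw [hL, finrank_map, tTpPow.2.1, mul_comm]
  exact Nat.mul_le_mul_left _ ((hMd K).2.1 (it σ m) A B)

end Pool.Agent.Lib.MP_16285c_agN
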