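import Pool.Agent.Lib.MP_16285c_agN.T3.SpecB
import Pool.Agent.Lib.MP_16285c_agN.G1
import Pool.Agent.Lib.MP_16285c_agN.Degr.Trd
import Pool.Agent.Lib.MP_16285c_agZ.HF

/-!
# Threefolds with `λ₁ ≠ λ₃`: the degree of a section field (XE1)
-/

set_option autoImplicit false

namespace Pool.Agent.Lib.MP_16285c_agN

open Pool.Agent.Lib.MP_16285c_ag

namespace T3XE1M

variable {K : Type} [Field K] {n : ℕ}

theorem pow_fr (σ : RF n K →ₐ[K] RF n K) (m : ℕ) (G : Pl n K) :
    (σ ^ m) (fr G) = MvPolynomial.aeval (it σ m) G := by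
  have h : ((σ ^ m).comp (IsScalarTower.toAlgHom K (MvPolynomial (Fin n) K) (RF n K))) =
      MvPolynomial.aeval (it σ m) := by
    refine MvPolynomial.algHom_ext fun i => ?_
    rw [MvPolynomial.aeval_X]
    rfl
  rw [← h]
  rfl

theorem it_add (σ : RF n K →ₐ[K] RF n K) (a b : ℕ) (i : Fin n) :
    it σ (a + b) i = (σ ^ a) (it σ b i) := by
  unfold it
  rw [pow_add]
  rfl

theorem aeval_mem (κ : IntermediateField K (RF n K)) (y : Fin n → RF n K) (G : Pl n K) :
    MvPolynomial.aeval y G ∈ IntermediateField.adjoin κ (Set.range y) := by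
  induction G using MvPolynomial.induction_on with
  | C a =>
    rw [MvPolynomial.aeval_C]
    exact (IntermediateField.adjoin κ (Set.range y)).algebraMap_mem (algebraMap K κ a)
  | add p q hp hq =>
    rw [map_add]
    exact add_mem hp hq
  | mul_X p i hp =>
    rw [map_mul, MvPolynomial.aeval_X]
    exact mul_mem hp (IntermediateField.subset_adjoin _ _ ⟨i, rfl⟩)

/-- The function field is finite over the field generated by the components of an iterate. -/
theorem fin_it (σ : RF n K →ₐ[K] RF n K) (m : ℕ) (κ : IntermediateField K (RF n K)) :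
    Module.Finite (IntermediateField.adjoin κ (Set.range (it σ m))) (RF n K) := by
  have h2 : Algebra.EssFiniteType (MvPolynomial (Fin n) K) (RF n K) :=
    Algebra.EssFiniteType.of_isLocalization (RF n K) (nonZeroDivisors (MvPolynomial (Fin n) K))
  have h3 : Algebra.EssFiniteType K (RF n K) :=
    Algebra.EssFiniteType.comp K (MvPolynomial (Fin n) K) (RF n K)
  have h4 := G1M.fin_range K (RF n K) (σ ^ m)
  have hle : (σ ^ m).fieldRange ≤
      (IntermediateField.adjoin κ (Set.range (it σ m))).restrictScalars K := by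
    rintro x ⟨y, rfl⟩
    obtain ⟨A, B, _, rfl⟩ := IsFractionRing.div_surjective (A := MvPolynomial (Fin n) K) y
    change (σ ^ m) (fr A / fr B) ∈ IntermediateField.adjoin κ (Set.range (it σ m))
    rw [map_div₀, pow_fr, pow_fr]
    exact div_mem (aeval_mem κ _ _) (aeval_mem κ _ _)
  have h5 := Pool.Agent.Lib.MP_16285c_agZ.HFM.fd_of_le hle h4
  exact h5

/-- A finite extension of a field generated by three elements. -/
theorem indep (a w₁ w₂ : RF 3 K)
    (h : Module.Finite (IntermediateField.adjoin K {a, w₁, w₂}) (RF 3 K)) :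
    AlgebraicIndependent (IntermediateField.adjoin K {a}) ![w₁, w₂] := by
  let t : Fin 2 ⊕ Fin 1 → RF 3 K := Sum.elim ![w₁, w₂] fun _ => a
  have ht : Set.range t = {a, w₁, w₂} := by
    ext x
    constructor
    · rintro ⟨i, rfl⟩
      rcases i with i | i
      · fin_cases i
        · exact Or.inr (Or.inl rfl)
        · exact Or.inr (Or.inr rfl)
      · exact Or.inl rfl
    · rintro (rfl | rfl | rfl)
      · exact ⟨Sum.inr 0, rfl⟩
      · exact ⟨Sum.inl 0, rfl⟩
      · exact ⟨Sum.inl 1, rfl⟩
  have h1 : Algebra.IsAlgebraic (IntermediateField.adjoin K (Set.range t)) (RF 3 K) := by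
    rw [ht]
    exact Algebra.IsAlgebraic.of_finite _ _
  have h2 : Algebra.IsAlgebraic (Algebra.adjoin K (Set.range t)) (RF 3 K) :=
    DegrTrdM.alg_of_adjoin _ h1
  have h3 : Cardinal.mk (Fin 2 ⊕ Fin 1) ≤ Algebra.trdeg K (RF 3 K) := by
    rw [← (DegrTrdM.basis_gen (K := K) (n := 3)).cardinalMk_eq_trdeg, Cardinal.mk_fintype,
      Cardinal.mk_fintype, Fintype.card_sum, Fintype.card_fin, Fintype.card_fin, Fintype.card_fin]
  have h4 := Algebra.IsAlgebraic.isTranscendenceBasis_of_le_trdeg_of_finite K t h3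
  have h5 : AlgebraicIndependent (Algebra.adjoin K (Set.range fun _ : Fin 1 => a)) ![w₁, w₂] :=
    (AlgebraicIndependent.sumElim_iff.1 h4.1).2
  have h6 : (Set.range fun _ : Fin 1 => a) = {a} := Set.range_const
  rw [h6] at h5
  open scoped IntermediateField.algebraAdjoinAdjoin in
  exact h5.extendScalars (IntermediateField.adjoin K {a})

/-- Degrees over a field generated in two steps. -/
theorem finrank_two (a : RF 3 K) (S : Set (RF 3 K)) :
    Module.finrank (IntermediateField.adjoin (IntermediateField.adjoin K {a}) S) (RF 3 K) =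
      Module.finrank (IntermediateField.adjoin K ({a} ∪ S)) (RF 3 K) := by
  rw [← IntermediateField.adjoin_adjoin_left K {a} S]
  rfl

theorem lu_eq {g : Fin 3 → RF 3 K} {F : Fin 4 → Pl 3 K} (hW : Wk g F) (u : K) :
    fr (luN (MvPolynomial.C u) F) / fr (F 0) =
      1 + ∑ j : Fin 3, algebraMap K (RF 3 K) (u ^ ((j : ℕ) + 1)) * g j := by
  have h0 : fr (F 0) ≠ 0 := by
    intro h
    exact hW.ne (IsFractionRing.injective (MvPolynomial (Fin 3) K) (RF 3 K)
      (h.trans (map_zero _).symm))
  rw [div_eq_iff h0, luN, Fin.sum_univ_succ, fr, map_add, map_sum, add_mul, Finset.sum_mul]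
  congr 1
  · rw [Fin.val_zero, pow_zero, one_mul, one_mul]
  · refine Finset.sum_congr rfl fun j _ => ?_
    have h1 : algebraMap (MvPolynomial (Fin 3) K) (RF 3 K) (F j.succ) = g j * fr (F 0) := hW.eq j
    have h2 : algebraMap (MvPolynomial (Fin 3) K) (RF 3 K) (MvPolynomial.C u) =
        algebraMap K (RF 3 K) u := by
      rw [← MvPolynomial.algebraMap_eq, ← IsScalarTower.algebraMap_apply]
    rw [map_mul, map_pow, h2, h1, map_pow, Fin.val_succ]
    ring

theorem deg_CX (c : K) (j : Fin 3) :
    (MvPolynomial.C c * MvPolynomial.X j : Pl 3 K).totalDegree ≤ 1 := by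
  refine (MvPolynomial.totalDegree_mul _ _).trans ?_
  rw [MvPolynomial.totalDegree_C, zero_add, MvPolynomial.totalDegree_X]

end T3XE1M

open T3XE1M in
/-- (XE1) The degree over `K(l(x), T, μ(z))`. -/
theorem tXE1 : StmtXBZ → StmtXMd → StmtXE1 := by
  intro hBZ hMd K _ _ σ m F d _ hW hd hF u l μ
  set a := ∑ j, algebraMap K (RF 3 K) (l j) * gen 3 K j with ha
  set w₁ := fr (luN (MvPolynomial.C u) F) / fr (F 0) with hw₁
  set w₂ := ∑ j, algebraMap K (RF 3 K) (μ j) * it σ (2 * m) j with hw₂
  by_cases h0 : Module.finrank (IntermediateField.adjoin K {a, w₁, w₂}) (RF 3 K) = 0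
  · rw [h0]
    exact Nat.zero_le _
  have hfin : Module.Finite (IntermediateField.adjoin K {a, w₁, w₂}) (RF 3 K) :=
    Module.finite_of_finrank_pos (Nat.pos_of_ne_zero h0)
  have hai := indep a w₁ w₂ hfin
  have hb : ∀ A : Fin 2 → Fin 3 → K, Module.finrank (IntermediateField.adjoin
      (IntermediateField.adjoin K {a}) (Set.range (lc A (it σ m)))) (RF 3 K) ≤ md (it σ m) := by
    intro A
    have h1 := (hMd K).2.1 (it σ m) (fun _ => l) A
    have h2 : Set.range (lf (fun _ : Fin 1 => l) (gen 3 K)) = {a} := Set.range_const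
    rw [fld, h2] at h1
    rw [finrank_two]
    exact h1
  have hF0 : MvPolynomial.aeval (it σ m) (F 0) ≠ 0 := by
    intro h
    rw [← pow_fr] at h
    have h1 : fr (F 0) = 0 := (σ ^ m).toRingHom.injective (h.trans (map_zero _).symm)
    exact hW.ne (IsFractionRing.injective (MvPolynomial (Fin 3) K) (RF 3 K)
      (h1.trans (map_zero _).symm))
  have h2 : MvPolynomial.aeval (it σ m) (F 0) * w₂ =
      MvPolynomial.aeval (it σ m) (∑ j, MvPolynomial.C (μ j) * F j.succ) := by
    rw [hw₂, map_sum, Finset.mul_sum]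
    refine Finset.sum_congr rfl fun j _ => ?_
    have h3 : MvPolynomial.aeval (it σ m) (F j.succ) =
        it σ (2 * m) j * MvPolynomial.aeval (it σ m) (F 0) := by
      rw [← pow_fr, hW.eq j, map_mul, pow_fr, two_mul, it_add]
    rw [map_mul, MvPolynomial.aeval_C, h3]
    ring
  have h := hBZ K (RF 3 K) (IntermediateField.adjoin K {a}) 3 (it σ m) w₁ w₂ 1 d (md (it σ m))
    (fin_it σ m _) hb hai le_rfl hd
    (1 + ∑ j : Fin 3, MvPolynomial.C (u ^ ((j : ℕ) + 1)) * MvPolynomial.X j) 1
    (∑ j, MvPolynomial.C (μ j) * F j.succ) (F 0)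
    (by rw [map_one]; exact one_ne_zero) hF0
    (by
      rw [map_one, one_mul, hw₁, lu_eq hW u, map_add, map_one, map_sum]
      congr 1
      refine Finset.sum_congr rfl fun j _ => ?_
      rw [map_mul, MvPolynomial.aeval_C, MvPolynomial.aeval_X])
    h2
    (by
      refine (MvPolynomial.totalDegree_add _ _).trans (max_le ?_ ?_)
      · rw [MvPolynomial.totalDegree_one]
        exact Nat.zero_le _
      · exact MvPolynomial.totalDegree_finsetSum_le fun j _ => deg_CX _ j)
    (by rw [MvPolynomial.totalDegree_one]; exact Nat.zero_le _)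
    (by
      refine MvPolynomial.totalDegree_finsetSum_le fun j _ => ?_
      refine (MvPolynomial.totalDegree_mul _ _).trans ?_
      rw [MvPolynomial.totalDegree_C, zero_add]
      exact hF _)
    (hF 0)
  rw [finrank_two, Set.singleton_union, mul_one] at h
  exact h

end Pool.Agent.Lib.MP_16285c_agN
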