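import Pool.Agent.Lib.MP_16285c_agN.T3.SpecC
import Pool.Agent.Lib.MP_16285c_agN.KLV.Val
import Pool.Agent.Lib.MP_16285c_agN.DEG4a.Spec

/-! # The curve case is impossible -/

set_option autoImplicit false

namespace Pool.Agent.Lib.MP_16285c_agN

open Pool.Agent.Lib.MP_16285c_ag

namespace T3XEndM

/-- Values are unique. -/
theorem val_unique {K : Type} [Field K] {n : ℕ} {ρ : RF n K →ₐ[K] RF n K} {x x' x'' : Fin n → K}
    (h1 : Val ρ x x') (h2 : Val ρ x x'') : x' = x'' := by
  funext j
  obtain ⟨E, N, hE, hN, hv⟩ := h1 (MvPolynomial.X j)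
  have h3 := tVal.2.2.2.2.2 n K ρ x x'' (MvPolynomial.X j) E N h2 hN
  rw [hv, MvPolynomial.eval_X, MvPolynomial.eval_X] at h3
  exact mul_left_cancel₀ hE h3

/-- An orbit which returns is periodic. -/
theorem periodic {K : Type} [Field K] {n : ℕ} {σ : RF n K →ₐ[K] RF n K} {x : ℕ → Fin n → K}
    (hx : Flow σ x) {a b : ℕ} (h : x a = x b) (i : ℕ) : x (a + i) = x (b + i) := by
  induction i with
  | zero => exact h
  | succ i ih =>
    have h1 : Val σ (x (a + i)) (x (a + (i + 1))) := hx (a + i)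
    have h2 : Val σ (x (b + i)) (x (b + (i + 1))) := hx (b + i)
    rw [← ih] at h2
    exact val_unique h1 h2

/-- A function on such an orbit is bounded. -/
theorem bdd {X : Type} (x : ℕ → X) (h : X → ℝ) (a b : ℕ) (hab : a < b)
    (hp : ∀ i, x (a + i) = x (b + i)) : ∃ C : ℝ, ∀ n, h (x n) ≤ C := by
  refine ⟨∑ i ∈ Finset.range b, |h (x i)|, fun n => ?_⟩
  induction n using Nat.strong_induction_on with
  | _ n ih =>
    by_cases hn : n < b
    · exact (le_abs_self _).trans
        (Finset.single_le_sum (f := fun i => |h (x i)|) (fun i _ => abs_nonneg _)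
          (Finset.mem_range.2 hn))
    · have h1 : x n = x (a + (n - b)) := by
        rw [hp, Nat.add_sub_cancel' (not_lt.1 hn)]
      rw [h1]
      exact ih _ (by omega)

/-- Geometric growth. -/
theorem grow (h : ℕ → ℝ) (m : ℕ) (β : ℝ) (hβ : 0 ≤ β)
    (hg : ∀ j, 1 ≤ j → β * h (m * j) ≤ h (m * (j + 1))) (j : ℕ) :
    β ^ j * h m ≤ h (m * (j + 1)) := by
  induction j with
  | zero => rw [pow_zero, one_mul, zero_add, mul_one]
  | succ j ih =>
    calc β ^ (j + 1) * h m = β * (β ^ j * h m) := by ring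
      _ ≤ β * h (m * (j + 1)) := mul_le_mul_of_nonneg_left ih hβ
      _ ≤ h (m * (j + 1 + 1)) := hg _ (by omega)

end T3XEndM

open T3XEndM

theorem tXEnd : StmtXUpp → StmtXRl2 → StmtResF → StmtXEnd := by
  intro hU hR hRes K₁ K _ _ _ _ n σ m M b x hm hM hb htp htb hfl h0 hgrow hprime hrk hpres hdeg
  have hdom : IsDomain (CR (van x M)) := Ideal.Quotient.isDomain _
  obtain ⟨ρb, hρb⟩ := hRes n K₁ (σ ^ M) (van x M) hprime hpres (FractionRing (CR (van x M)))
  have hδ := hdeg (FractionRing (CR (van x M))) ρb hρb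
  let hh : ℕ → ℝ := fun t => Height.logHeight (hcN (fun i => algebraMap K₁ K (x t i)))
  have hT : (1 : ℝ) ≤ (tp σ : ℝ) := by exact_mod_cast htp
  have hβ : 1 < b / 2 := lt_of_le_of_lt (one_le_pow₀ hT) htb
  have hflow : Flow (σ ^ M) (fun t => x (M * t)) := fun t =>
    tVal.2.1 n K₁ σ x hfl M (M * t)
  have hinj : Function.Injective (fun t => x (M * t)) := by
    have key : ∀ s t : ℕ, s < t → x (M * s) ≠ x (M * t) := by
      intro s t hst heq
      obtain ⟨C, hC⟩ := bdd x (fun y => Height.logHeight (hcN (fun i => algebraMap K₁ K (y i))))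
        (M * s) (M * t) (Nat.mul_lt_mul_of_pos_left hst (by omega)) (periodic hfl heq)
      obtain ⟨j, hj⟩ := pow_unbounded_of_one_lt (C / hh m) hβ
      have h1 := grow hh m (b / 2) (by linarith) hgrow j
      have h2 : hh (m * (j + 1)) ≤ C := hC _
      have h3 : C < (b / 2) ^ j * hh m := (div_lt_iff₀ h0).1 hj
      linarith
    intro s t hst
    rcases lt_trichotomy s t with h | h | h
    · exact absurd hst (key s t h)
    · exact h
    · exact absurd hst.symm (key t s h)
  refine hR hh m M b (tp σ) (Module.finrank ρb.fieldRange (FractionRing (CR (van x M))) : ℝ) hm hM hb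
    hT htb (Nat.cast_nonneg _) (by exact_mod_cast hδ) h0 hgrow fun ε hε => ?_
  exact hU K₁ K n (σ ^ M) (van x M) hrk (FractionRing (CR (van x M))) ρb hρb
    (fun t => x (M * t)) hflow (fun t G hG => hG t) hinj ε hε

end Pool.Agent.Lib.MP_16285c_agN
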