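import Pool.Agent.Lib.MP_16285c_agN.T3.SpecC
import Pool.Agent.Lib.MP_16285c_agN.Iface
import Pool.Agent.Lib.MP_16285c_agN.TpPos
import Pool.Agent.Lib.MP_16285c_agN.DgPos

/-!
# Fast orbits through points of a line
-/

set_option autoImplicit false

namespace Pool.Agent.Lib.MP_16285c_agN

open Pool.Agent.Lib.MP_16285c_ag

namespace T3XFastM

/-- The values of a representative of an iterate along an orbit. -/
theorem value {K₀ K : Type} [Field K₀] [Field K] [Algebra K₀ K]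
    (σ₀ : RF 3 K₀ →ₐ[K₀] RF 3 K₀) (σ : RF 3 K →ₐ[K] RF 3 K) (hc' : Cmp σ₀ σ) (j : ℕ)
    (W : Fin 4 → Pl 3 K₀) (hW : Wk (it σ₀ j) W) (x : ℕ → Fin 3 → K) (hx : Flow σ x) (t : ℕ) :
    (fun i => MvPolynomial.aeval (x t) (W i)) =
      (MvPolynomial.aeval (x t) (W 0) : K) • hcN (x (t + j)) := by
  have hV : Val (σ ^ j) (x t) (x (t + j)) := tVal.2.1 3 K σ x hx j t
  have hev : ∀ G : Pl 3 K₀, MvPolynomial.eval (x t) (MvPolynomial.map (algebraMap K₀ K) G) =
      MvPolynomial.aeval (x t) G := by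
    intro G
    rw [MvPolynomial.eval_map, MvPolynomial.aeval_def]
  funext i
  refine Fin.cases ?_ (fun i => ?_) i
  · rw [Pi.smul_apply, smul_eq_mul]
    change _ = _ * (1 : K)
    rw [mul_one]
  · have hN : fr (MvPolynomial.map (algebraMap K₀ K) (W i.succ)) =
        fr (MvPolynomial.map (algebraMap K₀ K) (W 0)) * (σ ^ j) (fr (MvPolynomial.X i)) := by
      have e1 : (σ ^ j) (fr (MvPolynomial.X i)) = bc 3 K₀ K (it σ₀ j i) := cmp_it hc' j i
      rw [e1, ← bc_fr, ← bc_fr, hW.eq i, map_mul, mul_comm]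
    have h := tVal.2.2.2.2.2 3 K (σ ^ j) (x t) (x (t + j)) (MvPolynomial.X i) _ _ hV hN
    rw [hev, hev, MvPolynomial.eval_X] at h
    rw [Pi.smul_apply, smul_eq_mul]
    change _ = _ * (x (t + j) i)
    exact h

/-- The total degree does not change under an extension of the field. -/
theorem totalDegree_map {K L : Type} [Field K] [Field L] [Algebra K L] {n : ℕ} (p : Pl n K) :
    (MvPolynomial.map (algebraMap K L) p).totalDegree = p.totalDegree := by
  have h : (MvPolynomial.map (algebraMap K L) p).support = p.support :=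
    MvPolynomial.support_map_of_injective _ (algebraMap K L).injective
  simp only [MvPolynomial.totalDegree, h]

end T3XFastM

open T3XFastM

/-- `StmtXFast`. -/
theorem tXFast : StmtXRates → StmtXRec → StmtXMd → StmtXMdS → StmtXLine → StmtXLn → StmtXRpB →
    StmtXRl1 → StmtXFast := by
  intro hRates hRec hMd hMdS hLine hLn hRpB hRl1 K₀ _ _ σ₀ hlam
  haveI : Infinite K₀ := Infinite.of_injective (Nat.cast : ℕ → K₀) Nat.cast_injective
  have htp : 1 ≤ tp σ₀ := tTpPos K₀ 3 σ₀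
  have hdg : ∀ m, 1 ≤ dg (it σ₀ m) := fun m => tDgPos iRepE K₀ 3 σ₀ m (by norm_num)
  have hmd : ∀ m, 1 ≤ md (it σ₀ m) := fun m => (hMd K₀).1 σ₀ m
  obtain ⟨m, hm1, hm⟩ := hRates (fun m => dg (it σ₀ m)) (fun m => md (it σ₀ m)) (tp σ₀)
    (9 * dg (it σ₀ 1) ^ 2) htp (fun a b => iDgMul K₀ 3 σ₀ a b) hdg hmd
    (fun m => (hMd K₀).2.2.2 (it σ₀ m) (hdg m)) (fun m => hMdS K₀ σ₀ m htp (hdg 1)) hlam
  obtain ⟨B₁, hB₁0, hB₁⟩ := hRec K₀ σ₀ m htp (hdg m) (hdg (2 * m))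
  obtain ⟨F, hF, hFd, hFt⟩ := tRep.1 3 K₀ (it σ₀ m)
  obtain ⟨a, b, ha, hG, hrec⟩ : ∃ a b : ℝ, 0 ≤ a ∧ Gd a b (dg (it σ₀ m)) ((tp σ₀ : ℝ) ^ m) ∧
      ∀ (K : Type) [Field K] [Algebra K₀ K] [Height.AdmissibleAbsValues K]
        (σ : RF 3 K →ₐ[K] RF 3 K), Cmp σ₀ σ → ∃ C : ℝ, ∀ x : ℕ → Fin 3 → K, Flow σ x → ∀ t : ℕ,
        MvPolynomial.aeval (x t) B₁ ≠ 0 →
          b * Height.logHeight (hcN (x (t + m))) ≤
            Height.logHeight (hcN (x (t + 2 * m))) + a * Height.logHeight (hcN (x t)) + C := by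
    rcases hm with hG | hG
    · refine ⟨_, _, by positivity, hG, ?_⟩
      intro K _ _ _ σ hcmp
      obtain ⟨C, hC⟩ := hB₁ K σ hcmp
      exact ⟨C, fun x hx t ht => (hC x hx t ht).1⟩
    · refine ⟨_, _, by positivity, hG, ?_⟩
      intro K _ _ _ σ hcmp
      obtain ⟨C, hC⟩ := hB₁ K σ hcmp
      exact ⟨C, fun x hx t ht => (hC x hx t ht).2⟩
  obtain ⟨hb2, hab, habd, htb⟩ := hG
  refine ⟨m, b, B₁ * F 0, hm1, hb2, htb, mul_ne_zero hB₁0 hF.ne, ?_⟩
  intro K₁ K _ _ _ _ _ _ _ _ σ hcmp c hc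
  have hinj : Function.Injective (MvPolynomial.map (σ := Fin 3) (algebraMap K₀ K₁)) :=
    MvPolynomial.map_injective _ (algebraMap K₀ K₁).injective
  rw [map_mul] at hc
  have hc0 : MvPolynomial.aeval c (F 0) ≠ 0 := right_ne_zero_of_mul hc
  obtain ⟨R, hR0, hR⟩ := hLine K₁ 3 (fun i => MvPolynomial.map (algebraMap K₀ K₁) (F i))
    (dg (it σ₀ m)) (hRpB K₀ K₁ 3 F hF.ne hF.cop)
    (fun h => hF.ne (hinj (by rw [h, map_zero])))
    (by
      obtain ⟨i, hi⟩ := hFt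
      exact ⟨i, by rw [totalDegree_map, hi]⟩)
    c ⟨0, by
      rw [MvPolynomial.eval_map, ← MvPolynomial.aeval_def]
      exact hc0⟩
  refine ⟨R, hR0, fun w hw => ?_⟩
  obtain ⟨hspan, htop⟩ := hR w hw
  obtain ⟨C₁, hC₁⟩ := hLn.2 K₁ K 3 (fun i => MvPolynomial.map (algebraMap K₀ K₁) (F i))
    (dg (it σ₀ m)) (fun i => by rw [totalDegree_map]; exact hFd i) c w hspan htop
  obtain ⟨C₂, hC₂⟩ := hLn.1 K 3 (fun j => algebraMap K₁ K (c j)) (fun j => algebraMap K₁ K (w j))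
  obtain ⟨C₃, hC₃⟩ := hrec K σ hcmp
  obtain ⟨H₀, hH₀⟩ := hRl1 a b (dg (it σ₀ m)) C₃ (max C₁ C₂) ha hb2 hab habd
  refine ⟨H₀, fun y hy x hx0 hflow hxB => ?_⟩
  have hlpt : x 0 = lptN (fun j => algebraMap K₁ K (c j)) (fun j => algebraMap K₁ K (w j))
      (algebraMap K₁ K y) := by
    rw [hx0]
    funext i
    simp only [lptN, map_add, map_mul]
  have hB1t : ∀ t, MvPolynomial.aeval (x t) B₁ ≠ 0 := by
    intro t h0
    have := hxB t
    rw [map_mul, h0, zero_mul] at this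
    exact this rfl
  have hF0 : MvPolynomial.aeval (x 0) (F 0) ≠ 0 := by
    intro h0
    have := hxB 0
    rw [map_mul, h0, mul_zero] at this
    exact this rfl
  refine hH₀ (fun t => Height.logHeight (hcN (x t))) m (Height.logHeight₁ (algebraMap K₁ K y))
    (fun n => Height.logHeight_nonneg _) hy ?_ ?_ ?_
  · have h := hC₂ (algebraMap K₁ K y)
    rw [← hlpt] at h
    exact h.trans (add_le_add le_rfl (le_max_right _ _))
  · have h := hC₁ (algebraMap K₁ K y)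
    rw [← hlpt] at h
    simp only [MvPolynomial.aeval_map_algebraMap] at h
    rw [value σ₀ σ hcmp m F hF.toWk x hflow 0, Height.logHeight_smul_eq_logHeight _ hF0,
      zero_add] at h
    exact h.trans (add_le_add le_rfl (le_max_left _ _))
  · intro t
    exact hC₃ x hflow t (hB1t t)

end Pool.Agent.Lib.MP_16285c_agN
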