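import Pool.Agent.Lib.MP_16285c_agN.T3.SpecC
import Pool.Agent.Lib.MP_16285c_agN.Real

/-!
# `StmtXFek`: the rates of a submultiplicative sequence
-/

set_option autoImplicit false

namespace Pool.Agent.Lib.MP_16285c_agN

open Filter Topology RealM in
theorem tXFek : StmtXFek := by
  intro d τ hd h1 hlim
  have hs := subadd hd h1
  obtain ⟨L, hL, ht, hl⟩ := tends hd h1
  have hLs : hs.lim = L := tendsto_nhds_unique (hs.tendsto_lim (bdd h1)) ht
  have hpos : ∀ m, (0 : ℝ) < d m := fun m => by exact_mod_cast h1 m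
  refine ⟨Real.exp L, ?_, ?_, ?_⟩
  · unfold lam0 at hlim
    rwa [hl] at hlim
  · intro m
    rcases Nat.eq_zero_or_pos m with rfl | hm
    · rw [pow_zero]
      exact_mod_cast h1 0
    · have hm' : (0 : ℝ) < m := by exact_mod_cast hm
      have h2 : hs.lim ≤ Real.log (d m : ℝ) / m := hs.lim_le_div (bdd h1) hm.ne'
      rw [hLs, le_div_iff₀ hm'] at h2
      rw [← Real.exp_nat_mul, ← Real.exp_log (hpos m), Real.exp_le_exp]
      linarith
  · intro ε hε
    have hlog : 0 < Real.log (1 + ε) := Real.log_pos (by linarith)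
    have h2 : ∀ᶠ m : ℕ in atTop, Real.log (d m : ℝ) / m < L + Real.log (1 + ε) :=
      ht.eventually_lt_const (by linarith)
    obtain ⟨m₀, hm₀⟩ := eventually_atTop.1 (h2.and (eventually_ge_atTop 1))
    refine ⟨m₀, fun m hm => ?_⟩
    obtain ⟨h3, h4⟩ := hm₀ m hm
    have hm' : (0 : ℝ) < m := by exact_mod_cast h4
    rw [div_lt_iff₀ hm'] at h3
    have h5 : Real.exp L * (1 + ε) = Real.exp (L + Real.log (1 + ε)) := by
      rw [Real.exp_add, Real.exp_log (by linarith)]
    rw [h5, ← Real.exp_nat_mul, ← Real.exp_log (hpos m), Real.exp_le_exp]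
    linarith

end Pool.Agent.Lib.MP_16285c_agN
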