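import Pool.Agent.Lib.MP_16285c_agN.T3.SpecB

/-!
# Generic combinations are relatively prime to the denominator (XGen)
-/

set_option autoImplicit false

namespace Pool.Agent.Lib.MP_16285c_agN

open Pool.Agent.Lib.MP_16285c_ag

namespace T3XGenM

/-- Vandermonde: an element dividing `n + 1` different values divides all coefficients. -/
theorem vand {K R : Type} [Field K] [CommRing R] [Algebra K R] (n : ℕ) (F : Fin (n + 1) → R) (q : R)
    (v : Fin (n + 1) → K) (hv : Function.Injective v)
    (h : ∀ k, q ∣ luN (algebraMap K R (v k)) F) (i : Fin (n + 1)) : q ∣ F i := by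
  classical
  have hdet : (Matrix.vandermonde v).det ≠ 0 := Matrix.det_vandermonde_ne_zero_iff.2 hv
  have hinv : (Matrix.vandermonde v)⁻¹ * Matrix.vandermonde v = 1 :=
    Matrix.nonsing_inv_mul _ (isUnit_iff_ne_zero.2 hdet)
  have hF : F i = ∑ k, algebraMap K R ((Matrix.vandermonde v)⁻¹ i k) *
      luN (algebraMap K R (v k)) F := by
    unfold luN
    simp_rw [Finset.mul_sum]
    rw [Finset.sum_comm]
    have h1 : ∀ j : Fin (n + 1), ∑ k, algebraMap K R ((Matrix.vandermonde v)⁻¹ i k) *
        (algebraMap K R (v k) ^ (j : ℕ) * F j) =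
        algebraMap K R (((Matrix.vandermonde v)⁻¹ * Matrix.vandermonde v) i j) * F j := by
      intro j
      rw [Matrix.mul_apply, map_sum, Finset.sum_mul]
      refine Finset.sum_congr rfl fun k _ => ?_
      rw [Matrix.vandermonde_apply, map_mul, map_pow, mul_assoc]
    simp_rw [h1, hinv, Matrix.one_apply]
    simp
  rw [hF]
  exact Finset.dvd_sum fun k _ => Dvd.dvd.mul_left (h k) _

/-- A nonunit divides only finitely many values. -/
theorem fin1 {K : Type} [Field K] (n : ℕ) (F : Fin (n + 1) → Pl n K)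
    (hF : ∀ c : Pl n K, (∀ i, c ∣ F i) → IsUnit c) (q : Pl n K) (hq : ¬ IsUnit q) :
    {u : K | q ∣ luN (MvPolynomial.C u) F}.Finite := by
  by_contra hinf
  have hi : {u : K | q ∣ luN (MvPolynomial.C u) F}.Infinite := hinf
  let v : Fin (n + 1) → K := fun k => (hi.natEmbedding _ (k : ℕ) : K)
  have hv : Function.Injective v := by
    intro a b hab
    exact Fin.ext ((hi.natEmbedding _).injective (Subtype.ext hab))
  have hd : ∀ k, q ∣ luN (algebraMap K (Pl n K) (v k)) F := fun k =>
    (hi.natEmbedding _ (k : ℕ)).2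
  exact hq (hF q (fun i => vand n F q v hv hd i))

end T3XGenM

/-- Generic combinations (XGen). -/
theorem tXGen : StmtXGen := by
  classical
  intro K _ n F hF h0
  refine Set.Finite.subset (s := ⋃ q ∈ (UniqueFactorizationMonoid.factors (F 0)).toFinset,
    {u : K | q ∣ luN (MvPolynomial.C u) F}) ?_ ?_
  · refine Set.Finite.biUnion (Finset.finite_toSet _) ?_
    intro q hq
    have hq' : q ∈ UniqueFactorizationMonoid.factors (F 0) := by
      simpa using hq
    exact T3XGenM.fin1 n F hF q (UniqueFactorizationMonoid.irreducible_of_factor q hq').not_isUnit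
  · intro u hu
    have hu' : ¬ IsRelPrime (luN (MvPolynomial.C u) F) (F 0) := hu
    unfold IsRelPrime at hu'
    push Not at hu'
    obtain ⟨d, hd1, hd2, hd3⟩ := hu'
    have hd0 : d ≠ 0 := by
      rintro rfl
      exact h0 (zero_dvd_iff.1 hd2)
    obtain ⟨p, hp, hpd⟩ := WfDvdMonoid.exists_irreducible_factor hd3 hd0
    obtain ⟨q, hq, hpq⟩ := UniqueFactorizationMonoid.exists_mem_factors_of_dvd h0 hp (hpd.trans hd2)
    refine Set.mem_biUnion (x := q) ?_ ?_
    · simpa using hq
    · exact (hpq.symm.dvd).trans (hpd.trans hd1)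

end Pool.Agent.Lib.MP_16285c_agN
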