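import Pool.Agent.Lib.MP_16285c_agN.T3.SpecC

/-!
# Irreducibility after the substitution of a general line (XHB)
-/

set_option autoImplicit false

namespace Pool.Agent.Lib.MP_16285c_agN

open Pool.Agent.Lib.MP_16285c_ag

namespace T3XHBM

variable {K : Type} [Field K] {n : ℕ}

/-- From polynomials over `K[S]` to polynomials over `K(S)`. -/
noncomputable def up (K : Type) [Field K] (n : ℕ) :
    MvPolynomial (Fin n) (Polynomial K) →+* Pl n (RatFunc K) :=
  MvPolynomial.map (algebraMap (Polynomial K) (RatFunc K))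

theorem up_inj : Function.Injective (up K n) :=
  MvPolynomial.map_injective _ (IsFractionRing.injective (Polynomial K) (RatFunc K))

/-- Common denominators. -/
theorem den (a : Pl n (RatFunc K)) : ∃ (b : MvPolynomial (Fin n) (Polynomial K))
    (m : Polynomial K), m ≠ 0 ∧ a * up K n (MvPolynomial.C m) = up K n b := by
  induction a using MvPolynomial.induction_on with
  | C r =>
    obtain ⟨x, y, hy, hxy⟩ := IsFractionRing.div_surjective (A := Polynomial K) r
    have hy0 : y ≠ 0 := nonZeroDivisors.ne_zero hy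
    have hy1 : algebraMap (Polynomial K) (RatFunc K) y ≠ 0 := fun h =>
      hy0 ((map_eq_zero_iff _ (IsFractionRing.injective (Polynomial K) (RatFunc K))).1 h)
    refine ⟨MvPolynomial.C x, y, hy0, ?_⟩
    unfold up
    rw [MvPolynomial.map_C, MvPolynomial.map_C, ← map_mul, ← hxy, div_mul_cancel₀ _ hy1]
  | add p q hp hq =>
    obtain ⟨b, m, hm, h1⟩ := hp
    obtain ⟨b', m', hm', h2⟩ := hq
    refine ⟨b * MvPolynomial.C m' + b' * MvPolynomial.C m, m * m', mul_ne_zero hm hm', ?_⟩
    rw [map_add, map_mul (up K n) b, map_mul (up K n) b', ← h1, ← h2, MvPolynomial.C_mul,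
      map_mul (up K n) (MvPolynomial.C m)]
    ring
  | mul_X p i hp =>
    obtain ⟨b, m, hm, h1⟩ := hp
    refine ⟨b * MvPolynomial.X i, m, hm, ?_⟩
    rw [map_mul (up K n) b, ← h1]
    have h2 : up K n (MvPolynomial.X i) = MvPolynomial.X i := by
      unfold up
      rw [MvPolynomial.map_X]
    rw [h2]
    ring

/-- From polynomials over `K[S]` to the field of fractions over `K(S)`. -/
noncomputable def jj (K : Type) [Field K] (n : ℕ) :
    MvPolynomial (Fin n) (Polynomial K) →+* RF n (RatFunc K) :=
  (algebraMap (Pl n (RatFunc K)) (RF n (RatFunc K))).comp (up K n)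

theorem jj_inj : Function.Injective (jj K n) :=
  (IsFractionRing.injective (Pl n (RatFunc K)) (RF n (RatFunc K))).comp up_inj

theorem jj_frac : @IsFractionRing (MvPolynomial (Fin n) (Polynomial K)) _
    (RF n (RatFunc K)) _ (jj K n).toAlgebra := by
  let _ : Algebra (MvPolynomial (Fin n) (Polynomial K)) (RF n (RatFunc K)) := (jj K n).toAlgebra
  have hj : ∀ x, algebraMap (MvPolynomial (Fin n) (Polynomial K)) (RF n (RatFunc K)) x =
      jj K n x := fun _ => rfl
  refine ⟨?_, ?_, ?_⟩
  · intro y
    rw [hj]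
    refine isUnit_iff_ne_zero.2 fun h => ?_
    exact nonZeroDivisors.ne_zero y.2 ((map_eq_zero_iff _ jj_inj).1 h)
  · intro z
    obtain ⟨a, b, hb, hz⟩ := IsFractionRing.div_surjective (A := Pl n (RatFunc K)) z
    have hb0 : b ≠ 0 := nonZeroDivisors.ne_zero hb
    obtain ⟨a', m, hm, ha⟩ := den a
    obtain ⟨b', m', hm', hb'⟩ := den b
    have hC : ∀ q : Polynomial K, q ≠ 0 →
        (MvPolynomial.C q : MvPolynomial (Fin n) (Polynomial K)) ≠ 0 := fun q hq h =>
      hq (MvPolynomial.C_injective _ _ (h.trans (map_zero _).symm))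
    have hb'0 : b' ≠ 0 := by
      rintro rfl
      rw [map_zero] at hb'
      rcases mul_eq_zero.1 hb' with h | h
      · exact hb0 h
      · exact hC m' hm' ((map_eq_zero_iff _ up_inj).1 h)
    refine ⟨(a' * MvPolynomial.C m', ⟨b' * MvPolynomial.C m,
      mem_nonZeroDivisors_of_ne_zero (mul_ne_zero hb'0 (hC m hm))⟩), ?_⟩
    show z * jj K n (b' * MvPolynomial.C m) = jj K n (a' * MvPolynomial.C m')
    have hbq : algebraMap (Pl n (RatFunc K)) (RF n (RatFunc K)) b ≠ 0 := fun h =>
      hb0 ((map_eq_zero_iff _ (IsFractionRing.injective (Pl n (RatFunc K))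
        (RF n (RatFunc K)))).1 h)
    unfold jj
    rw [RingHom.comp_apply, RingHom.comp_apply, map_mul (up K n), map_mul (up K n), ← ha, ← hb',
      ← hz, map_mul, map_mul, map_mul, map_mul]
    field_simp
  · intro x y hxy
    refine ⟨1, ?_⟩
    rw [jj_inj hxy]

/-- Irreducibility over `K(S)`. -/
theorem base (F : Polynomial (Pl n K)) (hF : F.Monic) (h : Irreducible F) :
    Irreducible (F.map (MvPolynomial.map (algebraMap K (RatFunc K)) :
      Pl n K →+* Pl n (RatFunc K))) := by
  let _ : Algebra (MvPolynomial (Fin n) (Polynomial K)) (RF n (RatFunc K)) := (jj K n).toAlgebra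
  have _ : IsFractionRing (MvPolynomial (Fin n) (Polynomial K)) (RF n (RatFunc K)) := jj_frac
  let u : Pl n K →+* MvPolynomial (Fin n) (Polynomial K) := MvPolynomial.map Polynomial.C
  let e : MvPolynomial (Fin n) (Polynomial K) →+* Pl n K :=
    MvPolynomial.map (Polynomial.evalRingHom 0)
  have hFu : (F.map u).Monic := hF.map u
  have heu : e.comp u = RingHom.id _ := by
    refine MvPolynomial.ringHom_ext (fun a => ?_) fun i => ?_
    · show MvPolynomial.map _ (MvPolynomial.map _ (MvPolynomial.C a)) = MvPolynomial.C a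
      rw [MvPolynomial.map_C, MvPolynomial.map_C, Polynomial.coe_evalRingHom,
        Polynomial.eval_C]
    · show MvPolynomial.map _ (MvPolynomial.map _ (MvPolynomial.X i)) = MvPolynomial.X i
      rw [MvPolynomial.map_X, MvPolynomial.map_X]
  have h1 : Irreducible (F.map u) := by
    refine Polynomial.Monic.irreducible_of_irreducible_map e _ hFu ?_
    rw [Polynomial.map_map, heu, Polynomial.map_id]
    exact h
  have h2 : Irreducible ((F.map u).map (algebraMap (MvPolynomial (Fin n) (Polynomial K))
      (RF n (RatFunc K)))) := (hFu.irreducible_iff_irreducible_map_fraction_map).1 h1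
  have h3 : (F.map u).map (algebraMap (MvPolynomial (Fin n) (Polynomial K))
      (RF n (RatFunc K))) = (F.map (MvPolynomial.map (algebraMap K (RatFunc K)) :
      Pl n K →+* Pl n (RatFunc K))).map (algebraMap (Pl n (RatFunc K)) (RF n (RatFunc K))) := by
    rw [Polynomial.map_map, Polynomial.map_map]
    congr 1
    refine MvPolynomial.ringHom_ext (fun a => ?_) fun i => ?_
    · show algebraMap (Pl n (RatFunc K)) (RF n (RatFunc K))
        (MvPolynomial.map _ (MvPolynomial.map _ (MvPolynomial.C a))) =
        algebraMap (Pl n (RatFunc K)) (RF n (RatFunc K)) (MvPolynomial.map _ (MvPolynomial.C a))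
      rw [MvPolynomial.map_C, MvPolynomial.map_C, MvPolynomial.map_C]
      rfl
    · show algebraMap (Pl n (RatFunc K)) (RF n (RatFunc K))
        (MvPolynomial.map _ (MvPolynomial.map _ (MvPolynomial.X i))) =
        algebraMap (Pl n (RatFunc K)) (RF n (RatFunc K)) (MvPolynomial.map _ (MvPolynomial.X i))
      rw [MvPolynomial.map_X, MvPolynomial.map_X, MvPolynomial.map_X]
  rw [h3] at h2
  exact Polynomial.Monic.irreducible_of_irreducible_map _ _ (hF.map _) h2

/-- The inverse substitution. -/
noncomputable def inv (c : Fin n → K) : Pl n (RatFunc K) →+* Pl n (RatFunc K) :=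
  MvPolynomial.eval₂Hom MvPolynomial.C fun i => MvPolynomial.C (RatFunc.X⁻¹ : RatFunc K) *
    (MvPolynomial.X i - MvPolynomial.C (algebraMap K (RatFunc K) (c i)))

theorem lsub_C (c : Fin n → K) (a : K) :
    lsub c (MvPolynomial.C a) = MvPolynomial.C (algebraMap K (RatFunc K) a) := by
  unfold lsub
  exact MvPolynomial.eval₂_C _ _ _

theorem lsub_X (c : Fin n → K) (i : Fin n) :
    lsub c (MvPolynomial.X i) = MvPolynomial.C (algebraMap K (RatFunc K) (c i)) +
      MvPolynomial.C RatFunc.X * MvPolynomial.X i := by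
  unfold lsub
  exact MvPolynomial.eval₂_X _ _ _

theorem inv_C (c : Fin n → K) (r : RatFunc K) :
    inv c (MvPolynomial.C r) = MvPolynomial.C r := by
  unfold inv
  exact MvPolynomial.eval₂_C _ _ _

theorem inv_X (c : Fin n → K) (i : Fin n) :
    inv c (MvPolynomial.X i) = MvPolynomial.C (RatFunc.X⁻¹ : RatFunc K) *
      (MvPolynomial.X i - MvPolynomial.C (algebraMap K (RatFunc K) (c i))) := by
  unfold inv
  exact MvPolynomial.eval₂_X _ _ _

theorem inv_lsub (c : Fin n → K) :
    (inv c).comp (lsub c) = (MvPolynomial.map (algebraMap K (RatFunc K)) :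
      Pl n K →+* Pl n (RatFunc K)) := by
  refine MvPolynomial.ringHom_ext (fun a => ?_) fun i => ?_
  · rw [RingHom.comp_apply, lsub_C, inv_C, MvPolynomial.map_C]
  · have hX : (RatFunc.X : RatFunc K) ≠ 0 := RatFunc.X_ne_zero
    rw [RingHom.comp_apply, lsub_X, map_add, map_mul, inv_C, inv_C, inv_X,
      MvPolynomial.map_X, ← mul_assoc, ← MvPolynomial.C_mul, mul_inv_cancel₀ hX,
      MvPolynomial.C_1, one_mul]
    ring

end T3XHBM

open T3XHBM in
theorem tXHB : StmtXHB := by
  intro K _ _ n F hF hirr c
  have h1 : Irreducible F := Polynomial.Monic.irreducible_of_irreducible_map _ _ hF hirr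
  have h2 := base F hF h1
  have hFl : (F.map (lsub c)).Monic := hF.map _
  have h3 : Irreducible (F.map (lsub c)) := by
    refine Polynomial.Monic.irreducible_of_irreducible_map (inv c) _ hFl ?_
    rw [Polynomial.map_map, inv_lsub]
    exact h2
  exact (hFl.irreducible_iff_irreducible_map_fraction_map).1 h3

end Pool.Agent.Lib.MP_16285c_agN
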