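import Pool.Agent.Lib.MP_16285c_agN.T3.SpecC

/-!
# Hilbert points on a line
-/

set_option autoImplicit false

namespace Pool.Agent.Lib.MP_16285c_agN

open Pool.Agent.Lib.MP_16285c_ag

namespace T3XHLM

variable {K : Type} [Field K] {n : ℕ}

/-- The substitution `X i ↦ c i + q X i`. -/
noncomputable def fwd (c : Fin n → K) (q : K) : Pl n K →ₐ[K] Pl n K :=
  MvPolynomial.aeval fun i => MvPolynomial.C (c i) + MvPolynomial.C q * MvPolynomial.X i

/-- The substitution `X i ↦ q⁻¹ (X i - c i)`. -/
noncomputable def bwd (c : Fin n → K) (q : K) : Pl n K →ₐ[K] Pl n K :=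
  MvPolynomial.aeval fun i => MvPolynomial.C q⁻¹ * (MvPolynomial.X i - MvPolynomial.C (c i))

theorem hom_C (φ : Pl n K →ₐ[K] Pl n K) (a : K) : φ (MvPolynomial.C a) = MvPolynomial.C a := by
  rw [← MvPolynomial.algebraMap_eq]
  exact φ.commutes a

theorem bwd_fwd (c : Fin n → K) (q : K) (hq : q ≠ 0) (P : Pl n K) : bwd c q (fwd c q P) = P := by
  have h : (bwd c q).comp (fwd c q) = AlgHom.id K (Pl n K) := by
    refine MvPolynomial.algHom_ext fun i => ?_
    rw [AlgHom.comp_apply, fwd, MvPolynomial.aeval_X, map_add, map_mul, hom_C, hom_C, bwd,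
      MvPolynomial.aeval_X, ← mul_assoc, ← MvPolynomial.C_mul, mul_inv_cancel₀ hq,
      MvPolynomial.C_1, one_mul, AlgHom.id_apply, add_sub_cancel]
  have := congrArg (fun φ : Pl n K →ₐ[K] Pl n K => φ P) h
  simpa using this

theorem lsub_inj (c : Fin n → K) : Function.Injective (lsub c) := by
  have h : lsub c = ((fwd (fun i => algebraMap K (RatFunc K) (c i)) RatFunc.X).toRingHom).comp
      (MvPolynomial.map (algebraMap K (RatFunc K))) := by
    refine MvPolynomial.ringHom_ext (fun a => ?_) (fun i => ?_)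
    · simp [lsub, fwd]
    · simp [lsub, fwd]
  intro P Q hPQ
  apply MvPolynomial.map_injective _ (algebraMap K (RatFunc K)).injective
  have h1 : fwd (fun i => algebraMap K (RatFunc K) (c i)) RatFunc.X
      (MvPolynomial.map (algebraMap K (RatFunc K)) P) =
      fwd (fun i => algebraMap K (RatFunc K) (c i)) RatFunc.X
      (MvPolynomial.map (algebraMap K (RatFunc K)) Q) := by
    rw [h] at hPQ
    exact hPQ
  rw [← bwd_fwd (fun i => algebraMap K (RatFunc K) (c i)) RatFunc.X RatFunc.X_ne_zero
    (MvPolynomial.map (algebraMap K (RatFunc K)) P), h1, bwd_fwd _ _ RatFunc.X_ne_zero]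

theorem fg (hS : ∃ S : Finset K, Subfield.closure (S : Set K) = ⊤) :
    ∃ S : Finset (RatFunc K), Subfield.closure (S : Set (RatFunc K)) = ⊤ := by
  classical
  obtain ⟨S, hS⟩ := hS
  refine ⟨insert RatFunc.X (S.image (algebraMap K (RatFunc K))), ?_⟩
  obtain ⟨T, hT⟩ : ∃ T : Subfield (RatFunc K), T = Subfield.closure
    ((insert RatFunc.X (S.image (algebraMap K (RatFunc K))) : Finset (RatFunc K)) :
      Set (RatFunc K)) := ⟨_, rfl⟩
  rw [← hT]
  have hX : (RatFunc.X : RatFunc K) ∈ T := by
    rw [hT]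
    exact Subfield.subset_closure (by simp)
  have hC : ∀ a : K, algebraMap K (RatFunc K) a ∈ T := by
    intro a
    have h1 : Subfield.map (algebraMap K (RatFunc K)) (Subfield.closure (S : Set K)) ≤ T := by
      rw [RingHom.map_field_closure, hT]
      refine Subfield.closure_mono ?_
      intro y hy
      obtain ⟨b, hb, rfl⟩ := hy
      simp only [Finset.coe_insert, Finset.coe_image]
      exact Set.mem_insert_of_mem _ ⟨b, hb, rfl⟩
    rw [hS] at h1
    exact h1 ⟨a, Subfield.mem_top a, rfl⟩
  have hP : ∀ p : Polynomial K, algebraMap (Polynomial K) (RatFunc K) p ∈ T := by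
    intro p
    induction p using Polynomial.induction_on' with
    | add p q hp hq => rw [map_add]; exact T.add_mem hp hq
    | monomial m a =>
      rw [← Polynomial.C_mul_X_pow_eq_monomial, map_mul, map_pow, RatFunc.algebraMap_X,
        RatFunc.algebraMap_C]
      exact T.mul_mem (hC a) (T.pow_mem hX m)
  rw [eq_top_iff]
  intro x _
  rw [← RatFunc.num_div_denom x]
  exact T.div_mem (hP _) (hP _)

/-- The substitution `X i ↦ c i + w i q X 0`. -/
noncomputable def th (c w : Fin n → K) (q : K) : Pl n K →+* Pl 1 K :=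
  MvPolynomial.eval₂Hom MvPolynomial.C
    fun i => MvPolynomial.C (c i) + MvPolynomial.C (w i) * (MvPolynomial.C q * MvPolynomial.X 0)

end T3XHLM

open T3XHLM in
theorem tXHL : StmtXHB → StmtHITK → StmtXHL := by
  intro hB hH K _ _ hS n F G R hF hirr hG hR c
  have : CharZero (RatFunc K) :=
    charZero_of_injective_algebraMap (algebraMap K (RatFunc K)).injective
  obtain ⟨w, hw1, hw2⟩ := hH (RatFunc K) (fg hS) n (F.map (lsub c))
    (lsub c G * MvPolynomial.map (algebraMap K (RatFunc K)) R) (hF.map _) (hB K n F hF hirr c)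
    (mul_ne_zero ((map_ne_zero_iff _ (lsub_inj c)).2 hG)
      ((map_ne_zero_iff _ (MvPolynomial.map_injective _ (algebraMap K (RatFunc K)).injective)).2
        hR))
  rw [map_mul] at hw2
  have hR1 : (MvPolynomial.eval fun i => ((w i : ℤ) : RatFunc K)).comp
      (MvPolynomial.map (algebraMap K (RatFunc K))) =
      (algebraMap K (RatFunc K)).comp (MvPolynomial.eval fun i => ((w i : ℤ) : K)) := by
    refine MvPolynomial.ringHom_ext (fun a => ?_) (fun i => ?_)
    · simp
    · simp
  refine ⟨w, ?_, ?_⟩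
  · intro h0
    apply right_ne_zero_of_mul hw2
    have h1 := congrArg (fun φ : Pl n K →+* RatFunc K => φ R) hR1
    simp only [RingHom.comp_apply] at h1
    rw [h1, h0, map_zero]
  · intro q hq
    obtain ⟨φ, hφ⟩ : ∃ φ : Pl 1 K →+* RatFunc K, φ = MvPolynomial.eval₂Hom
      (algebraMap K (RatFunc K)) fun _ => algebraMap K (RatFunc K) q⁻¹ * RatFunc.X := ⟨_, rfl⟩
    obtain ⟨θ, hθ⟩ : ∃ θ : Pl n K →+* Pl 1 K, θ = th c (fun i => ((w i : ℤ) : K)) q := ⟨_, rfl⟩
    have hq1 : algebraMap K (RatFunc K) q * algebraMap K (RatFunc K) q⁻¹ = 1 := by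
      rw [← map_mul, mul_inv_cancel₀ hq, map_one]
    have h2 : φ.comp θ = (MvPolynomial.eval fun i => ((w i : ℤ) : RatFunc K)).comp (lsub c) := by
      refine MvPolynomial.ringHom_ext (fun a => ?_) (fun i => ?_)
      · simp [hφ, hθ, th, lsub]
      · simp only [hφ, hθ, th, lsub, RingHom.comp_apply, MvPolynomial.coe_eval₂Hom,
          MvPolynomial.eval₂_X, map_add, map_mul,
          MvPolynomial.eval₂_C, MvPolynomial.eval_C, MvPolynomial.eval_X, map_intCast]
        linear_combination ((w i : ℤ) : RatFunc K) * RatFunc.X * hq1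
    have h3 : Irreducible (F.map θ) := by
      refine Polynomial.Monic.irreducible_of_irreducible_map φ _ (hF.map θ) ?_
      rw [Polynomial.map_map, h2, ← Polynomial.map_map]
      exact hw1
    have h4 : Irreducible ((F.map θ).map (algebraMap (Pl 1 K) (RF 1 K))) :=
      (Polynomial.Monic.irreducible_iff_irreducible_map_fraction_map (hF.map θ)).1 h3
    have h5 : θ G ≠ 0 := by
      intro h0
      apply left_ne_zero_of_mul hw2
      have h1 := congrArg (fun ψ : Pl n K →+* RatFunc K => ψ G) h2
      simp only [RingHom.comp_apply] at h1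
      rw [← h1, h0, map_zero]
    obtain ⟨x, hx1, hx2⟩ := hH K hS 1 (F.map θ) (θ G * MvPolynomial.X 0) (hF.map θ) h4
      (mul_ne_zero h5 (MvPolynomial.X_ne_zero 0))
    have h6 : (MvPolynomial.eval fun i => ((x i : ℤ) : K)).comp θ =
        MvPolynomial.eval (lptN c (fun i => ((w i : ℤ) : K)) (q * ((x 0 : ℤ) : K))) := by
      refine MvPolynomial.ringHom_ext (fun a => ?_) (fun i => ?_)
      · simp [hθ, th]
      · simp only [hθ, th, RingHom.comp_apply, MvPolynomial.coe_eval₂Hom,
          MvPolynomial.eval₂_X, map_add, map_mul, MvPolynomial.eval_C, MvPolynomial.eval_X, lptN]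
        ring
    rw [map_mul, MvPolynomial.eval_X] at hx2
    refine ⟨x 0, ?_, ?_, ?_⟩
    · intro h0
      apply right_ne_zero_of_mul hx2
      rw [h0, Int.cast_zero]
    · rw [← h6, ← Polynomial.map_map]
      exact hx1
    · rw [← h6]
      exact left_ne_zero_of_mul hx2

end Pool.Agent.Lib.MP_16285c_agN
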