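import Pool.Agent.Lib.MP_16285c_agN.T3.SpecB

/-!
# The height inequality for families
-/

set_option autoImplicit false

namespace Pool.Agent.Lib.MP_16285c_agN

open Pool.Agent.Lib.MP_16285c_ag

namespace T3XHtFM

/-- The total degree of a finite sum. -/
lemma totalDegree_sum_le' {K : Type} [Field K] {ι : Type} (s : Finset ι) (f : ι → Pl 3 K) (n : ℕ)
    (h : ∀ i ∈ s, (f i).totalDegree ≤ n) : (∑ i ∈ s, f i).totalDegree ≤ n := by
  classical
  induction s using Finset.induction_on with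
  | empty => simp
  | insert a s ha ih =>
    rw [Finset.sum_insert ha]
    refine (MvPolynomial.totalDegree_add _ _).trans (max_le ?_ ?_)
    · exact h a (Finset.mem_insert_self _ _)
    · exact ih fun i hi => h i (Finset.mem_insert_of_mem hi)

/-- Homogeneous with coefficients of bounded degree. -/
def Bd {K : Type} [Field K] (G : MvPolynomial (Fin 4) (Pl 3 K)) (q P : ℕ) : Prop :=
  G.IsHomogeneous q ∧ ∀ α, (G.coeff α).totalDegree ≤ P

lemma Bd.mul {K : Type} [Field K] {G H : MvPolynomial (Fin 4) (Pl 3 K)} {q P q' P' : ℕ}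
    (h : Bd G q P) (h' : Bd H q' P') : Bd (G * H) (q + q') (P + P') := by
  classical
  refine ⟨h.1.mul h'.1, fun α => ?_⟩
  rw [MvPolynomial.coeff_mul]
  refine totalDegree_sum_le' _ _ _ fun x _ => ?_
  exact (MvPolynomial.totalDegree_mul _ _).trans (add_le_add (h.2 _) (h'.2 _))

lemma Bd.prod {K : Type} [Field K] {ι : Type} (s : Finset ι) (G : ι → MvPolynomial (Fin 4) (Pl 3 K))
    (q P : ℕ) (h : ∀ u ∈ s, Bd (G u) q P) : Bd (∏ u ∈ s, G u) (s.card * q) (s.card * P) := by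
  classical
  induction s using Finset.induction_on with
  | empty =>
    refine ⟨by simpa using MvPolynomial.isHomogeneous_one _ _, fun α => ?_⟩
    rw [Finset.prod_empty, MvPolynomial.coeff_one]
    split_ifs <;> simp
  | insert a s ha ih =>
    rw [Finset.prod_insert ha, Finset.card_insert_of_notMem ha, Nat.succ_mul, Nat.succ_mul,
      add_comm (s.card * q), add_comm (s.card * P)]
    exact (h a (Finset.mem_insert_self _ _)).mul
      (ih fun i hi => h i (Finset.mem_insert_of_mem hi))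

lemma Bd.C {K : Type} [Field K] (S : Pl 3 K) (P : ℕ) (h : S.totalDegree ≤ P) :
    Bd (MvPolynomial.C S : MvPolynomial (Fin 4) (Pl 3 K)) 0 P := by
  classical
  refine ⟨MvPolynomial.isHomogeneous_C _ _, fun α => ?_⟩
  rw [MvPolynomial.coeff_C]
  split_ifs
  · exact h
  · simp

/-- The degree of a value. -/
lemma Bd.eval {K : Type} [Field K] {G : MvPolynomial (Fin 4) (Pl 3 K)} {q P D : ℕ}
    (h : Bd G q P) (Z : Fin 4 → Pl 3 K) (hZ : ∀ i, (Z i).totalDegree ≤ D) :
    (MvPolynomial.eval Z G).totalDegree ≤ P + q * D := by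
  classical
  rw [MvPolynomial.eval_eq']
  refine totalDegree_sum_le' _ _ _ fun α hα => ?_
  refine (MvPolynomial.totalDegree_mul _ _).trans (add_le_add (h.2 _) ?_)
  refine (MvPolynomial.totalDegree_finsetProd _ _).trans ?_
  have hdeg : ∑ i, α i = q := by
    have := h.1 (MvPolynomial.mem_support_iff.1 hα)
    rw [Finsupp.weight_apply] at this
    simpa [Finsupp.sum_fintype] using this
  calc ∑ i, (Z i ^ α i).totalDegree ≤ ∑ i, α i * D :=
        Finset.sum_le_sum fun i _ =>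
          (MvPolynomial.totalDegree_pow _ _).trans (Nat.mul_le_mul_left _ (hZ i))
    _ = q * D := by rw [← Finset.sum_mul, hdeg]

lemma totalDegree_map_le' {K₀ K : Type} [Field K₀] [Field K] (φ : K₀ →+* K) (p : Pl 3 K₀) :
    (MvPolynomial.map φ p).totalDegree ≤ p.totalDegree :=
  Finset.sup_mono (MvPolynomial.support_map_subset _ _)

/-- Base change and evaluation. -/
lemma eval_base {K₀ K : Type} [Field K₀] [Field K] [Algebra K₀ K] (x : Fin 3 → K)
    (Z : Fin 4 → Pl 3 K₀) (H : MvPolynomial (Fin 4) (Pl 3 K₀)) :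
    MvPolynomial.eval (fun i => MvPolynomial.aeval x (Z i))
      (MvPolynomial.map (MvPolynomial.eval x)
        (MvPolynomial.map (MvPolynomial.map (algebraMap K₀ K)) H)) =
      MvPolynomial.aeval x (MvPolynomial.eval Z H) := by
  have hcomp : (MvPolynomial.eval x).comp (MvPolynomial.map (algebraMap K₀ K)) =
      ((MvPolynomial.aeval x : Pl 3 K₀ →ₐ[K₀] K) : Pl 3 K₀ →+* K) := by
    refine MvPolynomial.ringHom_ext ?_ ?_
    · intro r
      simp
    · intro i
      simp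
  rw [MvPolynomial.map_map, hcomp]
  have h : ((MvPolynomial.eval (fun i => MvPolynomial.aeval x (Z i))).comp
      (MvPolynomial.map ((MvPolynomial.aeval x : Pl 3 K₀ →ₐ[K₀] K) : Pl 3 K₀ →+* K))) =
      ((MvPolynomial.aeval x : Pl 3 K₀ →ₐ[K₀] K) : Pl 3 K₀ →+* K).comp (MvPolynomial.eval Z) := by
    refine MvPolynomial.ringHom_ext ?_ ?_
    · intro r
      rw [RingHom.comp_apply, RingHom.comp_apply, MvPolynomial.map_C, MvPolynomial.eval_C,
        MvPolynomial.eval_C]
    · intro i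
      rw [RingHom.comp_apply, RingHom.comp_apply, MvPolynomial.map_X, MvPolynomial.eval_X,
        MvPolynomial.eval_X]
      rfl
  exact congrArg (fun φ => φ H) h

end T3XHtFM

theorem tXHtF : StmtXLow → StmtXUpB → StmtXHt' := by
  intro hLow hUp K₀ _ _ F Z P₁ j₁ q₁ hP₁ hj₁ hq₁ hbad
  classical
  obtain ⟨D, hD⟩ : ∃ D : ℕ, ∀ i, (Z i).totalDegree ≤ D :=
    ⟨∑ i, (Z i).totalDegree, fun i =>
      Finset.single_le_sum (f := fun i => (Z i).totalDegree) (fun _ _ => Nat.zero_le _)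
        (Finset.mem_univ i)⟩
  obtain ⟨n, hn⟩ : ∃ n : ℕ, n = 3 * (P₁ + j₁ * D) := ⟨_, rfl⟩
  have hn1 : 1 ≤ n := by
    have : 0 ≤ j₁ * D := Nat.zero_le _
    omega
  obtain ⟨s, hs, hscard⟩ : ∃ s : Finset K₀,
      (∀ u ∈ s, ∃ i₀ : ℕ, ∀ i, i₀ ≤ i →
        Sct (luN (MvPolynomial.C u) F) Z (P₁ * i) (j₁ * i) (q₁ * i)) ∧ s.card = n + 3 := by
    have hinf : {u : K₀ | ∃ i₀ : ℕ, ∀ i, i₀ ≤ i →
        Sct (luN (MvPolynomial.C u) F) Z (P₁ * i) (j₁ * i) (q₁ * i)}.Infinite := by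
      have hinfK : Infinite K₀ := CharZero.infinite K₀
      have h1 := hbad.infinite_compl
      refine h1.mono ?_
      intro u hu
      by_contra h2
      exact hu h2
    obtain ⟨s, hsub, hcard⟩ := hinf.exists_subset_card_eq (n + 3)
    exact ⟨s, fun u hu => hsub hu, hcard⟩
  choose! i₀ hi₀ using hs
  obtain ⟨i, hi1, hi2⟩ : ∃ i : ℕ, 1 ≤ i ∧ ∀ u ∈ s, i₀ u ≤ i :=
    ⟨max 1 (s.sup i₀), le_max_left _ _, fun u hu => le_max_of_le_right (Finset.le_sup hu)⟩
  have hG := fun (u : K₀) (hu : u ∈ s) => hi₀ u hu i (hi2 u hu)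
  unfold Sct at hG
  choose! G hGhom hGdeg hGne hGdvd using hG
  choose! S hS using hGdvd
  obtain ⟨j, hj⟩ : ∃ j : ℕ, j = j₁ * i := ⟨_, rfl⟩
  obtain ⟨P, hP⟩ : ∃ P : ℕ, P = P₁ * i := ⟨_, rfl⟩
  obtain ⟨q, hq⟩ : ∃ q : ℕ, q = q₁ * i := ⟨_, rfl⟩
  have hBd : ∀ u ∈ s, T3XHtFM.Bd (G u) j P := fun u hu => by
    subst hj hP
    exact ⟨hGhom u hu, hGdeg u hu⟩
  have hSne : ∀ u ∈ s, S u ≠ 0 := fun u hu h0 => hGne u hu (by rw [hS u hu, h0, mul_zero])
  have hSdeg : ∀ u ∈ s, (S u).totalDegree ≤ P + j * D := fun u hu => by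
    have h1 := (hBd u hu).eval Z hD
    rw [hS u hu] at h1
    have hΛ : (luN (MvPolynomial.C u) F) ^ (q₁ * i) ≠ 0 := by
      intro h0
      exact hGne u hu (by rw [hS u hu, h0, zero_mul])
    rw [MvPolynomial.totalDegree_mul_of_isDomain hΛ (hSne u hu)] at h1
    omega
  obtain ⟨H, hH⟩ : ∃ H : Finset K₀ → MvPolynomial (Fin 4) (Pl 3 K₀), H = fun t =>
    (∏ u ∈ t, G u) * ∏ u ∈ s \ t, MvPolynomial.C (S u) := ⟨_, rfl⟩
  obtain ⟨P', hP'⟩ : ∃ P' : ℕ, P' = n * P + 3 * (P + j * D) := ⟨_, rfl⟩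
  have hHBd : ∀ t ∈ Finset.powersetCard n s, T3XHtFM.Bd (H t) (n * j) P' := by
    intro t ht
    rw [Finset.mem_powersetCard] at ht
    have h1 := T3XHtFM.Bd.prod t G j P fun u hu => hBd u (ht.1 hu)
    have h2 := T3XHtFM.Bd.prod (s \ t) (fun u => MvPolynomial.C (S u)) 0 (P + j * D)
      fun u hu => T3XHtFM.Bd.C _ _ (hSdeg u (Finset.mem_sdiff.1 hu).1)
    have hc : (s \ t).card = 3 := by
      rw [Finset.card_sdiff_of_subset ht.1, hscard, ht.2]
      omega
    have h3 := h1.mul h2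
    rw [ht.2, hc] at h3
    rw [hP', hH]
    simpa using h3
  have hHval : ∀ t ∈ Finset.powersetCard n s, MvPolynomial.eval Z (H t) =
      (∏ u ∈ t, luN (MvPolynomial.C u) F) ^ q * ∏ u ∈ s, S u := by
    intro t ht
    rw [Finset.mem_powersetCard] at ht
    rw [hH, hq]
    simp only [map_mul, map_prod, MvPolynomial.eval_C]
    rw [Finset.prod_congr rfl fun u hu => hS u (ht.1 hu), Finset.prod_mul_distrib,
      Finset.prod_pow, mul_assoc, ← Finset.prod_sdiff ht.1]
    ring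
  refine ⟨∏ u ∈ s, S u, Finset.prod_ne_zero_iff.2 hSne, ?_⟩
  intro K _ _ _
  obtain ⟨C₁, hC₁⟩ := hLow K₀ 3 s n (by omega) K
  obtain ⟨C₂, hC₂⟩ := hUp K ↥(Finset.powersetCard n s) P' (n * j)
    (fun t => MvPolynomial.map (MvPolynomial.map (algebraMap K₀ K)) (H t))
    (fun t => (hHBd t.1 t.2).1.map _)
    (fun t α => by
      rw [MvPolynomial.coeff_map]
      exact (T3XHtFM.totalDegree_map_le' _ _).trans ((hHBd t.1 t.2).2 α))
  refine ⟨(C₂ + (q : ℝ) * C₁) / ((n : ℝ) * i), fun x hx => ?_⟩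
  obtain ⟨a, ha⟩ : ∃ a : Fin 4 → K, a = fun i => MvPolynomial.aeval x (F i) := ⟨_, rfl⟩
  obtain ⟨z, hz⟩ : ∃ z : Fin 4 → K, z = fun i => MvPolynomial.aeval x (Z i) := ⟨_, rfl⟩
  rw [← ha, ← hz]
  have hup := hC₂ x z
  have hlow := hC₁ a
  obtain ⟨w, hw⟩ : ∃ w : ↥(Finset.powersetCard n s) → K,
      w = fun t : ↥(Finset.powersetCard n s) => ∏ u ∈ t.1, luN (algebraMap K₀ K u) a := ⟨_, rfl⟩
  rw [← hw] at hlow
  have hval : (fun t : ↥(Finset.powersetCard n s) => MvPolynomial.eval z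
      (MvPolynomial.map (MvPolynomial.eval x)
        (MvPolynomial.map (MvPolynomial.map (algebraMap K₀ K)) (H t)))) =
      (MvPolynomial.aeval x (∏ u ∈ s, S u)) • (w ^ q) := by
    funext t
    rw [hz, T3XHtFM.eval_base, hHval t.1 t.2, map_mul, map_pow, map_prod, Pi.smul_apply,
      Pi.pow_apply, smul_eq_mul, mul_comm]
    congr 2
    rw [hw]
    refine Finset.prod_congr rfl fun u _ => ?_
    unfold luN
    rw [map_sum, ha]
    refine Finset.sum_congr rfl fun k _ => ?_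
    rw [map_mul, map_pow, MvPolynomial.aeval_C]
  rw [hval, Height.logHeight_smul_eq_logHeight _ hx, Height.logHeight_pow] at hup
  have hhx := Height.logHeight_nonneg (hcN x)
  have hnpos : (0 : ℝ) < (n : ℝ) * i := by
    have : 0 < n * i := Nat.mul_pos (by omega) hi1
    exact_mod_cast this
  have key : (q : ℝ) * (n * Height.logHeight a) ≤ (q : ℝ) * (Height.logHeight w + C₁) :=
    mul_le_mul_of_nonneg_left hlow (Nat.cast_nonneg _)
  have hP2 : (P' : ℝ) ≤ (n * i) * (2 * P₁) := by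
    have h1 : P' ≤ n * i * (2 * P₁) := by
      have h2 : P' = n * i * P₁ + n * i := by
        rw [hP', hP, hj]
        nth_rewrite 3 [hn]
        ring
      have h3 : n * i ≤ n * i * P₁ := Nat.le_mul_of_pos_right _ hP₁
      rw [h2]
      nlinarith [h3]
    exact_mod_cast h1
  have h4 : (P' : ℝ) * Height.logHeight (hcN x) ≤
      (n * i : ℝ) * (2 * P₁) * Height.logHeight (hcN x) :=
    mul_le_mul_of_nonneg_right hP2 hhx
  have hjR : ((n * j : ℕ) : ℝ) = n * (j₁ * i) := by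
    rw [hj]
    push_cast
    ring
  have hqR : (q : ℝ) = q₁ * i := by
    rw [hq]
    push_cast
    ring
  have hfin : (n * i : ℝ) * (q₁ * Height.logHeight a) ≤
      (n * i : ℝ) * (2 * P₁ * Height.logHeight (hcN x) + j₁ * Height.logHeight z +
        (C₂ + q * C₁) / (n * i)) := by
    have h5 : (n * i : ℝ) * ((C₂ + q * C₁) / (n * i)) = C₂ + q * C₁ :=
      mul_div_cancel₀ _ hnpos.ne'
    rw [mul_add, h5]
    rw [hjR] at hup
    have h6 : (n * i : ℝ) * (q₁ * Height.logHeight a) = (q : ℝ) * (n * Height.logHeight a) := by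
      rw [hqR]
      ring
    have h7 : (q : ℝ) * (Height.logHeight w + C₁) = q * Height.logHeight w + q * C₁ := by ring
    have h8 : (n * i : ℝ) * (2 * P₁ * Height.logHeight (hcN x) + j₁ * Height.logHeight z) =
        (n * i : ℝ) * (2 * P₁) * Height.logHeight (hcN x) +
          n * (j₁ * i) * Height.logHeight z := by ring
    rw [h6, h8]
    linarith [key, hup, h4, h7]
  exact le_of_mul_le_mul_left hfin hnpos

end Pool.Agent.Lib.MP_16285c_agN
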