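import Pool.Agent.Lib.MP_16285c_agN.T3.SpecA

/-!
# Lower bound: linear independence of the products
-/

set_option autoImplicit false

namespace Pool.Agent.Lib.MP_16285c_agN

open Pool.Agent.Lib.MP_16285c_ag

namespace T3XLBM

theorem mono {K E : Type} [Field K] [Field E] [Algebra K E] (s : ℕ) (m : Fin s → E) (w : E)
    (hai : AlgebraicIndependent K (Fin.cons w m : Fin (s + 1) → E)) :
    LinearIndependent K (fun t : (Fin s → ℕ) × ℕ => (∏ i, m i ^ t.1 i) * w ^ t.2) := by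
  have h2 : LinearIndependent K (fun σ : Fin (s + 1) →₀ ℕ =>
      MvPolynomial.aeval (Fin.cons w m : Fin (s + 1) → E) (MvPolynomial.monomial σ (1 : K))) := by
    have h := (MvPolynomial.basisMonomials (Fin (s + 1)) K).linearIndependent
    have h' := h.map' (MvPolynomial.aeval (Fin.cons w m : Fin (s + 1) → E)).toLinearMap
      (LinearMap.ker_eq_bot.2 hai)
    rw [MvPolynomial.coe_basisMonomials] at h'
    exact h'
  have hix : Function.Injective (fun t : (Fin s → ℕ) × ℕ =>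
      (Finsupp.equivFunOnFinite.symm (Fin.cons t.2 t.1 : Fin (s + 1) → ℕ) : Fin (s + 1) →₀ ℕ)) := by
    rintro ⟨β, r⟩ ⟨β', r'⟩ h
    have h1 := Finsupp.equivFunOnFinite.symm.injective h
    obtain ⟨h3, h4⟩ := Fin.cons_inj.1 h1
    exact Prod.ext h4 h3
  have h5 := h2.comp _ hix
  have heq : (fun t : (Fin s → ℕ) × ℕ => (∏ i, m i ^ t.1 i) * w ^ t.2) =
      (fun σ : Fin (s + 1) →₀ ℕ =>
        MvPolynomial.aeval (Fin.cons w m : Fin (s + 1) → E) (MvPolynomial.monomial σ (1 : K))) ∘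
      (fun t : (Fin s → ℕ) × ℕ => (Finsupp.equivFunOnFinite.symm
        (Fin.cons t.2 t.1 : Fin (s + 1) → ℕ) : Fin (s + 1) →₀ ℕ)) := by
    funext t
    show _ = MvPolynomial.aeval (Fin.cons w m : Fin (s + 1) → E) (MvPolynomial.monomial _ (1 : K))
    rw [MvPolynomial.aeval_monomial, map_one, one_mul, Finsupp.prod_fintype _ _ (fun i => pow_zero _),
      Fin.prod_univ_succ]
    simp only [Finsupp.equivFunOnFinite_symm_apply_apply, Fin.cons_zero, Fin.cons_succ]
    exact mul_comm _ _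
  rw [heq]
  exact h5

end T3XLBM

theorem tXLB : StmtXLB := by
  intro K E _ _ _ s e m w θ hai hθ j p
  have hw : w ∈ IntermediateField.adjoin K (insert w (Set.range m)) :=
    IntermediateField.subset_adjoin K _ (Set.mem_insert _ _)
  have hm : ∀ i, m i ∈ IntermediateField.adjoin K (insert w (Set.range m)) := fun i =>
    IntermediateField.subset_adjoin K _ (Set.mem_insert_of_mem _ ⟨i, rfl⟩)
  have hmem : ∀ t : (Fin s → ℕ) × ℕ, (∏ i, m i ^ t.1 i) * w ^ t.2 ∈
      IntermediateField.adjoin K (insert w (Set.range m)) := fun t =>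
    mul_mem (prod_mem fun i _ => pow_mem (hm i) _) (pow_mem hw _)
  have h1 : LinearIndependent K (fun t : (Fin s → ℕ) × ℕ =>
      (⟨(∏ i, m i ^ t.1 i) * w ^ t.2, hmem t⟩ :
        IntermediateField.adjoin K (insert w (Set.range m)))) :=
    LinearIndependent.of_comp
      (IntermediateField.adjoin K (insert w (Set.range m))).val.toLinearMap
      (T3XLBM.mono s m w hai)
  have h2 := linearIndependent_smul h1 hθ
  have hinj : Function.Injective
      (fun t : {β : Fin s → ℕ // ∑ i, β i ≤ j} × Fin (p + 1) × Fin e =>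
        ((((t.1 : Fin s → ℕ), (t.2.1 : ℕ)), t.2.2) : ((Fin s → ℕ) × ℕ) × Fin e)) := by
    rintro ⟨β, r, k⟩ ⟨β', r', k'⟩ h
    simp only [Prod.mk.injEq] at h
    obtain ⟨⟨h1, h2⟩, h3⟩ := h
    exact Prod.ext (Subtype.ext h1) (Prod.ext (Fin.ext h2) h3)
  have h3 := h2.comp _ hinj
  have heq : (fun t : {β : Fin s → ℕ // ∑ i, β i ≤ j} × Fin (p + 1) × Fin e =>
        θ t.2.2 * (∏ i, m i ^ (t.1 : Fin s → ℕ) i) * w ^ (t.2.1 : ℕ)) =
      (fun q : ((Fin s → ℕ) × ℕ) × Fin e =>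
        (⟨(∏ i, m i ^ q.1.1 i) * w ^ q.1.2, hmem q.1⟩ :
          IntermediateField.adjoin K (insert w (Set.range m))) • θ q.2) ∘
      (fun t : {β : Fin s → ℕ // ∑ i, β i ≤ j} × Fin (p + 1) × Fin e =>
        ((((t.1 : Fin s → ℕ), (t.2.1 : ℕ)), t.2.2) : ((Fin s → ℕ) × ℕ) × Fin e)) := by
    funext t
    show _ = ((∏ i, m i ^ (t.1 : Fin s → ℕ) i) * w ^ (t.2.1 : ℕ)) * θ t.2.2
    ring
  rw [heq]
  exact h3

end Pool.Agent.Lib.MP_16285c_agN
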