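import Pool.Agent.Lib.MP_16285c_agN.T3.SpecA
import Pool.Agent.Lib.MP_16285c_agN.Degr.Up

/-!
# A lattice
-/

set_option autoImplicit false

namespace Pool.Agent.Lib.MP_16285c_agN

open Pool.Agent.Lib.MP_16285c_ag

namespace T3XLatM

section

variable {k E : Type} [Field k] [Field E] [Algebra k E] {t : ℕ} (l : Fin (t + 1) → E)

/-- The value of a polynomial in the other variables. -/
noncomputable def ev : MvPolynomial (Fin t) k →ₐ[k] E :=
  MvPolynomial.aeval fun i : Fin t => l i.succ

/-- The value of a polynomial in the first variable. -/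
noncomputable def phi : Polynomial (MvPolynomial (Fin t) k) →+* E :=
  Polynomial.eval₂RingHom (ev (k := k) l : MvPolynomial (Fin t) k →+* E) (l 0)

theorem phi_fin (p : MvPolynomial (Fin (t + 1)) k) :
    phi (k := k) l (MvPolynomial.finSuccEquiv k t p) = MvPolynomial.aeval l p := by
  induction p using MvPolynomial.induction_on with
  | C a =>
    have h1 : MvPolynomial.finSuccEquiv k t (MvPolynomial.C a) =
        Polynomial.C (MvPolynomial.C a) := by
      have := (MvPolynomial.finSuccEquiv k t).commutes a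
      exact this
    rw [h1]
    simp [phi, ev]
  | add p q hp hq => rw [map_add, map_add, map_add, hp, hq]
  | mul_X p i hp =>
    rw [map_mul, map_mul, map_mul, hp, MvPolynomial.aeval_X]
    congr 1
    refine Fin.cases ?_ (fun i => ?_) i
    · rw [MvPolynomial.finSuccEquiv_X_zero]
      simp [phi]
    · rw [MvPolynomial.finSuccEquiv_X_succ]
      simp [phi, ev]

theorem phi_zero (hl : AlgebraicIndependent k l) {P : Polynomial (MvPolynomial (Fin t) k)}
    (h : phi (k := k) l P = 0) : P = 0 := by
  have h1 : MvPolynomial.finSuccEquiv k t ((MvPolynomial.finSuccEquiv k t).symm P) = P :=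
    AlgEquiv.apply_symm_apply _ _
  rw [← h1, phi_fin] at h
  have h2 : (MvPolynomial.finSuccEquiv k t).symm P = 0 :=
    hl (h.trans (map_zero _).symm)
  rw [← h1, h2, map_zero]

theorem phi_mem (P : Polynomial (MvPolynomial (Fin t) k)) :
    phi (k := k) l P ∈ IntermediateField.adjoin k (Set.range l) := by
  have h1 : MvPolynomial.finSuccEquiv k t ((MvPolynomial.finSuccEquiv k t).symm P) = P :=
    AlgEquiv.apply_symm_apply _ _
  rw [← h1, phi_fin]
  have h2 : MvPolynomial.aeval l ((MvPolynomial.finSuccEquiv k t).symm P) ∈ Algebra.adjoin k (Set.range l) := by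
    rw [Algebra.adjoin_range_eq_range_aeval]
    exact ⟨_, rfl⟩
  exact IntermediateField.algebra_adjoin_le_adjoin k _ h2

theorem expand (p : MvPolynomial (Fin (t + 1)) k) {m : ℕ} (hp : p.totalDegree ≤ m) :
    MvPolynomial.aeval l p = ∑ i ∈ Finset.range (m + 1),
      l 0 ^ i * ev (k := k) l ((MvPolynomial.finSuccEquiv k t p).coeff i) := by
  rw [← phi_fin]
  have h1 : (MvPolynomial.finSuccEquiv k t p).natDegree < m + 1 := by
    rw [MvPolynomial.natDegree_finSuccEquiv]
    exact Nat.lt_succ_of_le ((MvPolynomial.degreeOf_le_totalDegree p 0).trans hp)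
  unfold phi
  rw [Polynomial.coe_eval₂RingHom, Polynomial.eval₂_eq_sum_range' _ h1]
  exact Finset.sum_congr rfl fun i _ => mul_comm _ _

variable {e : ℕ} (η : Fin e → E) (q : E)

/-- The lattice. -/
def Bl : Submodule k E where
  carrier := {x | ∃ r : Fin e → MvPolynomial (Fin t) k, q * x = ∑ j, ev (k := k) l (r j) * η j}
  add_mem' := by
    rintro x x' ⟨r, hr⟩ ⟨r', hr'⟩
    refine ⟨r + r', ?_⟩
    rw [mul_add, hr, hr', ← Finset.sum_add_distrib]
    exact Finset.sum_congr rfl fun j _ => by rw [Pi.add_apply, map_add, add_mul]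
  zero_mem' := ⟨0, by simp⟩
  smul_mem' := by
    rintro c x ⟨r, hr⟩
    refine ⟨fun j => c • r j, ?_⟩
    rw [mul_smul_comm, hr, Finset.smul_sum]
    exact Finset.sum_congr rfl fun j _ => by rw [map_smul, smul_mul_assoc]

theorem mem_Bl {x : E} : x ∈ Bl (k := k) l η q ↔
    ∃ r : Fin e → MvPolynomial (Fin t) k, q * x = ∑ j, ev (k := k) l (r j) * η j := Iff.rfl

end

end T3XLatM

open DegrUpM T3XLatM in
/-- (XLat) -/
theorem tXLat : StmtXLat := by
  intro k E _ _ _ n t y l W' hl hW hy hE Θ hΘ
  have := hE
  obtain ⟨q, C, hq, -, hC⟩ := denom l (Θ * W') (hΘ.mul hW)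
  set η := Module.finBasis (IntermediateField.adjoin k (Set.range l)) E with hη
  refine ⟨Bl (k := k) l η q, C, fun b hb => ?_, fun a v hv => ?_⟩
  · have hr : ∀ i, ∃ r : Fin (Module.finrank (IntermediateField.adjoin k (Set.range l)) E) →
        MvPolynomial (Fin t) k, q * (b i : E) = ∑ j, ev (k := k) l (r j) * η j := fun i => (b i).2
    choose r hr using hr
    set P : Fin (Module.finrank (IntermediateField.adjoin k (Set.range l)) E) →
        Polynomial (MvPolynomial (Fin t) k) :=
      fun j => ∑ i ∈ b.support, Polynomial.monomial i (r i j) with hP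
    have h1 : ∀ j, phi (k := k) l (P j) = ∑ i ∈ b.support, l 0 ^ i * ev (k := k) l (r i j) := by
      intro j
      simp only [hP, map_sum]
      refine Finset.sum_congr rfl fun i _ => ?_
      unfold phi
      rw [Polynomial.coe_eval₂RingHom, Polynomial.eval₂_monomial]
      exact mul_comm _ _
    have h2 : ∑ j, phi (k := k) l (P j) * η j = 0 := by
      have h3 : q * (b.sum fun i x => l 0 ^ i * (x : E)) = 0 := by rw [hb, mul_zero]
      rw [← h3, Finsupp.sum, Finset.mul_sum]
      have h4 : ∀ i ∈ b.support, q * (l 0 ^ i * (b i : E)) =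
          ∑ j, l 0 ^ i * ev (k := k) l (r i j) * η j := by
        intro i _
        have : q * (l 0 ^ i * (b i : E)) = l 0 ^ i * (q * (b i : E)) := by ring
        rw [this, hr i, Finset.mul_sum]
        exact Finset.sum_congr rfl fun j _ => (mul_assoc _ _ _).symm
      rw [Finset.sum_congr rfl h4, Finset.sum_comm]
      exact Finset.sum_congr rfl fun j _ => by rw [h1, Finset.sum_mul]
    have h3 : ∀ j, phi (k := k) l (P j) = 0 := by
      have h4 := η.linearIndependent
      rw [Fintype.linearIndependent_iff] at h4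
      have h5 := h4 (fun j => ⟨phi (k := k) l (P j), phi_mem l (P j)⟩) h2
      intro j
      exact congrArg Subtype.val (h5 j)
    have h4 : ∀ j, P j = 0 := fun j => phi_zero l hl (h3 j)
    ext i
    by_cases hi : i ∈ b.support
    · have h5 : ∀ j, r i j = 0 := by
        intro j
        have h6 := congrArg (fun Q : Polynomial (MvPolynomial (Fin t) k) => Q.coeff i) (h4 j)
        simp only [hP, Polynomial.finsetSum_coeff, Polynomial.coeff_monomial, Polynomial.coeff_zero] at h6
        rw [Finset.sum_ite_eq' b.support i (fun i => r i j), if_pos hi] at h6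
        exact h6
      have h6 : q * (b i : E) = 0 := by
        rw [hr i]
        exact Finset.sum_eq_zero fun j _ => by rw [h5 j, map_zero, zero_mul]
      simpa [hq] using h6
    · rw [Finsupp.notMem_support_iff.1 hi]
      rfl
  · have h1 : q * v ∈ Nn (κ := k) l η (a + C) := by
      have h2 : v ∈ (Θ * W') * Vd k l a := by
        rw [mul_assoc]
        exact (mul_le_mul' le_rfl (hy a) : Θ * Vd k y a ≤ Θ * (W' * Vd k l a)) hv
      refine Submodule.mul_induction_on h2 (fun w hw u hu => ?_) fun v₁ v₂ h₁ h₂ => ?_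
      · have e : q * (w * u) = u * (q * w) := by ring
        rw [e]
        exact Nn_mul l η hu (hC w hw)
      · rw [mul_add]
        exact Submodule.add_mem _ h₁ h₂
    obtain ⟨s, hs, hsv⟩ := (mem_Nn l η).1 h1
    have h2 : ∀ j, ∃ p : MvPolynomial (Fin (t + 1)) k, p.totalDegree ≤ a + C ∧
        MvPolynomial.aeval l p = s j := fun j => (mem_Vd l).1 (hs j)
    choose p hp hps using h2
    refine ⟨fun i => q⁻¹ * ∑ j, ev (k := k) l ((MvPolynomial.finSuccEquiv k t (p j)).coeff i) * η j,
      fun i => ⟨fun j => (MvPolynomial.finSuccEquiv k t (p j)).coeff i, ?_⟩, ?_⟩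
    · rw [mul_inv_cancel_left₀ hq]
    · refine mul_left_cancel₀ hq ?_
      rw [← hsv, Finset.mul_sum]
      have h3 : ∀ i ∈ Finset.range (a + C + 1), q * (l 0 ^ i * (q⁻¹ *
          ∑ j, ev (k := k) l ((MvPolynomial.finSuccEquiv k t (p j)).coeff i) * η j)) =
          ∑ j, l 0 ^ i * ev (k := k) l ((MvPolynomial.finSuccEquiv k t (p j)).coeff i) * η j := by
        intro i _
        have : ∀ z : E, q * (l 0 ^ i * (q⁻¹ * z)) = l 0 ^ i * z := by
          intro z
          field_simp
        rw [this, Finset.mul_sum]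
        exact Finset.sum_congr rfl fun j _ => (mul_assoc _ _ _).symm
      rw [Finset.sum_congr rfl h3, Finset.sum_comm]
      refine Finset.sum_congr rfl fun j _ => ?_
      rw [← hps j, expand l (p j) (hp j), Finset.sum_mul]

end Pool.Agent.Lib.MP_16285c_agN
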