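import Pool.Agent.Lib.MP_16285c_agN.T3.SpecB

/-!
# Heights on a line, source and target
-/

set_option autoImplicit false

namespace Pool.Agent.Lib.MP_16285c_agN

open Pool.Agent.Lib.MP_16285c_ag

namespace T3XLnM

/-- The matrix of the linear map `(y, 1) ↦ (1, c + y w)`. -/
def mat {K : Type} [Field K] {n : ℕ} (c w : Fin n → K) : Fin (n + 1) × Fin 2 → K := fun p =>
  Fin.cons (α := fun _ => Fin 2 → K) ![0, 1] (fun i => ![w i, c i]) p.1 p.2

theorem mat_apply {K : Type} [Field K] {n : ℕ} (c w : Fin n → K) (y : K) :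
    (fun j : Fin (n + 1) => ∑ i : Fin 2, mat c w (j, i) * (![y, 1] : Fin 2 → K) i) =
      hcN (lptN c w y) := by
  funext j
  refine Fin.cases ?_ (fun i => ?_) j
  · simp [mat, hcN, Fin.sum_univ_two]
  · simp only [mat, hcN, Fin.sum_univ_two, Fin.cons_succ, lptN]
    simp only [Matrix.cons_val_zero, Matrix.cons_val_one]
    ring

theorem first (K : Type) [Field K] [Height.AdmissibleAbsValues K] (n : ℕ) (c w : Fin n → K) :
    ∃ C : ℝ, ∀ y : K, Height.logHeight (hcN (lptN c w y)) ≤ Height.logHeight₁ y + C := by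
  refine ⟨Height.totalWeight K * Real.log (Nat.card (Fin 2)) + Height.logHeight (mat c w),
    fun y => ?_⟩
  have h := Height.logHeight_linearMap_apply_le (mat c w) (![y, 1] : Fin 2 → K)
  rw [mat_apply, ← Height.logHeight₁_eq_logHeight] at h
  linarith

/-- The restriction of a polynomial to the line. -/
noncomputable def res {K : Type} [Field K] {n : ℕ} (c w : Fin n → K) : Pl n K →ₐ[K] Polynomial K :=
  MvPolynomial.aeval
    (fun j => (Polynomial.C (c j) + Polynomial.C (w j) * Polynomial.X : Polynomial K))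

theorem natDegree_res_le {K : Type} [Field K] {n : ℕ} (c w : Fin n → K) (G : Pl n K) (d : ℕ)
    (hd : G.totalDegree ≤ d) : (res c w G).natDegree ≤ d := by
  have h : res c w G = ∑ m ∈ G.support, Polynomial.C (G.coeff m) *
      ∏ j ∈ m.support, (Polynomial.C (c j) + Polynomial.C (w j) * Polynomial.X) ^ m j := by
    rw [res, MvPolynomial.aeval_def, MvPolynomial.eval₂_eq]
    rfl
  rw [h]
  refine Polynomial.natDegree_sum_le_of_forall_le _ _ fun m hm => ?_
  have h1 : (∏ j ∈ m.support,
      (Polynomial.C (c j) + Polynomial.C (w j) * Polynomial.X : Polynomial K) ^ m j).natDegree ≤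
      ∑ j ∈ m.support, m j := by
    refine (Polynomial.natDegree_prod_le _ _).trans (Finset.sum_le_sum fun j _ => ?_)
    refine Polynomial.natDegree_pow_le.trans ?_
    have h2 : (Polynomial.C (c j) + Polynomial.C (w j) * Polynomial.X : Polynomial K).natDegree ≤ 1 := by
      compute_degree
    calc m j * _ ≤ m j * 1 := Nat.mul_le_mul_left _ h2
      _ = m j := mul_one _
  have h3 : ∑ j ∈ m.support, m j ≤ G.totalDegree := MvPolynomial.le_totalDegree hm
  exact (Polynomial.natDegree_C_mul_le _ _).trans (h1.trans (h3.trans hd))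

theorem eval_res {K₁ K : Type} [Field K₁] [Field K] [Algebra K₁ K] {n : ℕ} (c w : Fin n → K₁)
    (G : Pl n K₁) (y : K) :
    ((res c w G).map (algebraMap K₁ K)).eval y =
      MvPolynomial.aeval
        (lptN (fun j => algebraMap K₁ K (c j)) (fun j => algebraMap K₁ K (w j)) y) G := by
  rw [Polynomial.eval_map, ← Polynomial.aeval_def]
  have h : (Polynomial.aeval y).comp (res c w) = MvPolynomial.aeval
      (lptN (fun j => algebraMap K₁ K (c j)) (fun j => algebraMap K₁ K (w j)) y) := by
    apply MvPolynomial.algHom_ext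
    intro i
    rw [AlgHom.comp_apply, res, MvPolynomial.aeval_X, MvPolynomial.aeval_X]
    simp only [map_add, map_mul, Polynomial.aeval_C, Polynomial.aeval_X, lptN]
    ring
  exact DFunLike.congr_fun h G

end T3XLnM

open T3XLnM in
theorem tXLn : StmtXBin → StmtXLn := by
  intro hB
  refine ⟨fun K _ _ n c w => first K n c w, ?_⟩
  intro K₁ K _ _ _ _ n F d hd c w hs hdg
  have hle : ∀ i, (((res c w (F i)).map (algebraMap K₁ K))).natDegree ≤ d := fun i =>
    Polynomial.natDegree_map_le.trans (natDegree_res_le c w (F i) d (hd i))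
  obtain ⟨i₀, hi₀⟩ := hdg
  have hex : ∃ i, (((res c w (F i)).map (algebraMap K₁ K))).natDegree = d := by
    refine ⟨i₀, le_antisymm (hle i₀) ?_⟩
    rw [Polynomial.natDegree_map]
    exact hi₀
  have hsp : Ideal.span (Set.range fun i => (res c w (F i)).map (algebraMap K₁ K)) = ⊤ := by
    have h1 := congrArg (Ideal.map (Polynomial.mapRingHom (algebraMap K₁ K))) hs
    rw [Ideal.map_top, Ideal.map_span, ← Set.range_comp] at h1
    exact h1
  obtain ⟨C, hC⟩ := hB K n (fun i => (res c w (F i)).map (algebraMap K₁ K)) d hle hex hsp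
  refine ⟨C, fun y => ?_⟩
  have h2 := hC y
  have h3 : (fun i => ((res c w (F i)).map (algebraMap K₁ K)).eval y) = fun i => MvPolynomial.aeval
      (lptN (fun j => algebraMap K₁ K (c j)) (fun j => algebraMap K₁ K (w j)) y) (F i) := by
    funext i
    exact eval_res c w (F i) y
  rw [h3] at h2
  exact h2

end Pool.Agent.Lib.MP_16285c_agN
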