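import Pool.Agent.Lib.MP_16285c_agN.T3.SpecC

/-!
# Monotonicity of the dynamical degree (`StmtXLs`)
-/

set_option autoImplicit false

namespace Pool.Agent.Lib.MP_16285c_agN

namespace T3XLsM

theorem le_pow (d : ℕ → ℕ) (h : ∀ a b, d (a + b) ≤ d a * d b) (m : ℕ) :
    d (m + 1) ≤ d 1 ^ (m + 1) := by
  induction m with
  | zero => simp
  | succ m ih =>
    calc d (m + 1 + 1) ≤ d (m + 1) * d 1 := h _ _
      _ ≤ d 1 ^ (m + 1) * d 1 := Nat.mul_le_mul_right _ ih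
      _ = d 1 ^ (m + 1 + 1) := (pow_succ _ _).symm

theorem root_le (d : ℕ → ℕ) (h : ∀ a b, d (a + b) ≤ d a * d b) (m : ℕ) :
    (d m : ℝ) ^ ((m : ℝ)⁻¹) ≤ max 1 (d 1 : ℝ) := by
  rcases Nat.eq_zero_or_pos m with rfl | hm
  · simp
  · obtain ⟨k, rfl⟩ : ∃ k, m = k + 1 := ⟨m - 1, by omega⟩
    refine le_trans ?_ (le_max_right _ _)
    have h1 : (d (k + 1) : ℝ) ≤ (d 1 : ℝ) ^ (k + 1) := by
      exact_mod_cast le_pow d h k
    calc (d (k + 1) : ℝ) ^ (((k + 1 : ℕ) : ℝ)⁻¹)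
        ≤ ((d 1 : ℝ) ^ (k + 1)) ^ (((k + 1 : ℕ) : ℝ)⁻¹) :=
          Real.rpow_le_rpow (Nat.cast_nonneg _) h1 (by positivity)
      _ = (d 1 : ℝ) := Real.pow_rpow_inv_natCast (Nat.cast_nonneg _) (by omega)

end T3XLsM

/-- Monotonicity of the dynamical degree. -/
theorem tXLs : StmtXLs := by
  intro d d' hsub hle
  unfold lam0
  apply Filter.limsup_le_limsup
  · refine Filter.Eventually.of_forall fun m => ?_
    exact Real.rpow_le_rpow (Nat.cast_nonneg _) (by exact_mod_cast hle m) (by positivity)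
  · exact Filter.isCoboundedUnder_le_of_le Filter.atTop (x := 0)
      fun m => Real.rpow_nonneg (Nat.cast_nonneg _) _
  · exact Filter.isBoundedUnder_of ⟨max 1 (d' 1 : ℝ), fun m => T3XLsM.root_le d' hsub m⟩

end Pool.Agent.Lib.MP_16285c_agN
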