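import Pool.Agent.Lib.MP_16285c_agN.T3.SpecB
import Pool.Agent.Lib.MP_16285c_agN.KLV.Rep
import Pool.Agent.Lib.MP_16285c_agN.TpPos

/-!
# Threefolds with `λ₁ ≠ λ₃`: the second degree (XMd)
-/

set_option autoImplicit false

namespace Pool.Agent.Lib.MP_16285c_agN

open Pool.Agent.Lib.MP_16285c_ag

namespace T3XMdM

open TpPosM

variable {K : Type} [Field K]

theorem lf_single {n c : ℕ} (A : Fin c → Fin n → K) (g : Fin n → RF n K) (i : Fin c) (j : Fin n)
    (h : A i = Pi.single j 1) : lf A g i = g j := by
  unfold lf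
  rw [Finset.sum_eq_single j]
  · rw [h, Pi.single_eq_same, map_one, one_mul]
  · intro b _ hb
    rw [h, Pi.single_eq_of_ne hb, map_zero, zero_mul]
  · intro hj
    exact absurd (Finset.mem_univ j) hj

/-- The transcendence degree of the function field is three. -/
theorem three_le_trdeg : (3 : Cardinal) ≤ Algebra.trdeg K (RF 3 K) := by
  have h := (algInd_gen (K := K) (n := 3)).cardinalMk_le_trdeg
  simpa using h

/-- Some coordinate is transcendental over the field generated by two elements. -/
theorem exists_tr (y : Fin 2 → RF 3 K) :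
    ∃ i, Transcendental (IntermediateField.adjoin K (Set.range y)) (gen 3 K i) := by
  by_contra hcon
  push Not at hcon
  set κ := IntermediateField.adjoin K (Set.range y) with hκ
  have h1 : IntermediateField.adjoin κ (Set.range (gen 3 K)) = ⊤ := by
    have : (IntermediateField.adjoin κ (Set.range (gen 3 K))).restrictScalars K = ⊤ := by
      apply eq_top_of_gen_mem
      intro i
      exact IntermediateField.subset_adjoin κ _ ⟨i, rfl⟩
    exact IntermediateField.restrictScalars_eq_top_iff.1 this
  have h2 : Algebra.IsAlgebraic κ (IntermediateField.adjoin κ (Set.range (gen 3 K))) := by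
    apply IntermediateField.isAlgebraic_adjoin
    rintro x ⟨i, rfl⟩
    have h3 : IsAlgebraic κ (gen 3 K i) := by
      have h4 := hcon i
      unfold Transcendental at h4
      exact not_not.1 h4
    exact h3.isIntegral
  have h3 : Algebra.IsAlgebraic κ (RF 3 K) := by
    constructor
    intro x
    have hx : x ∈ IntermediateField.adjoin κ (Set.range (gen 3 K)) := by
      rw [h1]
      exact IntermediateField.mem_top
    have h5 := h2.isAlgebraic ⟨x, hx⟩
    exact h5.algebraMap (A := RF 3 K)
  have h4 := alg_of_adjoin (Set.range y) h3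
  have h5 := Algebra.IsAlgebraic.trdeg_le_cardinalMk K (Set.range y)
  have h6 : Cardinal.mk (Set.range y) ≤ 2 := by
    have h7 := Cardinal.mk_range_le (f := y)
    simpa using h7
  have h8 := (three_le_trdeg (K := K)).trans (h5.trans h6)
  norm_num at h8

/-- A field generated by one coordinate and two independent elements. -/
theorem finite_fld (g : Fin 3 → RF 3 K) (hg : AlgebraicIndependent K g) :
    ∃ (A : Fin 1 → Fin 3 → K) (B : Fin 2 → Fin 3 → K), 1 ≤ Module.finrank (fld A B g) (RF 3 K) := by
  set B : Fin 2 → Fin 3 → K := fun i => Pi.single (Fin.castLE (by norm_num) i) 1 with hB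
  set y : Fin 2 → RF 3 K := lf B g with hy
  have hyi : y = g ∘ Fin.castLE (by norm_num) := by
    funext i
    exact lf_single B g i _ rfl
  obtain ⟨i, hi⟩ := exists_tr y
  set A : Fin 1 → Fin 3 → K := fun _ => Pi.single i 1 with hA
  set l : Fin 1 → RF 3 K := lf A (gen 3 K) with hl
  have hli : ∀ j, l j = gen 3 K i := fun j => lf_single A (gen 3 K) j i rfl
  refine ⟨A, B, ?_⟩
  set κ := IntermediateField.adjoin K (Set.range y) with hκ
  have hyind : AlgebraicIndependent K y := by
    rw [hyi]
    exact hg.comp _ (Fin.castLE_injective _)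
  let y' : Fin 2 → κ := fun i => ⟨y i, IntermediateField.subset_adjoin K _ ⟨i, rfl⟩⟩
  have hcomp : (algebraMap κ (RF 3 K)) ∘ y' = y := rfl
  have hy' : AlgebraicIndependent K y' := by
    refine AlgebraicIndependent.of_comp (IsScalarTower.toAlgHom K κ (RF 3 K)) ?_
    exact hyind
  have hlind : AlgebraicIndependent κ l := by
    rw [algebraicIndependent_unique_type_iff]
    rw [hli]
    exact hi
  have hind : AlgebraicIndependent K (Sum.elim l y) := by
    have h := hy'.sumElim_comp hlind
    rw [hcomp] at h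
    exact h
  have hr : AlgebraicIndependent K (fun j : Fin 3 => Sum.elim l y ((finSumFinEquiv (m := 1) (n := 2)).symm j)) :=
    hind.comp _ (Equiv.injective _)
  have halg := alg_fam _ hr
  have hrange : (Set.range fun j : Fin 3 => Sum.elim l y ((finSumFinEquiv (m := 1) (n := 2)).symm j)) =
      Set.range l ∪ Set.range y := by
    rw [← Set.Sum.elim_range]
    exact (Equiv.surjective (finSumFinEquiv (m := 1) (n := 2)).symm).range_comp (Sum.elim l y)
  rw [hrange] at halg
  have hfin : FiniteDimensional (fld A B g) (RF 3 K) := finite_of_alg (fld A B g) halg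
  exact Module.finrank_pos

end T3XMdM

open T3XMdM

theorem tXMd : StmtXMdB → StmtXMd := by
  intro hB K _ _
  have hbd : ∀ g : Fin 3 → RF 3 K, ∀ (A : Fin 1 → Fin 3 → K) (B : Fin 2 → Fin 3 → K),
      Module.finrank (fld A B g) (RF 3 K) ≤ 9 * (max 1 (dg g)) ^ 2 := by
    intro g A B
    obtain ⟨F, hF, hd, -⟩ := tRep.1 3 K g
    exact hB K g F (max 1 (dg g)) hF.toWk (le_max_left _ _) (fun i => (hd i).trans (le_max_right _ _)) A B
  have hbdd : ∀ g : Fin 3 → RF 3 K, BddAbove (Set.range fun AB : (Fin 1 → Fin 3 → K) × (Fin 2 → Fin 3 → K) =>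
      Module.finrank (fld AB.1 AB.2 g) (RF 3 K)) := by
    intro g
    refine ⟨9 * (max 1 (dg g)) ^ 2, ?_⟩
    rintro _ ⟨AB, rfl⟩
    exact hbd g AB.1 AB.2
  have h2 : ∀ (g : Fin 3 → RF 3 K) (A : Fin 1 → Fin 3 → K) (B : Fin 2 → Fin 3 → K),
      Module.finrank (fld A B g) (RF 3 K) ≤ md g := by
    intro g A B
    exact le_csSup (hbdd g) ⟨(A, B), rfl⟩
  refine ⟨?_, h2, ?_, ?_⟩
  · intro σ m
    have hg : AlgebraicIndependent K (it σ m) :=
      (TpPosM.algInd_gen (K := K) (n := 3)).map' (f := σ ^ m) (σ ^ m).toRingHom.injective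
    obtain ⟨A, B, h⟩ := finite_fld (it σ m) hg
    exact h.trans (h2 _ A B)
  · intro g
    obtain ⟨AB, h⟩ := Nat.sSup_mem (Set.range_nonempty _) (hbdd g)
    exact ⟨AB.1, AB.2, h⟩
  · intro g hg
    refine csSup_le (Set.range_nonempty _) ?_
    rintro _ ⟨AB, rfl⟩
    have h := hbd g AB.1 AB.2
    rwa [max_eq_right hg] at h

end Pool.Agent.Lib.MP_16285c_agN
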