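import Pool.Agent.Lib.MP_16285c_agN.T3.SpecB

/-! # The second degree of a rational map of three-space is at most nine times the square of the degree -/

set_option autoImplicit false

namespace Pool.Agent.Lib.MP_16285c_agN

open Pool.Agent.Lib.MP_16285c_ag

namespace T3XMdBM

/-- The coordinates are a transcendence basis. -/
theorem basis_gen {K : Type} [Field K] {n : ℕ} : IsTranscendenceBasis K (gen n K) := by
  have h := IsTranscendenceBasis.mvPolynomial (Fin n) K
  have : Algebra.IsAlgebraic (MvPolynomial (Fin n) K) (RF n K) :=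
    IsLocalization.isAlgebraic (RF n K) (nonZeroDivisors (MvPolynomial (Fin n) K))
  have h2 := h.algebraMap_comp (A := RF n K)
  exact h2

/-- `E` is algebraic over the algebra generated by `S`. -/
theorem alg_of_adjoin {κ E : Type} [Field κ] [Field E] [Algebra κ E] (S : Set E)
    (h : Algebra.IsAlgebraic (IntermediateField.adjoin κ S) E) :
    Algebra.IsAlgebraic (Algebra.adjoin κ S) E := by
  open scoped IntermediateField.algebraAdjoinAdjoin in
  exact Algebra.IsAlgebraic.trans (Algebra.adjoin κ S) (IntermediateField.adjoin κ S) E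

/-- Generators of a field of finite index are algebraically independent if there are not too many. -/
theorem ind_of {κ E ι : Type} [Field κ] [Field E] [Algebra κ E] [Finite ι] (x : ι → E)
    (hfin : Module.Finite (IntermediateField.adjoin κ (Set.range x)) E)
    (h : Cardinal.mk ι ≤ Algebra.trdeg κ E) : AlgebraicIndependent κ x := by
  have h1 : Algebra.IsAlgebraic (Algebra.adjoin κ (Set.range x)) E := alg_of_adjoin _ inferInstance
  exact (Algebra.IsAlgebraic.isTranscendenceBasis_of_le_trdeg_of_finite κ x h).1

theorem trdeg_E {K : Type} [Field K] {n : ℕ} : Algebra.trdeg K (RF n K) = n := by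
  rw [← (basis_gen (K := K) (n := n)).cardinalMk_eq_trdeg, Cardinal.mk_fin]

theorem adj_top {K : Type} [Field K] {n : ℕ} (κ : IntermediateField K (RF n K)) :
    IntermediateField.adjoin κ (Set.range (gen n K)) = ⊤ := by
  have hfr : ∀ G : Pl n K, fr G ∈ IntermediateField.adjoin κ (Set.range (gen n K)) := by
    intro G
    induction G using MvPolynomial.induction_on with
    | C c =>
      rw [fr_C]
      exact (IntermediateField.adjoin κ (Set.range (gen n K))).algebraMap_mem (algebraMap K κ c)
    | add p q hp hq =>
      rw [fr_add]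
      exact add_mem hp hq
    | mul_X p i hp =>
      rw [fr_mul]
      exact mul_mem hp (IntermediateField.subset_adjoin κ _ ⟨i, rfl⟩)
  rw [eq_top_iff]
  intro g _
  obtain ⟨N, E, _, rfl⟩ := exists_fr g
  exact div_mem (hfr N) (hfr E)

theorem aeval_gen {K : Type} [Field K] {n : ℕ} (G : Pl n K) :
    MvPolynomial.aeval (gen n K) G = fr G := by
  induction G using MvPolynomial.induction_on with
  | C c =>
    rw [fr_C, MvPolynomial.aeval_C]
  | add p q hp hq =>
    rw [map_add, hp, hq, fr_add]
  | mul_X p i hp =>
    rw [map_mul, hp, MvPolynomial.aeval_X, fr_mul]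
    rfl

/-- Fields generated by three linear forms. -/
theorem lin {K : Type} [Field K] (l : RF 3 K) (hl : l ∈ Submodule.span K (Set.range (gen 3 K)))
    (A : Fin 2 → Fin 3 → K) :
    Module.finrank (IntermediateField.adjoin (IntermediateField.adjoin K {l})
      (Set.range (lc A (gen 3 K)))) (RF 3 K) ≤ 1 := by
  by_cases h0 : Module.finrank (IntermediateField.adjoin (IntermediateField.adjoin K {l})
      (Set.range (lc A (gen 3 K)))) (RF 3 K) = 0
  · rw [h0]
    exact Nat.zero_le _
  have hfin : Module.Finite (IntermediateField.adjoin (IntermediateField.adjoin K {l})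
      (Set.range (lc A (gen 3 K)))) (RF 3 K) :=
    Module.finite_of_finrank_pos (Nat.pos_of_ne_zero h0)
  let x : Fin 1 ⊕ Fin 2 → RF 3 K := Sum.elim (fun _ => l) (lc A (gen 3 K))
  have hx : Set.range x = {l} ∪ Set.range (lc A (gen 3 K)) := by
    rw [Set.Sum.elim_range, Set.range_const]
  have h1 : (IntermediateField.adjoin (IntermediateField.adjoin K {l})
      (Set.range (lc A (gen 3 K)))).restrictScalars K = IntermediateField.adjoin K (Set.range x) := by
    rw [IntermediateField.adjoin_adjoin_left, hx]
  have h2 : Module.Finite (IntermediateField.adjoin K (Set.range x)) (RF 3 K) := by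
    rw [← h1]
    exact hfin
  have h3 : AlgebraicIndependent K x := by
    refine ind_of x h2 ?_
    rw [trdeg_E, Cardinal.mk_fintype, Fintype.card_sum, Fintype.card_fin, Fintype.card_fin]
  have h4 : LinearIndependent K x := h3.linearIndependent
  have h5 : Submodule.span K (Set.range x) ≤ Submodule.span K (Set.range (gen 3 K)) := by
    rw [Submodule.span_le]
    rintro _ ⟨i, rfl⟩
    rcases i with i | i
    · exact hl
    · change ∑ j, algebraMap K (RF 3 K) (A i j) * gen 3 K j ∈
        Submodule.span K (Set.range (gen 3 K))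
      refine Submodule.sum_mem _ fun j _ => ?_
      rw [← Algebra.smul_def]
      exact Submodule.smul_mem _ _ (Submodule.subset_span ⟨j, rfl⟩)
  have h6 : Submodule.span K (Set.range x) = Submodule.span K (Set.range (gen 3 K)) := by
    have hf : Module.Finite K (Submodule.span K (Set.range (gen 3 K))) :=
      Module.Finite.span_of_finite K (Set.finite_range _)
    refine Submodule.eq_of_le_of_finrank_le h5 ?_
    rw [finrank_span_eq_card h4, Fintype.card_sum, Fintype.card_fin, Fintype.card_fin]
    refine (finrank_range_le_card (R := K) (gen 3 K)).trans ?_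
    rw [Fintype.card_fin]
  have h7 : ∀ i, gen 3 K i ∈ IntermediateField.adjoin (IntermediateField.adjoin K {l})
      (Set.range (lc A (gen 3 K))) := by
    intro i
    have h8 : gen 3 K i ∈ Submodule.span K (Set.range x) := by
      rw [h6]
      exact Submodule.subset_span ⟨i, rfl⟩
    have h9 : gen 3 K i ∈ IntermediateField.adjoin K (Set.range x) := by
      have : Submodule.span K (Set.range x) ≤
          Subalgebra.toSubmodule (IntermediateField.adjoin K (Set.range x)).toSubalgebra := by
        rw [Submodule.span_le]
        exact IntermediateField.subset_adjoin K (Set.range x)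
      exact this h8
    rw [← h1] at h9
    exact h9
  have h10 : IntermediateField.adjoin (IntermediateField.adjoin K {l})
      (Set.range (lc A (gen 3 K))) = ⊤ := by
    rw [eq_top_iff, ← adj_top (IntermediateField.adjoin K {l}), IntermediateField.adjoin_le_iff]
    rintro _ ⟨i, rfl⟩
    exact h7 i
  rw [h10, IntermediateField.finrank_top]

/-- Algebraic independence over `K(l)`. -/
theorem ind_over {K : Type} [Field K] (l w₁ w₂ : RF 3 K)
    (hfin : Module.Finite (IntermediateField.adjoin K ({l} ∪ {w₁, w₂})) (RF 3 K)) :
    AlgebraicIndependent (IntermediateField.adjoin K {l}) ![w₁, w₂] := by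
  let x : Fin 2 ⊕ Fin 1 → RF 3 K := Sum.elim ![w₁, w₂] (fun _ => l)
  have hx : Set.range x = {l} ∪ {w₁, w₂} := by
    rw [Set.Sum.elim_range, Set.range_const, Set.union_comm, Matrix.range_cons, Matrix.range_cons,
      Matrix.range_empty, Set.union_empty]
    rfl
  have h3 : AlgebraicIndependent K x := by
    refine ind_of x (by rw [hx]; exact hfin) ?_
    rw [trdeg_E, Cardinal.mk_fintype, Fintype.card_sum, Fintype.card_fin, Fintype.card_fin]
  have h4 := (AlgebraicIndependent.sumElim_iff.1 h3).2
  rw [Set.range_const] at h4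
  open scoped IntermediateField.algebraAdjoinAdjoin in
  exact h4.extendScalars (IntermediateField.adjoin K {l})

end T3XMdBM

open T3XMdBM

theorem tXMdB : StmtXBZ → StmtXMdB := by
  intro hBZ K _ _ g F d hF hd hdeg A B
  by_cases h0 : Module.finrank (fld A B g) (RF 3 K) = 0
  · rw [h0]
    exact Nat.zero_le _
  have hfin : Module.Finite (fld A B g) (RF 3 K) :=
    Module.finite_of_finrank_pos (Nat.pos_of_ne_zero h0)
  obtain ⟨l, hl⟩ : ∃ l, l = lf A (gen 3 K) 0 := ⟨_, rfl⟩
  have hA : Set.range (lf A (gen 3 K)) = {l} := by
    rw [hl]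
    ext x
    rw [Set.mem_range, Set.mem_singleton_iff]
    constructor
    · rintro ⟨i, rfl⟩
      rw [Subsingleton.elim i 0]
    · rintro rfl
      exact ⟨0, rfl⟩
  have hB : Set.range (lf B g) = {lf B g 0, lf B g 1} := by
    ext x
    rw [Set.mem_range, Fin.exists_fin_two, Set.mem_insert_iff, Set.mem_singleton_iff, eq_comm,
      @eq_comm _ (lf B g 1)]
  have hfld : fld A B g = IntermediateField.adjoin K ({l} ∪ {lf B g 0, lf B g 1}) := by
    rw [fld, hA, hB]
  have hκ : (IntermediateField.adjoin (IntermediateField.adjoin K {l})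
      {lf B g 0, lf B g 1}).restrictScalars K = fld A B g := by
    rw [IntermediateField.adjoin_adjoin_left, hfld]
  have hfr : Module.finrank (IntermediateField.adjoin (IntermediateField.adjoin K {l})
      {lf B g 0, lf B g 1}) (RF 3 K) = Module.finrank (fld A B g) (RF 3 K) := by
    rw [← hκ]
    rfl
  rw [← hfr]
  have hN : ∀ i, MvPolynomial.aeval (gen 3 K) (F 0) * lf B g i =
      MvPolynomial.aeval (gen 3 K) (∑ j, B i j • F j.succ) := by
    intro i
    rw [aeval_gen, map_sum, lf, Finset.mul_sum]
    refine Finset.sum_congr rfl fun j _ => ?_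
    rw [map_smul, aeval_gen, hF.eq j, Algebra.smul_def]
    ring
  have hNd : ∀ i, (∑ j, B i j • F j.succ).totalDegree ≤ d := by
    intro i
    refine MvPolynomial.totalDegree_finsetSum_le fun j _ => ?_
    exact (MvPolynomial.totalDegree_smul_le _ _).trans (hdeg _)
  have hne : MvPolynomial.aeval (gen 3 K) (F 0) ≠ 0 := by
    rw [aeval_gen]
    exact fr_ne_zero hF.ne
  have hlmem : l ∈ Submodule.span K (Set.range (gen 3 K)) := by
    rw [hl]
    refine Submodule.sum_mem _ fun j _ => ?_
    rw [← Algebra.smul_def]
    exact Submodule.smul_mem _ _ (Submodule.subset_span ⟨j, rfl⟩)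
  have key := hBZ K (RF 3 K) (IntermediateField.adjoin K {l}) 3 (gen 3 K) (lf B g 0) (lf B g 1)
    d d 1 (by
      rw [adj_top]
      exact Module.finite_of_finrank_pos (by rw [IntermediateField.finrank_top]; exact one_pos))
    (lin l hlmem) (ind_over l _ _ (by rw [← hfld]; exact hfin)) hd hd
    (∑ j, B 0 j • F j.succ) (F 0) (∑ j, B 1 j • F j.succ) (F 0) hne hne (hN 0) (hN 1)
    (hNd 0) (hdeg 0) (hNd 1) (hdeg 0)
  calc _ ≤ 9 * d * d * 1 := key
    _ = 9 * d ^ 2 := by ring

end Pool.Agent.Lib.MP_16285c_agN
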