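import Pool.Agent.Lib.MP_16285c_agN.T3.SpecB
import Pool.Agent.Lib.MP_16285c_agN.TpPos

/-!
# (XMdS): the second degree of the iterates
-/

set_option autoImplicit false

namespace Pool.Agent.Lib.MP_16285c_agN

open Pool.Agent.Lib.MP_16285c_ag

namespace T3XMdSM

variable {K : Type} [Field K]

theorem frk (S T : Set (RF 3 K)) : Module.finrank (IntermediateField.adjoin K (S ∪ T)) (RF 3 K) =
    Module.finrank (IntermediateField.adjoin (IntermediateField.adjoin K S) T) (RF 3 K) := by
  rw [← IntermediateField.adjoin_adjoin_left]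
  rfl

/-- The image of a polynomial is its value at the images of the coordinates. -/
theorem map_fr (ρ : RF 3 K →ₐ[K] RF 3 K) (G : Pl 3 K) :
    ρ (fr G) = MvPolynomial.aeval (fun i => ρ (gen 3 K i)) G := by
  have h : (ρ.comp (IsScalarTower.toAlgHom K (MvPolynomial (Fin 3) K) (RF 3 K))) =
      MvPolynomial.aeval (fun i => ρ (gen 3 K i)) := by
    apply MvPolynomial.algHom_ext
    intro i
    rw [MvPolynomial.aeval_X]
    rfl
  exact DFunLike.congr_fun h G

/-- Finiteness over a field which contains the image. -/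
theorem fin_over (σ : RF 3 K →ₐ[K] RF 3 K) (κ : IntermediateField K (RF 3 K)) :
    Module.Finite (IntermediateField.adjoin κ (Set.range fun i => σ (gen 3 K i))) (RF 3 K) := by
  have h := TpPosM.finite_range σ
  let L : IntermediateField K (RF 3 K) :=
    (IntermediateField.adjoin κ (Set.range fun i => σ (gen 3 K i))).restrictScalars K
  have hle : σ.fieldRange ≤ L := by
    rw [← TpPosM.adjoin_image]
    refine IntermediateField.adjoin_le_iff.2 ?_
    exact IntermediateField.subset_adjoin κ _
  let _ : Algebra σ.fieldRange L := (IntermediateField.inclusion hle).toRingHom.toAlgebra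
  have : IsScalarTower σ.fieldRange L (RF 3 K) := IsScalarTower.of_algebraMap_eq fun _ => rfl
  exact Module.Finite.of_restrictScalars_finite σ.fieldRange L (RF 3 K)

/-- Independence over a subfield. -/
theorem indep (l : Fin 1 → RF 3 K) (w : Fin 2 → RF 3 K)
    (h : Module.Finite (IntermediateField.adjoin K (Set.range l ∪ Set.range w)) (RF 3 K)) :
    AlgebraicIndependent (IntermediateField.adjoin K (Set.range l)) w := by
  have h1 : Set.range (Sum.elim w l) = Set.range l ∪ Set.range w := by
    rw [Set.Sum.elim_range, Set.union_comm]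
  have h2 : Algebra.IsAlgebraic (Algebra.adjoin K (Set.range (Sum.elim w l))) (RF 3 K) := by
    rw [h1]
    exact TpPosM.alg_of_adjoin _ inferInstance
  have hb : IsTranscendenceBasis K (gen 3 K) := by
    refine isTranscendenceBasis_iff_algebraicIndependent_isAlgebraic.2 ⟨TpPosM.algInd_gen, ?_⟩
    apply TpPosM.alg_of_adjoin
    rw [TpPosM.adjoin_gen]
    constructor
    intro x
    exact isAlgebraic_algebraMap
      (⟨x, IntermediateField.mem_top⟩ : (⊤ : IntermediateField K (RF 3 K)))
  have htr : Algebra.trdeg K (RF 3 K) = 3 := by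
    rw [← hb.cardinalMk_eq_trdeg]
    simp
  have h3 : IsTranscendenceBasis K (Sum.elim w l) := by
    refine Algebra.IsAlgebraic.isTranscendenceBasis_of_le_trdeg_of_finite K (Sum.elim w l) ?_
    rw [htr, Cardinal.mk_fintype, Fintype.card_sum, Fintype.card_fin, Fintype.card_fin]
    norm_num
  exact IntermediateField.algebraicIndependent_adjoin_iff.2 (AlgebraicIndependent.sumElim_iff.1 h3.1).2

end T3XMdSM

open T3XMdSM

theorem tXMdS : StmtXBZ → StmtXMd → StmtXMdS := by
  intro hBZ hMd K _ _ σ m _ hdg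
  obtain ⟨-, hM2, hM3, -⟩ := hMd K
  obtain ⟨A, B, hAB⟩ := hM3 (it σ (m + 1))
  rw [← hAB]
  rcases Nat.eq_zero_or_pos (Module.finrank (fld A B (it σ (m + 1))) (RF 3 K)) with h0 | h0
  · rw [h0]
    exact Nat.zero_le _
  have hfin : Module.Finite (fld A B (it σ (m + 1))) (RF 3 K) := Module.finite_of_finrank_pos h0
  -- the representative
  have hne : {D : ℕ | ∃ F : Fin (3 + 1) → Pl 3 K, Rep (it σ 1) F ∧
      ∀ i, (F i).totalDegree ≤ D}.Nonempty := by
    by_contra hcon
    rw [Set.not_nonempty_iff_eq_empty] at hcon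
    rw [dg, hcon, Nat.sInf_empty] at hdg
    omega
  obtain ⟨F, hF, hFd⟩ := Nat.sInf_mem hne
  change ∀ i, (F i).totalDegree ≤ dg (it σ 1) at hFd
  set d := dg (it σ 1) with hd
  set κ := IntermediateField.adjoin K (Set.range (lf A (gen 3 K))) with hκ
  set N : Fin 2 → Pl 3 K := fun i => ∑ j, MvPolynomial.C (B i j) * F j.succ with hN
  have hNd : ∀ i, (N i).totalDegree ≤ d := by
    intro i
    refine MvPolynomial.totalDegree_finsetSum_le fun j _ => ?_
    refine (MvPolynomial.totalDegree_mul _ _).trans ?_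
    rw [MvPolynomial.totalDegree_C, zero_add]
    exact hFd _
  have hNfr : ∀ i, fr (N i) = fr (F 0) * lf B (it σ 1) i := by
    intro i
    rw [hN, lf, fr, map_sum, Finset.mul_sum]
    refine Finset.sum_congr rfl fun j _ => ?_
    have h1 : fr (F j.succ) = it σ 1 j * fr (F 0) := hF.eq j
    have h2 : fr (MvPolynomial.C (B i j) : Pl 3 K) = algebraMap K (RF 3 K) (B i j) := by
      rw [IsScalarTower.algebraMap_apply K (MvPolynomial (Fin 3) K) (RF 3 K)]
      rfl
    rw [map_mul]
    change fr (MvPolynomial.C (B i j) : Pl 3 K) * fr (F j.succ) = _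
    rw [h1, h2]
    ring
  have hit : ∀ j, it σ (m + 1) j = (σ ^ m) (it σ 1 j) := by
    intro j
    rw [it, it, pow_succ, pow_one]
    rfl
  have hw : ∀ i, lf B (it σ (m + 1)) i = (σ ^ m) (lf B (it σ 1) i) := by
    intro i
    rw [lf, lf, map_sum]
    refine Finset.sum_congr rfl fun j _ => ?_
    rw [map_mul, AlgHom.commutes, hit j]
  have hev : ∀ G : Pl 3 K, MvPolynomial.aeval (it σ m) G = (σ ^ m) (fr G) := fun G =>
    (map_fr (σ ^ m) G).symm
  have hB0 : MvPolynomial.aeval (it σ m) (F 0) ≠ 0 := by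
    rw [hev]
    intro h
    have h1 : fr (F 0) = 0 := (map_eq_zero (σ ^ m)).1 h
    exact hF.ne ((map_eq_zero_iff _ (IsFractionRing.injective (Pl 3 K) (RF 3 K))).1 h1)
  have heq : ∀ i, MvPolynomial.aeval (it σ m) (F 0) * lf B (it σ (m + 1)) i =
      MvPolynomial.aeval (it σ m) (N i) := by
    intro i
    rw [hev, hev, hw, ← map_mul, ← hNfr]
  have hset : ({lf B (it σ (m + 1)) 0, lf B (it σ (m + 1)) 1} : Set (RF 3 K)) =
      Set.range (lf B (it σ (m + 1))) := by
    ext x
    constructor
    · rintro (rfl | rfl)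
      · exact ⟨0, rfl⟩
      · exact ⟨1, rfl⟩
    · rintro ⟨i, rfl⟩
      fin_cases i
      · exact Or.inl rfl
      · exact Or.inr rfl
  have hvec : ![lf B (it σ (m + 1)) 0, lf B (it σ (m + 1)) 1] = lf B (it σ (m + 1)) := by
    ext i
    fin_cases i <;> rfl
  have key := hBZ K (RF 3 K) κ 3 (it σ m) (lf B (it σ (m + 1)) 0) (lf B (it σ (m + 1)) 1) d d
    (md (it σ m)) (fin_over (σ ^ m) κ) ?_ ?_ hdg hdg (N 0) (F 0) (N 1) (F 0) hB0 hB0 (heq 0) (heq 1)
    (hNd 0) (hFd 0) (hNd 1) (hFd 0)
  · rw [hset] at key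
    have h1 : Module.finrank (fld A B (it σ (m + 1))) (RF 3 K) =
        Module.finrank (IntermediateField.adjoin κ (Set.range (lf B (it σ (m + 1))))) (RF 3 K) :=
      frk _ _
    rw [h1]
    refine key.trans (le_of_eq ?_)
    ring
  · intro A'
    have h1 : Module.finrank (IntermediateField.adjoin κ (Set.range (lc A' (it σ m)))) (RF 3 K) =
        Module.finrank (fld A A' (it σ m)) (RF 3 K) := (frk _ _).symm
    rw [h1]
    exact hM2 _ _ _
  · rw [hvec]
    exact indep _ _ hfin

end Pool.Agent.Lib.MP_16285c_agN
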