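import Pool.Agent.Lib.MP_16285c_agN.T3.SpecC
import Pool.Agent.Lib.MP_16285c_agN.Low

/-!
# `StmtXPrE`: the degree on subvarieties
-/

set_option autoImplicit false

namespace Pool.Agent.Lib.MP_16285c_agN

open Pool.Agent.Lib.MP_16285c_ag

namespace T3XPrEM

variable {n : ℕ} {K : Type} [Field K]

/-- Sums of residues. -/
theorem res_sum {𝔭 : Ideal (Pl n K)} [𝔭.IsPrime] {L : Type} [Field L] [Algebra (CR 𝔭) L]
    [IsFractionRing (CR 𝔭) L] {ι : Type} (S : Finset ι) (g : ι → RF n K) (u : ι → L)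
    (h : ∀ i ∈ S, Rsd 𝔭 L (g i) (u i)) : Rsd 𝔭 L (∑ i ∈ S, g i) (∑ i ∈ S, u i) := by
  classical
  induction S using Finset.induction_on with
  | empty =>
    rw [Finset.sum_empty, Finset.sum_empty]
    exact LowM.res_zero
  | insert a S ha ih =>
    rw [Finset.sum_insert ha, Finset.sum_insert ha]
    exact LowM.add (h a (Finset.mem_insert_self a S))
      (ih fun i hi => h i (Finset.mem_insert_of_mem hi))

/-- The algebraic part: a finite family whose span is stable under the coordinates and contains `1`. -/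
theorem span_top {𝔭 : Ideal (Pl n K)} [𝔭.IsPrime] {L : Type} [Field L] [Algebra (CR 𝔭) L]
    [IsFractionRing (CR 𝔭) L] [Algebra K L] [IsScalarTower K (CR 𝔭) L]
    (κ : IntermediateField K L) {T : ℕ} (w : Fin T → L)
    (h1 : (1 : L) ∈ Submodule.span κ (Set.range w))
    (hX : ∀ i s, algebraMap (CR 𝔭) L (cl 𝔭 (MvPolynomial.X i)) * w s ∈
      Submodule.span κ (Set.range w)) : Module.finrank κ L ≤ T := by
  classical
  set W : Submodule κ L := Submodule.span κ (Set.range w) with hW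
  have hXW : ∀ i, ∀ x ∈ W, algebraMap (CR 𝔭) L (cl 𝔭 (MvPolynomial.X i)) * x ∈ W := by
    intro i x hx
    rw [hW] at hx
    induction hx using Submodule.span_induction with
    | mem x hx =>
      obtain ⟨s, rfl⟩ := hx
      exact hX i s
    | zero => rw [mul_zero]; exact W.zero_mem
    | add x y _ _ hx hy => rw [mul_add]; exact W.add_mem hx hy
    | smul c x _ hx => rw [mul_smul_comm]; exact W.smul_mem c hx
  have hG : ∀ G : Pl n K, ∀ x ∈ W, algebraMap (CR 𝔭) L (cl 𝔭 G) * x ∈ W := by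
    intro G
    induction G using MvPolynomial.induction_on with
    | C a =>
      intro x hx
      have e : algebraMap (CR 𝔭) L (cl 𝔭 (MvPolynomial.C a)) = algebraMap K L a := by
        rw [IsScalarTower.algebraMap_apply K (CR 𝔭) L]
        rfl
      rw [e]
      have h2 := W.smul_mem (algebraMap K κ a) hx
      rw [Algebra.smul_def, ← IsScalarTower.algebraMap_apply] at h2
      exact h2
    | add p q hp hq =>
      intro x hx
      have e : algebraMap (CR 𝔭) L (cl 𝔭 (p + q)) =
          algebraMap (CR 𝔭) L (cl 𝔭 p) + algebraMap (CR 𝔭) L (cl 𝔭 q) := by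
        rw [← map_add]
        rfl
      rw [e, add_mul]
      exact W.add_mem (hp x hx) (hq x hx)
    | mul_X p i hp =>
      intro x hx
      have e : algebraMap (CR 𝔭) L (cl 𝔭 (p * MvPolynomial.X i)) =
          algebraMap (CR 𝔭) L (cl 𝔭 p) * algebraMap (CR 𝔭) L (cl 𝔭 (MvPolynomial.X i)) := by
        rw [← map_mul]
        rfl
      rw [e, mul_assoc]
      exact hp _ (hXW i x hx)
  have hfin : FiniteDimensional κ W := FiniteDimensional.span_of_finite κ (Set.finite_range w)
  have htop : W = ⊤ := by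
    rw [eq_top_iff]
    intro x _
    obtain ⟨α, β, hβ, rfl⟩ := IsFractionRing.div_surjective (A := CR 𝔭) x
    obtain ⟨A, rfl⟩ := Ideal.Quotient.mk_surjective α
    obtain ⟨B, rfl⟩ := Ideal.Quotient.mk_surjective β
    have hβ0 : algebraMap (CR 𝔭) L (Ideal.Quotient.mk 𝔭 B) ≠ 0 := by
      intro h0
      have h2 : Ideal.Quotient.mk 𝔭 B = 0 := by
        apply IsFractionRing.injective (CR 𝔭) L
        rw [h0, map_zero]
      exact nonZeroDivisors.ne_zero hβ h2
    let φ : W →ₗ[κ] W := (LinearMap.mulLeft κ (algebraMap (CR 𝔭) L (Ideal.Quotient.mk 𝔭 B))).restrict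
      (fun y hy => hG B y hy)
    have hφ : Function.Injective φ := by
      intro y z hyz
      apply Subtype.ext
      have h2 := congrArg Subtype.val hyz
      exact mul_left_cancel₀ hβ0 h2
    have hsurj := LinearMap.injective_iff_surjective.1 hφ
    have hA : algebraMap (CR 𝔭) L (Ideal.Quotient.mk 𝔭 A) ∈ W := by
      have := hG A 1 h1
      rwa [mul_one] at this
    obtain ⟨y, hy⟩ := hsurj ⟨_, hA⟩
    have h3 : algebraMap (CR 𝔭) L (Ideal.Quotient.mk 𝔭 B) * (y : L) =
        algebraMap (CR 𝔭) L (Ideal.Quotient.mk 𝔭 A) := congrArg Subtype.val hy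
    rw [← h3, mul_div_cancel_left₀ _ hβ0]
    exact y.2
  have h4 : Module.finrank κ W ≤ T := by
    have := finrank_range_le_card (R := κ) w
    rw [Fintype.card_fin] at this
    exact this
  rw [htop, finrank_top] at h4
  exact h4

end T3XPrEM

open T3XPrEM in
theorem tXPrE : StmtXPrE := by
  classical
  intro K _ _ n ρ hT
  have hfin : Module.Finite ρ.fieldRange (RF n K) := Module.finite_of_finrank_pos hT
  let b := Module.finBasis ρ.fieldRange (RF n K)
  have hcoef : ∀ (g : RF n K) (t : Fin (Module.finrank ρ.fieldRange (RF n K))), ∃ a : RF n K,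
      ρ a = ((b.repr g t : ρ.fieldRange) : RF n K) := fun g t => (b.repr g t).2
  choose a ha using hcoef
  have hsum : ∀ g : RF n K, g = ∑ t, ρ (a g t) * b t := by
    intro g
    conv_lhs => rw [← b.sum_repr g]
    refine Finset.sum_congr rfl fun t _ => ?_
    rw [ha, Algebra.smul_def]
    rfl
  choose num den hden hnd using fun g : RF n K => exists_fr (n := n) (K := K) g
  refine ⟨(∏ s, den (b s)) * (∏ i : Fin n, ∏ s, ∏ t, den (a (fr (MvPolynomial.X i) * b s) t)) *
    ∏ t, den (a 1 t), ?_, ?_⟩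
  · refine mul_ne_zero (mul_ne_zero (Finset.prod_ne_zero_iff.2 fun s _ => hden _) ?_)
      (Finset.prod_ne_zero_iff.2 fun s _ => hden _)
    exact Finset.prod_ne_zero_iff.2 fun i _ => Finset.prod_ne_zero_iff.2 fun s _ =>
      Finset.prod_ne_zero_iff.2 fun t _ => hden _
  intro 𝔭 _ hh L _ _ _ _ _ ρb hR
  have hdvd : ∀ D : Pl n K, D ∣ (∏ s, den (b s)) *
      (∏ i : Fin n, ∏ s, ∏ t, den (a (fr (MvPolynomial.X i) * b s) t)) * ∏ t, den (a 1 t) →
      D ∉ 𝔭 := by
    rintro D ⟨c, hc⟩ hD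
    apply hh
    rw [hc]
    exact 𝔭.mul_mem_right _ hD
  let r : RF n K → L := fun g =>
    algebraMap (CR 𝔭) L (cl 𝔭 (num g)) / algebraMap (CR 𝔭) L (cl 𝔭 (den g))
  have hr : ∀ g, den g ∉ 𝔭 → Rsd 𝔭 L g (r g) := by
    intro g hg
    have h2 := LowM.res_div (𝔭 := 𝔭) (L := L) (num g) (den g) hg
    rw [← hnd g] at h2
    exact h2
  have hb : ∀ s, Rsd 𝔭 L (b s) (r (b s)) := fun s => hr _ (hdvd _
    (Dvd.dvd.mul_right (Dvd.dvd.mul_right (Finset.dvd_prod_of_mem _ (Finset.mem_univ s)) _) _))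
  have ha1 : ∀ t, Rsd 𝔭 L (a 1 t) (r (a 1 t)) := fun t => hr _ (hdvd _
    (Dvd.dvd.mul_left (Finset.dvd_prod_of_mem _ (Finset.mem_univ t)) _))
  have haX : ∀ i s t, Rsd 𝔭 L (a (fr (MvPolynomial.X i) * b s) t)
      (r (a (fr (MvPolynomial.X i) * b s) t)) := fun i s t => hr _ (hdvd _
    (Dvd.dvd.mul_right (Dvd.dvd.mul_left
      ((Finset.dvd_prod_of_mem (fun t => den (a (fr (MvPolynomial.X i) * b s) t))
        (Finset.mem_univ t)).trans
        ((Finset.dvd_prod_of_mem (fun s => ∏ t, den (a (fr (MvPolynomial.X i) * b s) t))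
          (Finset.mem_univ s)).trans
          (Finset.dvd_prod_of_mem (fun i => ∏ s, ∏ t, den (a (fr (MvPolynomial.X i) * b s) t))
            (Finset.mem_univ i)))) _) _))
  have hmem : ∀ (c : Fin (Module.finrank ρ.fieldRange (RF n K)) → L),
      (∑ t, ρb (c t) * r (b t)) ∈
        Submodule.span ρb.fieldRange (Set.range fun s => r (b s)) := by
    intro c
    refine Submodule.sum_mem _ fun t _ => ?_
    have h2 := Submodule.smul_mem (Submodule.span ρb.fieldRange (Set.range fun s => r (b s)))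
      (⟨ρb (c t), ⟨c t, rfl⟩⟩ : ρb.fieldRange) (Submodule.subset_span ⟨t, rfl⟩)
    rw [Algebra.smul_def] at h2
    exact h2
  refine span_top (𝔭 := 𝔭) ρb.fieldRange (fun s => r (b s)) ?_ ?_
  · have h2 : Rsd 𝔭 L (1 : RF n K) (∑ t, ρb (r (a 1 t)) * r (b t)) := by
      have h3 := res_sum (𝔭 := 𝔭) (L := L) Finset.univ (fun t => ρ (a 1 t) * b t)
        (fun t => ρb (r (a 1 t)) * r (b t)) (fun t _ => LowM.mul (hR _ _ (ha1 t)) (hb t))
      rw [← hsum 1] at h3
      exact h3
    rw [LowM.uniq (LowM.res_one (𝔭 := 𝔭) (L := L)) h2]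
    exact hmem _
  · intro i s
    have h2 : Rsd 𝔭 L (fr (MvPolynomial.X i) * b s)
        (∑ t, ρb (r (a (fr (MvPolynomial.X i) * b s) t)) * r (b t)) := by
      have h3 := res_sum (𝔭 := 𝔭) (L := L) Finset.univ
        (fun t => ρ (a (fr (MvPolynomial.X i) * b s) t) * b t)
        (fun t => ρb (r (a (fr (MvPolynomial.X i) * b s) t)) * r (b t))
        (fun t _ => LowM.mul (hR _ _ (haX i s t)) (hb t))
      rw [← hsum (fr (MvPolynomial.X i) * b s)] at h3
      exact h3
    have h4 : Rsd 𝔭 L (fr (MvPolynomial.X i) * b s)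
        (algebraMap (CR 𝔭) L (cl 𝔭 (MvPolynomial.X i)) * r (b s)) :=
      LowM.mul (LowM.res_fr _) (hb s)
    rw [LowM.uniq h4 h2]
    exact hmem _

end Pool.Agent.Lib.MP_16285c_agN
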