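import Pool.Agent.Lib.MP_16285c_agN.T3.SpecC

/-!
# Threefolds: finitely many common zeros on a curve (`StmtXPts`)
-/

set_option autoImplicit false

namespace Pool.Agent.Lib.MP_16285c_agN

theorem tXPts : StmtRk2 → StmtRk3 → StmtXPts := by
  intro hr2 hr3 K _ n 𝔭 h𝔭 hrk Q hQ
  classical
  set J : Ideal (Pl n K) := 𝔭 ⊔ Ideal.span {Q} with hJ
  have hfin : J.minimalPrimes.Finite := Ideal.finite_minimalPrimes_of_isNoetherianRing _ J
  refine Set.Finite.of_finite_image
    (f := fun x : Fin n → K => RingHom.ker (MvPolynomial.eval x)) (hfin.subset ?_) ?_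
  · rintro _ ⟨x, ⟨hx, hQx⟩, rfl⟩
    have hm : (RingHom.ker (MvPolynomial.eval x)).IsPrime := RingHom.ker_isPrime _
    have hle : J ≤ RingHom.ker (MvPolynomial.eval x) := by
      rw [hJ, sup_le_iff]
      refine ⟨fun G hG => (RingHom.mem_ker).2 (hx G hG), ?_⟩
      rw [Ideal.span_singleton_le_iff_mem]
      exact (RingHom.mem_ker).2 hQx
    obtain ⟨q, hq, hqle⟩ := Ideal.exists_minimalPrimes_le hle
    have hqp : q.IsPrime := hq.1.1
    have hJq : J ≤ q := hq.1.2
    have hlt : 𝔭 < q := by
      refine lt_of_le_of_ne (le_sup_left.trans hJq) ?_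
      rintro rfl
      exact hQ (hJq (Ideal.mem_sup_right (Ideal.mem_span_singleton_self Q)))
    have hrkq : rk q = 0 := by
      have := hr2.2.2.2 K n 𝔭 q hlt
      omega
    have hqe : q = RingHom.ker (MvPolynomial.eval x) := by
      refine le_antisymm hqle fun G hG => ?_
      exact hr3.1 K n q x (fun G hG => (RingHom.mem_ker).1 (hqle hG)) hrkq G ((RingHom.mem_ker).1 hG)
    change RingHom.ker (MvPolynomial.eval x) ∈ J.minimalPrimes
    rw [← hqe]
    exact hq
  · intro x _ y _ hxy
    funext i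
    have h1 : (MvPolynomial.X i - MvPolynomial.C (x i) : Pl n K) ∈
        RingHom.ker (MvPolynomial.eval x) := by
      rw [RingHom.mem_ker, map_sub, MvPolynomial.eval_X, MvPolynomial.eval_C, sub_self]
    have h2 : (MvPolynomial.X i - MvPolynomial.C (x i) : Pl n K) ∈
        RingHom.ker (MvPolynomial.eval y) := by
      have hxy' : RingHom.ker (MvPolynomial.eval x) = RingHom.ker (MvPolynomial.eval y) := hxy
      rw [← hxy']
      exact h1
    rw [RingHom.mem_ker, map_sub, MvPolynomial.eval_X, MvPolynomial.eval_C] at h2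
    exact (sub_eq_zero.1 h2).symm

end Pool.Agent.Lib.MP_16285c_agN
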