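import Pool.Agent.Lib.MP_16285c_agN.T3.SpecC

/-!
# Threefolds with `λ₁ ≠ λ₃`: rates (XRates)
-/

set_option autoImplicit false

open Filter Topology

namespace Pool.Agent.Lib.MP_16285c_agN

open Pool.Agent.Lib.MP_16285c_ag

namespace T3XRatesM

/-- The choice of the constants. -/
theorem consts (l τ : ℝ) (hτ : 1 ≤ τ) (hl : τ < l) :
    ∃ l₁ l₂ : ℝ, 1 < l₁ ∧ l₁ < l ∧ l < l₂ ∧ τ * l₂ < l₁ ^ 2 ∧ l₁ * l₂ ^ 3 < l ^ 4 := by
  have hl0 : 0 < l := by linarith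
  have h0 : Real.sqrt (τ * l) < l := by
    rw [Real.sqrt_lt' hl0]
    nlinarith
  obtain ⟨l₁, h1a, h1b⟩ := exists_between h0
  have h1d : 0 < l₁ := lt_of_le_of_lt (Real.sqrt_nonneg _) h1a
  have h1c : τ * l < l₁ ^ 2 := by
    have h := (Real.sqrt_lt' h1d).1 h1a
    exact h
  have h1e : 1 < l₁ := by
    nlinarith
  have e1 : ∀ᶠ x in 𝓝 l, τ * x < l₁ ^ 2 := by
    have hc : Continuous fun x : ℝ => τ * x := by fun_prop
    exact (hc.tendsto l).eventually_lt_const h1c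
  have e2 : ∀ᶠ x in 𝓝 l, l₁ * x ^ 3 < l ^ 4 := by
    have hc : Continuous fun x : ℝ => l₁ * x ^ 3 := by fun_prop
    have h3 : l₁ * l ^ 3 < l ^ 4 := by
      have h4 : 0 < l ^ 3 := by positivity
      nlinarith
    exact (hc.tendsto l).eventually_lt_const h3
  have e3 : ∀ᶠ x in 𝓝[>] l, l < x := self_mem_nhdsWithin
  obtain ⟨l₂, h⟩ := (e3.and ((e1.and e2).filter_mono nhdsWithin_le_nhds)).exists
  exact ⟨l₁, l₂, h1e, h1b, h.1, h.2.1, h.2.2⟩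

/-- Geometric growth. -/
theorem pow_ge (x C : ℝ) (hx : 1 < x) : ∃ m₀ : ℕ, ∀ m, m₀ ≤ m → C ≤ x ^ m :=
  eventually_atTop.1 ((tendsto_pow_atTop_atTop_of_one_lt hx).eventually_ge_atTop C)

end T3XRatesM

open T3XRatesM in
/-- (XRates) -/
theorem tXRates : StmtXFek → StmtXRates := by
  intro hF d Δ τ C₀ hτ hsub hd hΔ hΔd hΔs hlam
  obtain ⟨l, hl, hld, hdl⟩ := hF d τ hsub hd hlam
  have hτ' : (1 : ℝ) ≤ τ := by exact_mod_cast hτ
  obtain ⟨l₁, l₂, h1, h1l, hl2, hA, hD⟩ := consts l τ hτ' hl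
  have hl0 : 0 < l := by linarith
  have hl10 : 0 < l₁ := by linarith
  have hl20 : 0 < l₂ := by linarith
  have hτ0 : (0 : ℝ) < τ := by linarith
  have hdR : ∀ m, (1 : ℝ) ≤ d m := fun m => by exact_mod_cast hd m
  have hΔR : ∀ m, (1 : ℝ) ≤ Δ m := fun m => by exact_mod_cast hΔ m
  have hτm : ∀ m : ℕ, (1 : ℝ) ≤ (τ : ℝ) ^ m := fun m => one_le_pow₀ hτ'
  obtain ⟨m₁, hm₁⟩ := hdl (l₂ / l - 1) (by
    have h := (one_lt_div hl0).2 hl2
    linarith)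
  have hd2 : ∀ m, m₁ ≤ m → (d m : ℝ) ≤ l₂ ^ m := by
    intro m hm
    have h := hm₁ m hm
    have h3 : l * (1 + (l₂ / l - 1)) = l₂ := by
      field_simp
      ring
    rwa [h3] at h
  obtain ⟨m₂, hm₂⟩ := pow_ge (l₁ ^ 2 / (l₂ * τ)) 576 (by
    rw [one_lt_div (mul_pos hl20 hτ0)]
    linarith)
  obtain ⟨m₃, hm₃⟩ := pow_ge (l ^ 4 / (l₁ * l₂ ^ 3)) (82944 * C₀) (by
    rw [one_lt_div (by positivity)]
    exact hD)
  have hA' : ∀ m, m₂ ≤ m → 576 * (l₂ ^ m * (τ : ℝ) ^ m) ≤ (l₁ ^ 2) ^ m := by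
    intro m hm
    have h := hm₂ m hm
    rw [div_pow, le_div_iff₀ (by positivity), mul_pow] at h
    exact h
  have hD' : ∀ m, m₃ ≤ m → 82944 * C₀ * (l₁ ^ m * (l₂ ^ 3) ^ m) ≤ (l ^ 4) ^ m := by
    intro m hm
    have h := hm₃ m hm
    rw [div_pow, le_div_iff₀ (by positivity), mul_pow] at h
    exact h
  by_cases hc : ∃ m₀ : ℕ, ∀ m, m₀ ≤ m → (Δ (2 * m) : ℝ) < (l₁ ^ 2) ^ m * Δ m
  · obtain ⟨m₀, hm₀⟩ := hc
    have hC1 : (1 : ℝ) ≤ C₀ := by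
      have h3 := hΔs 0
      have h4 := hΔ (0 + 1)
      have h5 : 1 ≤ C₀ := by
        rcases Nat.eq_zero_or_pos C₀ with h | h
        · rw [h, zero_mul] at h3
          omega
        · exact h
      exact_mod_cast h5
    have hμ1 : 1 ≤ l₁ * l₂ := by nlinarith
    have hev : ∀ k, m₀ ≤ k → m₁ ≤ k → (Δ (2 * k) : ℝ) ≤ 9 * (l₁ * l₂) ^ (2 * k) := by
      intro k h3 h4
      have h5 := (hm₀ k h3).le
      have h6 : (Δ k : ℝ) ≤ 9 * (d k : ℝ) ^ 2 := by exact_mod_cast hΔd k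
      have h7 : (d k : ℝ) ^ 2 ≤ (l₂ ^ k) ^ 2 :=
        pow_le_pow_left₀ (by linarith [hdR k]) (hd2 k h4) 2
      have h8 : (l₁ ^ 2) ^ k * (Δ k : ℝ) ≤ (l₁ ^ 2) ^ k * (9 * (l₂ ^ k) ^ 2) :=
        mul_le_mul_of_nonneg_left (by linarith) (by positivity)
      have h9 : (l₁ ^ 2) ^ k * (9 * (l₂ ^ k) ^ 2) = 9 * (l₁ * l₂) ^ (2 * k) := by
        rw [mul_pow l₁ l₂ (2 * k), ← pow_mul, ← pow_mul, mul_comm k 2]
        ring
      linarith
    have hall : ∀ n, 2 * (m₀ + m₁) ≤ n → (Δ n : ℝ) ≤ 9 * C₀ * (l₁ * l₂) ^ n := by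
      intro n hn
      rcases Nat.even_or_odd' n with ⟨k, h3 | h3⟩
      · rw [h3]
        have h4 := hev k (by omega) (by omega)
        have h11 : 0 ≤ (l₁ * l₂) ^ (2 * k) := by positivity
        nlinarith
      · rw [h3]
        have h4 := hev k (by omega) (by omega)
        have h5 : (Δ (2 * k + 1) : ℝ) ≤ C₀ * Δ (2 * k) := by exact_mod_cast hΔs (2 * k)
        have h6 : (C₀ : ℝ) * Δ (2 * k) ≤ C₀ * (9 * (l₁ * l₂) ^ (2 * k)) :=
          mul_le_mul_of_nonneg_left h4 (by linarith)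
        have h7 : (l₁ * l₂) ^ (2 * k) ≤ (l₁ * l₂) ^ (2 * k + 1) :=
          pow_le_pow_right₀ hμ1 (Nat.le_succ _)
        have h8 : 9 * (C₀ : ℝ) * (l₁ * l₂) ^ (2 * k) ≤ 9 * C₀ * (l₁ * l₂) ^ (2 * k + 1) :=
          mul_le_mul_of_nonneg_left h7 (by linarith)
        linarith
    obtain ⟨m, hmd⟩ : ∃ m, m = 2 * (m₀ + m₁) + m₂ + m₃ + 1 := ⟨_, rfl⟩
    have h3 := hall m (by omega)
    have h4 := hd2 m (by omega)
    have h5 := hA' m (by omega)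
    have h6 := hD' m (by omega)
    have h7 := hld (2 * m)
    have hdm := hdR m
    have hl2m : 0 < l₂ ^ m := by positivity
    have hl1m : 0 < l₁ ^ m := by positivity
    have hlm : 0 < l ^ m := by positivity
    have e1 : (l₂ ^ 3) ^ m = l₂ ^ m * (l₂ ^ m) ^ 2 := by
      rw [← pow_mul, ← pow_mul, ← pow_add]
      congr 1
      ring
    have e2 : (l ^ 4) ^ m = (l ^ (2 * m)) ^ 2 := by
      rw [← pow_mul, ← pow_mul]
      congr 1
      ring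
    have e3 : (l₁ ^ 2) ^ m ≤ l ^ (2 * m) := by
      rw [← pow_mul]
      exact pow_le_pow_left₀ hl10.le h1l.le _
    rw [e1, e2] at h6
    have hL : 0 < l ^ (2 * m) := by positivity
    have h8 : 576 * ((d m : ℝ) * (τ : ℝ) ^ m) ≤ d (2 * m) := by
      have h9 : (d m : ℝ) * (τ : ℝ) ^ m ≤ l₂ ^ m * (τ : ℝ) ^ m :=
        mul_le_mul_of_nonneg_right h4 (by linarith [hτm m])
      linarith
    have hb : 72 * (τ : ℝ) ^ m ≤ (d (2 * m) : ℝ) / (8 * d m) := by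
      rw [le_div_iff₀ (by linarith)]
      linarith
    have hbd : (d (2 * m) : ℝ) / (8 * d m) * d m = d (2 * m) / 8 := by
      field_simp
    have hμm : 1 ≤ (l₁ * l₂) ^ m := one_le_pow₀ hμ1
    have h10 : 82944 * C₀ * (l₁ * l₂) ^ m ≤ l ^ (2 * m) := by
      have h11 : l ^ (2 * m) ≤ (l₂ ^ m) ^ 2 := by
        rw [← pow_mul, mul_comm m 2]
        exact pow_le_pow_left₀ hl0.le hl2.le _
      have h12 : 82944 * C₀ * (l₁ * l₂) ^ m * l ^ (2 * m) ≤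
          82944 * C₀ * (l₁ * l₂) ^ m * (l₂ ^ m) ^ 2 :=
        mul_le_mul_of_nonneg_left h11 (by positivity)
      have h13 : 82944 * C₀ * (l₁ * l₂) ^ m * (l₂ ^ m) ^ 2 =
          82944 * C₀ * (l₁ ^ m * (l₂ ^ m * (l₂ ^ m) ^ 2)) := by
        rw [mul_pow]
        ring
      have h14 : 82944 * C₀ * (l₁ * l₂) ^ m * l ^ (2 * m) ≤ l ^ (2 * m) * l ^ (2 * m) := by
        rw [h13] at h12
        refine h12.trans (h6.trans (le_of_eq (sq _)))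
      exact le_of_mul_le_mul_right h14 hL
    refine ⟨m, by omega, Or.inl ⟨?_, ?_, ?_, ?_⟩⟩
    · linarith [hτm m]
    · have hb2 : l ^ (2 * m) / (8 * l₂ ^ m) ≤ (d (2 * m) : ℝ) / (8 * d m) :=
        div_le_div₀ (by linarith) h7 (by linarith) (by linarith)
      have hb3 : (l ^ (2 * m) / (8 * l₂ ^ m)) ^ 2 ≤ ((d (2 * m) : ℝ) / (8 * d m)) ^ 2 :=
        pow_le_pow_left₀ (by positivity) hb2 2
      refine le_trans ?_ hb3
      rw [div_pow, le_div_iff₀ (by positivity)]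
      have h15 : 8 * (18 * (Δ m : ℝ)) * (8 * l₂ ^ m) ^ 2 = 9216 * (Δ m * (l₂ ^ m) ^ 2) := by ring
      have h16 : (Δ m : ℝ) * (l₂ ^ m) ^ 2 ≤ 9 * C₀ * (l₁ * l₂) ^ m * (l₂ ^ m) ^ 2 :=
        mul_le_mul_of_nonneg_right h3 (by positivity)
      have h17 : 9 * C₀ * (l₁ * l₂) ^ m * (l₂ ^ m) ^ 2 =
          9 * C₀ * (l₁ ^ m * (l₂ ^ m * (l₂ ^ m) ^ 2)) := by
        rw [mul_pow]
        ring
      rw [h15]
      linarith
    · rw [hbd]
      have h18 : (C₀ : ℝ) * 1 ≤ C₀ * (l₁ * l₂) ^ m := mul_le_mul_of_nonneg_left hμm (by linarith)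
      linarith
    · linarith [hτm m]
  · have hc' : ∀ m₀ : ℕ, ∃ m, m₀ ≤ m ∧ (l₁ ^ 2) ^ m * (Δ m : ℝ) ≤ Δ (2 * m) := by
      intro m₀
      by_contra h3
      refine hc ⟨m₀, fun m hm => ?_⟩
      by_contra h4
      exact h3 ⟨m, hm, not_lt.1 h4⟩
    obtain ⟨m, hm, h3⟩ := hc' (m₁ + m₂ + 1)
    have h4 := hd2 m (by omega)
    have h5 := hA' m (by omega)
    have h7 := hld m
    have hdm := hdR m
    have hΔm := hΔR m
    have hτl : (τ : ℝ) ^ m ≤ l ^ m := pow_le_pow_left₀ hτ0.le hl.le _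
    have ha : (τ : ℝ) ^ m / d m ≤ 1 := by
      rw [div_le_one (by linarith)]
      linarith
    have h8 : 576 * ((d m : ℝ) * (τ : ℝ) ^ m) ≤ (l₁ ^ 2) ^ m := by
      have h9 : (d m : ℝ) * (τ : ℝ) ^ m ≤ l₂ ^ m * (τ : ℝ) ^ m :=
        mul_le_mul_of_nonneg_right h4 (by linarith [hτm m])
      linarith
    have h9 : 576 * ((d m : ℝ) * (τ : ℝ) ^ m) * Δ m ≤ (l₁ ^ 2) ^ m * Δ m :=
      mul_le_mul_of_nonneg_right h8 (by linarith)
    have hb : 8 * (τ : ℝ) ^ m ≤ (Δ (2 * m) : ℝ) / (72 * d m * Δ m) := by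
      rw [le_div_iff₀ (by positivity)]
      have h10 : 8 * (τ : ℝ) ^ m * (72 * d m * Δ m) =
          576 * ((d m : ℝ) * (τ : ℝ) ^ m) * Δ m := by ring
      rw [h10]
      linarith
    have hb8 : 8 ≤ (Δ (2 * m) : ℝ) / (72 * d m * Δ m) := by linarith [hτm m]
    refine ⟨m, by omega, Or.inr ⟨?_, ?_, ?_, ?_⟩⟩
    · linarith
    · nlinarith
    · nlinarith
    · linarith [hτm m]

end Pool.Agent.Lib.MP_16285c_agN
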