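import Pool.Agent.Lib.MP_16285c_agN.T3.SpecB
import Pool.Agent.Lib.MP_16285c_agN.KLV.Rep
import Pool.Agent.Lib.MP_16285c_agN.KLV.Val

/-!
# The two recursive inequalities for orbits
-/

set_option autoImplicit false

namespace Pool.Agent.Lib.MP_16285c_agN

open Pool.Agent.Lib.MP_16285c_ag

namespace T3XRecM

/-- The values of a representative of an iterate along an orbit. -/
theorem value {K₀ K : Type} [Field K₀] [Field K] [Algebra K₀ K]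
    (σ₀ : RF 3 K₀ →ₐ[K₀] RF 3 K₀) (σ : RF 3 K →ₐ[K] RF 3 K) (hc' : Cmp σ₀ σ) (j : ℕ)
    (W : Fin 4 → Pl 3 K₀) (hW : Wk (it σ₀ j) W) (x : ℕ → Fin 3 → K) (hx : Flow σ x) (t : ℕ) :
    (fun i => MvPolynomial.aeval (x t) (W i)) =
      (MvPolynomial.aeval (x t) (W 0) : K) • hcN (x (t + j)) := by
  have hV : Val (σ ^ j) (x t) (x (t + j)) := tVal.2.1 3 K σ x hx j t
  have hev : ∀ G : Pl 3 K₀, MvPolynomial.eval (x t) (MvPolynomial.map (algebraMap K₀ K) G) =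
      MvPolynomial.aeval (x t) G := by
    intro G
    rw [MvPolynomial.eval_map, MvPolynomial.aeval_def]
  funext i
  refine Fin.cases ?_ (fun i => ?_) i
  · rw [Pi.smul_apply, smul_eq_mul]
    change _ = _ * (1 : K)
    rw [mul_one]
  · have hN : fr (MvPolynomial.map (algebraMap K₀ K) (W i.succ)) =
        fr (MvPolynomial.map (algebraMap K₀ K) (W 0)) * (σ ^ j) (fr (MvPolynomial.X i)) := by
      have e1 : (σ ^ j) (fr (MvPolynomial.X i)) = bc 3 K₀ K (it σ₀ j i) := cmp_it hc' j i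
      rw [e1, ← bc_fr, ← bc_fr, hW.eq i, map_mul, mul_comm]
    have h := tVal.2.2.2.2.2 3 K (σ ^ j) (x t) (x (t + j)) (MvPolynomial.X i) _ _ hV hN
    rw [hev, hev, MvPolynomial.eval_X] at h
    rw [Pi.smul_apply, smul_eq_mul]
    change _ = _ * (x (t + j) i)
    exact h

theorem arithI (d D Δ h0 h1 h2 C : ℝ) (hd : 0 < d)
    (h : D * h1 ≤ 2 * (72 * d * Δ) * h0 + 8 * d * h2 + C) :
    D / (8 * d) * h1 ≤ h2 + 18 * Δ * h0 + C / (8 * d) := by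
  have hd8 : 0 < 8 * d := by linarith
  have e1 : D / (8 * d) * h1 = D * h1 / (8 * d) := by ring
  rw [e1, div_le_iff₀ hd8]
  have e2 : (h2 + 18 * Δ * h0 + C / (8 * d)) * (8 * d) =
      2 * (72 * d * Δ) * h0 + 8 * d * h2 + C := by
    field_simp
    ring
  rw [e2]
  exact h

theorem arithII (d Δ Δ' τ h0 h1 h2 C : ℝ) (hd : 0 < d) (hΔ : 0 < Δ) (hτ : 0 ≤ τ) (h00 : 0 ≤ h0)
    (h : Δ' * h1 ≤ 2 * (16 * τ * Δ) * h0 + 72 * d * Δ * h2 + C) :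
    Δ' / (72 * d * Δ) * h1 ≤ h2 + τ / d * h0 + C / (72 * d * Δ) := by
  have hd8 : 0 < 72 * d * Δ := by positivity
  have e1 : Δ' / (72 * d * Δ) * h1 = Δ' * h1 / (72 * d * Δ) := by ring
  rw [e1, div_le_iff₀ hd8]
  have e2 : (h2 + τ / d * h0 + C / (72 * d * Δ)) * (72 * d * Δ) =
      72 * (τ * Δ * h0) + 72 * d * Δ * h2 + C := by
    field_simp
    ring
  rw [e2]
  have h3 : 0 ≤ τ * Δ * h0 := by positivity
  have h4 : 2 * (16 * τ * Δ) * h0 = 32 * (τ * Δ * h0) := by ring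
  rw [h4] at h
  linarith

end T3XRecM

/-- `StmtXRec`. -/
theorem tXRec : StmtXSecI → StmtXSecII → StmtXHt' → StmtXMd → StmtXRec := by
  intro hI hII hHt hMd K₀ _ _ σ₀ m htp hd hD
  haveI : Infinite K₀ := Infinite.of_injective (Nat.cast : ℕ → K₀) Nat.cast_injective
  obtain ⟨F, hF, hFd, hFt⟩ := tRep.1 3 K₀ (it σ₀ m)
  obtain ⟨Z, hZ, hZd, hZt⟩ := tRep.1 3 K₀ (it σ₀ (2 * m))
  have hΔ : 1 ≤ md (it σ₀ m) := (hMd K₀).1 σ₀ m
  have hΔ' : 1 ≤ md (it σ₀ (2 * m)) := (hMd K₀).1 σ₀ (2 * m)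
  have hfI := hI K₀ σ₀ m F Z _ _ htp hd hD hF hZ hFd hZd hZt
  have hfII := hII K₀ σ₀ m F Z _ htp hd hF hZ hFd
  have hτ : 1 ≤ tp σ₀ ^ m := Nat.one_le_pow _ _ htp
  obtain ⟨B₁, hB₁, hb₁⟩ := hHt K₀ F Z (72 * dg (it σ₀ m) * md (it σ₀ m)) (8 * dg (it σ₀ m))
    (dg (it σ₀ (2 * m))) (Nat.mul_pos (Nat.mul_pos (by norm_num) hd) hΔ)
    (Nat.mul_pos (by norm_num) hd) hD hfI
  obtain ⟨B₂, hB₂, hb₂⟩ := hHt K₀ F Z (16 * tp σ₀ ^ m * md (it σ₀ m))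
    (72 * dg (it σ₀ m) * md (it σ₀ m)) (md (it σ₀ (2 * m)))
    (Nat.mul_pos (Nat.mul_pos (by norm_num) hτ) hΔ)
    (Nat.mul_pos (Nat.mul_pos (by norm_num) hd) hΔ) hΔ' hfII
  refine ⟨B₁ * B₂ * F 0 * Z 0, mul_ne_zero (mul_ne_zero (mul_ne_zero hB₁ hB₂) hF.ne) hZ.ne, ?_⟩
  intro K _ _ _ σ hcmp
  obtain ⟨C₁, hC₁⟩ := hb₁ K
  obtain ⟨C₂, hC₂⟩ := hb₂ K
  have hdpos : (0 : ℝ) < (dg (it σ₀ m) : ℝ) := by exact_mod_cast hd
  have hΔpos : (0 : ℝ) < (md (it σ₀ m) : ℝ) := by exact_mod_cast hΔ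
  refine ⟨max (C₁ / (8 * (dg (it σ₀ m) : ℝ)))
    (C₂ / (72 * (dg (it σ₀ m) : ℝ) * (md (it σ₀ m) : ℝ))), ?_⟩
  intro x hx t ht
  rw [map_mul, map_mul, map_mul] at ht
  have n1 := left_ne_zero_of_mul (left_ne_zero_of_mul (left_ne_zero_of_mul ht))
  have n2 := right_ne_zero_of_mul (left_ne_zero_of_mul (left_ne_zero_of_mul ht))
  have n3 := right_ne_zero_of_mul (left_ne_zero_of_mul ht)
  have n4 := right_ne_zero_of_mul ht
  have h1 := hC₁ (x t) n1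
  have h2 := hC₂ (x t) n2
  rw [T3XRecM.value σ₀ σ hcmp m F hF.toWk x hx t,
    T3XRecM.value σ₀ σ hcmp (2 * m) Z hZ.toWk x hx t,
    Height.logHeight_smul_eq_logHeight _ n3, Height.logHeight_smul_eq_logHeight _ n4] at h1 h2
  constructor
  · have h := T3XRecM.arithI (dg (it σ₀ m)) (dg (it σ₀ (2 * m))) (md (it σ₀ m))
      (Height.logHeight (hcN (x t))) (Height.logHeight (hcN (x (t + m))))
      (Height.logHeight (hcN (x (t + 2 * m)))) C₁ hdpos (by push_cast at h1; exact h1)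
    exact h.trans (add_le_add le_rfl (le_max_left _ _))
  · have h := T3XRecM.arithII (dg (it σ₀ m)) (md (it σ₀ m)) (md (it σ₀ (2 * m))) ((tp σ₀ : ℝ) ^ m)
      (Height.logHeight (hcN (x t))) (Height.logHeight (hcN (x (t + m))))
      (Height.logHeight (hcN (x (t + 2 * m)))) C₂ hdpos hΔpos (by positivity)
      (Height.logHeight_nonneg _) (by push_cast at h2; exact h2)
    exact h.trans (add_le_add le_rfl (le_max_right _ _))

end Pool.Agent.Lib.MP_16285c_agN
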