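import Pool.Agent.Lib.MP_16285c_agN.T3.SpecC
import Pool.Agent.Lib.MP_16285c_agN.DgDesc

/-!
# Relatively prime polynomials over a larger field
-/

set_option autoImplicit false

namespace Pool.Agent.Lib.MP_16285c_agN

namespace T3XRpBM

/-- A divisor of all `W * F j`, where the `F j` have no common factor, divides `W`. -/
theorem dvd_of_cop {A : Type} [CommRing A] [IsDomain A] [UniqueFactorizationMonoid A] {ι : Type}
    (F : ι → A) (hc : ∀ c : A, (∀ i, c ∣ F i) → IsUnit c) (a W : A) (ha : a ≠ 0)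
    (h : ∀ j, a ∣ W * F j) : a ∣ W := by
  obtain ⟨a', b', c', hrel, h1, h2⟩ := UniqueFactorizationMonoid.exists_reduced_factors a ha W
  have hc0 : c' ≠ 0 := by
    rintro rfl
    exact ha (by rw [← h1, zero_mul])
  have hu : IsUnit a' := by
    refine hc a' fun j => ?_
    have h3 : c' * a' ∣ c' * (b' * F j) := by
      rw [h1, ← mul_assoc, h2]
      exact h j
    have h4 : a' ∣ b' * F j := (mul_dvd_mul_iff_left hc0).1 h3
    exact hrel.dvd_of_dvd_mul_left h4
  obtain ⟨w, hw⟩ := hu.exists_right_inv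
  refine ⟨w * b', ?_⟩
  rw [← h1, ← h2]
  calc c' * b' = c' * (a' * w) * b' := by rw [hw, mul_one]
    _ = c' * a' * (w * b') := by ring

theorem deg_map {R F σ : Type} [CommRing R] [CommRing F] (φ : R →+* F)
    (p : MvPolynomial σ R) : (MvPolynomial.map φ p).totalDegree ≤ p.totalDegree := by
  unfold MvPolynomial.totalDegree
  exact Finset.sup_mono (MvPolynomial.support_map_subset _ _)

theorem deg_dvd {K σ : Type} [Field K] {a b : MvPolynomial σ K} (hb : b ≠ 0) (h : a ∣ b) :
    a.totalDegree ≤ b.totalDegree := by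
  obtain ⟨q, rfl⟩ := h
  have ha : a ≠ 0 := left_ne_zero_of_mul hb
  have hq : q ≠ 0 := right_ne_zero_of_mul hb
  rw [MvPolynomial.totalDegree_mul_of_isDomain ha hq]
  exact Nat.le_add_right _ _

end T3XRpBM

open T3XRpBM in
theorem tXRpB : StmtXRpB := by
  intro K L _ _ _ n F hF hcop c hc
  choose f hf using hc
  have hinj : Function.Injective (MvPolynomial.map (σ := Fin n) (algebraMap K L)) :=
    MvPolynomial.map_injective _ (algebraMap K L).injective
  have h0 : MvPolynomial.map (algebraMap K L) (F 0) ≠ 0 := fun h =>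
    hF (hinj (h.trans (map_zero _).symm))
  have hc0 : c ≠ 0 := by
    rintro rfl
    exact h0 (by rw [hf 0, zero_mul])
  have hf0 : f 0 ≠ 0 := by
    intro h
    exact h0 (by rw [hf 0, h, mul_zero])
  by_contra hu
  have hdc : 1 ≤ c.totalDegree := by
    by_contra hn
    have h1 : c.totalDegree = 0 := by omega
    rw [MvPolynomial.totalDegree_eq_zero_iff_eq_C] at h1
    refine hu ?_
    rw [h1]
    refine IsUnit.map MvPolynomial.C (isUnit_iff_ne_zero.2 fun h2 => hc0 ?_)
    rw [h1, h2, map_zero]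
  have hdeg : c.totalDegree + (f 0).totalDegree ≤ (F 0).totalDegree := by
    rw [← MvPolynomial.totalDegree_mul_of_isDomain hc0 hf0, ← hf 0]
    exact deg_map _ _
  -- a linear form
  obtain ⟨u, hu1⟩ : ∃ u, MvPolynomial.coeff u (f 0) ≠ 0 := by
    by_contra hn
    push Not at hn
    exact hf0 (MvPolynomial.ext _ _ fun u => by rw [hn u, MvPolynomial.coeff_zero])
  obtain ⟨l, hl⟩ : ∃ l : L →ₗ[K] K, l (MvPolynomial.coeff u (f 0)) ≠ 0 := by
    by_contra hn
    push Not at hn
    exact hu1 ((Module.forall_dual_apply_eq_zero_iff K _).1 hn)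
  have hL : DgDescM.lam l (f 0) ≠ 0 := by
    intro h
    apply hl
    rw [← DgDescM.coeff_lam, h, MvPolynomial.coeff_zero]
  have hdiv : ∀ i, F 0 ∣ DgDescM.lam l (f 0) * F i := by
    intro i
    have h1 : MvPolynomial.map (algebraMap K L) (F 0) * f i =
        MvPolynomial.map (algebraMap K L) (F i) * f 0 := by
      rw [hf 0, hf i]
      ring
    have h2 := congrArg (DgDescM.lam l) h1
    rw [DgDescM.lam_mul, DgDescM.lam_mul] at h2
    exact ⟨DgDescM.lam l (f i), by rw [mul_comm, ← h2]⟩
  have h3 := deg_dvd hL (dvd_of_cop F hcop (F 0) _ hF hdiv)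
  have h4 := DgDescM.lam_deg l (f 0)
  omega

end Pool.Agent.Lib.MP_16285c_agN
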