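import Pool.Agent.Lib.MP_16285c_agN.T3.SpecB
import Pool.Agent.Lib.MP_16285c_agN.Degr.Trd
import Pool.Agent.Lib.MP_16285c_agN.Degr.Theta
import Pool.Agent.Lib.MP_16285c_agN.Degr.Vd
import Pool.Agent.Lib.MP_16285c_agN.Degr.NN
import Pool.Agent.Lib.MP_16285c_agN.Degr.Cnt
import Pool.Agent.Lib.MP_16285c_agN.KLV.Spec

/-!
# Threefolds with `λ₁ ≠ λ₃`: sections, first case (`StmtXSecI`)

`ind3`: transcendence degree; `trdeg_simple`: `trdeg κ E = 2` for `κ = K(T)`; `deg0`, `deg1`: the degrees `e₀`, `e₁` of `StmtXUB2`;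
`Phi`: the generators of the space of sections, `finrank_W` its dimension, `mem_VV`: its image over `κ`; `cnt_ge`, `num`, `num2`: the count.
-/

set_option autoImplicit false

namespace Pool.Agent.Lib.MP_16285c_agN

open Pool.Agent.Lib.MP_16285c_ag

namespace T3XSecIM

open MvPolynomial

section Fields

variable {K : Type} [Field K]

theorem trdeg3 : Algebra.trdeg K (RF 3 K) = 3 := by
  have h := (DegrTrdM.basis_gen (K := K) (n := 3)).cardinalMk_eq_trdeg
  rw [← h, Cardinal.mk_fintype, Fintype.card_fin]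
  rfl

theorem ind3 (v : Fin 3 → RF 3 K)
    (h : Module.Finite (IntermediateField.adjoin K (Set.range v)) (RF 3 K)) :
    AlgebraicIndependent K v := by
  have : Algebra.IsAlgebraic (Algebra.adjoin K (Set.range v)) (RF 3 K) :=
    DegrTrdM.alg_of_adjoin _ inferInstance
  have hb : IsTranscendenceBasis K v :=
    Algebra.IsAlgebraic.isTranscendenceBasis_of_le_trdeg_of_finite K v (by
      rw [trdeg3, Cardinal.mk_fintype, Fintype.card_fin]
      exact le_refl _)
  exact hb.1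

theorem tr_lin [Infinite K] {n : ℕ} (i₀ : Fin n) (a : Fin n → K) (ha : a i₀ ≠ 0) :
    Transcendental K (1 + ∑ j, C (a j) * X j : MvPolynomial (Fin n) K) := by
  rw [transcendental_iff]
  intro q hq
  apply Polynomial.funext
  intro t
  rw [Polynomial.eval_zero]
  have h := congrArg (MvPolynomial.eval (fun i => if i = i₀ then (t - 1) / a i₀ else 0)) hq
  rw [map_zero, ← MvPolynomial.coe_aeval_eq_eval] at h
  change (MvPolynomial.aeval _) ((Polynomial.aeval _) q) = 0 at h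
  rw [← Polynomial.aeval_algHom_apply] at h
  have h2 : (MvPolynomial.aeval (fun i => if i = i₀ then (t - 1) / a i₀ else 0) :
      MvPolynomial (Fin n) K →ₐ[K] K) (1 + ∑ j, C (a j) * X j) = t := by
    rw [map_add, map_one, map_sum, Finset.sum_eq_single i₀]
    · rw [map_mul, aeval_X, aeval_C, if_pos rfl]
      change 1 + a i₀ * ((t - 1) / a i₀) = t
      field_simp
      ring
    · intro j _ hj
      rw [map_mul, aeval_X, if_neg hj, mul_zero]
    · intro h0
      exact absurd (Finset.mem_univ _) h0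
  rw [h2] at h
  exact h

theorem trdeg_simple (T : RF 3 K) (hT : Transcendental K T) :
    Algebra.trdeg (IntermediateField.adjoin K {T}) (RF 3 K) = 2 := by
  set κ := IntermediateField.adjoin K {T} with hκ
  let y' : Fin 1 → κ := fun _ => ⟨T, IntermediateField.subset_adjoin K _ rfl⟩
  let y : Fin 1 → RF 3 K := fun _ => T
  have hcomp : (algebraMap κ (RF 3 K)) ∘ y' = y := rfl
  have hy : AlgebraicIndependent K y := by
    rw [algebraicIndependent_unique_type_iff]
    exact hT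
  have hy' : AlgebraicIndependent K y' := by
    refine AlgebraicIndependent.of_comp (IsScalarTower.toAlgHom K κ (RF 3 K)) ?_
    exact hy
  obtain ⟨ι, l, hl⟩ := exists_isTranscendenceBasis' κ (RF 3 K)
  have hind : AlgebraicIndependent K (Sum.elim l y) := by
    have h := hy'.sumElim_comp hl.1
    rw [hcomp] at h
    exact h
  have halg : Algebra.IsAlgebraic
      (IntermediateField.adjoin K (Set.range (Sum.elim l y))) (RF 3 K) := by
    have h1 : Set.range (Sum.elim l y) = {T} ∪ Set.range l := by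
      rw [Set.Sum.elim_range, Set.union_comm]
      congr 1
      exact Set.range_const
    have h2 := IntermediateField.adjoin_adjoin_left K {T} (Set.range l)
    have h4 := hl.isAlgebraic_field
    constructor
    intro x
    have h3 : IsAlgebraic (IntermediateField.adjoin κ (Set.range l)) x := h4.isAlgebraic x
    rw [h1, ← h2]
    exact h3
  have hb : IsTranscendenceBasis K (Sum.elim l y) :=
    isTranscendenceBasis_iff_algebraicIndependent_isAlgebraic.2
      ⟨hind, DegrTrdM.alg_of_adjoin _ halg⟩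
  have hc := hb.cardinalMk_eq_trdeg
  rw [trdeg3, Cardinal.mk_sum, Cardinal.lift_id, Cardinal.lift_id, Cardinal.mk_fintype (Fin 1),
    Fintype.card_fin, Nat.cast_one] at hc
  rw [← hl.cardinalMk_eq_trdeg]
  have h3 : (3 : Cardinal) = 2 + 1 := by norm_num
  rw [h3] at hc
  exact Cardinal.add_one_inj.1 hc

theorem fr_sum {n : ℕ} {ι : Type} (s : Finset ι) (f : ι → Pl n K) :
    fr (∑ i ∈ s, f i) = ∑ i ∈ s, fr (f i) := map_sum (algebraMap _ _) _ _

theorem fr_prod {n : ℕ} {ι : Type} (s : Finset ι) (f : ι → Pl n K) :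
    fr (∏ i ∈ s, f i) = ∏ i ∈ s, fr (f i) := map_prod (algebraMap _ _) _ _

theorem fr_lu {n : ℕ} (u : K) (g : Fin n → RF n K) (F : Fin (n + 1) → Pl n K) (hF : Wk g F) :
    fr (luN (C u) F) / fr (F 0) =
      1 + ∑ j : Fin n, algebraMap K (RF n K) (u ^ ((j : ℕ) + 1)) * g j := by
  have h0 : fr (F 0) ≠ 0 := fr_ne_zero hF.ne
  rw [div_eq_iff h0, luN, fr_sum, Fin.sum_univ_succ, add_mul, Finset.sum_mul]
  congr 1
  · rw [Fin.val_zero, pow_zero, one_mul, one_mul]
  · refine Finset.sum_congr rfl fun j _ => ?_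
    rw [fr_mul, fr_pow, fr_C, hF.eq, Fin.val_succ, map_pow, mul_assoc]

theorem T_eq {n : ℕ} (σ : RF n K →ₐ[K] RF n K) (m : ℕ) (u : K) (F : Fin (n + 1) → Pl n K)
    (hF : Wk (it σ m) F) : fr (luN (C u) F) / fr (F 0) =
      (σ ^ m) (fr (1 + ∑ j : Fin n, C (u ^ ((j : ℕ) + 1)) * X j)) := by
  rw [fr_lu u _ F hF, fr_add, fr_one, fr_sum, map_add, map_one, map_sum]
  congr 1
  refine Finset.sum_congr rfl fun j _ => ?_
  rw [fr_mul, fr_C, map_mul, AlgHom.commutes]
  rfl

theorem tr_T [Infinite K] (σ : RF 3 K →ₐ[K] RF 3 K) (m : ℕ) (u : K) (hu : u ≠ 0)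
    (F : Fin 4 → Pl 3 K) (hF : Wk (it σ m) F) :
    Transcendental K (fr (luN (C u) F) / fr (F 0)) := by
  rw [T_eq σ m u F hF]
  have h1 := tr_lin (K := K) (0 : Fin 3) (fun j : Fin 3 => u ^ ((j : ℕ) + 1)) (pow_ne_zero _ hu)
  intro h0
  apply h1
  have h2 := (isAlgebraic_algHom_iff (σ ^ m) (σ ^ m).toRingHom.injective).1 h0
  exact (isAlgebraic_algHom_iff (IsScalarTower.toAlgHom K (Pl 3 K) (RF 3 K)) fr_injective).1 h2

theorem deg0 (hDg : StmtXDgLe) [Infinite K] (g : Fin 3 → RF 3 K) (F : Fin 4 → Pl 3 K) (d : ℕ)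
    (hF : Wk g F) (hd : ∀ i, (F i).totalDegree ≤ d) (u : K) (A : Fin 2 → Fin 3 → K) :
    Module.finrank (IntermediateField.adjoin
      (IntermediateField.adjoin K {fr (luN (C u) F) / fr (F 0)})
      (Set.range (lc A (gen 3 K)))) (RF 3 K) ≤ d := by
  have h1 := IntermediateField.adjoin_adjoin_left K {fr (luN (C u) F) / fr (F 0)}
    (Set.range (lc A (gen 3 K)))
  have h2 : IntermediateField.adjoin K ({fr (luN (C u) F) / fr (F 0)} ∪
      Set.range (lc A (gen 3 K))) = fld A (fun (_ : Fin 1) (j : Fin 3) => u ^ ((j : ℕ) + 1)) g := by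
    have hT := fr_lu u g F hF
    have hl : lf (fun (_ : Fin 1) (j : Fin 3) => u ^ ((j : ℕ) + 1)) g =
        fun _ => fr (luN (C u) F) / fr (F 0) - 1 := by
      funext i
      rw [hT, add_sub_cancel_left]
      rfl
    unfold fld
    rw [hl, Set.range_const]
    apply le_antisymm
    · rw [IntermediateField.adjoin_le_iff]
      rintro x (hx | hx)
      · rw [Set.mem_singleton_iff] at hx
        have h3 : fr (luN (C u) F) / fr (F 0) - 1 ∈ IntermediateField.adjoin K
            (Set.range (lf A (gen 3 K)) ∪ {fr (luN (C u) F) / fr (F 0) - 1}) :=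
          IntermediateField.subset_adjoin K _ (Or.inr rfl)
        have h4 := add_mem h3 (one_mem (IntermediateField.adjoin K
            (Set.range (lf A (gen 3 K)) ∪ {fr (luN (C u) F) / fr (F 0) - 1})))
        rw [sub_add_cancel] at h4
        rw [hx]
        exact h4
      · exact IntermediateField.subset_adjoin K _ (Or.inl hx)
    · rw [IntermediateField.adjoin_le_iff]
      rintro x (hx | hx)
      · exact IntermediateField.subset_adjoin K _ (Or.inr hx)
      · rw [Set.mem_singleton_iff] at hx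
        rw [hx]
        exact sub_mem (IntermediateField.subset_adjoin K _ (Or.inl rfl)) (one_mem _)
  have h3 := hDg K g F d hF hd A (fun (_ : Fin 1) (j : Fin 3) => u ^ ((j : ℕ) + 1))
  rw [← h2, ← h1] at h3
  exact h3

theorem deg1 (hE : StmtXE1) [Infinite K] (σ : RF 3 K →ₐ[K] RF 3 K) (m : ℕ) (F : Fin 4 → Pl 3 K)
    (d : ℕ) (hσ : 1 ≤ tp σ) (hF : Wk (it σ m) F) (hd1 : 1 ≤ d) (hd : ∀ i, (F i).totalDegree ≤ d)
    (u : K) (B : Fin 1 → Fin 3 → K) (A : Fin 1 → Fin 3 → K) :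
    Module.finrank (IntermediateField.adjoin
      (IntermediateField.adjoin K {fr (luN (C u) F) / fr (F 0)})
      (insert (lf B (it σ (2 * m)) 0) (Set.range (lc A (gen 3 K))))) (RF 3 K) ≤
      9 * d * md (it σ m) := by
  have h1 := IntermediateField.adjoin_adjoin_left K {fr (luN (C u) F) / fr (F 0)}
    (insert (lf B (it σ (2 * m)) 0) (Set.range (lc A (gen 3 K))))
  have h2 : ({fr (luN (C u) F) / fr (F 0)} ∪
      (insert (lf B (it σ (2 * m)) 0) (Set.range (lc A (gen 3 K)))) : Set (RF 3 K)) =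
      {∑ j, algebraMap K (RF 3 K) (A 0 j) * gen 3 K j, fr (luN (C u) F) / fr (F 0),
        ∑ j, algebraMap K (RF 3 K) (B 0 j) * it σ (2 * m) j} := by
    ext x
    simp only [Set.mem_union, Set.mem_singleton_iff, Set.mem_insert_iff, Set.mem_range,
      Fin.exists_fin_one, lc, lf]
    tauto
  have h3 := hE K σ m F d hσ hF hd1 hd u (A 0) (B 0)
  rw [← h2, ← h1] at h3
  exact h3

theorem adj_gen (κ : IntermediateField K (RF 3 K)) :
    IntermediateField.adjoin κ (Set.range (gen 3 K)) = ⊤ := by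
  rw [eq_top_iff]
  rintro x -
  obtain ⟨N, D, -, rfl⟩ := exists_fr x
  have h : ∀ G : Pl 3 K, fr G ∈ IntermediateField.adjoin κ (Set.range (gen 3 K)) := by
    intro G
    induction G using MvPolynomial.induction_on with
    | C a =>
      rw [fr_C, IsScalarTower.algebraMap_apply K κ (RF 3 K)]
      exact IntermediateField.algebraMap_mem _ _
    | add p q hp hq =>
      rw [fr_add]
      exact add_mem hp hq
    | mul_X p i hp =>
      rw [fr_mul]
      exact mul_mem hp (IntermediateField.subset_adjoin κ _ ⟨i, rfl⟩)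
  exact div_mem (h N) (h D)

theorem fin_gen (κ : IntermediateField K (RF 3 K)) :
    Module.Finite (IntermediateField.adjoin κ (Set.range (gen 3 K))) (RF 3 K) := by
  refine Module.Finite.of_surjective (Algebra.linearMap
    (IntermediateField.adjoin κ (Set.range (gen 3 K))) (RF 3 K)) ?_
  intro x
  have hx : x ∈ IntermediateField.adjoin κ (Set.range (gen 3 K)) := by
    rw [adj_gen]
    exact IntermediateField.mem_top
  exact ⟨⟨x, hx⟩, rfl⟩

theorem exists_t (L : IntermediateField K (RF 3 K)) (hfin : Module.Finite L (RF 3 K)) (e : ℕ)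
    (he : e = Module.finrank L (RF 3 K)) :
    ∃ t : Fin e → Pl 3 K, LinearIndependent L (fun k => fr (t k)) := by
  have halg : Algebra.IsAlgebraic L (RF 3 K) := Algebra.IsAlgebraic.of_finite L (RF 3 K)
  exact DegrThetaM.exists_fam (F := L) (fun G : Pl 3 K => fr G)
    (DegrThetaM.span_range (algebraMap (Pl 3 K) (RF 3 K)) (fun x => by
      obtain ⟨N, D, -, h⟩ := exists_fr x
      exact ⟨N, D, h⟩)) hfin e he

end Fields

section Space

variable {K : Type} [Field K]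

/-- The linear form with coefficients `a`. -/
noncomputable def lx (a : Fin 3 → K) : Pl 3 K := ∑ j, C (a j) * X j

theorem fr_lx {c : ℕ} (A : Fin c → Fin 3 → K) (i : Fin c) : fr (lx (A i)) = lf A (gen 3 K) i := by
  unfold lx lf
  rw [fr_sum]
  refine Finset.sum_congr rfl fun j _ => ?_
  rw [fr_mul, fr_C]
  rfl

theorem lx_deg (a : Fin 3 → K) : (lx a).totalDegree ≤ 1 := by
  unfold lx
  refine totalDegree_finsetSum_le fun j _ => ?_
  refine (totalDegree_mul _ _).trans ?_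
  rw [totalDegree_C, zero_add]
  exact (totalDegree_X j).le

/-- The linear form with coefficients `b` in `Z_1, Z_2, Z_3`. -/
noncomputable def mu (b : Fin 3 → K) (Z : Fin 4 → Pl 3 K) : Pl 3 K := ∑ j : Fin 3, C (b j) * Z j.succ

theorem fr_mu (z : Fin 3 → RF 3 K) (Z : Fin 4 → Pl 3 K) (hZ : Wk z Z) (B : Fin 1 → Fin 3 → K) :
    fr (mu (B 0) Z) = lf B z 0 * fr (Z 0) := by
  unfold mu lf
  rw [fr_sum, Finset.sum_mul]
  refine Finset.sum_congr rfl fun j _ => ?_
  rw [fr_mul, fr_C, hZ.eq, mul_assoc]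

/-- The elements of the space of sections. -/
noncomputable def Phi {e : ℕ} (A : Fin 2 → Fin 3 → K) (b : Fin 3 → K) (Z : Fin 4 → Pl 3 K)
    (t : Fin e → Pl 3 K) (j a : ℕ)
    (s : {β : Fin 2 → ℕ // ∑ i, β i ≤ a} × Fin (j + 1) × Fin e) : Pl 3 K :=
  (t s.2.2 * ∏ i, lx (A i) ^ (s.1 : Fin 2 → ℕ) i) *
    (mu b Z ^ (s.2.1 : ℕ) * Z 0 ^ (j - (s.2.1 : ℕ)))

theorem fr_Phi {e : ℕ} (A : Fin 2 → Fin 3 → K) (B : Fin 1 → Fin 3 → K) (z : Fin 3 → RF 3 K)
    (Z : Fin 4 → Pl 3 K) (hZ : Wk z Z) (t : Fin e → Pl 3 K) (j a : ℕ)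
    (s : {β : Fin 2 → ℕ // ∑ i, β i ≤ a} × Fin (j + 1) × Fin e) :
    fr (Phi A (B 0) Z t j a s) = fr (Z 0) ^ j * (fr (t s.2.2) *
      (∏ i, lf A (gen 3 K) i ^ (s.1 : Fin 2 → ℕ) i) * lf B z 0 ^ (s.2.1 : ℕ)) := by
  have h1 : (s.2.1 : ℕ) + (j - (s.2.1 : ℕ)) = j := by
    have := s.2.1.2
    omega
  have h2 : fr (Z 0) ^ j = fr (Z 0) ^ (s.2.1 : ℕ) * fr (Z 0) ^ (j - (s.2.1 : ℕ)) := by
    rw [← pow_add, h1]
  have h3 : fr (∏ i, lx (A i) ^ (s.1 : Fin 2 → ℕ) i) =
      ∏ i, lf A (gen 3 K) i ^ (s.1 : Fin 2 → ℕ) i := by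
    rw [fr_prod]
    refine Finset.prod_congr rfl fun i _ => ?_
    rw [fr_pow, fr_lx]
  unfold Phi
  rw [fr_mul, fr_mul, fr_mul, fr_pow, fr_pow, h3, fr_mu z Z hZ B, mul_pow, h2]
  ring

theorem pre_deg {e : ℕ} (A : Fin 2 → Fin 3 → K) (t : Fin e → Pl 3 K) (a c : ℕ)
    (ht : ∀ k, (t k).totalDegree ≤ c) (β : {β : Fin 2 → ℕ // ∑ i, β i ≤ a}) (k : Fin e) :
    (t k * ∏ i, lx (A i) ^ (β : Fin 2 → ℕ) i).totalDegree ≤ a + c := by
  refine (totalDegree_mul _ _).trans ?_
  have h1 : (∏ i, lx (A i) ^ (β : Fin 2 → ℕ) i).totalDegree ≤ ∑ i, (β : Fin 2 → ℕ) i := by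
    refine (totalDegree_finsetProd _ _).trans (Finset.sum_le_sum fun i _ => ?_)
    refine (totalDegree_pow _ _).trans ?_
    calc (β : Fin 2 → ℕ) i * (lx (A i)).totalDegree ≤ (β : Fin 2 → ℕ) i * 1 :=
          Nat.mul_le_mul_left _ (lx_deg _)
      _ = (β : Fin 2 → ℕ) i := mul_one _
  have h2 := β.2
  have h3 := ht k
  omega

theorem linInd (hLB : StmtXLB) {e : ℕ} (A : Fin 2 → Fin 3 → K) (B : Fin 1 → Fin 3 → K)
    (z : Fin 3 → RF 3 K) (Z : Fin 4 → Pl 3 K) (hZ : Wk z Z) (t : Fin e → Pl 3 K)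
    (hind : AlgebraicIndependent K (Fin.cons (lf B z 0) (lf A (gen 3 K)) : Fin 3 → RF 3 K))
    (ht : LinearIndependent (IntermediateField.adjoin K
      (insert (lf B z 0) (Set.range (lf A (gen 3 K))))) (fun k => fr (t k))) (j a : ℕ) :
    LinearIndependent K (Phi A (B 0) Z t j a) := by
  have h1 := hLB K (RF 3 K) 2 e (lf A (gen 3 K)) (lf B z 0) (fun k => fr (t k)) hind ht a j
  have hc : fr (Z 0) ^ j ≠ 0 := pow_ne_zero _ (fr_ne_zero hZ.ne)
  have h2 := h1.map' (LinearMap.mulLeft K (fr (Z 0) ^ j)) (by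
    rw [LinearMap.ker_eq_bot]
    exact mul_right_injective₀ hc)
  have h3 : (fun s => fr (Phi A (B 0) Z t j a s)) =
      (LinearMap.mulLeft K (fr (Z 0) ^ j)) ∘
        (fun t_1 : {β : Fin 2 → ℕ // ∑ i, β i ≤ a} × Fin (j + 1) × Fin e =>
        fr (t t_1.2.2) * (∏ i, lf A (gen 3 K) i ^ (t_1.1 : Fin 2 → ℕ) i) *
          lf B z 0 ^ (t_1.2.1 : ℕ)) := by
    funext s
    rw [fr_Phi A B z Z hZ t j a s]
    rfl
  rw [← h3] at h2
  exact LinearIndependent.of_comp (IsScalarTower.toAlgHom K (Pl 3 K) (RF 3 K)).toLinearMap h2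

theorem card_idx (e j a : ℕ) :
    Nat.card ({β : Fin 2 → ℕ // ∑ i, β i ≤ a} × Fin (j + 1) × Fin e) =
      cnt 2 a * ((j + 1) * e) := by
  rw [Nat.card_prod, Nat.card_prod, Nat.card_fin, Nat.card_fin]
  rfl

theorem finrank_W (hLB : StmtXLB) {e : ℕ} (A : Fin 2 → Fin 3 → K) (B : Fin 1 → Fin 3 → K)
    (z : Fin 3 → RF 3 K) (Z : Fin 4 → Pl 3 K) (hZ : Wk z Z) (t : Fin e → Pl 3 K)
    (hind : AlgebraicIndependent K (Fin.cons (lf B z 0) (lf A (gen 3 K)) : Fin 3 → RF 3 K))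
    (ht : LinearIndependent (IntermediateField.adjoin K
      (insert (lf B z 0) (Set.range (lf A (gen 3 K))))) (fun k => fr (t k))) (j a : ℕ) :
    Module.finrank K (Submodule.span K (Set.range (Phi A (B 0) Z t j a))) =
      cnt 2 a * ((j + 1) * e) := by
  have hf := DegrCntM.fin 2 a
  have hft := Fintype.ofFinite ({β : Fin 2 → ℕ // ∑ i, β i ≤ a} × Fin (j + 1) × Fin e)
  rw [finrank_span_eq_card (linInd hLB A B z Z hZ t hind ht j a), ← Nat.card_eq_fintype_card,
    card_idx]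

theorem cnt_ge (a : ℕ) : a ^ 2 ≤ 2 * cnt 2 a := by
  have hf := DegrCntM.fin 2 a
  have h1 : Nat.card (Fin a × Fin a) = a ^ 2 := by
    rw [Nat.card_prod, Nat.card_fin, sq]
  have h2 : Nat.card ({β : Fin 2 → ℕ // ∑ i, β i ≤ a} × Bool) = 2 * cnt 2 a := by
    rw [Nat.card_prod, mul_comm]
    congr 1
    rw [Nat.card_eq_fintype_card, Fintype.card_bool]
  rw [← h1, ← h2]
  have hp : ∀ x y : ℕ, x + y ≤ a → ∑ i, (![x, y] : Fin 2 → ℕ) i ≤ a := by
    intro x y h
    rw [Fin.sum_univ_two]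
    exact h
  refine Nat.card_le_card_of_injective
    (fun x : Fin a × Fin a => if h : (x.1 : ℕ) + (x.2 : ℕ) ≤ a then
      ((⟨![(x.1 : ℕ), (x.2 : ℕ)], hp _ _ h⟩ : {β : Fin 2 → ℕ // ∑ i, β i ≤ a}), true)
      else ((⟨![a - (x.1 : ℕ), a - (x.2 : ℕ)], hp _ _ (by omega)⟩ :
        {β : Fin 2 → ℕ // ∑ i, β i ≤ a}), false)) ?_
  rintro ⟨x1, x2⟩ ⟨y1, y2⟩ hxy
  simp only at hxy
  have hx1 := x1.2
  have hx2 := x2.2
  have hy1 := y1.2
  have hy2 := y2.2
  split_ifs at hxy with h3 h4 h4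
  · have h5 := congrArg (fun q => (q.1.1 0, q.1.1 1)) hxy
    simp only [Matrix.cons_val_zero, Matrix.cons_val_one, Prod.mk.injEq] at h5
    ext
    · exact h5.1
    · exact h5.2
  · exact absurd (congrArg Prod.snd hxy) (by simp)
  · exact absurd (congrArg Prod.snd hxy) (by simp)
  · have h5 := congrArg (fun q => (q.1.1 0, q.1.1 1)) hxy
    simp only [Matrix.cons_val_zero, Matrix.cons_val_one, Prod.mk.injEq] at h5
    ext
    · change (x1 : ℕ) = y1
      omega
    · change (x2 : ℕ) = y2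
      omega

/-- The space over `κ`. -/
noncomputable def VV (κ : IntermediateField K (RF 3 K)) (w c : RF 3 K) (p j : ℕ) :
    Submodule κ (RF 3 K) :=
  ((1 : Submodule κ (RF 3 K)) * Vd κ (gen 3 K) p * Vd κ (fun _ : Fin 1 => w) j).map
    (LinearMap.mulLeft κ c)

theorem fin_inner (κ : IntermediateField K (RF 3 K)) (w : RF 3 K) (p j : ℕ) :
    ((1 : Submodule κ (RF 3 K)) * Vd κ (gen 3 K) p * Vd κ (fun _ : Fin 1 => w) j).FG := by
  have h1 : (Vd κ (gen 3 K) p).FG := Module.Finite.iff_fg.1 (tVd.1 κ (RF 3 K) 3 (gen 3 K) p)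
  have h2 : (Vd κ (fun _ : Fin 1 => w) j).FG :=
    Module.Finite.iff_fg.1 (tVd.1 κ (RF 3 K) 1 (fun _ : Fin 1 => w) j)
  have h3 : (1 : Submodule κ (RF 3 K)).FG := by
    rw [Submodule.one_eq_span]
    exact Submodule.fg_span_singleton _
  exact (h3.mul h1).mul h2

theorem fin_VV (κ : IntermediateField K (RF 3 K)) (w c : RF 3 K) (p j : ℕ) :
    Module.Finite κ (VV κ w c p j) :=
  Module.Finite.iff_fg.2 ((fin_inner κ w p j).map _)

theorem rank_VV (κ : IntermediateField K (RF 3 K)) (w c : RF 3 K) (p j : ℕ) :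
    Module.finrank κ (VV κ w c p j) ≤ Module.finrank κ
      ((1 : Submodule κ (RF 3 K)) * Vd κ (gen 3 K) p * Vd κ (fun _ : Fin 1 => w) j :
        Submodule κ (RF 3 K)) := by
  have := Module.Finite.iff_fg.2 (fin_inner κ w p j)
  exact Submodule.finrank_map_le _ _

theorem deg_map {R S : Type} [CommRing R] [CommRing S] {n : ℕ} (f : R →+* S)
    (G : MvPolynomial (Fin n) R) : (MvPolynomial.map f G).totalDegree ≤ G.totalDegree :=
  Finset.sup_mono (support_map_subset _ _)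

theorem aeval_gen (G : Pl 3 K) : MvPolynomial.aeval (gen 3 K) G = fr G := by
  have h : (MvPolynomial.aeval (gen 3 K) : Pl 3 K →ₐ[K] RF 3 K) =
      IsScalarTower.toAlgHom K (Pl 3 K) (RF 3 K) := by
    refine MvPolynomial.algHom_ext fun i => ?_
    rw [aeval_X]
    rfl
  rw [h]
  rfl

theorem mem_VV {e : ℕ} (κ : IntermediateField K (RF 3 K)) (A : Fin 2 → Fin 3 → K)
    (B : Fin 1 → Fin 3 → K)
    (z : Fin 3 → RF 3 K) (Z : Fin 4 → Pl 3 K) (hZ : Wk z Z) (t : Fin e → Pl 3 K) (j a c p : ℕ)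
    (ht : ∀ k, (t k).totalDegree ≤ c) (hp : a + c ≤ p) :
    ∀ w ∈ Submodule.span K (Set.range (Phi A (B 0) Z t j a)),
      fr w ∈ VV κ (lf B z 0) (fr (Z 0) ^ j) p j := by
  intro w hw
  induction hw using Submodule.span_induction with
  | mem x hx =>
    obtain ⟨s, rfl⟩ := hx
    rw [fr_Phi A B z Z hZ t j a s]
    refine Submodule.mem_map.2 ⟨_, ?_, rfl⟩
    refine Submodule.mul_mem_mul ?_ ?_
    · have h1 : fr (t s.2.2) * (∏ i, lf A (gen 3 K) i ^ (s.1 : Fin 2 → ℕ) i) =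
          1 * fr (t s.2.2 * ∏ i, lx (A i) ^ (s.1 : Fin 2 → ℕ) i) := by
        rw [one_mul, fr_mul, fr_prod]
        congr 1
        refine Finset.prod_congr rfl fun i _ => ?_
        rw [fr_pow, fr_lx]
      rw [h1]
      refine Submodule.mul_mem_mul (Submodule.one_le.1 le_rfl) ?_
      rw [DegrNNM.mem_Vd]
      refine ⟨MvPolynomial.map (algebraMap K κ) (t s.2.2 * ∏ i, lx (A i) ^ (s.1 : Fin 2 → ℕ) i),
        ?_, ?_⟩
      · exact (deg_map _ _).trans ((pre_deg A t a c ht s.1 s.2.2).trans hp)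
      · rw [aeval_map_algebraMap, aeval_gen]
    · rw [DegrNNM.mem_Vd]
      refine ⟨X 0 ^ (s.2.1 : ℕ), ?_, ?_⟩
      · rw [totalDegree_X_pow]
        have := s.2.1.2
        omega
      · rw [map_pow, aeval_X]
  | zero =>
    have h0 : fr (0 : Pl 3 K) = 0 := map_zero _
    rw [h0]
    exact zero_mem _
  | add x y _ _ hx hy =>
    rw [fr_add]
    exact add_mem hx hy
  | smul r x _ hx =>
    rw [MvPolynomial.smul_eq_C_mul, fr_mul, fr_C, IsScalarTower.algebraMap_apply K κ (RF 3 K),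
      ← Algebra.smul_def]
    exact Submodule.smul_mem _ _ hx

/-- The sections as values of homogeneous polynomials. -/
def Sc (Z : Fin 4 → Pl 3 K) (P j : ℕ) (s : Pl 3 K) : Prop :=
  ∃ G : MvPolynomial (Fin 4) (Pl 3 K), G.IsHomogeneous j ∧ (∀ α, (G.coeff α).totalDegree ≤ P) ∧
    MvPolynomial.eval Z G = s

theorem Sc_span (Z : Fin 4 → Pl 3 K) (P j : ℕ) (S : Set (Pl 3 K)) (hS : ∀ s ∈ S, Sc Z P j s) :
    ∀ s ∈ Submodule.span K S, Sc Z P j s := by
  intro s hs
  induction hs using Submodule.span_induction with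
  | mem x hx => exact hS x hx
  | zero =>
    refine ⟨0, isHomogeneous_zero _ _ _, fun α => ?_, map_zero _⟩
    rw [coeff_zero, totalDegree_zero]
    exact Nat.zero_le _
  | add x y _ _ hx hy =>
    obtain ⟨G, h1, h2, h3⟩ := hx
    obtain ⟨H, h4, h5, h6⟩ := hy
    refine ⟨G + H, h1.add h4, fun α => ?_, ?_⟩
    · rw [coeff_add]
      exact (totalDegree_add _ _).trans (max_le (h2 α) (h5 α))
    · rw [map_add, h3, h6]
  | smul r x _ hx =>
    obtain ⟨G, h1, h2, h3⟩ := hx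
    refine ⟨C (C r) * G, ?_, fun α => ?_, ?_⟩
    · have h4 := (isHomogeneous_C (Fin 4) (C r : Pl 3 K)).mul h1
      rw [zero_add] at h4
      exact h4
    · rw [coeff_C_mul]
      refine (totalDegree_mul _ _).trans ?_
      rw [totalDegree_C, zero_add]
      exact h2 α
    · rw [map_mul, eval_C, h3, MvPolynomial.smul_eq_C_mul]

theorem Sc_Phi {e : ℕ} (A : Fin 2 → Fin 3 → K) (b : Fin 3 → K) (Z : Fin 4 → Pl 3 K)
    (t : Fin e → Pl 3 K) (j a c p : ℕ)
    (ht : ∀ k, (t k).totalDegree ≤ c) (hp : a + c ≤ p)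
    (s : {β : Fin 2 → ℕ // ∑ i, β i ≤ a} × Fin (j + 1) × Fin e) :
    Sc Z p j (Phi A b Z t j a s) := by
  have h0 : (s.2.1 : ℕ) + (j - (s.2.1 : ℕ)) = j := by
    have := s.2.1.2
    omega
  set H : MvPolynomial (Fin 4) K := (∑ i : Fin 3, C (b i) * X i.succ) ^ (s.2.1 : ℕ) *
    X 0 ^ (j - (s.2.1 : ℕ)) with hH
  have hH1 : H.IsHomogeneous j := by
    have h1 : (∑ i : Fin 3, C (b i) * X i.succ : MvPolynomial (Fin 4) K).IsHomogeneous 1 := by
      refine IsHomogeneous.sum _ _ _ fun i _ => ?_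
      have h2 := (isHomogeneous_C (Fin 4) (b i)).mul (isHomogeneous_X K (i.succ : Fin 4))
      rw [zero_add] at h2
      exact h2
    have h3 := (h1.pow (s.2.1 : ℕ)).mul ((isHomogeneous_X K (0 : Fin 4)).pow (j - (s.2.1 : ℕ)))
    rw [one_mul, one_mul, h0] at h3
    exact h3
  refine ⟨C (t s.2.2 * ∏ i, lx (A i) ^ (s.1 : Fin 2 → ℕ) i) * MvPolynomial.map C H, ?_, ?_, ?_⟩
  · have h4 := (isHomogeneous_C (Fin 4) (t s.2.2 * ∏ i, lx (A i) ^ (s.1 : Fin 2 → ℕ) i)).mul
      (hH1.map (C : K →+* Pl 3 K))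
    rw [zero_add] at h4
    exact h4
  · intro α
    rw [coeff_C_mul, coeff_map]
    refine (totalDegree_mul _ _).trans ?_
    rw [totalDegree_C, add_zero]
    exact (pre_deg A t a c ht s.1 s.2.2).trans hp
  · rw [map_mul, eval_C, hH, map_mul, map_pow, map_pow, map_mul, map_pow, map_pow, map_sum, map_sum,
      map_X, eval_X]
    unfold Phi
    have h5 : (∑ x : Fin 3, (eval Z) (MvPolynomial.map C (C (b x) * X x.succ))) = mu b Z := by
      unfold mu
      refine Finset.sum_congr rfl fun i _ => ?_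
      rw [map_mul, map_C, map_X, map_mul, eval_C, eval_X]
    rw [h5]

end Space

theorem num (d C c a : ℕ) (hd : 1 ≤ d) (ha : 5 * (C + c) + 1 ≤ a) :
    (a + c + C) * (2 * ((a + c) * d) + C) < 4 * d * a ^ 2 := by
  have h1 : (a + c + C) * (2 * ((a + c) * d) + C) ≤ (a + (C + c)) * (2 * ((a + (C + c)) * d)) := by
    have h2 : a + c + C = a + (C + c) := by ring
    rw [h2]
    refine Nat.mul_le_mul_left _ ?_
    have h3 : C ≤ 2 * (C * d) := by nlinarith
    calc 2 * ((a + c) * d) + C ≤ 2 * ((a + c) * d) + 2 * (C * d) := by omega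
      _ = 2 * ((a + (C + c)) * d) := by ring
  generalize C + c = M at ha h1
  have h4 : (a + M) ^ 2 < 2 * a ^ 2 := by nlinarith
  calc (a + c + C) * (2 * ((a + c) * d) + C) ≤ (a + M) * (2 * ((a + M) * d)) := h1
    _ = 2 * d * (a + M) ^ 2 := by ring
    _ < 2 * d * (2 * a ^ 2) := Nat.mul_lt_mul_of_pos_left h4 (by omega)
    _ = 4 * d * a ^ 2 := by ring

theorem num2 (d Δ D e C c i a n v : ℕ) (hd : 1 ≤ d) (hD : 1 ≤ D) (he : D ≤ e) (hi : 1 ≤ i)
    (ha : 5 * (C + c) + 1 ≤ a) (hp : 72 * d * Δ * i = a + c) (hn : a ^ 2 ≤ 2 * n)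
    (hv : v ≤ (72 * d * Δ * i + C) *
      (72 * d * Δ * i * d + 8 * d * i * (9 * d * Δ) + C)) :
    D * i * v < n * ((8 * d * i + 1) * e) := by
  have h1 : 8 * d * i * (9 * d * Δ) = 72 * d * Δ * i * d := by ring
  rw [h1, hp, ← two_mul] at hv
  have h2 := hv.trans_lt (num d C c a hd ha)
  have h3 : D * i * v < D * i * (4 * d * a ^ 2) :=
    Nat.mul_lt_mul_of_pos_left h2 (Nat.mul_pos hD hi)
  have h4 : D * i * (4 * d * a ^ 2) ≤ n * ((8 * d * i + 1) * e) := by
    calc D * i * (4 * d * a ^ 2) ≤ D * i * (4 * d * (2 * n)) :=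
          Nat.mul_le_mul_left _ (Nat.mul_le_mul_left _ hn)
      _ = n * ((8 * d * i) * D) := by ring
      _ ≤ n * ((8 * d * i + 1) * e) :=
          Nat.mul_le_mul_left _ (Nat.mul_le_mul (Nat.le_succ _) he)
  exact h3.trans_le h4

end T3XSecIM

open T3XSecIM in
/-- (XSecI) The sections of the first kind. -/
theorem tXSecI : StmtXUB2 → StmtXLB → StmtXSub → StmtXGen → StmtXTr → StmtXDgLe → StmtXDgGe →
    StmtXMd → StmtXE1 → StmtXSecI := by
  intro hUB hLB hSub hGen hTr hDgLe hDgGe hMd hE1 K _ _ σ m F Z d D hσ hd hD hF hZ hFd hZD hZD'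
  obtain ⟨A, B, hAB⟩ := hDgGe K (it σ (2 * m)) Z D hZ hD hZD hZD'
  have hfld : fld A B (it σ (2 * m)) = IntermediateField.adjoin K
      (insert (lf B (it σ (2 * m)) 0) (Set.range (lf A (gen 3 K)))) := by
    unfold fld
    congr 1
    ext x
    simp only [Set.mem_union, Set.mem_insert_iff, Set.mem_range, Fin.exists_fin_one]
    tauto
  rw [hfld] at hAB
  have hfin : Module.Finite (IntermediateField.adjoin K
      (insert (lf B (it σ (2 * m)) 0) (Set.range (lf A (gen 3 K))))) (RF 3 K) :=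
    Module.finite_of_finrank_pos (by omega)
  obtain ⟨e, he⟩ : ∃ e, e = Module.finrank (IntermediateField.adjoin K
      (insert (lf B (it σ (2 * m)) 0) (Set.range (lf A (gen 3 K))))) (RF 3 K) := ⟨_, rfl⟩
  obtain ⟨t, ht⟩ := exists_t (IntermediateField.adjoin K
      (insert (lf B (it σ (2 * m)) 0) (Set.range (lf A (gen 3 K))))) hfin e he
  rw [← he] at hAB
  have hind : AlgebraicIndependent K
      (Fin.cons (lf B (it σ (2 * m)) 0) (lf A (gen 3 K)) : Fin 3 → RF 3 K) :=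
    ind3 _ (by
      rw [Fin.range_cons]
      exact hfin)
  have hw : Transcendental K (lf B (it σ (2 * m)) 0) := by
    have := hind.transcendental 0
    rwa [Fin.cons_zero] at this
  obtain ⟨c, hc⟩ : ∃ c, ∀ k, (t k).totalDegree ≤ c :=
    ⟨Finset.univ.sup (fun k => (t k).totalDegree),
      fun k => Finset.le_sup (f := fun k => (t k).totalDegree) (Finset.mem_univ k)⟩
  have hbad := ((hGen K 3 F hF.cop hF.ne).union
    (hTr K σ m F hF.toWk (lf B (it σ (2 * m)) 0) hw)).union (Set.finite_singleton (0 : K))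
  refine hbad.subset fun u hu => ?_
  by_contra hu'
  apply hu
  have hrel : IsRelPrime (luN (MvPolynomial.C u) F) (F 0) := by
    by_contra h
    exact hu' (Or.inl (Or.inl h))
  have htr : Transcendental (IntermediateField.adjoin K
      {fr (luN (MvPolynomial.C u) F) / fr (F 0)}) (lf B (it σ (2 * m)) 0) := by
    by_contra h
    exact hu' (Or.inl (Or.inr h))
  have hu0 : u ≠ 0 := by
    intro h
    exact hu' (Or.inr h)
  have hT := tr_T σ m u hu0 F hF.toWk
  have hΛ : luN (MvPolynomial.C u) F ≠ 0 := by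
    intro h
    rw [h] at hT
    have h0 : fr (0 : Pl 3 K) = 0 := map_zero _
    rw [h0, zero_div] at hT
    exact hT isAlgebraic_zero
  obtain ⟨C₀, hC₀⟩ := hUB K (RF 3 K) (IntermediateField.adjoin K
      {fr (luN (MvPolynomial.C u) F) / fr (F 0)}) 3 (gen 3 K) (lf B (it σ (2 * m)) 0) d
      (9 * d * md (it σ m)) (fin_gen _) (trdeg_simple _ hT) htr
      (fun A' => deg0 hDgLe (it σ m) F d hF.toWk hFd u A')
      (fun A' => deg1 hE1 σ m F d hσ hF.toWk hd hFd u B A') 1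
      (by
        rw [Submodule.one_eq_span]
        exact Submodule.fg_span_singleton _)
  have hΔ : 1 ≤ md (it σ m) := (hMd K).1 σ m
  refine ⟨6 * (C₀ + c) + 1, fun i hi => ?_⟩
  have hpi : i ≤ 72 * d * md (it σ m) * i := by
    have h1 : 1 ≤ 72 * d * md (it σ m) := Nat.mul_pos (Nat.mul_pos (by norm_num) hd) hΔ
    exact Nat.le_mul_of_pos_left i h1
  obtain ⟨a, ha⟩ : ∃ a, 72 * d * md (it σ m) * i = a + c := by
    refine ⟨72 * d * md (it σ m) * i - c, ?_⟩
    omega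
  have hlt := num2 d (md (it σ m)) D e C₀ c i a (cnt 2 a)
    (Module.finrank (IntermediateField.adjoin K
      {fr (luN (MvPolynomial.C u) F) / fr (F 0)}) (VV (IntermediateField.adjoin K
      {fr (luN (MvPolynomial.C u) F) / fr (F 0)}) (lf B (it σ (2 * m)) 0)
        (fr (Z 0) ^ (8 * d * i)) (72 * d * md (it σ m) * i) (8 * d * i))) hd hD hAB (by omega)
    (by omega) ha (cnt_ge a) ((rank_VV _ _ _ _ _).trans (hC₀ _ _))
  have hW := finrank_W hLB A B (it σ (2 * m)) Z hZ.toWk t hind ht (8 * d * i) a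
  rw [← hW] at hlt
  obtain ⟨S, hS, hS0, hdvd⟩ := hSub K 3 (luN (MvPolynomial.C u) F) (F 0) hrel hΛ hF.ne
    (IntermediateField.adjoin K {fr (luN (MvPolynomial.C u) F) / fr (F 0)}) rfl
    (VV (IntermediateField.adjoin K
      {fr (luN (MvPolynomial.C u) F) / fr (F 0)}) (lf B (it σ (2 * m)) 0)
        (fr (Z 0) ^ (8 * d * i)) (72 * d * md (it σ m) * i) (8 * d * i)) (fin_VV _ _ _ _ _)
    (Submodule.span K (Set.range (Phi A (B 0) Z t (8 * d * i) a)))
    (mem_VV _ A B (it σ (2 * m)) Z hZ.toWk t (8 * d * i) a c _ hc ha.symm.le) (D * i) hlt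
  obtain ⟨G, hG1, hG2, hG3⟩ := Sc_span Z (72 * d * md (it σ m) * i) (8 * d * i) _
    (by
      rintro s ⟨x, rfl⟩
      exact Sc_Phi A (B 0) Z t (8 * d * i) a c _ hc ha.symm.le x) S hS
  refine ⟨G, hG1, hG2, ?_, ?_⟩
  · rw [hG3]
    exact hS0
  · rw [hG3]
    exact hdvd

end Pool.Agent.Lib.MP_16285c_agN
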