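import Pool.Agent.Lib.MP_16285c_agN.T3.SpecB
import Pool.Agent.Lib.MP_16285c_agN.Degr.Theta
import Pool.Agent.Lib.MP_16285c_agN.Degr.Trd
import Pool.Agent.Lib.MP_16285c_agN.Degr.Vd
import Pool.Agent.Lib.MP_16285c_agN.Degr.Cnt
import Pool.Agent.Lib.MP_16285c_agN.KLV.TpPow

/-!
# Threefolds: the second family of sections

Proof of `StmtXSecII` of `T3/SpecB.lean`.
-/

set_option autoImplicit false

namespace Pool.Agent.Lib.MP_16285c_agN

open Pool.Agent.Lib.MP_16285c_ag

namespace T3XSecIIM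

section fields

variable {K : Type} [Field K]

theorem fr_zero : fr (0 : Pl 3 K) = 0 := map_zero _

theorem fr_sum {ι : Type} (s : Finset ι) (G : ι → Pl 3 K) : fr (∑ i ∈ s, G i) = ∑ i ∈ s, fr (G i) :=
  map_sum _ _ _

theorem fr_prod {ι : Type} (s : Finset ι) (G : ι → Pl 3 K) :
    fr (∏ i ∈ s, G i) = ∏ i ∈ s, fr (G i) := map_prod _ _ _

theorem fr_lin {c : ℕ} (a : Fin c → K) (G : Fin c → Pl 3 K) :
    fr (∑ i, MvPolynomial.C (a i) * G i) = ∑ i, algebraMap K (RF 3 K) (a i) * fr (G i) := by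
  rw [fr_sum]
  refine Finset.sum_congr rfl fun i _ => ?_
  rw [fr_mul, fr_C]

theorem trdeg3 : Algebra.trdeg K (RF 3 K) = 3 := by
  rw [← (DegrTrdM.basis_gen (K := K) (n := 3)).cardinalMk_eq_trdeg]
  simp

/-- Three elements which generate a subfield over which `E` is algebraic are algebraically independent. -/
theorem alg_ind3 (y : Fin 3 → RF 3 K)
    (h : Algebra.IsAlgebraic (IntermediateField.adjoin K (Set.range y)) (RF 3 K)) :
    AlgebraicIndependent K y := by
  have := DegrTrdM.alg_of_adjoin _ h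
  exact (Algebra.IsAlgebraic.isTranscendenceBasis_of_le_trdeg_of_finite K y
    (by rw [trdeg3]; simp)).1

theorem alg_mono {L₁ L₂ : IntermediateField K (RF 3 K)} (h : L₁ ≤ L₂)
    (h1 : Algebra.IsAlgebraic L₁ (RF 3 K)) : Algebra.IsAlgebraic L₂ (RF 3 K) :=
  ⟨fun x => IsAlgebraic.tower_top_of_subalgebra_le (A := L₁.toSubalgebra) (B := L₂.toSubalgebra) h
    (h1.isAlgebraic x)⟩

theorem fin_rk (σ : RF 3 K →ₐ[K] RF 3 K) (hσ : 1 ≤ tp σ) (m : ℕ) :
    Module.Finite (IntermediateField.adjoin K (Set.range (it σ m))) (RF 3 K) := by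
  have h1 : 1 ≤ tp (σ ^ m) := by
    rw [tTpPow.2.1]
    exact Nat.one_le_pow _ _ hσ
  have h2 := (tTpPow.2.2 3 K (σ ^ m)).1 h1
  have h3 : (σ ^ m).fieldRange = IntermediateField.adjoin K (Set.range (it σ m)) := by
    have h4 : (⊤ : IntermediateField K (RF 3 K)) = IntermediateField.adjoin K (Set.range (gen 3 K)) := by
      symm
      rw [eq_top_iff]
      rintro z -
      obtain ⟨a, b, -, rfl⟩ := exists_fr z
      have h5 : ∀ G : Pl 3 K, fr G ∈ IntermediateField.adjoin K (Set.range (gen 3 K)) := by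
        intro G
        induction G using MvPolynomial.induction_on with
        | C a =>
          rw [fr_C]
          exact IntermediateField.algebraMap_mem _ a
        | add p q hp hq =>
          rw [fr_add]
          exact add_mem hp hq
        | mul_X p i hp =>
          rw [fr_mul]
          exact mul_mem hp (IntermediateField.subset_adjoin K _ ⟨i, rfl⟩)
      exact div_mem (h5 a) (h5 b)
    rw [AlgHom.fieldRange_eq_map, h4, IntermediateField.adjoin_map]
    congr 1
    rw [← Set.range_comp]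
    rfl
  rwa [h3] at h2

theorem alg_ind_it (σ : RF 3 K →ₐ[K] RF 3 K) (hσ : 1 ≤ tp σ) (m : ℕ) :
    AlgebraicIndependent K (it σ m) := by
  have := fin_rk σ hσ m
  exact alg_ind3 _ inferInstance

/-- `T = 1 + ∑ u ^ (j + 1) g_j`. -/
theorem T_eq (g : Fin 3 → RF 3 K) (F : Fin 4 → Pl 3 K) (hF : Wk g F) (u : K) :
    fr (luN (MvPolynomial.C u) F) / fr (F 0) =
      1 + ∑ j : Fin 3, algebraMap K (RF 3 K) (u ^ ((j : ℕ) + 1)) * g j := by
  have h0 : fr (F 0) ≠ 0 := fr_ne_zero hF.ne
  rw [luN, fr_sum, Fin.sum_univ_succ, div_eq_iff h0, add_mul, Finset.sum_mul]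
  congr 1
  · rw [fr_mul, Fin.val_zero, pow_zero, fr_one]
  · refine Finset.sum_congr rfl fun j _ => ?_
    rw [← MvPolynomial.C_pow, fr_mul, fr_C, hF.eq, Fin.val_succ]
    ring

theorem T_tr (g : Fin 3 → RF 3 K) (F : Fin 4 → Pl 3 K)
    (hfin : Module.Finite (IntermediateField.adjoin K (Set.range g)) (RF 3 K))
    (hF : Wk g F) (u : K) (hu : u ≠ 0) :
    Transcendental K (fr (luN (MvPolynomial.C u) F) / fr (F 0)) := by
  set T := fr (luN (MvPolynomial.C u) F) / fr (F 0) with hT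
  have hT' := T_eq g F hF u
  rw [← hT, Fin.sum_univ_three] at hT'
  let y : Fin 3 → RF 3 K := ![T, g 1, g 2]
  have hle : IntermediateField.adjoin K (Set.range g) ≤ IntermediateField.adjoin K (Set.range y) := by
    rw [IntermediateField.adjoin_le_iff]
    rintro _ ⟨i, rfl⟩
    have h0 : T ∈ IntermediateField.adjoin K (Set.range y) :=
      IntermediateField.subset_adjoin K _ ⟨0, rfl⟩
    have h1 : g 1 ∈ IntermediateField.adjoin K (Set.range y) :=
      IntermediateField.subset_adjoin K _ ⟨1, rfl⟩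
    have h2 : g 2 ∈ IntermediateField.adjoin K (Set.range y) :=
      IntermediateField.subset_adjoin K _ ⟨2, rfl⟩
    have hu' : algebraMap K (RF 3 K) u ≠ 0 := (map_ne_zero _).2 hu
    have h3 : g 0 = (T - 1 - algebraMap K (RF 3 K) (u ^ 2) * g 1 -
        algebraMap K (RF 3 K) (u ^ 3) * g 2) / algebraMap K (RF 3 K) u := by
      rw [eq_div_iff hu', hT']
      simp only [Fin.val_zero, Fin.val_one, Fin.val_two, zero_add, pow_one]
      ring
    fin_cases i
    · show g 0 ∈ _
      rw [h3]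
      exact div_mem (sub_mem (sub_mem (sub_mem h0 (one_mem _))
        (mul_mem (IntermediateField.algebraMap_mem _ _) h1))
        (mul_mem (IntermediateField.algebraMap_mem _ _) h2)) (IntermediateField.algebraMap_mem _ _)
    · exact h1
    · exact h2
  have h4 : AlgebraicIndependent K y := alg_ind3 y (alg_mono hle inferInstance)
  exact h4.transcendental 0

theorem trdeg_one (T : RF 3 K) (hT : Transcendental K T) :
    Algebra.trdeg K (IntermediateField.adjoin K {T}) = 1 := by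
  let T' : IntermediateField.adjoin K {T} := ⟨T, IntermediateField.mem_adjoin_simple_self K T⟩
  have hT' : Transcendental K T' := by
    intro h
    apply hT
    exact h.algHom (IntermediateField.adjoin K {T}).val
  have h1 : AlgebraicIndependent K (fun _ : Fin 1 => T') := algebraicIndependent_unique_type_iff.2 hT'
  have h2 : Algebra.IsAlgebraic (Algebra.adjoin K (Set.range fun _ : Fin 1 => T'))
      (IntermediateField.adjoin K {T}) := by
    constructor
    intro x
    obtain ⟨r, s, hrs⟩ := (IntermediateField.mem_adjoin_simple_iff K (x : RF 3 K)).1 x.2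
    have h3 : x = Polynomial.aeval T' r / Polynomial.aeval T' s := by
      apply Subtype.ext
      rw [hrs]
      have h4 : ∀ q : Polynomial K, ((Polynomial.aeval T' q : IntermediateField.adjoin K {T}) : RF 3 K) =
          Polynomial.aeval T q := by
        intro q
        exact (Polynomial.aeval_algHom_apply (IntermediateField.adjoin K {T}).val T' q).symm
      rw [← h4, ← h4]
      rfl
    have h5 : ∀ q : Polynomial K, Polynomial.aeval T' q ∈
        Algebra.adjoin K (Set.range fun _ : Fin 1 => T') := by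
      intro q
      refine Algebra.adjoin_mono ?_ (Polynomial.aeval_mem_adjoin_singleton K T')
      rw [Set.singleton_subset_iff]
      exact Set.mem_range_self (0 : Fin 1)
    rw [h3, div_eq_mul_inv]
    exact (isAlgebraic_algebraMap (⟨_, h5 r⟩ : Algebra.adjoin K (Set.range fun _ : Fin 1 => T'))).mul
      (isAlgebraic_algebraMap (⟨_, h5 s⟩ : Algebra.adjoin K (Set.range fun _ : Fin 1 => T'))).inv
  have h3 := (isTranscendenceBasis_iff_algebraicIndependent_isAlgebraic.2 ⟨h1, h2⟩).cardinalMk_eq_trdeg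
  rw [← h3]
  simp

theorem trdeg_two (T : RF 3 K) (hT : Transcendental K T) :
    Algebra.trdeg (IntermediateField.adjoin K {T}) (RF 3 K) = 2 := by
  have h := _root_.trdeg_add_eq K (IntermediateField.adjoin K {T}) (A := RF 3 K)
  rw [trdeg_one T hT, trdeg3] at h
  have h2 : (1 : Cardinal) + Algebra.trdeg (IntermediateField.adjoin K {T}) (RF 3 K) = 1 + 2 := by
    rw [h]
    norm_num
  exact Cardinal.eq_of_add_eq_add_left h2 (Cardinal.one_lt_aleph0)

theorem adj_eq (T : RF 3 K) (S : Set (RF 3 K)) :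
    (IntermediateField.adjoin (IntermediateField.adjoin K {T}) S).restrictScalars K =
      IntermediateField.adjoin K (insert T S) :=
  IntermediateField.adjoin_adjoin_left K {T} S

theorem finrank_adj (T : RF 3 K) (S : Set (RF 3 K)) :
    Module.finrank (IntermediateField.adjoin (IntermediateField.adjoin K {T}) S) (RF 3 K) =
      Module.finrank (IntermediateField.adjoin K (insert T S)) (RF 3 K) := by
  rw [← adj_eq]
  rfl

end fields

section bad

variable {K : Type} [Field K]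

theorem lu_finite (F : Fin 4 → Pl 3 K) (hF : F 0 ≠ 0) :
    {u : K | luN (MvPolynomial.C u) F = 0}.Finite := by
  classical
  obtain ⟨α, hα⟩ := MvPolynomial.ne_zero_iff.1 hF
  let q : Polynomial K := ∑ i : Fin 4, Polynomial.C (MvPolynomial.coeff α (F i)) * Polynomial.X ^ (i : ℕ)
  have hq : q ≠ 0 := by
    intro h
    apply hα
    have h1 := congrArg (Polynomial.coeff · 0) h
    simp only [q, Polynomial.finsetSum_coeff, Polynomial.coeff_C_mul, Polynomial.coeff_X_pow,
      Polynomial.coeff_zero] at h1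
    rw [Finset.sum_eq_single 0] at h1
    · simpa using h1
    · intro b _ hb
      rw [if_neg, mul_zero]
      intro h2
      apply hb
      apply Fin.ext
      exact h2.symm
    · intro h2
      exact absurd (Finset.mem_univ _) h2
  refine (q.roots.toFinset.finite_toSet).subset ?_
  intro u hu
  rw [Set.mem_ofPred_eq] at hu
  rw [Finset.mem_coe, Multiset.mem_toFinset, Polynomial.mem_roots hq, Polynomial.IsRoot]
  have h1 := congrArg (MvPolynomial.coeff α) hu
  rw [luN, MvPolynomial.coeff_sum, MvPolynomial.coeff_zero] at h1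
  rw [← h1]
  simp only [q]
  rw [Polynomial.eval_finsetSum]
  refine Finset.sum_congr rfl fun i _ => ?_
  rw [Polynomial.eval_mul, Polynomial.eval_C, Polynomial.eval_pow, Polynomial.eval_X,
    ← MvPolynomial.C_pow, MvPolynomial.coeff_C_mul, mul_comm]

theorem cnt_two (j : ℕ) : j ^ 2 ≤ 2 * cnt 2 j := by
  have hfin := DegrCntM.fin 2 j
  let f : (Σ a : Fin (j + 1), Fin (j - a + 1)) → {b : Fin 2 → ℕ // ∑ i, b i ≤ j} := fun x =>
    ⟨![(x.1 : ℕ), (x.2 : ℕ)], by
      rw [Fin.sum_univ_two]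
      have h1 := x.1.2
      have h2 := x.2.2
      show (x.1 : ℕ) + (x.2 : ℕ) ≤ j
      omega⟩
  have hf : Function.Injective f := by
    rintro ⟨a, b⟩ ⟨a', b'⟩ h
    have h0 : (a : ℕ) = a' := congrFun (congrArg Subtype.val h) 0
    have h1 : (b : ℕ) = b' := congrFun (congrArg Subtype.val h) 1
    have h2 : a = a' := Fin.ext h0
    subst h2
    have h3 : b = b' := Fin.ext h1
    rw [h3]
  have h1 := Nat.card_le_card_of_injective f hf
  rw [Nat.card_eq_fintype_card, Fintype.card_sigma] at h1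
  simp only [Fintype.card_fin] at h1
  have h2 : ∑ a : Fin (j + 1), (j - (a : ℕ) + 1) = ∑ a ∈ Finset.range (j + 1), (a + 1) := by
    rw [Fin.sum_univ_eq_sum_range (fun a => j - a + 1) (j + 1)]
    rw [← Finset.sum_range_reflect]
    refine Finset.sum_congr rfl fun a ha => ?_
    rw [Finset.mem_range] at ha
    omega
  rw [h2] at h1
  have h3 : ∀ n : ℕ, n ^ 2 ≤ 2 * ∑ a ∈ Finset.range (n + 1), (a + 1) := by
    intro n
    induction n with
    | zero => simp
    | succ n ih =>
      rw [Finset.sum_range_succ, mul_add]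
      nlinarith
  exact (h3 j).trans (Nat.mul_le_mul_left 2 h1)

theorem num1 (j a C : ℕ) (ha : 1 ≤ a) (hj : 2 * C + 1 ≤ j) :
    (j + C) * (2 * (j * a) + C) < 4 * (j ^ 2 * a) := by
  obtain ⟨e, rfl⟩ := Nat.exists_eq_add_of_le hj
  obtain ⟨b, rfl⟩ := Nat.exists_eq_add_of_le ha
  have h : (2 * C + 1 + e + C) * (2 * ((2 * C + 1 + e) * (1 + b)) + C) +
      (C ^ 2 + 5 * C * (1 + e) + 2 * (1 + e) ^ 2 + 2 * b * (2 * C + 1 + e) * (C + 1 + e)) =
      4 * ((2 * C + 1 + e) ^ 2 * (1 + b)) := by ring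
  have h2 : 0 < C ^ 2 + 5 * C * (1 + e) + 2 * (1 + e) ^ 2 + 2 * b * (2 * C + 1 + e) * (C + 1 + e) := by
    positivity
  omega

theorem num2 (D' D t d i C fV cn : ℕ) (hD' : 1 ≤ D') (hD : 1 ≤ D) (ht : 1 ≤ t) (hd : 1 ≤ d)
    (hi : 2 * C + 1 ≤ i)
    (h1 : fV ≤ (72 * d * D * i + C) * (72 * d * D * i * (t * D) + 8 * t * D * i * (9 * d * D) + C))
    (h2 : (72 * d * D * i) ^ 2 ≤ 2 * cn) :
    D' * i * fV < cn * ((8 * t * D * i + 1) * D') := by
  obtain ⟨j, hj⟩ : ∃ j, j = 72 * d * D * i := ⟨_, rfl⟩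
  have hji : i ≤ j := by
    rw [hj]
    exact Nat.le_mul_of_pos_left i (by positivity)
  have h3 := num1 j (t * D) C (Nat.mul_pos ht hD) (hi.trans hji)
  have h4 : 72 * d * D * i * (t * D) + 8 * t * D * i * (9 * d * D) + C = 2 * (j * (t * D)) + C := by
    rw [hj]
    ring
  rw [h4, ← hj] at h1
  rw [← hj] at h2
  have h5 : fV < 4 * (j ^ 2 * (t * D)) := lt_of_le_of_lt h1 h3
  have hDi : 0 < D' * i := Nat.mul_pos hD' (by omega)
  calc D' * i * fV < D' * i * (4 * (j ^ 2 * (t * D))) := Nat.mul_lt_mul_of_pos_left h5 hDi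
    _ = j ^ 2 * (4 * t * D * i * D') := by ring
    _ ≤ 2 * cn * (4 * t * D * i * D') := Nat.mul_le_mul_right _ h2
    _ = cn * (8 * t * D * i * D') := by ring
    _ ≤ cn * ((8 * t * D * i + 1) * D') :=
      Nat.mul_le_mul_left _ (Nat.mul_le_mul_right _ (Nat.le_succ _))

end bad

section main

variable {K : Type} [Field K]

/-- The generators of `W`. -/
noncomputable def gv (Z : Fin 4 → Pl 3 K) (lx : Pl 3 K) (B : Fin 2 → Fin 3 → K) {e : ℕ}
    (t : Fin e → Pl 3 K) (j p : ℕ) (x : {β : Fin 2 → ℕ // ∑ i, β i ≤ j} × Fin (p + 1) × Fin e) :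
    Pl 3 K :=
  t x.2.2 * lx ^ (x.2.1 : ℕ) * (Z 0 ^ (j - ∑ i, x.1.1 i) *
    ∏ i, (∑ l, MvPolynomial.C (B i l) * Z (Fin.succ l)) ^ x.1.1 i)

theorem fr_mu (z : Fin 3 → RF 3 K) (Z : Fin 4 → Pl 3 K) (hZ : Wk z Z) (B : Fin 2 → Fin 3 → K)
    (i : Fin 2) : fr (∑ l, MvPolynomial.C (B i l) * Z (Fin.succ l)) = lf B z i * fr (Z 0) := by
  rw [fr_lin, lf, Finset.sum_mul]
  refine Finset.sum_congr rfl fun l _ => ?_
  rw [hZ.eq, mul_assoc]

theorem fr_gv (z : Fin 3 → RF 3 K) (Z : Fin 4 → Pl 3 K) (hZ : Wk z Z) (lx : Pl 3 K)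
    (B : Fin 2 → Fin 3 → K) {e : ℕ} (t : Fin e → Pl 3 K) (j p : ℕ)
    (x : {β : Fin 2 → ℕ // ∑ i, β i ≤ j} × Fin (p + 1) × Fin e) :
    fr (gv Z lx B t j p x) = fr (Z 0) ^ j *
      (fr (t x.2.2) * (∏ i, lf B z i ^ (x.1 : Fin 2 → ℕ) i) * fr lx ^ (x.2.1 : ℕ)) := by
  have h1 : fr (∏ i, (∑ l, MvPolynomial.C (B i l) * Z (Fin.succ l)) ^ x.1.1 i) =
      (∏ i, lf B z i ^ (x.1 : Fin 2 → ℕ) i) * fr (Z 0) ^ (∑ i, x.1.1 i) := by
    rw [fr_prod, ← Finset.prod_pow_eq_pow_sum, ← Finset.prod_mul_distrib]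
    refine Finset.prod_congr rfl fun i _ => ?_
    rw [fr_pow, fr_mu z Z hZ, mul_pow]
  have h2 : fr (Z 0) ^ j = fr (Z 0) ^ (j - ∑ i, x.1.1 i) * fr (Z 0) ^ (∑ i, x.1.1 i) := by
    rw [← pow_add, Nat.sub_add_cancel x.1.2]
  rw [gv, fr_mul, fr_mul, fr_mul, h1, fr_pow, fr_pow, h2]
  ring

theorem vd_mem {κ F : Type} [Field κ] [Field F] [Algebra κ F] {c : ℕ} (x : Fin c → F) (a : ℕ)
    (P : MvPolynomial (Fin c) κ) (hP : P.totalDegree ≤ a) : MvPolynomial.aeval x P ∈ Vd κ x a :=
  ⟨P, (MvPolynomial.mem_restrictTotalDegree _ _ _).2 hP, rfl⟩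

theorem lin_mem (κ : IntermediateField K (RF 3 K)) (z : Fin 3 → RF 3 K) (B : Fin 2 → Fin 3 → K)
    (j : ℕ) (β : Fin 2 → ℕ) (hβ : ∑ i, β i ≤ j) : ∏ i, lf B z i ^ β i ∈ Vd κ z j := by
  have h1 : MvPolynomial.aeval z (∏ i, (∑ l, MvPolynomial.C (algebraMap K κ (B i l)) *
      MvPolynomial.X l) ^ β i : MvPolynomial (Fin 3) κ) = ∏ i, lf B z i ^ β i := by
    rw [map_prod]
    refine Finset.prod_congr rfl fun i _ => ?_
    rw [map_pow, map_sum, lf]
    congr 1
    refine Finset.sum_congr rfl fun l _ => ?_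
    rw [map_mul, MvPolynomial.aeval_C, MvPolynomial.aeval_X,
      ← IsScalarTower.algebraMap_apply K κ (RF 3 K)]
  rw [← h1]
  apply vd_mem
  refine (MvPolynomial.totalDegree_finsetProd _ _).trans (le_trans ?_ hβ)
  refine Finset.sum_le_sum fun i _ => ?_
  refine (MvPolynomial.totalDegree_pow _ _).trans ?_
  have h2 : (∑ l, MvPolynomial.C (algebraMap K κ (B i l)) * MvPolynomial.X l :
      MvPolynomial (Fin 3) κ).totalDegree ≤ 1 := by
    refine MvPolynomial.totalDegree_finsetSum_le fun l _ => ?_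
    refine (MvPolynomial.totalDegree_mul _ _).trans ?_
    rw [MvPolynomial.totalDegree_C, MvPolynomial.totalDegree_X]
  calc β i * _ ≤ β i * 1 := Nat.mul_le_mul_left _ h2
    _ = β i := mul_one _

theorem pow_mem' (κ : IntermediateField K (RF 3 K)) (w : RF 3 K) (p r : ℕ) (hr : r ≤ p) :
    w ^ r ∈ Vd κ (fun _ : Fin 1 => w) p := by
  have h1 : MvPolynomial.aeval (fun _ : Fin 1 => w) (MvPolynomial.X 0 ^ r : MvPolynomial (Fin 1) κ) =
      w ^ r := by
    rw [map_pow, MvPolynomial.aeval_X]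
  rw [← h1]
  apply vd_mem
  rw [MvPolynomial.totalDegree_X_pow]
  exact hr

/-- The inclusion `fr W ⊆ V`. -/
theorem incl (κ : IntermediateField K (RF 3 K)) (z : Fin 3 → RF 3 K) (Z : Fin 4 → Pl 3 K)
    (hZ : Wk z Z) (lx : Pl 3 K) (B : Fin 2 → Fin 3 → K) {e : ℕ} (t : Fin e → Pl 3 K) (j p : ℕ) :
    ∀ w ∈ Submodule.span K (Set.range (gv Z lx B t j p)),
      fr w ∈ (Submodule.span κ (Set.range fun k => fr (t k)) * Vd κ z j *
        Vd κ (fun _ : Fin 1 => fr lx) p).map (LinearMap.mulLeft κ (fr (Z 0) ^ j)) := by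
  intro w hw
  have h : Submodule.span K (Set.range (gv Z lx B t j p)) ≤
      (((Submodule.span κ (Set.range fun k => fr (t k)) * Vd κ z j *
        Vd κ (fun _ : Fin 1 => fr lx) p).map (LinearMap.mulLeft κ (fr (Z 0) ^ j))).restrictScalars
          K).comap (IsScalarTower.toAlgHom K (MvPolynomial (Fin 3) K) (RF 3 K)).toLinearMap := by
    rw [Submodule.span_le]
    rintro _ ⟨x, rfl⟩
    show fr (gv Z lx B t j p x) ∈ (Submodule.span κ (Set.range fun k => fr (t k)) * Vd κ z j *
        Vd κ (fun _ : Fin 1 => fr lx) p).map (LinearMap.mulLeft κ (fr (Z 0) ^ j))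
    rw [fr_gv z Z hZ]
    refine ⟨_, Submodule.mul_mem_mul (Submodule.mul_mem_mul (Submodule.subset_span ⟨x.2.2, rfl⟩)
      (lin_mem κ z B j x.1.1 x.1.2)) (pow_mem' κ (fr lx) p _ (Nat.lt_succ_iff.1 x.2.1.2)), rfl⟩
  exact h hw

/-- The elements of `W` are values of forms. -/
theorem form (Z : Fin 4 → Pl 3 K) (lx : Pl 3 K) (hlx : lx.totalDegree ≤ 1) (B : Fin 2 → Fin 3 → K)
    {e : ℕ} (t : Fin e → Pl 3 K) (c : ℕ) (ht : ∀ k, (t k).totalDegree ≤ c) (j p : ℕ) :
    ∀ S ∈ Submodule.span K (Set.range (gv Z lx B t j p)), ∃ G : MvPolynomial (Fin 4) (Pl 3 K),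
      G.IsHomogeneous j ∧ (∀ α, (G.coeff α).totalDegree ≤ c + p) ∧ MvPolynomial.eval Z G = S := by
  intro S hS
  induction hS using Submodule.span_induction with
  | zero =>
    refine ⟨0, MvPolynomial.isHomogeneous_zero _ _ _, fun α => ?_, map_zero _⟩
    rw [MvPolynomial.coeff_zero, MvPolynomial.totalDegree_zero]
    exact Nat.zero_le _
  | add x y _ _ hx hy =>
    obtain ⟨G, h1, h2, h3⟩ := hx
    obtain ⟨G', h1', h2', h3'⟩ := hy
    refine ⟨G + G', h1.add h1', fun α => ?_, by rw [map_add, h3, h3']⟩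
    rw [MvPolynomial.coeff_add]
    exact (MvPolynomial.totalDegree_add _ _).trans (max_le (h2 α) (h2' α))
  | smul a x _ hx =>
    obtain ⟨G, h1, h2, h3⟩ := hx
    refine ⟨MvPolynomial.C (MvPolynomial.C a) * G, ?_, fun α => ?_, ?_⟩
    · have h4 := (MvPolynomial.isHomogeneous_C (Fin 4) (MvPolynomial.C a : Pl 3 K)).mul h1
      rwa [zero_add] at h4
    · rw [MvPolynomial.coeff_C_mul]
      refine (MvPolynomial.totalDegree_mul _ _).trans ?_
      rw [MvPolynomial.totalDegree_C, zero_add]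
      exact h2 α
    · rw [map_mul, MvPolynomial.eval_C, h3, MvPolynomial.smul_eq_C_mul]
  | mem _ hx =>
    obtain ⟨x, rfl⟩ := hx
    let H : MvPolynomial (Fin 4) K := MvPolynomial.X 0 ^ (j - ∑ i, x.1.1 i) *
      ∏ i, (∑ l, MvPolynomial.C (B i l) * MvPolynomial.X (Fin.succ l)) ^ x.1.1 i
    have hlin : ∀ i, (∑ l, MvPolynomial.C (B i l) * MvPolynomial.X (Fin.succ l) :
        MvPolynomial (Fin 4) K).IsHomogeneous 1 := by
      intro i
      refine MvPolynomial.IsHomogeneous.sum _ _ _ fun l _ => ?_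
      have h4 := (MvPolynomial.isHomogeneous_C (Fin 4) (B i l)).mul
        (MvPolynomial.isHomogeneous_X K (Fin.succ l))
      rwa [zero_add] at h4
    have hH : H.IsHomogeneous j := by
      have h4 := ((MvPolynomial.isHomogeneous_X K (0 : Fin 4)).pow (j - ∑ i, x.1.1 i)).mul
        (MvPolynomial.IsHomogeneous.prod Finset.univ
          (fun i => (∑ l, MvPolynomial.C (B i l) * MvPolynomial.X (Fin.succ l)) ^ x.1.1 i)
          (fun i => 1 * x.1.1 i) fun i _ => (hlin i).pow (x.1.1 i))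
      have h5 : 1 * (j - ∑ i, x.1.1 i) + ∑ i, 1 * x.1.1 i = j := by
        have := x.1.2
        simp only [one_mul]
        omega
      rwa [h5] at h4
    refine ⟨MvPolynomial.C (t x.2.2 * lx ^ (x.2.1 : ℕ)) * MvPolynomial.map MvPolynomial.C H, ?_,
      fun α => ?_, ?_⟩
    · have h4 := (MvPolynomial.isHomogeneous_C (Fin 4) (t x.2.2 * lx ^ (x.2.1 : ℕ))).mul
        (hH.map MvPolynomial.C)
      rwa [zero_add] at h4
    · rw [MvPolynomial.coeff_C_mul, MvPolynomial.coeff_map]
      refine (MvPolynomial.totalDegree_mul _ _).trans ?_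
      rw [MvPolynomial.totalDegree_C, add_zero]
      refine (MvPolynomial.totalDegree_mul _ _).trans (Nat.add_le_add (ht _) ?_)
      refine (MvPolynomial.totalDegree_pow _ _).trans ?_
      calc (x.2.1 : ℕ) * lx.totalDegree ≤ (x.2.1 : ℕ) * 1 := Nat.mul_le_mul_left _ hlx
        _ ≤ p := by
          rw [mul_one]
          exact Nat.lt_succ_iff.1 x.2.1.2
    · rw [map_mul, MvPolynomial.eval_C, gv]
      congr 1
      simp only [H, map_mul, map_pow, map_prod, map_sum, MvPolynomial.map_X, MvPolynomial.map_C,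
        MvPolynomial.eval_X, MvPolynomial.eval_C]

theorem fin_mono {L₁ L₂ : IntermediateField K (RF 3 K)} (h : L₁ ≤ L₂)
    (h1 : Module.Finite L₁ (RF 3 K)) : Module.Finite L₂ (RF 3 K) := by
  obtain ⟨s, hs⟩ := h1
  refine ⟨s, eq_top_iff.2 ?_⟩
  rintro x -
  have hx : x ∈ Submodule.span L₁ (s : Set (RF 3 K)) := by
    rw [hs]
    exact Submodule.mem_top
  induction hx using Submodule.span_induction with
  | zero => exact Submodule.zero_mem _
  | add a b _ _ ha hb => exact Submodule.add_mem _ ha hb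
  | mem a ha => exact Submodule.subset_span ha
  | smul c a _ ha => exact Submodule.smul_mem _ (⟨(c : RF 3 K), h c.2⟩ : L₂) ha

end main

end T3XSecIIM

open T3XSecIIM

theorem tXSecII : StmtXUB2 → StmtXLB → StmtXSub → StmtXGen → StmtXTr → StmtXMd → StmtXE1 →
    StmtXE0 → StmtXSecII := by
  classical
  intro hUB hLB hSub hGen hTr hMd hE1 hE0 K _ _ σ m F Z d hσ hd hF hZ hFd
  have hinf : Infinite K := CharZero.infinite K
  obtain ⟨hMd1, -, hMd3, -⟩ := hMd K
  obtain ⟨A, B, hAB⟩ := hMd3 (it σ (2 * m))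
  obtain ⟨z, hz⟩ : ∃ z, z = it σ (2 * m) := ⟨_, rfl⟩
  obtain ⟨lx, hlx⟩ : ∃ lx : Pl 3 K, lx = ∑ j, MvPolynomial.C (A 0 j) * MvPolynomial.X j := ⟨_, rfl⟩
  have hLx : lf A (gen 3 K) 0 = fr lx := by
    rw [hlx, fr_lin, lf]
    rfl
  have hlx1 : lx.totalDegree ≤ 1 := by
    rw [hlx]
    refine MvPolynomial.totalDegree_finsetSum_le fun l _ => ?_
    refine (MvPolynomial.totalDegree_mul _ _).trans ?_
    rw [MvPolynomial.totalDegree_C, MvPolynomial.totalDegree_X]
  have hfld : fld A B z = IntermediateField.adjoin K (insert (fr lx) (Set.range (lf B z))) := by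
    rw [fld]
    congr 1
    rw [← Set.singleton_union]
    congr 1
    rw [← hLx]
    ext x
    constructor
    · rintro ⟨i, rfl⟩
      rw [Subsingleton.elim i 0]
      exact rfl
    · intro hx
      exact ⟨0, hx.symm⟩
  have hD'1 : 1 ≤ md (it σ (2 * m)) := hMd1 σ (2 * m)
  have hD1 : 1 ≤ md (it σ m) := hMd1 σ m
  have ht1 : 1 ≤ tp σ ^ m := Nat.one_le_pow _ _ hσ
  rw [← hz] at hAB hZ hD'1
  rw [hfld] at hAB
  have hfinM : Module.Finite (IntermediateField.adjoin K (insert (fr lx) (Set.range (lf B z))))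
      (RF 3 K) := Module.finite_of_finrank_pos (by rw [hAB]; exact hD'1)
  have hyind : AlgebraicIndependent K (Fin.cons (fr lx) (lf B z) : Fin 3 → RF 3 K) := by
    apply alg_ind3
    rw [Fin.range_cons]
    infer_instance
  have hlxtr : Transcendental K (fr lx) := hyind.transcendental 0
  -- a basis of polynomials
  have hspan : Submodule.span (IntermediateField.adjoin K (insert (fr lx) (Set.range (lf B z))))
      (Set.range (fun G : Pl 3 K => fr G)) = ⊤ := by
    refine DegrThetaM.span_range (algebraMap (MvPolynomial (Fin 3) K) (RF 3 K)) ?_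
    intro x
    obtain ⟨a, b, -, h⟩ := exists_fr x
    exact ⟨a, b, h⟩
  obtain ⟨t, ht⟩ := DegrThetaM.exists_fam (fun G : Pl 3 K => fr G) hspan hfinM (md z) hAB.symm
  obtain ⟨c, hc⟩ : ∃ c : ℕ, ∀ k, (t k).totalDegree ≤ c :=
    ⟨∑ k, (t k).totalDegree, fun k => Finset.single_le_sum (f := fun k => (t k).totalDegree)
      (fun _ _ => Nat.zero_le _) (Finset.mem_univ k)⟩
  refine ((((hGen K 3 F hF.cop hF.ne).union (lu_finite F hF.ne)).union
    (Set.finite_singleton (0 : K))).union (hTr K σ m F hF.toWk (fr lx) hlxtr)).subset ?_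
  intro u hu
  by_contra hcon
  simp only [Set.mem_union, Set.mem_ofPred_eq, not_or, not_not, Set.mem_singleton_iff] at hcon
  obtain ⟨⟨⟨hrel, hΛ0⟩, hu0⟩, hlxκ⟩ := hcon
  apply hu
  clear hu
  obtain ⟨T, hT⟩ : ∃ T, T = fr (luN (MvPolynomial.C u) F) / fr (F 0) := ⟨_, rfl⟩
  rw [← hT] at hlxκ
  have hTtr : Transcendental K T := by
    rw [hT]
    exact T_tr (it σ m) F (fin_rk σ hσ m) hF.toWk u hu0
  have hFG : (Submodule.span (IntermediateField.adjoin K {T}) (Set.range fun k => fr (t k))).FG :=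
    Submodule.fg_span (Set.finite_range _)
  obtain ⟨C, hC⟩ := hUB K (RF 3 K) (IntermediateField.adjoin K {T}) 3 z (fr lx)
    (tp σ ^ m * md (it σ m)) (9 * d * md (it σ m)) (by
      have h1 := fin_rk σ hσ (2 * m)
      rw [← hz] at h1
      have h2 : IntermediateField.adjoin K (Set.range z) ≤
          (IntermediateField.adjoin (IntermediateField.adjoin K {T}) (Set.range z)).restrictScalars
            K := by
        rw [adj_eq]
        exact IntermediateField.adjoin.mono _ _ _ (Set.subset_insert _ _)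
      exact fin_mono h2 h1)
    (trdeg_two T hTtr) hlxκ (by
      intro A'
      rw [finrank_adj, hT, hz]
      exact hE0 K σ m F hσ hF.toWk u A') (by
      intro A'
      rw [finrank_adj, hT, hz]
      have h1 := hE1 K σ m F d hσ hF.toWk hd hFd u (A 0) (A' 0)
      have h2 : insert (fr (luN (MvPolynomial.C u) F) / fr (F 0)) (insert (fr lx)
          (Set.range (lc A' (it σ (2 * m))))) =
          {∑ j, algebraMap K (RF 3 K) (A 0 j) * gen 3 K j, fr (luN (MvPolynomial.C u) F) / fr (F 0),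
            ∑ j, algebraMap K (RF 3 K) (A' 0 j) * it σ (2 * m) j} := by
        rw [Set.insert_comm, ← hLx]
        have h3 : Set.range (lc A' (it σ (2 * m))) =
            {∑ j, algebraMap K (RF 3 K) (A' 0 j) * it σ (2 * m) j} := by
          ext x
          constructor
          · rintro ⟨i, rfl⟩
            rw [Subsingleton.elim i 0]
            exact rfl
          · intro hx
            exact ⟨0, hx.symm⟩
        rw [h3]
        rfl
      rw [h2]
      exact h1) _ hFG
  refine ⟨2 * C + c + 1, fun i hi => ?_⟩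
  obtain ⟨j, hj⟩ : ∃ j, j = 72 * d * md (it σ m) * i := ⟨_, rfl⟩
  obtain ⟨p, hp⟩ : ∃ p, p = 8 * tp σ ^ m * md (it σ m) * i := ⟨_, rfl⟩
  have hVfin : Module.Finite (IntermediateField.adjoin K {T})
      (Submodule.span (IntermediateField.adjoin K {T}) (Set.range fun k => fr (t k)) *
        Vd (IntermediateField.adjoin K {T}) z j *
        Vd (IntermediateField.adjoin K {T}) (fun _ : Fin 1 => fr lx) p :
        Submodule (IntermediateField.adjoin K {T}) (RF 3 K)) := by
    rw [Module.Finite.iff_fg]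
    exact (hFG.mul (Module.Finite.iff_fg.1 (tVd.1 _ _ _ _ _))).mul
      (Module.Finite.iff_fg.1 (tVd.1 _ _ _ _ _))
  have hV := (Submodule.finrank_map_le (LinearMap.mulLeft (IntermediateField.adjoin K {T})
    (fr (Z 0) ^ j)) _).trans (hC j p)
  -- the dimension of `W`
  have hLI := hLB K (RF 3 K) 2 (md z) (lf B z) (fr lx) (fun k => fr (t k)) hyind ht j p
  have hLI2 : LinearIndependent K (gv Z lx B t j p) := by
    apply LinearIndependent.of_comp
      (IsScalarTower.toAlgHom K (MvPolynomial (Fin 3) K) (RF 3 K)).toLinearMap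
    have h1 : (IsScalarTower.toAlgHom K (MvPolynomial (Fin 3) K) (RF 3 K)).toLinearMap ∘
        gv Z lx B t j p = (LinearMap.mulLeft K (fr (Z 0) ^ j)) ∘
        (fun x : {β : Fin 2 → ℕ // ∑ i, β i ≤ j} × Fin (p + 1) × Fin (md z) =>
          fr (t x.2.2) * (∏ i, lf B z i ^ (x.1 : Fin 2 → ℕ) i) * fr lx ^ (x.2.1 : ℕ)) := by
      funext x
      exact fr_gv z Z hZ.toWk lx B t j p x
    rw [h1]
    refine hLI.map' _ ?_
    rw [LinearMap.ker_eq_bot']
    intro w hw
    rw [LinearMap.mulLeft_apply, mul_eq_zero] at hw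
    exact hw.resolve_left (pow_ne_zero _ (fr_ne_zero hZ.ne))
  have hfin2 := DegrCntM.fin 2 j
  have hft := Fintype.ofFinite {β : Fin 2 → ℕ // ∑ i, β i ≤ j}
  have hW : Module.finrank K (Submodule.span K (Set.range (gv Z lx B t j p))) =
      cnt 2 j * ((p + 1) * md z) := by
    rw [finrank_span_eq_card hLI2, Fintype.card_prod, Fintype.card_prod, Fintype.card_fin,
      Fintype.card_fin, cnt, Nat.card_eq_fintype_card]
  have hq : md z * i * Module.finrank (IntermediateField.adjoin K {T})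
      ((Submodule.span (IntermediateField.adjoin K {T}) (Set.range fun k => fr (t k)) *
        Vd (IntermediateField.adjoin K {T}) z j *
        Vd (IntermediateField.adjoin K {T}) (fun _ : Fin 1 => fr lx) p).map
          (LinearMap.mulLeft (IntermediateField.adjoin K {T}) (fr (Z 0) ^ j))) <
      Module.finrank K (Submodule.span K (Set.range (gv Z lx B t j p))) := by
    rw [hW, hp]
    refine num2 (md z) (md (it σ m)) (tp σ ^ m) d i C _ (cnt 2 j) hD'1 hD1 ht1 hd (by omega) ?_ ?_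
    · rw [← hj, ← hp]
      exact hV
    · rw [← hj]
      exact cnt_two j
  obtain ⟨S, hS, hS0, hdv⟩ := hSub K 3 (luN (MvPolynomial.C u) F) (F 0) hrel hΛ0 hF.ne
    (IntermediateField.adjoin K {T}) (by rw [hT]) _ inferInstance _
    (incl (IntermediateField.adjoin K {T}) z Z hZ.toWk lx B t j p) (md z * i) hq
  obtain ⟨G, hG1, hG2, hG3⟩ := form Z lx hlx1 B t c hc j p S hS
  refine ⟨G, ?_, ?_, ?_, ?_⟩
  · rw [← hj]
    exact hG1
  · intro α
    refine (hG2 α).trans ?_
    revert hi hp ht1 hD1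
    generalize tp σ ^ m = τ
    generalize md (it σ m) = Δ
    intro hD1 ht1 hi hp
    have h1 : i ≤ p := by
      rw [hp]
      exact Nat.le_mul_of_pos_left i (Nat.mul_pos (Nat.mul_pos (by norm_num) ht1) hD1)
    have h2 : 16 * τ * Δ * i = 2 * p := by
      rw [hp]
      ring
    rw [h2]
    omega
  · rw [hG3]
    exact hS0
  · rw [hG3, ← hz]
    exact hdv

end Pool.Agent.Lib.MP_16285c_agN
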