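import Pool.Agent.Lib.MP_16285c_agN.T3.SpecA

/-!
# `StmtXSub`: the vanishing conditions
-/

set_option autoImplicit false

namespace Pool.Agent.Lib.MP_16285c_agN

open Pool.Agent.Lib.MP_16285c_ag

namespace T3XSubM

variable {n : ℕ} {K : Type} [Field K]

/-- A relation over `K(t)` gives a relation over `K[t]`. -/
theorem clear_den {m : ℕ} (t : RF n K) (c : Fin m → RF n K)
    (hc : ∀ i, c i ∈ IntermediateField.adjoin K {t}) :
    ∃ (C : Fin m → Polynomial K) (d : RF n K), d ≠ 0 ∧ ∀ i, Polynomial.aeval t (C i) = d * c i := by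
  have h1 : ∀ i, ∃ r s : Polynomial K, Polynomial.aeval t s ≠ 0 ∧
      Polynomial.aeval t r = Polynomial.aeval t s * c i := by
    intro i
    obtain ⟨r, s, hrs⟩ := (IntermediateField.mem_adjoin_simple_iff K (c i)).1 (hc i)
    by_cases hs : Polynomial.aeval t s = 0
    · refine ⟨0, 1, by simp, ?_⟩
      rw [hs, div_zero] at hrs
      rw [hrs]; simp
    · refine ⟨r, s, hs, ?_⟩
      rw [hrs]; field_simp
  choose r s hs hr using h1
  refine ⟨fun i => r i * ∏ j ∈ Finset.univ.erase i, s j, ∏ j, Polynomial.aeval t (s j),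
    Finset.prod_ne_zero_iff.2 fun j _ => hs j, ?_⟩
  intro i
  rw [map_mul, map_prod, hr i, ← Finset.mul_prod_erase Finset.univ _ (Finset.mem_univ i)]
  ring

/-- Division by a power of the variable. -/
theorem divp {m : ℕ} (t : RF n K) (ht : t ≠ 0) (w : Fin m → RF n K) :
    ∀ (N : ℕ) (C : Fin m → Polynomial K), (∑ i, (C i).natDegree) ≤ N →
      (∑ i, Polynomial.aeval t (C i) * w i = 0) → (∃ i, Polynomial.aeval t (C i) ≠ 0) →
      ∃ C' : Fin m → Polynomial K, (∑ i, Polynomial.aeval t (C' i) * w i = 0) ∧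
        ∃ i, (C' i).coeff 0 ≠ 0 := by
  intro N
  induction N with
  | zero =>
    intro C hN hC hne
    refine ⟨C, hC, ?_⟩
    obtain ⟨i, hi⟩ := hne
    refine ⟨i, fun h0 => hi ?_⟩
    have h1 : (C i).natDegree = 0 := by
      have := Finset.single_le_sum (f := fun j => (C j).natDegree) (fun _ _ => Nat.zero_le _)
        (Finset.mem_univ i)
      omega
    rw [Polynomial.eq_C_of_natDegree_eq_zero h1, h0]
    simp
  | succ N ih =>
    intro C hN hC hne
    by_cases h : ∃ i, (C i).coeff 0 ≠ 0
    · exact ⟨C, hC, h⟩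
    push Not at h
    have hX : ∀ i, (C i).divX * Polynomial.X = C i := by
      intro i
      have := Polynomial.divX_mul_X_add (C i)
      rw [h i] at this
      simpa using this
    have hae : ∀ i, Polynomial.aeval t (C i) = Polynomial.aeval t (C i).divX * t := by
      intro i
      conv_lhs => rw [← hX i]
      simp
    obtain ⟨i, hi⟩ := hne
    have hi0 : C i ≠ 0 := by
      intro h0; rw [h0] at hi; simp at hi
    refine ih (fun i => (C i).divX) ?_ ?_ ⟨i, ?_⟩
    · have h2 : ∑ j, ((C j).divX).natDegree < ∑ j, (C j).natDegree := by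
        refine Finset.sum_lt_sum (fun j _ => ?_) ⟨i, Finset.mem_univ i, ?_⟩
        · rw [Polynomial.natDegree_divX_eq_natDegree_tsub_one]; omega
        · rw [Polynomial.natDegree_divX_eq_natDegree_tsub_one]
          have h3 : (C i).natDegree ≠ 0 := by
            intro h4
            apply hi0
            rw [Polynomial.eq_C_of_natDegree_eq_zero h4, h i]
            simp
          omega
      omega
    · have h4 : (∑ i, Polynomial.aeval t (C i).divX * w i) * t = 0 := by
        rw [← hC, Finset.sum_mul]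
        refine Finset.sum_congr rfl fun j _ => ?_
        rw [hae j]; ring
      exact (mul_eq_zero.1 h4).resolve_right ht
    · intro h5
      apply hi
      rw [hae i, h5, zero_mul]

/-- The key step: a relation over `K[t]` gives a combination divisible by `Λ`. -/
theorem key {m : ℕ} (Λ Λ' : Pl n K) (hco : IsRelPrime Λ Λ') (h0' : Λ' ≠ 0)
    (w : Fin m → Pl n K) (C : Fin m → Polynomial K)
    (hC : ∑ i, Polynomial.aeval (fr Λ / fr Λ') (C i) * fr (w i) = 0) :
    Λ ∣ ∑ i, (C i).coeff 0 • w i := by
  classical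
  have hfr : Function.Injective (fun G : Pl n K => fr G) :=
    IsFractionRing.injective (MvPolynomial (Fin n) K) (RF n K)
  have hΛ' : fr Λ' ≠ 0 := by
    intro h
    exact h0' (hfr (by simpa using h))
  let s : ℕ := ∑ i, (C i).natDegree
  have hdeg : ∀ i, (C i).natDegree ≤ s := fun i =>
    Finset.single_le_sum (f := fun j => (C j).natDegree) (fun _ _ => Nat.zero_le _)
        (Finset.mem_univ i)
  have h1 : ∀ i, fr Λ' ^ s * Polynomial.aeval (fr Λ / fr Λ') (C i) =
      fr (∑ k ∈ Finset.range (s + 1), (C i).coeff k • (Λ ^ k * Λ' ^ (s - k))) := by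
    intro i
    rw [Polynomial.aeval_eq_sum_range' (Nat.lt_succ_of_le (hdeg i)), Finset.mul_sum]
    refine Eq.trans ?_ (map_sum (algebraMap (MvPolynomial (Fin n) K) (RF n K)) _ _).symm
    refine Finset.sum_congr rfl fun k hk => ?_
    have hk' : k ≤ s := Nat.lt_succ_iff.1 (Finset.mem_range.1 hk)
    rw [Algebra.smul_def, Algebra.smul_def, map_mul, map_mul, map_pow, map_pow,
      ← IsScalarTower.algebraMap_apply K (MvPolynomial (Fin n) K) (RF n K), div_pow,
      show fr Λ' ^ s = fr Λ' ^ k * fr Λ' ^ (s - k) by rw [← pow_add]; congr 1; omega]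
    field_simp
  have h2 : fr (∑ i, (∑ k ∈ Finset.range (s + 1), (C i).coeff k • (Λ ^ k * Λ' ^ (s - k))) * w i)
      = 0 := by
    refine (map_sum (algebraMap (MvPolynomial (Fin n) K) (RF n K)) _ _).trans ?_
    calc _ = fr Λ' ^ s * ∑ i, Polynomial.aeval (fr Λ / fr Λ') (C i) * fr (w i) := by
          rw [Finset.mul_sum]
          refine Finset.sum_congr rfl fun i _ => ?_
          rw [map_mul, ← mul_assoc, h1 i]
      _ = 0 := by rw [hC, mul_zero]
  have h3 : ∑ i, (∑ k ∈ Finset.range (s + 1), (C i).coeff k • (Λ ^ k * Λ' ^ (s - k))) * w i = 0 :=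
    hfr (by simpa using h2)
  have h4 : Λ ∣ Λ' ^ s * ∑ i, (C i).coeff 0 • w i := by
    have h5 : Λ' ^ s * ∑ i, (C i).coeff 0 • w i = - ∑ i, (∑ k ∈ Finset.range s,
        (C i).coeff (k + 1) • (Λ ^ (k + 1) * Λ' ^ (s - (k + 1)))) * w i := by
      rw [eq_neg_iff_add_eq_zero, ← h3, Finset.mul_sum, ← Finset.sum_add_distrib]
      refine Finset.sum_congr rfl fun i _ => ?_
      rw [Finset.sum_range_succ']
      simp only [pow_zero, one_mul, Nat.sub_zero, MvPolynomial.smul_eq_C_mul]
      ring
    rw [h5, dvd_neg]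
    refine Finset.dvd_sum fun i _ => Dvd.dvd.mul_right (Finset.dvd_sum fun k _ => ?_) _
    rw [MvPolynomial.smul_eq_C_mul]
    exact Dvd.dvd.mul_left (Dvd.dvd.mul_right (dvd_pow_self _ (Nat.succ_ne_zero k)) _) _
  exact (hco.pow_right (n := s)).dvd_of_dvd_mul_left h4

/-- The codimension of the multiples of `Λ`. -/
theorem codim (Λ Λ' : Pl n K) (hco : IsRelPrime Λ Λ') (h0 : Λ ≠ 0) (h0' : Λ' ≠ 0)
    (κ : IntermediateField K (RF n K)) (hκ : κ = IntermediateField.adjoin K {fr Λ / fr Λ'})
    (V : Submodule κ (RF n K)) (hV : Module.Finite κ V) (W : Submodule K (Pl n K))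
    (hWV : ∀ w ∈ W, fr w ∈ V) (hW : FiniteDimensional K W) :
    FiniteDimensional K (W.comap (LinearMap.mulLeft K Λ)) ∧
    Module.finrank K W ≤ Module.finrank K (W.comap (LinearMap.mulLeft K Λ)) +
      Module.finrank κ V := by
  classical
  have hfr : Function.Injective (fun G : Pl n K => fr G) :=
    IsFractionRing.injective (MvPolynomial (Fin n) K) (RF n K)
  have hinj : Function.Injective (LinearMap.mulLeft K Λ) := fun a b hab =>
    mul_left_cancel₀ h0 (by simpa using hab)
  have hfd : FiniteDimensional K (W.comap (LinearMap.mulLeft K Λ)) := by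
    let φ : (W.comap (LinearMap.mulLeft K Λ)) →ₗ[K] W :=
      (LinearMap.mulLeft K Λ).restrict (fun v hv => hv)
    have hφ : Function.Injective φ := by
      intro a b hab
      apply Subtype.ext
      apply hinj
      exact congrArg Subtype.val hab
    exact FiniteDimensional.of_injective φ hφ
  refine ⟨hfd, ?_⟩
  let I : Submodule K (Pl n K) := LinearMap.range (LinearMap.mulLeft K Λ)
  let π : W →ₗ[K] (Pl n K ⧸ I) := I.mkQ.domRestrict W
  have hrn := LinearMap.finrank_range_add_finrank_ker π
  have hker : Module.finrank K (LinearMap.ker π) ≤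
      Module.finrank K (W.comap (LinearMap.mulLeft K Λ)) := by
    have hmem : ∀ x : LinearMap.ker π, ∃ v : W.comap (LinearMap.mulLeft K Λ),
        Λ * (v : Pl n K) = ((x : W) : Pl n K) := by
      intro x
      have hx : I.mkQ ((x : W) : Pl n K) = 0 := x.2
      rw [Submodule.mkQ_apply, Submodule.Quotient.mk_eq_zero] at hx
      obtain ⟨v, hv⟩ := hx
      refine ⟨⟨v, ?_⟩, ?_⟩
      · rw [Submodule.mem_comap, hv]; exact (x : W).2
      · simpa using hv
    let ψ : (W.comap (LinearMap.mulLeft K Λ)) →ₗ[K] W :=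
      (LinearMap.mulLeft K Λ).restrict (fun v hv => hv)
    have hle : LinearMap.ker π ≤ LinearMap.range ψ := by
      intro x hx
      obtain ⟨v, hv⟩ := hmem ⟨x, hx⟩
      exact ⟨v, Subtype.ext (by simpa [ψ] using hv)⟩
    calc _ ≤ Module.finrank K (LinearMap.range ψ) := Submodule.finrank_mono hle
      _ ≤ _ := LinearMap.finrank_range_le ψ
  have hrange : Module.finrank K (LinearMap.range π) ≤ Module.finrank κ V := by
    by_contra hlt
    push Not at hlt
    let b := Module.finBasis K (LinearMap.range π)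
    have hlift : ∀ i, ∃ w : W, π w = (b i : Pl n K ⧸ I) := fun i => (b i).2
    choose w hw using hlift
    let v : Fin (Module.finrank K (LinearMap.range π)) → V := fun i => ⟨fr (w i : Pl n K), hWV _ (w i).2⟩
    have hdep : ¬ LinearIndependent κ v := by
      intro hli
      have := hli.fintype_card_le_finrank
      rw [Fintype.card_fin] at this
      omega
    obtain ⟨g, hg, i₀, hi₀⟩ := Fintype.not_linearIndependent_iff.1 hdep
    have hmem : ∀ i, (g i : RF n K) ∈ IntermediateField.adjoin K {fr Λ / fr Λ'} := by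
      intro i; rw [← hκ]; exact (g i).2
    obtain ⟨C, d, hd, hCd⟩ := clear_den (fr Λ / fr Λ') (fun i => (g i : RF n K)) hmem
    have hsum : ∑ i, (g i : RF n K) * fr (w i : Pl n K) = 0 := by
      have := congrArg (Subtype.val) hg
      simpa [v, Algebra.smul_def] using this
    have ht : fr Λ / fr Λ' ≠ 0 := by
      refine div_ne_zero ?_ ?_
      · intro h; exact h0 (hfr (by simpa using h))
      · intro h; exact h0' (hfr (by simpa using h))
    obtain ⟨C', hC', i₁, hi₁⟩ := divp (fr Λ / fr Λ') ht (fun i => fr (w i : Pl n K)) _ C le_rfl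
      (by
        calc _ = d * ∑ i, (g i : RF n K) * fr (w i : Pl n K) := by
              rw [Finset.mul_sum]
              exact Finset.sum_congr rfl fun i _ => by rw [hCd i]; ring
          _ = 0 := by rw [hsum, mul_zero])
      ⟨i₀, by
        rw [hCd i₀]
        exact mul_ne_zero hd (by simpa using hi₀)⟩
    have hdvd := key Λ Λ' hco h0' (fun i => (w i : Pl n K)) C' hC'
    have hzero : ∑ i, (C' i).coeff 0 • b i = 0 := by
      apply Subtype.ext
      have h6 : (((∑ i, (C' i).coeff 0 • b i : LinearMap.range π)) : Pl n K ⧸ I) =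
          I.mkQ (∑ i, (C' i).coeff 0 • (w i : Pl n K)) := by
        rw [map_sum, Submodule.coe_sum]
        refine Finset.sum_congr rfl fun i _ => ?_
        rw [Submodule.coe_smul, ← hw i, map_smul]
        rfl
      rw [h6, Submodule.mkQ_apply, ZeroMemClass.coe_zero, Submodule.Quotient.mk_eq_zero]
      obtain ⟨u, hu⟩ := hdvd
      exact ⟨u, by simpa using hu.symm⟩
    exact hi₁ (Fintype.linearIndependent_iff.1 b.linearIndependent _ hzero i₁)
  omega

end T3XSubM

theorem tXSub : StmtXSub := by
  intro K _ n Λ Λ' hco h0 h0' κ hκ V hV W hW q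
  induction q generalizing W with
  | zero =>
    intro hlt
    have h1 : 0 < Module.finrank K W := by omega
    have h2 : W ≠ ⊥ := by
      rintro rfl
      simp at h1
    obtain ⟨S, hS, hS0⟩ := (Submodule.ne_bot_iff W).1 h2
    exact ⟨S, hS, hS0, by simp⟩
  | succ q ih =>
    intro hlt
    have hfd : FiniteDimensional K W := FiniteDimensional.of_finrank_pos (by omega)
    obtain ⟨hfd', hle⟩ := T3XSubM.codim Λ Λ' hco h0 h0' κ hκ V hV W hW hfd
    have hfr : Function.Injective (fun G : Pl n K => fr G) :=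
      IsFractionRing.injective (MvPolynomial (Fin n) K) (RF n K)
    have hΛ : fr Λ ≠ 0 := fun h => h0 (hfr (by simpa using h))
    have hΛ' : fr Λ' ≠ 0 := fun h => h0' (hfr (by simpa using h))
    have hinj : Function.Injective (LinearMap.mulLeft K Λ') := fun a b hab =>
      mul_left_cancel₀ h0' (by simpa using hab)
    have htinv : (fr Λ' / fr Λ) ∈ κ := by
      have h1 : fr Λ / fr Λ' ∈ κ := by
        rw [hκ]; exact IntermediateField.mem_adjoin_simple_self K _
      have h2 := κ.inv_mem h1
      rwa [inv_div] at h2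
    let W' : Submodule K (Pl n K) := (W.comap (LinearMap.mulLeft K Λ)).map (LinearMap.mulLeft K Λ')
    have hW' : ∀ w ∈ W', fr w ∈ V := by
      rintro w ⟨v, hv, rfl⟩
      have h3 : fr (Λ * v) ∈ V := hW _ hv
      have h4 : fr (Λ' * v) = (⟨fr Λ' / fr Λ, htinv⟩ : κ) • fr (Λ * v) := by
        rw [Algebra.smul_def]
        show fr (Λ' * v) = (fr Λ' / fr Λ) * fr (Λ * v)
        have e1 : fr (Λ' * v) = fr Λ' * fr v := map_mul _ _ _
        have e2 : fr (Λ * v) = fr Λ * fr v := map_mul _ _ _
        rw [e1, e2]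
        field_simp
      have h5 := V.smul_mem (⟨fr Λ' / fr Λ, htinv⟩ : κ) h3
      rw [← h4] at h5
      simpa using h5
    have hdim : Module.finrank K W' = Module.finrank K (W.comap (LinearMap.mulLeft K Λ)) :=
      (Submodule.equivMapOfInjective _ hinj _).finrank_eq.symm
    obtain ⟨S', hS', hS0, hdvd⟩ := ih W' hW' (by rw [hdim]; rw [Nat.succ_mul] at hlt; omega)
    obtain ⟨v, hv, rfl⟩ := hS'
    have hv0 : v ≠ 0 := by
      rintro rfl
      simp at hS0
    refine ⟨Λ * v, hv, mul_ne_zero h0 hv0, ?_⟩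
    have h6 : Λ ^ q ∣ v := by
      have h7 : Λ ^ q ∣ Λ' * v := by simpa using hdvd
      exact (hco.pow_left (m := q)).dvd_of_dvd_mul_left h7
    rw [pow_succ']
    exact mul_dvd_mul_left Λ h6

end Pool.Agent.Lib.MP_16285c_agN
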