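import Pool.Agent.Lib.MP_16285c_agN.T3.SpecC
import Pool.Agent.Lib.MP_16285c_agZ.Sup

/-!
# T3/XSup: supply with a fixed element
-/

set_option autoImplicit false

namespace Pool.Agent.Lib.MP_16285c_agN

open Pool.Agent.Lib.MP_16285c_ag

namespace T3XSupM

open Height Function AdmExtAux

/-- `admExtP` with one more conclusion: no archimedean absolute values. -/
theorem admExt0 (h1 : AbvExtProp.{0}) (E L : Type) [Field E] [Field L] [Algebra E L]
    [FiniteDimensional E L] [IsGalois E L] (A : Height.AdmissibleAbsValues E)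
    (hA0 : A.archAbsVal = 0)
    (hA : ∀ v ∈ A.nonarchAbsVal, ∀ v' ∈ A.nonarchAbsVal, ∀ m m' : ℕ, 1 ≤ m → 1 ≤ m' →
      (∀ x, v x ^ m = v' x ^ m') → v = v') :
    ∃ A' : Height.AdmissibleAbsValues L, A'.archAbsVal = 0 ∧ ∀ x : E,
      @Height.logHeight₁ E _ A x ≤ @Height.logHeight₁ L _ A' (algebraMap E L x) := by
  classical
  have hch := fun v : A.nonarchAbsVal => h1 E L v.val (A.isNonarchimedean _ v.2)
  choose w hw hext using hch
  have hdis : ∀ v v', v ≠ v' → Disjoint (SS (E := E) (w v) (hw v)) (SS (E := E) (w v') (hw v')) := by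
    intro v v' hne
    rw [Finset.disjoint_left]
    intro b hb hb'
    unfold SS at hb hb'
    rw [Finset.mem_image] at hb hb'
    obtain ⟨g, -, rfl⟩ := hb
    obtain ⟨g', -, h⟩ := hb'
    apply hne
    apply Subtype.ext
    refine hA v.val v.2 v'.val v'.2 _ _ (one_le_mm (E := E) (w v)) (one_le_mm (E := E) (w v')) ?_
    intro x
    have h2 := DFunLike.congr_fun h (algebraMap E L x)
    rw [uu_apply, uu_apply, AlgEquiv.commutes, AlgEquiv.commutes, hext, hext] at h2
    exact h2.symm
  have hid : ∀ (t : ℝ) (m : ℕ), 0 ≤ t → (fun t : ℝ => t) (t ^ m) = (fun t : ℝ => t) t ^ m := fun _ _ _ => rfl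
  have hmax : ∀ (t : ℝ) (m : ℕ), 0 ≤ t → (fun t : ℝ => max t 1) (t ^ m) = (fun t : ℝ => max t 1) t ^ m := by
    intro t m ht
    show max (t ^ m) 1 = (max t 1) ^ m
    rcases le_total t 1 with h | h
    · rw [max_eq_right h, one_pow, max_eq_right (pow_le_one₀ ht h)]
    · rw [max_eq_left h, max_eq_left (one_le_pow₀ h)]
  have hnorm : ∀ v (x : L), ∏ g : L ≃ₐ[E] L, w v (g x) = v.val (Algebra.norm E x) := by
    intro v x
    rw [← hext, Algebra.norm_eq_prod_automorphisms, map_prod]
  let A' : Height.AdmissibleAbsValues L :=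
    { archAbsVal := 0
      nonarchAbsVal := NS (E := E) w hw
      isNonarchimedean := by
        rintro b ⟨v, hv⟩
        unfold SS at hv
        rw [Finset.mem_image] at hv
        obtain ⟨g, -, rfl⟩ := hv
        exact powAbs_nonarch _ _ _ _
      hasFiniteMulSupport := by
        intro x hx
        have hfin := finite_ne w hw hext x hx
        have hfin2 : (⋃ v ∈ {v : A.nonarchAbsVal | ∃ g : L ≃ₐ[E] L, w v (g x) ≠ 1},
            ((SS (E := E) (w v) (hw v) : Finset _) : Set (AbsoluteValue L ℝ))).Finite :=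
          hfin.biUnion (fun v _ => Finset.finite_toSet _)
        have hfin3 : ((fun b : NS (E := E) w hw => b.val) ⁻¹' (⋃ v ∈ {v : A.nonarchAbsVal | ∃ g : L ≃ₐ[E] L, w v (g x) ≠ 1},
            ((SS (E := E) (w v) (hw v) : Finset _) : Set (AbsoluteValue L ℝ)))).Finite :=
          hfin2.preimage Subtype.val_injective.injOn
        refine hfin3.subset ?_
        rintro ⟨b, v, hv⟩ hb
        rw [Set.mem_preimage, Set.mem_iUnion₂]
        refine ⟨v, ?_, hv⟩
        unfold SS at hv
        rw [Finset.mem_image] at hv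
        obtain ⟨g, -, hg⟩ := hv
        refine ⟨g, ?_⟩
        intro h
        apply hb
        show b x = 1
        rw [← hg, uu_apply, h, one_pow]
      product_formula := by
        intro x hx
        have hfin := finite_ne w hw hext x hx
        rw [Multiset.map_zero, Multiset.prod_zero, one_mul]
        have hN : Algebra.norm E x ≠ 0 := by
          rw [Ne, Algebra.norm_eq_zero_iff]
          exact hx
        have hpf := A.product_formula hN
        rw [hA0, Multiset.map_zero, Multiset.prod_zero, one_mul] at hpf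
        rw [finprod_NS w hw hdis (fun t => t) hid x hfin.toFinset ?_]
        · rw [Finset.prod_congr rfl (fun v _ => hnorm v x)]
          refine Eq.trans ?_ hpf
          symm
          refine finprod_eq_prod_of_mulSupport_subset _ ?_
          intro v hv
          rw [Finset.mem_coe, Set.Finite.mem_toFinset]
          by_contra hcon
          apply hv
          show v.val (Algebra.norm E x) = 1
          rw [← hnorm]
          refine Finset.prod_eq_one ?_
          intro g _
          by_contra h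
          exact hcon ⟨g, h⟩
        · intro v hv g
          rw [Set.Finite.mem_toFinset] at hv
          by_contra h
          exact hv ⟨g, h⟩ }
  refine ⟨A', rfl, ?_⟩
  intro x
  rcases eq_or_ne x 0 with rfl | hx
  · rw [map_zero, @Height.logHeight₁_zero E _ A, @Height.logHeight₁_zero L _ A']
  rw [@Height.logHeight₁_eq_log_mulHeight₁ E _ A, @Height.logHeight₁_eq_log_mulHeight₁ L _ A']
  refine Real.log_le_log (@Height.mulHeight₁_pos E _ A x) ?_
  rw [@Height.mulHeight₁_eq E _ A, @Height.mulHeight₁_eq L _ A', hA0]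
  show (Multiset.map (fun v : AbsoluteValue E ℝ => max (v x) 1) 0).prod * ∏ᶠ v : A.nonarchAbsVal, max (v.val x) 1 ≤
    (Multiset.map (fun v : AbsoluteValue L ℝ => max (v (algebraMap E L x)) 1) 0).prod *
      ∏ᶠ b : NS (E := E) w hw, max (b.val (algebraMap E L x)) 1
  rw [Multiset.map_zero, Multiset.map_zero, Multiset.prod_zero, one_mul, one_mul]
  have hfin : {v : A.nonarchAbsVal | v.val x ≠ 1}.Finite := A.hasFiniteMulSupport hx
  have hL := finprod_NS w hw hdis (fun t => max t 1) hmax (algebraMap E L x) hfin.toFinset (by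
    intro v hv g
    rw [Set.Finite.mem_toFinset] at hv
    simp only [Set.mem_ofPred_eq, not_not] at hv
    show max (w v (g (algebraMap E L x))) 1 = 1
    rw [AlgEquiv.commutes, hext, hv, max_self])
  have hE : ∏ᶠ v : A.nonarchAbsVal, max (v.val x) 1 = ∏ v ∈ hfin.toFinset, max (v.val x) 1 := by
    refine finprod_eq_prod_of_mulSupport_subset _ ?_
    intro v hv
    rw [Finset.mem_coe, Set.Finite.mem_toFinset]
    intro h
    apply hv
    show max (v.val x) 1 = 1
    rw [h, max_self]
  rw [hE]
  refine le_trans ?_ (le_of_eq hL.symm)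
  refine Finset.prod_le_prod (fun v _ => le_trans zero_le_one (le_max_right _ _)) ?_
  intro v _
  show max (v.val x) 1 ≤ ∏ g : L ≃ₐ[E] L, max (w v (g (algebraMap E L x))) 1
  have hcon : ∀ g ∈ (Finset.univ : Finset (L ≃ₐ[E] L)), max (w v (g (algebraMap E L x))) 1 = max (v.val x) 1 := by
    intro g _
    rw [AlgEquiv.commutes, hext]
  rw [Finset.prod_congr rfl hcon, Finset.prod_const]
  refine le_self_pow₀ (le_max_right _ _) ?_
  rw [Finset.card_univ]
  exact Fintype.card_ne_zero


/-- Integers have height zero if there are no archimedean absolute values. -/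
theorem h_int {K : Type} [Field K] [A : Height.AdmissibleAbsValues K] (h0 : A.archAbsVal = 0)
    (N : ℤ) : Height.logHeight₁ (N : K) = 0 := by
  rw [Height.logHeight₁_eq_log_mulHeight₁, Height.mulHeight₁_eq]
  have h1 : ∀ v : A.nonarchAbsVal, max (v.val (N : K)) 1 = 1 := fun v =>
    max_eq_right (IsNonarchimedean.apply_intCast_le_one (A.isNonarchimedean _ v.2))
  rw [finprod_congr h1, finprod_one, mul_one]
  change Real.log (Multiset.map (fun v : AbsoluteValue K ℝ => max (v (N : K)) 1)
    A.archAbsVal).prod = 0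
  rw [h0, Multiset.map_zero, Multiset.prod_zero, Real.log_one]

/-- Integers of large absolute value have large height in a number field. -/
theorem nf {K : Type} [Field K] [NumberField K] (q : ℕ) (hq : 2 ≤ q) (H : ℝ) :
    ∃ j₀ : ℕ, ∀ j, j₀ ≤ j → ∀ s : ℤ, s ≠ 0 →
      H < Height.logHeight₁ ((((q : ℤ) ^ (j + 1) * s : ℤ)) : K) := by
  have hfin : {x : K | Height.logHeight₁ x ≤ H}.Finite :=
    NumberField.finite_setOfPred_logHeight₁_le K H
  have hfin2 : {N : ℤ | Height.logHeight₁ (N : K) ≤ H}.Finite :=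
    hfin.preimage (f := fun N : ℤ => (N : K)) (Int.cast_injective.injOn)
  obtain ⟨M, hM⟩ := (hfin2.image Int.natAbs).bddAbove
  refine ⟨M, fun j hj s hs => ?_⟩
  by_contra hcon
  have h1 : ((q : ℤ) ^ (j + 1) * s).natAbs ≤ M :=
    hM ⟨_, not_lt.1 hcon, rfl⟩
  have h2 : q ^ (j + 1) ≤ ((q : ℤ) ^ (j + 1) * s).natAbs := by
    rw [Int.natAbs_mul, Int.natAbs_pow, Int.natAbs_natCast]
    exact Nat.le_mul_of_pos_right _ (Int.natAbs_pos.2 hs)
  have h3 : j + 1 < q ^ (j + 1) := Nat.lt_pow_self (by omega)
  omega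

end T3XSupM

open T3XSupM in
theorem tXSup : StmtXSup := by
  intro k _ _ _ V V' p p' hp hp' h2 h2' hc hc' S
  by_cases hna : Algebra.IsAlgebraic ℚ k
  · have hfd : FiniteDimensional ℚ (IntermediateField.adjoin ℚ (S : Set k)) :=
      IntermediateField.finiteDimensional_adjoin fun x _ => Algebra.IsIntegral.isIntegral x
    have hnf : NumberField (IntermediateField.adjoin ℚ (S : Set k)) := {}
    refine ⟨(IntermediateField.adjoin ℚ (S : Set k)).toSubfield,
      @NumberField.instAdmissibleAbsValues _ _ hnf, ((p * p' : ℕ) : _), ?_, ?_, ?_, ?_, ?_⟩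
    · exact IntermediateField.subset_adjoin ℚ (S : Set k)
    · exact Nat.cast_ne_zero.mpr (mul_ne_zero hp.ne_zero hp'.ne_zero)
    · exact natCast_mem V _
    · exact natCast_mem V' _
    · intro H
      obtain ⟨j₀, hj₀⟩ := nf (K := IntermediateField.adjoin ℚ (S : Set k)) (p * p')
        (by nlinarith) H
      refine ⟨j₀, fun j hj s hs => ?_⟩
      have h3 := hj₀ j hj s hs
      have h4 : ((p : (IntermediateField.adjoin ℚ (S : Set k)).toSubfield) * p' *
          ((p * p' : ℕ) : (IntermediateField.adjoin ℚ (S : Set k)).toSubfield) ^ j * s) =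
          (((((p * p' : ℕ) : ℤ) ^ (j + 1) * s : ℤ)) :
            (IntermediateField.adjoin ℚ (S : Set k)).toSubfield) := by
        push_cast
        ring
      rw [h4]
      exact h3
  · obtain ⟨t, ht, htV, htV'⟩ := Pool.Agent.Lib.MP_16285c_agZ.SupM.exists_t V V' p p' h2 h2' hc hc' hna
    obtain ⟨F, hF, K, hAlg, hfd, hgal, hS, hX⟩ := Pool.Agent.Lib.MP_16285c_agZ.SupM.trans t ht S
    obtain ⟨A, hA0, hAne, hAX⟩ := admRatP F
    obtain ⟨A', hA'0, hA'⟩ := admExt0 abvExtP (RatFunc F) K A hA0 hAne
    have ht1 : 0 < Height.logHeight₁ (algebraMap (RatFunc F) K RatFunc.X) :=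
      lt_of_lt_of_le hAX (hA' RatFunc.X)
    refine ⟨K, A', algebraMap (RatFunc F) K RatFunc.X, hS, ?_, ?_, ?_, ?_⟩
    · intro h
      rw [h, Height.logHeight₁_zero] at ht1
      exact lt_irrefl _ ht1
    · rw [hX]
      exact htV
    · rw [hX]
      exact htV'
    · intro H
      obtain ⟨j₀, hj₀⟩ := exists_nat_gt (H / Height.logHeight₁ (algebraMap (RatFunc F) K RatFunc.X))
      refine ⟨j₀, fun j hj s hs => ?_⟩
      obtain ⟨τ, hτ⟩ : ∃ τ : K, τ = algebraMap (RatFunc F) K RatFunc.X := ⟨_, rfl⟩
      rw [← hτ] at hj₀ ht1 ⊢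
      rw [div_lt_iff₀ ht1] at hj₀
      obtain ⟨N, hN⟩ : ∃ N : ℤ, N = (p : ℤ) * p' * s := ⟨_, rfl⟩
      have hN0 : (N : K) ≠ 0 := by
        rw [Int.cast_ne_zero, hN]
        exact mul_ne_zero (mul_ne_zero (Nat.cast_ne_zero.2 hp.ne_zero)
          (Nat.cast_ne_zero.2 hp'.ne_zero)) hs
      have e1 : (p : K) * p' * τ ^ j * s = (N : K) * τ ^ j := by
        rw [hN]
        push_cast
        ring
      have e2 : τ ^ j = (N : K)⁻¹ * ((N : K) * τ ^ j) := by
        rw [← mul_assoc, inv_mul_cancel₀ hN0, one_mul]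
      have h3 : Height.logHeight₁ (τ ^ j) = j * Height.logHeight₁ τ := Height.logHeight₁_pow τ j
      have h4 : Height.logHeight₁ (τ ^ j) ≤
          Height.logHeight₁ (N : K)⁻¹ + Height.logHeight₁ ((N : K) * τ ^ j) := by
        conv_lhs => rw [e2]
        exact Height.logHeight₁_mul_le _ _
      rw [Height.logHeight₁_inv, h_int hA'0, zero_add] at h4
      have h5 : (j₀ : ℝ) * Height.logHeight₁ τ ≤ (j : ℝ) * Height.logHeight₁ τ :=
        mul_le_mul_of_nonneg_right (by exact_mod_cast hj) ht1.le
      rw [e1]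
      linarith

end Pool.Agent.Lib.MP_16285c_agN
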