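import Pool.Agent.Lib.MP_16285c_agN.T3.SpecB
import Pool.Agent.Lib.MP_16285c_agN.TpPos
import Pool.Agent.Lib.MP_16285c_agZ.UPP.Dg

/-!
# MP_16285c: transcendence over the field of a generic combination
-/

set_option autoImplicit false

namespace Pool.Agent.Lib.MP_16285c_agN.T3XTrM

open Pool.Agent.Lib.MP_16285c_agN
open scoped IntermediateField.algebraAdjoinAdjoin

variable {K : Type} [Field K]

/-- The transcendence degree of `K(x, y, z)`. -/
theorem trdeg_RF : Algebra.trdeg K (RF 3 K) = 3 := by
  have alg : Algebra.IsAlgebraic (Algebra.adjoin K (Set.range (gen 3 K))) (RF 3 K) := by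
    apply TpPosM.alg_of_adjoin
    rw [TpPosM.adjoin_gen]
    constructor
    intro x
    exact isAlgebraic_algebraMap
      (⟨x, IntermediateField.mem_top⟩ : (⊤ : IntermediateField K (RF 3 K)))
  have hb : IsTranscendenceBasis K (gen 3 K) :=
    isTranscendenceBasis_iff_algebraicIndependent_isAlgebraic.2 ⟨TpPosM.algInd_gen, alg⟩
  rw [← hb.cardinalMk_eq_trdeg]
  simp

/-- `K(x, y, z)` is not algebraic over `K(t)`. -/
theorem not_alg_one (t : RF 3 K)
    (h : Algebra.IsAlgebraic (IntermediateField.adjoin K {t}) (RF 3 K)) : False := by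
  have h1 := TpPosM.alg_of_adjoin {t} h
  have h2 := Algebra.IsAlgebraic.trdeg_le_cardinalMk K ({t} : Set (RF 3 K))
  rw [trdeg_RF, Cardinal.mk_singleton] at h2
  norm_num at h2

/-- Algebraic elements stay algebraic over larger fields. -/
theorem alg_mono {E : Type} [Field E] [Algebra K E] {A B : IntermediateField K E} (h : A ≤ B)
    {x : E} (hx : IsAlgebraic A x) : IsAlgebraic B x := by
  obtain ⟨p, hp, hpx⟩ := hx
  refine ⟨p.map (IntermediateField.inclusion h).toRingHom, ?_, ?_⟩
  · exact (Polynomial.map_ne_zero_iff (IntermediateField.inclusion h).toRingHom.injective).2 hp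
  · rw [Polynomial.aeval_def, Polynomial.eval₂_map]
    rw [Polynomial.aeval_def] at hpx
    exact hpx

/-- Three algebraically independent elements are not all algebraic over `K(w)`. -/
theorem alg_top (w : RF 3 K) (r : Fin 3 → RF 3 K) (hr : AlgebraicIndependent K r)
    (h : ∀ i, IsAlgebraic (IntermediateField.adjoin K {w}) (r i)) : False := by
  apply not_alg_one w
  constructor
  intro x
  have h1 : IntermediateField.adjoin K (Set.range r) ≤
      (algebraicClosure (IntermediateField.adjoin K {w}) (RF 3 K)).restrictScalars K := by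
    rw [IntermediateField.adjoin_le_iff]
    rintro _ ⟨i, rfl⟩
    exact mem_algebraicClosure_iff.2 (h i)
  have h2 : Algebra.IsAlgebraic (IntermediateField.adjoin K (Set.range r)) (RF 3 K) :=
    TpPosM.alg_fam r hr
  have h3 : IsAlgebraic (algebraicClosure (IntermediateField.adjoin K {w}) (RF 3 K)) x :=
    alg_mono h1 (h2.isAlgebraic x)
  exact h3.restrictScalars (IntermediateField.adjoin K {w})

/-- Vandermonde: the coefficients are combinations of the values. -/
theorem vdm {E : Type} [Field E] [Algebra K E] (S : Submodule K E) {n : ℕ} (a : Fin n → E)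
    (u : Fin n → K) (hu : Function.Injective u)
    (h : ∀ k, ∑ i : Fin n, u k ^ (i : ℕ) • a i ∈ S) (i : Fin n) : a i ∈ S := by
  have hdet : IsUnit (Matrix.vandermonde u).det :=
    isUnit_iff_ne_zero.2 (Matrix.det_vandermonde_ne_zero_iff.2 hu)
  have hinv := Matrix.nonsing_inv_mul (Matrix.vandermonde u) hdet
  have key : a i = ∑ k : Fin n, (Matrix.vandermonde u)⁻¹ i k •
      ∑ j : Fin n, u k ^ (j : ℕ) • a j := by
    have h1 : ∀ k : Fin n, (Matrix.vandermonde u)⁻¹ i k • ∑ j : Fin n, u k ^ (j : ℕ) • a j =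
        ∑ j : Fin n, ((Matrix.vandermonde u)⁻¹ i k * Matrix.vandermonde u k j) • a j := by
      intro k
      rw [Finset.smul_sum]
      apply Finset.sum_congr rfl
      intro j _
      rw [Matrix.vandermonde_apply, mul_smul]
    rw [Finset.sum_congr rfl fun k _ => h1 k, Finset.sum_comm]
    have h2 : ∀ j : Fin n, ∑ k : Fin n,
        ((Matrix.vandermonde u)⁻¹ i k * Matrix.vandermonde u k j) • a j =
        (1 : Matrix (Fin n) (Fin n) K) i j • a j := by
      intro j
      rw [← Finset.sum_smul, ← hinv, Matrix.mul_apply]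
    rw [Finset.sum_congr rfl fun j _ => h2 j, Finset.sum_eq_single i]
    · rw [Matrix.one_apply_eq, one_smul]
    · intro j _ hj
      rw [Matrix.one_apply_ne (Ne.symm hj), zero_smul]
    · intro hi
      exact absurd (Finset.mem_univ i) hi
  rw [key]
  exact Submodule.sum_mem _ fun k _ => Submodule.smul_mem _ _ (h k)

/-- The images of the coordinates under an injective endomorphism are algebraically
independent. -/
theorem algInd_it (σ : RF 3 K →ₐ[K] RF 3 K) (m : ℕ) : AlgebraicIndependent K (it σ m) :=
  TpPosM.algInd_gen.map' (f := σ ^ m) (σ ^ m).toRingHom.injective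

/-- The value `T_u` as a polynomial in `u`. -/
theorem Tu (F : Fin 4 → Pl 3 K) (u : K) :
    fr (luN (MvPolynomial.C u) F) / fr (F 0) =
      ∑ i : Fin 4, u ^ (i : ℕ) • (fr (F i) / fr (F 0) : RF 3 K) := by
  have hC : algebraMap (Pl 3 K) (RF 3 K) (MvPolynomial.C u) = algebraMap K (RF 3 K) u := by
    rw [IsScalarTower.algebraMap_apply K (Pl 3 K) (RF 3 K)]
    rfl
  unfold luN fr
  rw [map_sum, Finset.sum_div]
  apply Finset.sum_congr rfl
  intro i _
  rw [map_mul, map_pow, Algebra.smul_def, map_pow, mul_div_assoc, hC]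

/-- The statement of `XTr`, by contradiction. -/
theorem core (σ : RF 3 K →ₐ[K] RF 3 K) (m : ℕ) (F : Fin 4 → Pl 3 K) (hF : Wk (it σ m) F)
    (w : RF 3 K) (hw : Transcendental K w) (u : Fin 4 → K) (hu : Function.Injective u)
    (h : ∀ k, ¬ Transcendental
      (IntermediateField.adjoin K {fr (luN (MvPolynomial.C (u k)) F) / fr (F 0)}) w) : False := by
  apply alg_top w (it σ m) (algInd_it σ m)
  set L := IntermediateField.adjoin K {w} with hL
  set S : Submodule K (RF 3 K) :=
    Subalgebra.toSubmodule ((algebraicClosure L (RF 3 K)).restrictScalars K).toSubalgebra with hS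
  have hmem : ∀ x : RF 3 K, x ∈ S ↔ IsAlgebraic L x := fun x => mem_algebraicClosure_iff
  have h1 : ∀ i : Fin 4, (fr (F i) / fr (F 0) : RF 3 K) ∈ S := by
    apply vdm S _ u hu
    intro k
    rw [← Tu, hmem]
    apply Pool.Agent.Lib.MP_16285c_agZ.exchange _ w hw
    have hk := h k
    unfold Transcendental at hk
    exact not_not.1 hk
  have hF0 : (fr (F 0) : RF 3 K) ≠ 0 := by
    intro h0
    apply hF.ne
    exact (map_eq_zero_iff _ (IsFractionRing.injective (Pl 3 K) (RF 3 K))).1 h0
  intro i
  have h2 := h1 i.succ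
  rw [hF.eq i, mul_div_assoc, div_self hF0, mul_one] at h2
  exact (hmem _).1 h2

end Pool.Agent.Lib.MP_16285c_agN.T3XTrM

namespace Pool.Agent.Lib.MP_16285c_agN

theorem tXTr : StmtXTr := by
  intro K _ σ m F hF w hw
  by_contra hfin
  have hinf : Set.Infinite {u : K | ¬ Transcendental
      (IntermediateField.adjoin K {fr (luN (MvPolynomial.C u) F) / fr (F 0)}) w} := hfin
  let e := hinf.natEmbedding
  apply T3XTrM.core σ m F hF w hw (fun k : Fin 4 => ((e (k : ℕ) : _) : K))
  · intro a b hab
    have h1 : e (a : ℕ) = e (b : ℕ) := Subtype.ext hab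
    exact Fin.ext (e.injective h1)
  · intro k
    exact (e (k : ℕ)).2

end Pool.Agent.Lib.MP_16285c_agN
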