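import Pool.Agent.Lib.MP_16285c_agN.T3.SpecA

/-!
# ZDO3: the upper bound in transcendence degree two
-/

set_option autoImplicit false

namespace Pool.Agent.Lib.MP_16285c_agN

open Pool.Agent.Lib.MP_16285c_ag

namespace T3XUB2M

open scoped IntermediateField.algebraAdjoinAdjoin

/-! ## Subfields of a field -/

section

variable {K₁ K₂ E : Type} [Field K₁] [Field K₂] [Field E] [Algebra K₁ E] [Algebra K₂ E]

/-- The field generated by `S` is contained in `F`. -/
theorem adj_le (F : IntermediateField K₂ E) (S : Set E) (h1 : ∀ a : K₁, algebraMap K₁ E a ∈ F)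
    (h2 : ∀ x ∈ S, x ∈ F) : ∀ x ∈ IntermediateField.adjoin K₁ S, x ∈ F := by
  intro x hx
  have h3 : (IntermediateField.adjoin K₁ S).toSubfield ≤ F.toSubfield := by
    rw [IntermediateField.adjoin_toSubfield, Subfield.closure_le]
    rintro z (⟨a, rfl⟩ | hz)
    · exact h1 a
    · exact h2 z hz
  exact h3 hx

/-- The degree of `E` over a subfield depends only on the subfield. -/
theorem finrank_congr (F₁ : IntermediateField K₁ E) (F₂ : IntermediateField K₂ E)
    (h : ∀ x, x ∈ F₁ ↔ x ∈ F₂) : Module.finrank F₁ E = Module.finrank F₂ E := by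
  let e : F₁ ≃+* F₂ :=
    { toFun := fun x => ⟨x.1, (h x.1).1 x.2⟩
      invFun := fun x => ⟨x.1, (h x.1).2 x.2⟩
      left_inv := fun x => rfl
      right_inv := fun x => rfl
      map_mul' := fun x y => rfl
      map_add' := fun x y => rfl }
  exact Algebra.finrank_eq_of_equiv_equiv e (RingEquiv.refl E) (RingHom.ext fun x => rfl)

/-- `E` is finite over a larger subfield. -/
theorem fin_mono (F₁ : IntermediateField K₁ E) (F₂ : IntermediateField K₂ E)
    (h : ∀ x ∈ F₁, x ∈ F₂) (hF : Module.Finite F₁ E) : Module.Finite F₂ E := by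
  let f : F₁ →+* F₂ :=
    { toFun := fun x => ⟨x.1, h x.1 x.2⟩
      map_one' := rfl
      map_mul' := fun x y => rfl
      map_zero' := rfl
      map_add' := fun x y => rfl }
  let _ : Algebra F₁ F₂ := f.toAlgebra
  have : IsScalarTower F₁ F₂ E := IsScalarTower.of_algebraMap_eq fun x => rfl
  exact Module.Finite.of_restrictScalars_finite F₁ F₂ E

end

section

variable {k E : Type} [Field k] [Field E] [Algebra k E]

/-- The transcendence degree of a purely transcendental extension. -/
theorem trdeg_adj {s : ℕ} {x : Fin s → E} (hx : AlgebraicIndependent k x) :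
    Algebra.trdeg k (IntermediateField.adjoin k (Set.range x)) = s := by
  have h1 : Algebra.trdeg k (Algebra.adjoin k (Set.range x)) = s := by
    rw [← hx.aevalEquiv.trdeg_eq, MvPolynomial.trdeg_of_isDomain]
    simp
  have h2 : Algebra.trdeg (Algebra.adjoin k (Set.range x))
      (IntermediateField.adjoin k (Set.range x)) = 0 := trdeg_eq_zero
  rw [← trdeg_add_eq k (Algebra.adjoin k (Set.range x))
    (A := IntermediateField.adjoin k (Set.range x)), h1, h2, add_zero]

theorem trdeg_adj1 {z : E} (hz : Transcendental k z) :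
    Algebra.trdeg k (IntermediateField.adjoin k {z}) = 1 := by
  have h : AlgebraicIndependent k (fun _ : Fin 1 => z) :=
    algebraicIndependent_unique_type_iff.2 hz
  have h2 := trdeg_adj h
  rw [Set.range_const] at h2
  rw [h2, Nat.cast_one]

/-- The transcendence degree of a finite extension of a purely transcendental extension. -/
theorem trdeg_fin {s : ℕ} {x : Fin s → E} (hx : AlgebraicIndependent k x)
    (hf : Module.Finite (IntermediateField.adjoin k (Set.range x)) E) : Algebra.trdeg k E = s := by
  have h2 : Algebra.trdeg (IntermediateField.adjoin k (Set.range x)) E = 0 := trdeg_eq_zero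
  rw [← trdeg_add_eq k (IntermediateField.adjoin k (Set.range x)) (A := E), trdeg_adj hx, h2,
    add_zero]

/-- The values of the polynomials in `l` are in `κ(l)`. -/
theorem Vd_sub {s : ℕ} (l : Fin s → E) (a : ℕ) {v : E} (hv : v ∈ Vd k l a) :
    v ∈ IntermediateField.adjoin k (Set.range l) := by
  obtain ⟨p, -, rfl⟩ := Submodule.mem_map.1 hv
  have h : MvPolynomial.aeval l p ∈ Algebra.adjoin k (Set.range l) := by
    rw [Algebra.adjoin_range_eq_range_aeval]
    exact ⟨p, rfl⟩
  exact IntermediateField.algebra_adjoin_le_adjoin k _ h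

/-- The `x j` are integral over `k(l)`. -/
theorem int_of {c s : ℕ} (x : Fin c → E) (l : Fin s → E) (W : Submodule k E) (hW : W.FG)
    (hV : ∀ a : ℕ, Vd k x a ≤ W * Vd k l a) (j : Fin c) :
    IsIntegral (IntermediateField.adjoin k (Set.range l)) (x j) := by
  set F0 := IntermediateField.adjoin k (Set.range l) with hF0
  let M : Submodule F0 E := Submodule.span F0 (W : Set E)
  have hM : M.FG := by
    obtain ⟨t, ht⟩ := hW
    refine ⟨t, ?_⟩
    show Submodule.span F0 (t : Set E) = Submodule.span F0 (W : Set E)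
    rw [← ht, Submodule.span_span_of_tower]
  have hMf : Module.Finite F0 M := Module.Finite.iff_fg.2 hM
  have hle : ∀ a : ℕ, ∀ y ∈ Vd k x a, y ∈ M := by
    intro a y hy
    have h1 : W * Vd k l a ≤ M.restrictScalars k := by
      rw [Submodule.mul_le]
      intro w hw v hv
      have h2 : w * v = (⟨v, Vd_sub l a hv⟩ : F0) • w := by
        rw [mul_comm]
        rfl
      rw [h2]
      exact M.smul_mem _ (Submodule.subset_span hw)
    exact h1 (hV a hy)
  have hA : (Subalgebra.toSubmodule (Algebra.adjoin F0 {x j})) ≤ M := by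
    rw [Algebra.adjoin_eq_span, Submodule.span_le]
    intro y hy
    obtain ⟨m, rfl⟩ := Submonoid.mem_closure_singleton.1 hy
    refine hle m _ (Submodule.mem_map.2 ⟨MvPolynomial.X j ^ m, ?_, by simp⟩)
    rw [MvPolynomial.mem_restrictTotalDegree, MvPolynomial.totalDegree_X_pow]
  exact IsIntegral.of_mem_of_fg (Algebra.adjoin F0 {x j})
    (Submodule.FG.of_le_of_isNoetherian hA) (x j) (Algebra.subset_adjoin rfl)

/-- `E` is finite over `k(l)`. -/
theorem fin_of {c s : ℕ} (x : Fin c → E) (l : Fin s → E) (W : Submodule k E) (hW : W.FG)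
    (hV : ∀ a : ℕ, Vd k x a ≤ W * Vd k l a)
    (hf : Module.Finite (IntermediateField.adjoin k (Set.range x)) E) :
    Module.Finite (IntermediateField.adjoin k (Set.range l)) E := by
  set F0 := IntermediateField.adjoin k (Set.range l) with hF0
  have h1 : FiniteDimensional F0 (IntermediateField.adjoin F0 (Set.range x)) := by
    apply IntermediateField.finiteDimensional_adjoin
    rintro _ ⟨j, rfl⟩
    exact int_of x l W hW hV j
  have h2 : Module.Finite (IntermediateField.adjoin F0 (Set.range x)) E := by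
    refine fin_mono (IntermediateField.adjoin k (Set.range x)) _ ?_ hf
    refine adj_le _ _ (fun a => ?_) fun z hz => IntermediateField.subset_adjoin F0 _ hz
    exact (IntermediateField.adjoin F0 (Set.range x)).algebraMap_mem (algebraMap k F0 a)
  exact Module.Finite.trans (IntermediateField.adjoin F0 (Set.range x)) E

/-- The spaces `Vd` over a larger field. -/
theorem Vd_ext (k' : Type) [Field k'] [Algebra k k'] [Algebra k' E] [IsScalarTower k k' E] {c : ℕ}
    (x : Fin c → E) (a : ℕ) {v : E} (hv : v ∈ Vd k x a) : v ∈ Vd k' x a := by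
  obtain ⟨P, hP, rfl⟩ := Submodule.mem_map.1 hv
  refine Submodule.mem_map.2 ⟨MvPolynomial.map (algebraMap k k') P, ?_, ?_⟩
  · rw [MvPolynomial.mem_restrictTotalDegree] at hP ⊢
    exact (Finset.sup_mono (MvPolynomial.support_map_subset _ _)).trans hP
  · exact MvPolynomial.aeval_map_algebraMap k' x P

theorem Vd_fg {c : ℕ} (x : Fin c → E) (a : ℕ) : (Vd k x a).FG := by
  have h : Module.Finite k (Vd k x a) :=
    Module.Finite.map (MvPolynomial.restrictTotalDegree (Fin c) k a)
      (MvPolynomial.aeval x).toLinearMap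
  exact Module.Finite.iff_fg.1 h

/-- The span over a larger field is finitely generated. -/
theorem span_fg (k' : Type) [Field k'] [Algebra k k'] [Algebra k' E] [IsScalarTower k k' E]
    {Θ : Submodule k E} (h : Θ.FG) : (Submodule.span k' (Θ : Set E)).FG := by
  obtain ⟨t, ht⟩ := h
  refine ⟨t, ?_⟩
  rw [← ht, Submodule.span_span_of_tower]

end

section

variable {κ E : Type} [Field κ] [Field E] [Algebra κ E] {n : ℕ}

theorem dim_span (k' : Type) [Field k'] [Algebra κ k'] [Algebra k' E] [IsScalarTower κ k' E]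
    (Θ : Submodule κ E) (y : Fin n → E) (w : E) (p j : ℕ) (hΘ : Θ.FG) :
    Module.finrank k' (Submodule.span k'
      ((Θ * Vd κ y p * Vd κ (fun _ : Fin 1 => w) j : Submodule κ E) : Set E)) ≤
    Module.finrank k' (Submodule.span k' (Θ : Set E) * Vd k' y p *
      Vd k' (fun _ : Fin 1 => w) j : Submodule k' E) := by
  have hfg1 : (Submodule.span k' (Θ : Set E) * Vd k' y p *
      Vd k' (fun _ : Fin 1 => w) j).FG :=
    ((span_fg k' hΘ).mul (Vd_fg y p)).mul (Vd_fg _ j)
  have hfd1 := Module.Finite.iff_fg.2 hfg1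
  refine Submodule.finrank_mono ?_
  rw [Submodule.span_le]
  have a2 : Θ * Vd κ y p * Vd κ (fun _ : Fin 1 => w) j ≤
      (Submodule.span k' (Θ : Set E) * Vd k' y p *
      Vd k' (fun _ : Fin 1 => w) j).restrictScalars κ := by
    rw [Submodule.mul_le]
    intro u hu z hz
    have a1 : Θ * Vd κ y p ≤
        (Submodule.span k' (Θ : Set E) * Vd k' y p).restrictScalars κ := by
      rw [Submodule.mul_le]
      intro t ht v hv
      rw [Submodule.restrictScalars_mem]
      exact Submodule.mul_mem_mul (Submodule.subset_span ht) (Vd_ext k' y p hv)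
    rw [Submodule.restrictScalars_mem]
    have a3 := (Submodule.restrictScalars_mem κ _ _).1 (a1 hu)
    exact Submodule.mul_mem_mul a3 (Vd_ext k' _ j hz)
  intro v hv
  exact (Submodule.restrictScalars_mem κ _ _).1 (a2 hv)

theorem le2 (k₂ : IntermediateField κ E) (Θ : Submodule κ E) (y : Fin n → E) (w : E) (p j : ℕ)
    (hw : w ∈ k₂) : ∀ v ∈ Θ * Vd κ y p * Vd κ (fun _ : Fin 1 => w) j,
      v ∈ Submodule.span k₂ (Θ : Set E) * Vd k₂ y p := by
  have a1 : Θ * Vd κ y p ≤
      (Submodule.span k₂ (Θ : Set E) * Vd k₂ y p).restrictScalars κ := by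
    rw [Submodule.mul_le]
    intro t ht v hv
    rw [Submodule.restrictScalars_mem]
    exact Submodule.mul_mem_mul (Submodule.subset_span ht) (Vd_ext k₂ y p hv)
  have a2 : Θ * Vd κ y p * Vd κ (fun _ : Fin 1 => w) j ≤
      (Submodule.span k₂ (Θ : Set E) * Vd k₂ y p).restrictScalars κ := by
    rw [Submodule.mul_le]
    intro u hu z hz
    have hz2 : z ∈ k₂ := by
      have h1 := Vd_sub _ _ hz
      rw [Set.range_const] at h1
      have h2 : IntermediateField.adjoin κ {w} ≤ k₂ := by
        rw [IntermediateField.adjoin_le_iff]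
        intro x hx
        rw [Set.mem_singleton_iff.1 hx]
        exact hw
      exact h2 h1
    have e : u * z = (⟨z, hz2⟩ : k₂) • u := by
      rw [mul_comm]
      rfl
    rw [e, Submodule.restrictScalars_mem]
    have a3 := (Submodule.restrictScalars_mem κ _ _).1 (a1 hu)
    exact Submodule.smul_mem (Submodule.span k₂ (Θ : Set E) * Vd k₂ y p) (⟨z, hz2⟩ : k₂) a3
  intro v hv
  exact (Submodule.restrictScalars_mem κ _ _).1 (a2 hv)

end

/-- The statement for transcendence degree one over an extension of `κ`. -/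
theorem ub1 (hUB : StmtXUB1) (K E : Type) [Field K] [Infinite K] [Field E] [Algebra K E]
    (κ : IntermediateField K E) (κ₁ : IntermediateField κ E) (n : ℕ)
    (y : Fin n → E) (w : E) (e₀ e₁ : ℕ)
    (h1 : Module.Finite (IntermediateField.adjoin κ₁ (Set.range y)) E)
    (h2 : Algebra.trdeg κ₁ E = 1) (h3 : Transcendental κ₁ w)
    (h4 : ∀ A : Fin 1 → Fin n → K,
      Module.finrank (IntermediateField.adjoin κ₁ (Set.range (lc A y))) E ≤ e₀)
    (h5 : Module.finrank (IntermediateField.adjoin κ₁ {w}) E ≤ e₁)
    (Θ : Submodule κ₁ E) (h6 : Θ.FG) : ∃ C : ℕ, ∀ p j : ℕ,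
      Module.finrank κ₁ (Θ * Vd κ₁ y p * Vd κ₁ (fun _ : Fin 1 => w) j : Submodule κ₁ E) ≤
        p * e₀ + j * e₁ + C :=
  hUB K E (κ₁.restrictScalars K) n y w e₀ e₁ h1 h2 h3 h4 h5 Θ h6

section

variable {κ E : Type} [Field κ] [Field E] [Algebra κ E]

/-- The number of the elements of the basis. -/
theorem s_eq_one {w : E} (hw : Transcendental κ w) (hE : Algebra.trdeg κ E = 2) {s : ℕ}
    {l : Fin s → E} (hl : AlgebraicIndependent (IntermediateField.adjoin κ {w}) l)
    (hf : Module.Finite (IntermediateField.adjoin (IntermediateField.adjoin κ {w}) (Set.range l)) E) :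
    s = 1 := by
  have h := trdeg_add_eq κ (IntermediateField.adjoin κ {w}) (A := E)
  rw [trdeg_adj1 hw, trdeg_fin hl hf, hE] at h
  have h2 : 1 + s = 2 := by exact_mod_cast h
  omega

theorem trd_one {T : E} (hT : Transcendental κ T) (hE : Algebra.trdeg κ E = 2) :
    Algebra.trdeg (IntermediateField.adjoin κ {T}) E = 1 := by
  have h := trdeg_add_eq κ (IntermediateField.adjoin κ {T}) (A := E)
  rw [trdeg_adj1 hT, hE] at h
  have h2 : (1 : Cardinal) + Algebra.trdeg (IntermediateField.adjoin κ {T}) E = 1 + 1 := by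
    rw [h, one_add_one_eq_two]
  exact Cardinal.eq_of_add_eq_add_left h2 Cardinal.one_lt_aleph0

/-- `w` is transcendental over `κ(T)`. -/
theorem w_trans {w T : E} (hT : Transcendental κ T) (hE : Algebra.trdeg κ E = 2)
    (hf : Module.Finite (IntermediateField.adjoin (IntermediateField.adjoin κ {w})
      (Set.range (fun _ : Fin 1 => T))) E) :
    Transcendental (IntermediateField.adjoin κ {T}) w := by
  intro hw
  set κ₁ := IntermediateField.adjoin κ {T} with hκ₁
  have h1 : Module.Finite (IntermediateField.adjoin κ₁ {w}) E := by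
    refine fin_mono _ _ ?_ hf
    have hTm : T ∈ IntermediateField.adjoin κ₁ {w} :=
      (IntermediateField.adjoin κ₁ {w}).algebraMap_mem
        (⟨T, IntermediateField.mem_adjoin_simple_self κ T⟩ : κ₁)
    have hwm : w ∈ IntermediateField.adjoin κ₁ {w} := IntermediateField.mem_adjoin_simple_self κ₁ w
    refine adj_le _ _ (fun a => ?_) ?_
    · refine adj_le (IntermediateField.adjoin κ₁ {w}) {w} (fun c => ?_) ?_ a.1 a.2
      · exact (IntermediateField.adjoin κ₁ {w}).algebraMap_mem (algebraMap κ κ₁ c)
      · intro x hx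
        rw [Set.mem_singleton_iff.1 hx]
        exact hwm
    · rintro x ⟨i, rfl⟩
      exact hTm
  have h2 : FiniteDimensional κ₁ (IntermediateField.adjoin κ₁ {w}) :=
    IntermediateField.adjoin.finiteDimensional hw.isIntegral
  have h3 : Module.Finite κ₁ E := Module.Finite.trans (IntermediateField.adjoin κ₁ {w}) E
  have h4 : Algebra.trdeg κ₁ E = 0 := trdeg_eq_zero
  rw [trd_one hT hE] at h4
  exact one_ne_zero h4

end

end T3XUB2M

open T3XUB2M in
/-- (XUB2) Transcendence degree two. -/
theorem tXUB2 : StmtNN → StmtXEv → StmtXLat → StmtXUB1 → StmtXUB2 := by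
  intro hNN hEv hLat hUB K E _ _ _ _ κ n y w e₀ e₁ hfin htr hw h₀ h₁ Θ hΘ
  set k₂ := IntermediateField.adjoin κ {w} with hk₂
  have hst : IsScalarTower K k₂ E := IsScalarTower.of_algebraMap_eq fun x => rfl
  obtain ⟨s, A, hA, W', hW', hV⟩ := hNN K k₂ E n y
  have hE2 : Module.Finite (IntermediateField.adjoin k₂ (Set.range y)) E := by
    refine fin_mono (IntermediateField.adjoin κ (Set.range y)) _ ?_ hfin
    refine adj_le _ _ (fun a => ?_) fun z hz => IntermediateField.subset_adjoin k₂ _ hz
    exact (IntermediateField.adjoin k₂ (Set.range y)).algebraMap_mem (algebraMap κ k₂ a)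
  have hE3 := fin_of y _ W' hW' hV hE2
  obtain rfl : s = 1 := s_eq_one hw htr hA hE3
  set l : Fin 1 → E := fun i => ∑ j, algebraMap K E (A i j) * y j with hl
  have hlT : l = fun _ => l 0 := by
    funext i
    rw [Subsingleton.elim i 0]
  have hT : Transcendental k₂ (l 0) := hA.transcendental 0
  have hTκ : Transcendental κ (l 0) := by
    intro h
    exact hT (h.tower_top k₂)
  have hkey : Module.Finite (IntermediateField.adjoin k₂ (Set.range (fun _ : Fin 1 => l 0))) E := by
    rw [← hlT]
    exact hE3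
  have hwT := w_trans hTκ htr hkey
  have htr1 := trd_one hTκ htr
  set κ₁ := IntermediateField.adjoin κ {l 0} with hκ₁
  have hT1 : l 0 ∈ κ₁ := IntermediateField.mem_adjoin_simple_self κ (l 0)
  -- the statement for transcendence degree one
  have hf1 : Module.Finite (IntermediateField.adjoin κ₁ (Set.range y)) E := by
    refine fin_mono (IntermediateField.adjoin κ (Set.range y)) _ ?_ hfin
    refine adj_le _ _ (fun a => ?_) fun z hz => IntermediateField.subset_adjoin κ₁ _ hz
    exact (IntermediateField.adjoin κ₁ (Set.range y)).algebraMap_mem (algebraMap κ κ₁ a)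
  have hcar : ∀ S S' : Set E, S' = insert (l 0) S → ∀ x,
      x ∈ IntermediateField.adjoin κ₁ S ↔ x ∈ IntermediateField.adjoin κ S' := by
    rintro S S' rfl x
    constructor
    · refine adj_le _ _ (fun a => ?_)
        (fun z hz => IntermediateField.subset_adjoin κ _ (Set.mem_insert_of_mem _ hz)) x
      refine adj_le (K₁ := κ) (IntermediateField.adjoin κ (insert (l 0) S)) {l 0}
        (fun c => ?_) ?_ a.1 a.2
      · exact (IntermediateField.adjoin κ (insert (l 0) S)).algebraMap_mem c
      · intro z hz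
        rw [Set.mem_singleton_iff.1 hz]
        exact IntermediateField.subset_adjoin κ _ (Set.mem_insert _ _)
    · refine adj_le _ _ (fun c => ?_) ?_ x
      · exact (IntermediateField.adjoin κ₁ S).algebraMap_mem (algebraMap κ κ₁ c)
      · rintro z (rfl | hz)
        · exact (IntermediateField.adjoin κ₁ S).algebraMap_mem (⟨l 0, hT1⟩ : κ₁)
        · exact IntermediateField.subset_adjoin κ₁ _ hz
  have h4 : ∀ A' : Fin 1 → Fin n → K,
      Module.finrank (IntermediateField.adjoin κ₁ (Set.range (lc A' y))) E ≤ e₀ := by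
    intro A'
    have e : Set.range (lc ![A 0, A' 0] y) = insert (l 0) (Set.range (lc A' y)) := by
      ext x
      constructor
      · rintro ⟨i, rfl⟩
        fin_cases i
        · exact Or.inl rfl
        · exact Or.inr ⟨0, rfl⟩
      · rintro (rfl | ⟨i, rfl⟩)
        · exact ⟨0, rfl⟩
        · refine ⟨1, ?_⟩
          rw [Subsingleton.elim i 0]
          rfl
    rw [finrank_congr _ _ (hcar _ _ e)]
    exact h₀ _
  have h5 : Module.finrank (IntermediateField.adjoin κ₁ {w}) E ≤ e₁ := by
    have e : insert w (Set.range (lc A y)) = insert (l 0) {w} := by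
      have e1 : Set.range (lc A y) = {l 0} := by
        ext x
        constructor
        · rintro ⟨i, rfl⟩
          rw [Subsingleton.elim i 0]
          rfl
        · rintro rfl
          exact ⟨0, rfl⟩
      rw [e1, Set.pair_comm]
    rw [finrank_congr _ _ (hcar _ _ e)]
    exact h₁ A
  obtain ⟨C₁, hC₁⟩ := ub1 hUB K E κ κ₁ n y w e₀ e₁ hf1 htr1 hwT h4 h5
    (Submodule.span κ₁ (Θ : Set E)) (span_fg κ₁ hΘ)
  -- the lattice
  obtain ⟨B, C₂, hB1, hB2⟩ := hLat k₂ E n 0 y l W' hA hW' hV hE3
    (Submodule.span k₂ (Θ : Set E)) (span_fg k₂ hΘ)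
  refine ⟨C₁ + C₂ + 1, fun p j => ?_⟩
  set V : Submodule κ E := Θ * Vd κ y p * Vd κ (fun _ : Fin 1 => w) j with hVd
  have hVfg : V.FG := (hΘ.mul (Vd_fg y p)).mul (Vd_fg _ j)
  have hK : Infinite κ := Infinite.of_injective (algebraMap K κ) (algebraMap K κ).injective
  have hres := hEv κ E (l 0) (B.restrictScalars κ) (fun b hb => hB1 b hb) V (p + C₂)
    (Module.Finite.iff_fg.2 hVfg) (fun v hv => hB2 p v (le2 k₂ Θ y w p j
      (IntermediateField.mem_adjoin_simple_self κ w) v hv))
  refine hres.trans ?_
  have h6 := hC₁ p j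
  have hdim := dim_span κ₁ Θ y w p j hΘ
  exact Nat.mul_le_mul (by omega) ((hdim.trans h6).trans (by omega))

end Pool.Agent.Lib.MP_16285c_agN
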