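import Pool.Agent.Lib.MP_16285c_agN.T3.SpecA
import Pool.Agent.Lib.MP_16285c_agN.Degr.Up

/-!
# Growth on subvarieties: the upper bound for `W * Vd κ l a`
-/

set_option autoImplicit false

namespace Pool.Agent.Lib.MP_16285c_agN

open Pool.Agent.Lib.MP_16285c_ag

open DegrUpM in
/-- (XUpW) -/
theorem tXUpW : StmtVd → StmtXUpW := by
  intro hVd κ F _ _ _ s l W hl hW hF
  have := hF
  obtain ⟨q, C, hq, -, hC⟩ := denom l W hW
  set η := Module.finBasis (IntermediateField.adjoin κ (Set.range l)) F with hη
  refine ⟨C, fun a => ?_⟩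
  have h1 : Module.Finite κ (Vd κ l (a + C)) := hVd.1 κ F s l (a + C)
  have h2 : Module.Finite κ (Nn (κ := κ) l η (a + C)) := Module.Finite.range _
  have hm : ∀ v ∈ W * Vd κ l a, q * v ∈ Nn (κ := κ) l η (a + C) := by
    intro v hv
    refine Submodule.mul_induction_on hv (fun w hw u hu => ?_) fun v₁ v₂ h₁ h₂ => ?_
    · have e : q * (w * u) = u * (q * w) := by ring
      rw [e]
      exact Nn_mul l η hu (hC w hw)
    · rw [mul_add]
      exact Submodule.add_mem _ h₁ h₂
  have h3 : Module.finrank κ (W * Vd κ l a : Submodule κ F) ≤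
      Module.finrank κ (Nn (κ := κ) l η (a + C)) := by
    refine LinearMap.finrank_le_finrank_of_injective
      (f := (LinearMap.mulLeft κ q).restrict (p := W * Vd κ l a) (q := Nn (κ := κ) l η (a + C))
        fun v hv => hm v hv) fun u v huv => ?_
    have h4 := congrArg Subtype.val huv
    exact Subtype.ext (mul_left_cancel₀ hq h4)
  have h5 : Module.finrank κ (Nn (κ := κ) l η (a + C)) ≤
      Module.finrank (IntermediateField.adjoin κ (Set.range l)) F * cnt s (a + C) := by
    refine (LinearMap.finrank_range_le _).trans (le_of_eq ?_)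
    rw [Module.finrank_pi_fintype, Finset.sum_const, Finset.card_univ, Fintype.card_fin, smul_eq_mul,
      hVd.2 κ F s l (a + C) hl]
  exact h3.trans h5

end Pool.Agent.Lib.MP_16285c_agN
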