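import Pool.Agent.Lib.MP_16285c_agN.T3.SpecC
import Pool.Agent.Lib.MP_16285c_agZ.UPP.Fin

/-!
# MP_16285c: growth of heights on a curve
-/

set_option autoImplicit false

namespace Pool.Agent.Lib.MP_16285c_agN.T3XUppM

open Polynomial
open Pool.Agent.Lib.MP_16285c_ag
open Pool.Agent.Lib.MP_16285c_agN

/-- Heights of the roots, for polynomials over a subfield. -/
theorem root2 {K₁ K : Type} [Field K₁] [Field K] [Algebra K₁ K] [Height.AdmissibleAbsValues K]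
    (a : ℕ) (G : K₁[X][X]) (ha : ∀ i, (G.coeff i).natDegree ≤ a) :
    ∃ C : ℝ, 0 ≤ C ∧ ∀ u v : K₁, G.leadingCoeff.eval u ≠ 0 →
      (G.map (Polynomial.evalRingHom u)).eval v = 0 →
      Height.logHeight₁ (algebraMap K₁ K v) ≤
        a * Height.logHeight₁ (algebraMap K₁ K u) + C := by
  have hinj : Function.Injective (algebraMap K₁ K) := (algebraMap K₁ K).injective
  obtain ⟨C, hC, h⟩ := Pool.Agent.Lib.MP_16285c_agZ.root_sharp a
    (G.map (mapRingHom (algebraMap K₁ K))) (by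
      intro i
      rw [coeff_map, coe_mapRingHom]
      exact natDegree_map_le.trans (ha i))
  refine ⟨C, hC, fun u v hu hv => h _ _ ?_ ?_⟩
  · have h1 : (G.map (mapRingHom (algebraMap K₁ K))).leadingCoeff =
        G.leadingCoeff.map (algebraMap K₁ K) := by
      rw [leadingCoeff_map_of_injective (map_injective _ hinj)]
      rfl
    rw [h1, eval_map_apply]
    exact (map_ne_zero_iff _ hinj).2 hu
  · have h2 : (evalRingHom (algebraMap K₁ K u)).comp (mapRingHom (algebraMap K₁ K)) =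
        (algebraMap K₁ K).comp (evalRingHom u) := by
      apply Polynomial.ringHom_ext'
      · apply RingHom.ext
        intro c
        simp
      · simp
    rw [map_map, h2, ← map_map, eval_map_apply, hv, map_zero]

section

variable {K₁ : Type} [Field K₁] {n : ℕ} {𝔭 : Ideal (Pl n K₁)} {L : Type} [Field L]
  [Algebra (CR 𝔭) L] [Algebra K₁ L] [IsScalarTower K₁ (CR 𝔭) L]

theorem eval_aeval_X (z : Fin n → K₁) (i : Fin n) (q : K₁[X]) :
    MvPolynomial.eval z (aeval (MvPolynomial.X i : Pl n K₁) q) = q.eval (z i) := by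
  have h := aeval_algHom_apply (MvPolynomial.aeval z : Pl n K₁ →ₐ[K₁] K₁) (MvPolynomial.X i) q
  rw [MvPolynomial.aeval_X, MvPolynomial.aeval_eq_eval] at h
  rw [← h, coe_aeval_eq_eval]

/-- A nonzero polynomial in a transcendental coordinate does not vanish at the late points. -/
theorem lead_ne (i : Fin n)
    (hi : Transcendental K₁ (algebraMap (CR 𝔭) L (cl 𝔭 (MvPolynomial.X i)))) (z : ℕ → Fin n → K₁)
    (hD : ∀ Q : Pl n K₁, Q ∉ 𝔭 → ∃ t₀, ∀ t ≥ t₀, MvPolynomial.eval (z t) Q ≠ 0) (q : K₁[X])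
    (hq : q ≠ 0) : ∃ t₀, ∀ t ≥ t₀, q.eval (z t i) ≠ 0 := by
  obtain ⟨t₀, ht₀⟩ := hD (aeval (MvPolynomial.X i : Pl n K₁) q) (by
    intro hmem
    apply hq
    apply (transcendental_iff.1 hi) q
    have h1 : (Ideal.Quotient.mkₐ K₁ 𝔭) (aeval (MvPolynomial.X i : Pl n K₁) q) = 0 :=
      Ideal.Quotient.eq_zero_iff_mem.2 hmem
    rw [← aeval_algHom_apply] at h1
    have h2 := congrArg (IsScalarTower.toAlgHom K₁ (CR 𝔭) L) h1
    rw [map_zero, ← aeval_algHom_apply] at h2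
    exact h2)
  refine ⟨t₀, fun t ht => ?_⟩
  rw [← eval_aeval_X]
  exact ht₀ t ht

end

/-- Only finitely many points of the orbit are zeros of a polynomial outside `𝔭`. -/
theorem late {K₁ : Type} [Field K₁] {n : ℕ} (𝔭 : Ideal (Pl n K₁)) (z : ℕ → Fin n → K₁)
    (hz : ∀ t, ∀ G ∈ 𝔭, MvPolynomial.eval (z t) G = 0) (hinj : Function.Injective z)
    (hfin : ∀ Q : Pl n K₁, Q ∉ 𝔭 →
      {x : Fin n → K₁ | (∀ G ∈ 𝔭, MvPolynomial.eval x G = 0) ∧ MvPolynomial.eval x Q = 0}.Finite)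
    (Q : Pl n K₁) (hQ : Q ∉ 𝔭) : ∃ t₀, ∀ t ≥ t₀, MvPolynomial.eval (z t) Q ≠ 0 := by
  have h1 : {t : ℕ | MvPolynomial.eval (z t) Q = 0}.Finite := by
    apply ((hfin Q hQ).preimage hinj.injOn).subset
    intro t ht
    exact ⟨hz t, ht⟩
  obtain ⟨b, hb⟩ := h1.bddAbove
  refine ⟨b + 1, fun t ht h0 => ?_⟩
  have h2 : t ≤ b := hb h0
  omega

end Pool.Agent.Lib.MP_16285c_agN.T3XUppM

namespace Pool.Agent.Lib.MP_16285c_agN

open Polynomial
open Pool.Agent.Lib.MP_16285c_ag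

theorem tXUpp : StmtXCv → StmtXGm → StmtXPts → StmtXUpp := by
  intro hCv hGm hPts K₁ K _ _ _ _ n ρ 𝔭 _ hrk L _ _ _ _ _ ρb hRst z hflow hz hinj ε hε
  have hD : ∀ Q : Pl n K₁, Q ∉ 𝔭 → ∃ t₀, ∀ t ≥ t₀, MvPolynomial.eval (z t) Q ≠ 0 :=
    fun Q hQ => T3XUppM.late 𝔭 z hz hinj (fun Q hQ => hPts K₁ n 𝔭 hrk Q hQ) Q hQ
  obtain ⟨hδ, i, d, hi, hrel, hoth⟩ := hCv K₁ n 𝔭 hrk L ρb
  set δ := Module.finrank ρb.fieldRange L with hδdef
  have hδ1 : (1 : ℝ) ≤ δ := by exact_mod_cast hδ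
  have hδ0 : (0 : ℝ) < δ := by linarith
  -- the choice of `N`
  obtain ⟨N, hN⟩ : ∃ N : ℕ, ((d * δ ^ N : ℕ) : ℝ) + 1 ≤ ((δ : ℝ) + ε) ^ N := by
    obtain ⟨N, hN⟩ := pow_unbounded_of_one_lt ((d : ℝ) + 1) (y := ((δ : ℝ) + ε) / δ) (by
      rw [one_lt_div hδ0]
      linarith)
    refine ⟨N, ?_⟩
    rw [div_pow, lt_div_iff₀ (pow_pos hδ0 N)] at hN
    have h1 : (1 : ℝ) ≤ (δ : ℝ) ^ N := one_le_pow₀ hδ1
    push_cast
    linarith
  obtain ⟨Φ, hΦ0, hΦd, hΦ⟩ := hrel N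
  obtain ⟨C₁, hC₁, hroot⟩ := T3XUppM.root2 (K := K) (d * δ ^ N) Φ hΦd
  obtain ⟨t₁, ht₁⟩ := hGm K₁ n 𝔭 L ρ ρb hRst z hflow hz hD N (MvPolynomial.X i)
    (MvPolynomial.X i) Φ hΦ
  obtain ⟨t₂, ht₂⟩ := T3XUppM.lead_ne i hi z hD Φ.leadingCoeff (leadingCoeff_ne_zero.2 hΦ0)
  obtain ⟨D, hD0, hDt⟩ := Pool.Agent.Lib.MP_16285c_agZ.grow_le
    (fun t => Height.logHeight₁ (algebraMap K₁ K (z t i)))
    (fun t => Height.zero_le_logHeight₁ _) N (t₁ + t₂) ((d * δ ^ N : ℕ) : ℝ) C₁ ((δ : ℝ) + ε)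
    (Nat.cast_nonneg _) hC₁ (by linarith) hN (fun t ht => by
      have h1 := ht₁ t (by omega)
      rw [MvPolynomial.eval_X, MvPolynomial.eval_X] at h1
      exact hroot _ _ (ht₂ t (by omega)) h1)
  -- the other coordinates
  have hother : ∀ j : Fin n, ∃ (a C : ℝ) (t₀ : ℕ), 0 ≤ a ∧ 0 ≤ C ∧ ∀ t ≥ t₀,
      Height.logHeight₁ (algebraMap K₁ K (z t j)) ≤
        a * Height.logHeight₁ (algebraMap K₁ K (z t i)) + C := by
    intro j
    obtain ⟨Ψ, hΨ0, hΨ⟩ := hoth j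
    obtain ⟨a, ha⟩ := Pool.Agent.Lib.MP_16285c_agZ.coeff_bound Ψ
    obtain ⟨C₂, hC₂, hroot₂⟩ := T3XUppM.root2 (K := K) a Ψ ha
    obtain ⟨t₃, ht₃⟩ := T3XUppM.lead_ne i hi z hD Ψ.leadingCoeff (leadingCoeff_ne_zero.2 hΨ0)
    obtain ⟨t₄, ht₄⟩ := hGm K₁ n 𝔭 L ρ ρb hRst z hflow hz hD 0 (MvPolynomial.X i)
      (MvPolynomial.X j) Ψ (by
        rw [pow_zero]
        exact hΨ)
    refine ⟨a, C₂, t₃ + t₄, Nat.cast_nonneg _, hC₂, fun t ht => ?_⟩
    have h1 := ht₄ t (by omega)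
    rw [MvPolynomial.eval_X, MvPolynomial.eval_X] at h1
    exact hroot₂ _ _ (ht₃ t (by omega)) h1
  choose a C₂ T ha hC₂ hT using hother
  set T₀ : ℕ := ∑ j, T j with hT₀
  have hTle : ∀ j, T j ≤ T₀ := fun j =>
    Finset.single_le_sum (f := T) (fun _ _ => Nat.zero_le _) (Finset.mem_univ j)
  set S := ∑ t ∈ Finset.range T₀,
    Height.logHeight (hcN (fun i => algebraMap K₁ K (z t i))) with hS
  have hS0 : 0 ≤ S := Finset.sum_nonneg fun t _ => Height.logHeight_nonneg _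
  have hβ1 : (1 : ℝ) ≤ (δ : ℝ) + ε := by linarith
  have ha0 : 0 ≤ ∑ j, a j := Finset.sum_nonneg fun j _ => ha j
  have hC0 : 0 ≤ ∑ j, C₂ j := Finset.sum_nonneg fun j _ => hC₂ j
  refine ⟨(∑ j, a j) * D + ∑ j, C₂ j + S, fun t => ?_⟩
  have hone : (1 : ℝ) ≤ ((δ : ℝ) + ε) ^ t := one_le_pow₀ hβ1
  have hone0 : (0 : ℝ) ≤ ((δ : ℝ) + ε) ^ t := zero_le_one.trans hone
  have haD : 0 ≤ (∑ j, a j) * D := mul_nonneg ha0 hD0
  rcases lt_or_ge t T₀ with ht | ht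
  · have h1 : Height.logHeight (hcN (fun i => algebraMap K₁ K (z t i))) ≤ S :=
      Finset.single_le_sum
        (f := fun t => Height.logHeight (hcN (fun i => algebraMap K₁ K (z t i))))
        (fun s _ => Height.logHeight_nonneg _) (Finset.mem_range.2 ht)
    have h2 : S ≤ ((∑ j, a j) * D + ∑ j, C₂ j + S) * ((δ : ℝ) + ε) ^ t := by
      calc S ≤ (∑ j, a j) * D + ∑ j, C₂ j + S := by linarith
        _ = ((∑ j, a j) * D + ∑ j, C₂ j + S) * 1 := (mul_one _).symm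
        _ ≤ _ := mul_le_mul_of_nonneg_left hone (by linarith)
    exact h1.trans h2
  · have h1 := vecP.{0} K (Fin (n + 1)) (hcN (fun i => algebraMap K₁ K (z t i)))
    have h2 : ∑ k : Fin (n + 1), Height.logHeight₁ (hcN (fun i => algebraMap K₁ K (z t i)) k) =
        ∑ j : Fin n, Height.logHeight₁ (algebraMap K₁ K (z t j)) := by
      rw [Fin.sum_univ_succ]
      have e0 : hcN (fun i => algebraMap K₁ K (z t i)) 0 = 1 := rfl
      rw [e0, Height.logHeight₁_one, zero_add]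
      exact Finset.sum_congr rfl fun j _ => rfl
    rw [h2] at h1
    have h3 : ∑ j : Fin n, Height.logHeight₁ (algebraMap K₁ K (z t j)) ≤
        ∑ j : Fin n, (a j * (D * ((δ : ℝ) + ε) ^ t) + C₂ j * ((δ : ℝ) + ε) ^ t) := by
      apply Finset.sum_le_sum
      intro j _
      have h4 := hT j t ((hTle j).trans ht)
      have h5 := mul_le_mul_of_nonneg_left (hDt t) (ha j)
      have h6 : C₂ j ≤ C₂ j * ((δ : ℝ) + ε) ^ t := le_mul_of_one_le_right (hC₂ j) hone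
      linarith
    have h7 : ∑ j : Fin n, (a j * (D * ((δ : ℝ) + ε) ^ t) + C₂ j * ((δ : ℝ) + ε) ^ t) =
        ((∑ j, a j) * D + ∑ j, C₂ j) * ((δ : ℝ) + ε) ^ t := by
      rw [Finset.sum_add_distrib, ← Finset.sum_mul, ← Finset.sum_mul]
      ring
    have h8 : 0 ≤ S * ((δ : ℝ) + ε) ^ t := mul_nonneg hS0 hone0
    calc Height.logHeight (hcN (fun i => algebraMap K₁ K (z t i))) ≤ _ := h1
      _ ≤ _ := h3
      _ = _ := h7
      _ ≤ ((∑ j, a j) * D + ∑ j, C₂ j + S) * ((δ : ℝ) + ε) ^ t := by linarith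

end Pool.Agent.Lib.MP_16285c_agN
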