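import Pool.Agent.Lib.MP_16285c_agN.T3.Comb
import Pool.Agent.Lib.MP_16285c_agN.T3.XBZ
import Pool.Agent.Lib.MP_16285c_agN.T3.XBin
import Pool.Agent.Lib.MP_16285c_agN.T3.XCore
import Pool.Agent.Lib.MP_16285c_agN.T3.XCv
import Pool.Agent.Lib.MP_16285c_agN.T3.XDgGe
import Pool.Agent.Lib.MP_16285c_agN.T3.XDgLe
import Pool.Agent.Lib.MP_16285c_agN.T3.XE0
import Pool.Agent.Lib.MP_16285c_agN.T3.XE1
import Pool.Agent.Lib.MP_16285c_agN.T3.XEnd
import Pool.Agent.Lib.MP_16285c_agN.T3.XEv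
import Pool.Agent.Lib.MP_16285c_agN.T3.XFast
import Pool.Agent.Lib.MP_16285c_agN.T3.XFek
import Pool.Agent.Lib.MP_16285c_agN.T3.XFin
import Pool.Agent.Lib.MP_16285c_agN.T3.XGen
import Pool.Agent.Lib.MP_16285c_agN.T3.XGm
import Pool.Agent.Lib.MP_16285c_agN.T3.XHB
import Pool.Agent.Lib.MP_16285c_agN.T3.XHL
import Pool.Agent.Lib.MP_16285c_agN.T3.XHtF
import Pool.Agent.Lib.MP_16285c_agN.T3.XLB
import Pool.Agent.Lib.MP_16285c_agN.T3.XLat
import Pool.Agent.Lib.MP_16285c_agN.T3.XLine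
import Pool.Agent.Lib.MP_16285c_agN.T3.XLn
import Pool.Agent.Lib.MP_16285c_agN.T3.XLow
import Pool.Agent.Lib.MP_16285c_agN.T3.XLs
import Pool.Agent.Lib.MP_16285c_agN.T3.XMd
import Pool.Agent.Lib.MP_16285c_agN.T3.XMdB
import Pool.Agent.Lib.MP_16285c_agN.T3.XMdS
import Pool.Agent.Lib.MP_16285c_agN.T3.XPrE
import Pool.Agent.Lib.MP_16285c_agN.T3.XRates
import Pool.Agent.Lib.MP_16285c_agN.T3.XRec
import Pool.Agent.Lib.MP_16285c_agN.T3.XRl1
import Pool.Agent.Lib.MP_16285c_agN.T3.XRl2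
import Pool.Agent.Lib.MP_16285c_agN.T3.XRpB
import Pool.Agent.Lib.MP_16285c_agN.T3.XSecI
import Pool.Agent.Lib.MP_16285c_agN.T3.XSecII
import Pool.Agent.Lib.MP_16285c_agN.T3.XPts
import Pool.Agent.Lib.MP_16285c_agN.T3.XSub
import Pool.Agent.Lib.MP_16285c_agN.T3.XSup
import Pool.Agent.Lib.MP_16285c_agN.T3.XTr
import Pool.Agent.Lib.MP_16285c_agN.T3.XUB1
import Pool.Agent.Lib.MP_16285c_agN.T3.XUB2
import Pool.Agent.Lib.MP_16285c_agN.T3.XUpB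
import Pool.Agent.Lib.MP_16285c_agN.T3.XUpW
import Pool.Agent.Lib.MP_16285c_agN.T3.XUpp
import Pool.Agent.Lib.MP_16285c_agZ.Pol

/-!
# Threefolds with `λ₁ ≠ λ₃`: assembly
-/

set_option autoImplicit false

namespace Pool.Agent.Lib.MP_16285c_agN

theorem aXUB1 : StmtXUB1 := tXUB1 tNN MP_16285c_agZ.stmtPol

theorem aXUB2 : StmtXUB2 := tXUB2 tNN tXEv tXLat aXUB1

theorem aXBZ : StmtXBZ := tXBZ tNN (tXUpW tVd) tXLB

theorem aXMd : StmtXMd := tXMd (tXMdB aXBZ)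

theorem aXMdS : StmtXMdS := tXMdS aXBZ aXMd

theorem aXE1 : StmtXE1 := tXE1 aXBZ aXMd

theorem aXE0 : StmtXE0 := tXE0 aXMd

theorem aXDgGe : StmtXDgGe := tXDgGe tXGen

theorem aXSecII : StmtXSecII := tXSecII aXUB2 tXLB tXSub tXGen tXTr aXMd aXE1 aXE0

theorem aXHtF : StmtXHt' := tXHtF tXLow tXUpB

theorem aXLine : StmtXLine := tXLine tXGen tRk2 aRk3

theorem aXLn : StmtXLn := tXLn tXBin

theorem aXRates : StmtXRates := tXRates tXFek

theorem aXHL : StmtXHL := tXHL tXHB aHITK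

theorem aXCore : StmtXCore :=
  tXCore tXPrE tRk2 aRk3 aTan aIrr stmtResF degP_all can_all iNoIPow iTpPow iVal iRepE aPres tMove
    tPrim tLow tG1 iJac

theorem aXSecI : StmtXSecI := tXSecI aXUB2 tXLB tXSub tXGen tXTr tXDgLe aXDgGe aXMd aXE1

theorem aXRec : StmtXRec := tXRec aXSecI aXSecII aXHtF aXMd

theorem aXFast : StmtXFast := tXFast aXRates aXRec aXMd aXMdS aXLine aXLn tXRpB tXRl1

theorem aXUpp : StmtXUpp := tXUpp tXCv tXGm (tXPts tRk2 aRk3)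

theorem aXEnd : StmtXEnd := tXEnd aXUpp tXRl2 stmtResF

theorem aXFin : StmtXFin := tXFin aXFast tXSup aXHL aXCore aXEnd tXLs

/-- **The combined theorem for affine space.** -/
theorem xAll : StmtXAll := tXAll tXDgLe aXDgGe aXFin

end Pool.Agent.Lib.MP_16285c_agN
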