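import Pool.Agent.Lib.MP_16285c_agN.T3.SpecC
import Pool.Agent.Lib.MP_16285c_agN.AllN
import Pool.Agent.Lib.MP_16285c_agN.Real
import Pool.Agent.Lib.MP_16285c_agN.DgPos

/-!
# The combined theorem for rational self-maps of affine space
-/

set_option autoImplicit false

namespace Pool.Agent.Lib.MP_16285c_agN

open Pool.Agent.Lib.MP_16285c_ag

/-- The theorem: no condition for `n ≤ 2`, `λ₁ ≠ λ₃` for `n = 3`, `λ_r < λ_n` (`1 ≤ r ≤ n - 2`) for `n ≥ 4`. -/
def StmtXAll : Prop :=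
  ∀ (k : Type) [Field k] [IsAlgClosed k] [CharZero k] (n : ℕ) (σ : RF n k →ₐ[k] RF n k), 1 ≤ n →
    NoI σ → (n = 3 → lam 1 σ ≠ (tp σ : ENNReal)) →
    (4 ≤ n → ∀ r : ℕ, 1 ≤ r → r + 2 ≤ n → lam r σ < (tp σ : ENNReal)) →
    ∀ f : RM k n, Of f σ → ∀ b : Pl n k, b ≠ 0 →
    ∃ x : ℕ → Fin n → k, f.Orb x ∧ (∀ m, MvPolynomial.eval (x m) b ≠ 0) ∧ Dns x

namespace T3CombM

open Filter Topology

theorem le_degr {n : ℕ} {K : Type} [Field K] (r : ℕ) (g : Fin n → RF n K)
    (A : Fin (n - r) → Fin n → K) (B : Fin r → Fin n → K) :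
    (Module.finrank (fld A B g) (RF n K) : ENNReal) ≤ degr r g :=
  le_trans (le_iSup (fun B : Fin r → Fin n → K =>
    (Module.finrank (fld A B g) (RF n K) : ENNReal)) B)
    (le_iSup (fun A : Fin (n - r) → Fin n → K => ⨆ B : Fin r → Fin n → K,
      (Module.finrank (fld A B g) (RF n K) : ENNReal)) A)

/-- The first degree of a map of three-space is its degree as a map of projective space. -/
theorem degr_eq (hLe : StmtXDgLe) (hGe : StmtXDgGe) {K : Type} [Field K] [CharZero K]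
    (σ : RF 3 K →ₐ[K] RF 3 K) (m : ℕ) : degr 1 (it σ m) = (dg (it σ m) : ENNReal) := by
  obtain ⟨F, hF, hFd⟩ := iRepE.1 K 3 (it σ m)
  have hpos : 1 ≤ dg (it σ m) := tDgPos iRepE K 3 σ m (by norm_num)
  have hex : ∃ i, (F i).totalDegree = dg (it σ m) := by
    by_contra hcon
    push Not at hcon
    have h1 := iDgLe K 3 (it σ m) F (dg (it σ m) - 1) hF.toWk (fun i => by
      have h2 := hFd i
      have h3 := hcon i
      omega)
    omega
  apply le_antisymm
  · unfold degr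
    refine iSup_le fun A => iSup_le fun B => ?_
    exact_mod_cast hLe K (it σ m) F (dg (it σ m)) hF.toWk hFd A B
  · obtain ⟨A, B, hAB⟩ := hGe K (it σ m) F (dg (it σ m)) hF hpos hFd hex
    have h1 : (dg (it σ m) : ENNReal) ≤ (Module.finrank (fld A B (it σ m)) (RF 3 K) : ENNReal) := by
      exact_mod_cast hAB
    exact h1.trans (le_degr (n := 3) 1 (it σ m) A B)

/-- The first dynamical degree. -/
theorem lam_eq (hLe : StmtXDgLe) (hGe : StmtXDgGe) {K : Type} [Field K] [CharZero K]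
    (σ : RF 3 K →ₐ[K] RF 3 K) : lam 1 σ = ENNReal.ofReal (lam0 fun m => dg (it σ m)) := by
  have h1 : ∀ m, 1 ≤ dg (it σ m) := fun m => tDgPos iRepE K 3 σ m (by norm_num)
  obtain ⟨L, -, hL, hlim⟩ := RealM.tends (d := fun m => dg (it σ m)) (fun a b => iDgMul K 3 σ a b) h1
  have he : (fun m : ℕ => (dg (it σ m) : ℝ) ^ ((m : ℝ)⁻¹)) =
      fun m : ℕ => Real.exp (Real.log (dg (it σ m) : ℝ) / m) := by
    funext m
    have h : (0 : ℝ) < dg (it σ m) := by exact_mod_cast h1 m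
    rw [Real.rpow_def_of_pos h, div_eq_mul_inv]
  have ht : Tendsto (fun m : ℕ => (dg (it σ m) : ℝ) ^ ((m : ℝ)⁻¹)) atTop (𝓝 (Real.exp L)) := by
    rw [he]
    exact (Real.continuous_exp.tendsto _).comp hL
  have hE : (fun m : ℕ => degr 1 (it σ m) ^ ((m : ℝ)⁻¹)) =
      fun m : ℕ => ENNReal.ofReal ((dg (it σ m) : ℝ) ^ ((m : ℝ)⁻¹)) := by
    funext m
    rw [degr_eq hLe hGe, ← ENNReal.ofReal_natCast, ENNReal.ofReal_rpow_of_nonneg (Nat.cast_nonneg _)
      (inv_nonneg.2 (Nat.cast_nonneg _))]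
  unfold lam lam0
  rw [hE, hlim, (ENNReal.tendsto_ofReal ht).limsup_eq]

end T3CombM

open T3CombM in
theorem tXAll (hLe : StmtXDgLe) (hGe : StmtXDgGe) (hFin : StmtXFin) : StmtXAll := by
  intro k _ _ _ n σ hn hnoi h3 h4 f hOf b hb
  by_cases hcase : ∀ r : ℕ, 1 ≤ r → r + 2 ≤ n → lam r σ < (tp σ : ENNReal)
  · exact finNN k n σ hn (tTpPos k n σ) hnoi (allNFD k n σ hcase) f hOf b hb
  · push Not at hcase
    obtain ⟨r, hr1, hrn, hr⟩ := hcase
    have hn3 : n = 3 := by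
      by_contra hne
      exact absurd (h4 (by omega) r hr1 hrn) (not_lt.2 hr)
    subst hn3
    have hr' : r = 1 := by omega
    subst hr'
    have hlt : (tp σ : ENNReal) < lam 1 σ := lt_of_le_of_ne hr (fun h => h3 rfl h.symm)
    rw [lam_eq hLe hGe, ← ENNReal.ofReal_natCast] at hlt
    have hlt' : (tp σ : ℝ) < lam0 (fun m => dg (it σ m)) := by simpa using hlt
    exact hFin k σ hnoi hlt' f hOf b hb

end Pool.Agent.Lib.MP_16285c_agN
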