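import Pool.Agent.Lib.MP_16285c_agN.T3.SpecA

/-!
# Threefolds with `λ₁ ≠ λ₃`: degrees, sections, the height inequality, lines (statements)

Notation: see `Defs.lean`, `Degr/Spec.lean`, `T3/SpecA.lean`. `E = RF 3 K = K(x_1, x_2, x_3)`. The paper proof is note 4891 on MP_16285c_ag; the numbers of its sections are given.
Finite degrees: `Module.finrank` is `0` if the degree is infinite, so all upper bounds are trivial in this case. A field `K(a, b, c)` over which `E` is finite has transcendence degree `3`, so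
`a, b, c` are algebraically independent over `K`.
-/

set_option autoImplicit false

namespace Pool.Agent.Lib.MP_16285c_agN

open Pool.Agent.Lib.MP_16285c_ag

/-- `a_0 + u a_1 + … + u ^ n a_n`. -/
def luN {R : Type} [CommRing R] {n : ℕ} (u : R) (a : Fin (n + 1) → R) : R :=
  ∑ i : Fin (n + 1), u ^ (i : ℕ) * a i

/-- The second degree of a rational map of three-space: the largest (finite) degree of `K(x)` over a field generated by one linear form in `x` and two linear forms in `g`. -/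
noncomputable def md {K : Type} [Field K] (g : Fin 3 → RF 3 K) : ℕ :=
  sSup (Set.range fun AB : (Fin 1 → Fin 3 → K) × (Fin 2 → Fin 3 → K) =>
    Module.finrank (fld AB.1 AB.2 g) (RF 3 K))

/-! ## Degrees of fields (section 1) -/

/-- (XDgLe) (1a). PROOF. We may assume that `E` is finite over `fld A B g = K(l₁, l₂, w)`, `l_i = lf A (gen 3 K) i`, `w = lf B g 0`. Then `l₁, l₂, w` are algebraically independent, so the two rows of `A` are linearly independent; complete them by a third linear form `l₃` to a basis: `E = K(l₁, l₂, l₃)`. `w = fr N / fr (F 0)` with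
`N = ∑ j, C (B 0 j) * F j.succ`, of degree `≤ d`. Write `N`, `F 0` as polynomials `N', F₀'` of total degree `≤ d` in `l₁, l₂, l₃` (linear substitution). `l₃` is a root of `N'(l₁, l₂, Y) - w F₀'(l₁, l₂, Y)`, of degree `≤ d` in `Y` over `K(l₁, l₂, w)`; it is not the zero polynomial: `F₀' ≠ 0` and `w` is transcendental over `K(l₁, l₂)`. So
`[E : K(l₁, l₂, w)] ≤ d`. -/
def StmtXDgLe : Prop :=
  ∀ (K : Type) [Field K] [Infinite K] (g : Fin 3 → RF 3 K) (F : Fin 4 → Pl 3 K) (d : ℕ), Wk g F →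
    (∀ i, (F i).totalDegree ≤ d) → ∀ (A : Fin 2 → Fin 3 → K) (B : Fin 1 → Fin 3 → K),
    Module.finrank (fld A B g) (RF 3 K) ≤ d

/-- (XDgGe) (1a). PROOF (uses `StmtXGen`). Choose `u : K`, `u ≠ 0`, with `Λ = luN (C u) F` relatively prime to `F 0` (`StmtXGen`) and `max (totalDegree Λ) (totalDegree (F 0)) = d` (if `totalDegree (F 0) < d`, the homogeneous part of degree `d` of `luN (C u) F` is a nonzero polynomial in `u` with polynomial coefficients, so it is nonzero for all but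
finitely many `u`). `B 0 j = u ^ (j + 1)`: `w = lf B g 0 = (fr Λ - fr (F 0)) / fr (F 0)`, `N = Λ - F 0` is relatively prime to `F 0` with `max (deg N) (deg F 0) = d`. Choose linear coordinates `l₁, l₂, l₃` (`l_i` = new coordinates, `x = (l₁ + c₁ l₃, l₂ + c₂ l₃, l₃)` or a permutation) such that the coefficient of `l₃ ^ d` in one of
`N, F 0` is not zero (a form of degree `d` does not vanish at some point of `K ^ 3`). In `K(l₁, l₂)[l₃]` the polynomials `N, F 0` are relatively prime (Gauss) of maximal degree `d ≥ 1`, so `[K(l₁, l₂)(l₃) : K(l₁, l₂)(N / F 0)] = d`: the polynomial `N(Y) - w F₀(Y)` is irreducible over `K(l₁, l₂)(w)` (linear in `w`, with relatively prime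
coefficients; Gauss) of degree `d` in `Y` (Mathlib has this as the degree of `RatFunc` over the subfield generated by one element, `Mathlib/FieldTheory/RatFunc/…` (Lüroth), or prove it directly). -/
def StmtXDgGe : Prop :=
  ∀ (K : Type) [Field K] [Infinite K] (g : Fin 3 → RF 3 K) (F : Fin 4 → Pl 3 K) (d : ℕ), Rep g F →
    1 ≤ d → (∀ i, (F i).totalDegree ≤ d) → (∃ i, (F i).totalDegree = d) →
    ∃ (A : Fin 2 → Fin 3 → K) (B : Fin 1 → Fin 3 → K), d ≤ Module.finrank (fld A B g) (RF 3 K)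

/-- (XGen) Generic combinations. PROOF. Let `π` be a prime factor of `F 0`. If `π` divides `luN (C u) F` for `n + 1` different `u` then by Vandermonde it divides all `F i` (`F i` is a `K`-linear combination of the `luN (C u) F`), so it is a unit: a contradiction. So `π` divides at most `n` of them. `F 0 ≠ 0` has finitely many prime factors up to associates. -/
def StmtXGen : Prop :=
  ∀ (K : Type) [Field K] (n : ℕ) (F : Fin (n + 1) → Pl n K), (∀ c : Pl n K, (∀ i, c ∣ F i) → IsUnit c) →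
    F 0 ≠ 0 → {u : K | ¬ IsRelPrime (luN (MvPolynomial.C u) F) (F 0)}.Finite

/-- (XMdB) (1e). PROOF (uses `StmtXBZ`). `fld A B g = K(l(x), w₁, w₂)`, `κ = K(l(x))`, `l(x) = lf A (gen 3 K) 0`, `w_i = lf B g i = fr N_i / fr (F 0)`, degrees `≤ d`. If `E` is finite over it then `l(x), w₁, w₂` are algebraically independent, so `w₁, w₂` are algebraically independent over `κ`. `StmtXBZ` for `y = gen 3 K` (`E = κ(y)`), `A_i = N_i`, `B_i = F 0`
(`aeval (gen 3 K) G = fr G`) and `e₂ = 1`: for every `A' : Fin 2 → Fin 3 → K` the degree `[E : κ(lc A' y)]` is `0` or `1` (if it is finite then the three linear forms `l, A'` are linearly independent, so they generate `E`). `9 * d * d * 1`. (`(adjoin κ …).restrictScalars K = adjoin K …`: `IntermediateField.adjoin_adjoin_left`.) -/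
def StmtXMdB : Prop :=
  ∀ (K : Type) [Field K] [Infinite K] (g : Fin 3 → RF 3 K) (F : Fin 4 → Pl 3 K) (d : ℕ), Wk g F →
    1 ≤ d → (∀ i, (F i).totalDegree ≤ d) → ∀ (A : Fin 1 → Fin 3 → K) (B : Fin 2 → Fin 3 → K),
    Module.finrank (fld A B g) (RF 3 K) ≤ 9 * d ^ 2

/-- (XMd) (1e). PROOF (uses `StmtXMdB`; representatives: `iRepE` in `Iface.lean`, `Rep` with degrees `≤ dg g`; `d = max 1 (dg g)`). By `StmtXMdB` the set is bounded (every `g` has a `Rep`, which gives (2) and, by `Nat.sSup_mem`, (3)). (1): the `it σ m i = σ ^ m (gen 3 K i)` are algebraically independent (injectivity); `K(it σ m 0, it σ m 1)` has transcendence degree `2`, so some `gen 3 K i` is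
transcendental over it, and `E` is algebraic, hence finite, over `K(gen i, it σ m 0, it σ m 1) = fld A B (it σ m)` (`A 0 = Pi.single i 1`, `B 0 = Pi.single 0 1`, `B 1 = Pi.single 1 1`), so its degree is `≥ 1`. -/
def StmtXMd : Prop :=
  ∀ (K : Type) [Field K] [Infinite K],
    (∀ (σ : RF 3 K →ₐ[K] RF 3 K) (m : ℕ), 1 ≤ md (it σ m)) ∧
    (∀ (g : Fin 3 → RF 3 K) (A : Fin 1 → Fin 3 → K) (B : Fin 2 → Fin 3 → K),
      Module.finrank (fld A B g) (RF 3 K) ≤ md g) ∧
    (∀ g : Fin 3 → RF 3 K, ∃ (A : Fin 1 → Fin 3 → K) (B : Fin 2 → Fin 3 → K),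
      Module.finrank (fld A B g) (RF 3 K) = md g) ∧
    ∀ g : Fin 3 → RF 3 K, 1 ≤ dg g → md g ≤ 9 * dg g ^ 2

/-- (XMdS) (1e). PROOF (uses `StmtXBZ`, `StmtXMd`). Let `A, B` be arbitrary; `fld A B (it σ (m + 1)) = K(l(x), w₁, w₂)`, `κ = K(l(x))`, `y = it σ m` (`E` is finite over `K(y) = (σ ^ m).fieldRange`, so over `κ(y)`), `w_i = lf B (it σ (m + 1)) i = σ ^ m (lf B (it σ 1) i) = σ ^ m (fr N_i / fr F¹)`, `F¹` the denominator of a
representative of `it σ 1`, degrees `≤ dg (it σ 1)`; `σ ^ m (fr G) = aeval y G`. `StmtXBZ` with `e₂ = md (it σ m)`: `[E : κ(lc A' y)] = [E : fld A A' (it σ m)] ≤ md (it σ m)`. -/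
def StmtXMdS : Prop :=
  ∀ (K : Type) [Field K] [Infinite K] (σ : RF 3 K →ₐ[K] RF 3 K) (m : ℕ), 1 ≤ tp σ →
    1 ≤ dg (it σ 1) → md (it σ (m + 1)) ≤ 9 * dg (it σ 1) ^ 2 * md (it σ m)

/-- (XE1) (1c). PROOF (uses `StmtXBZ`, `StmtXMd`). `κ' = K(l(x))`, `y = it σ m`, `w₁ = fr (luN (C u) F) / fr (F 0) = 1 + ∑ u ^ (j+1) y_j` (a polynomial of degree `≤ 1` in `y`), `w₂ = ∑ μ_j it σ (2 m) j = σ ^ m (∑ μ_j it σ m j) = σ ^ m (fr N / fr (F 0)) = aeval y N / aeval y (F 0)`, degrees `≤ d`. If `E` is finite over `K(l(x), w₁, w₂)` then `w₁, w₂` are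
algebraically independent over `κ'`; `StmtXBZ` with `d₁ = 1`, `d₂ = d`, `e₂ = md (it σ m)`. -/
def StmtXE1 : Prop :=
  ∀ (K : Type) [Field K] [Infinite K] (σ : RF 3 K →ₐ[K] RF 3 K) (m : ℕ) (F : Fin 4 → Pl 3 K) (d : ℕ),
    1 ≤ tp σ → Wk (it σ m) F → 1 ≤ d → (∀ i, (F i).totalDegree ≤ d) →
    ∀ (u : K) (l μ : Fin 3 → K), Module.finrank (IntermediateField.adjoin K
      {∑ j, algebraMap K (RF 3 K) (l j) * gen 3 K j, fr (luN (MvPolynomial.C u) F) / fr (F 0),
        ∑ j, algebraMap K (RF 3 K) (μ j) * it σ (2 * m) j}) (RF 3 K) ≤ 9 * d * md (it σ m)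

/-- (XE0) (1d). PROOF (uses `StmtXMd`). `L = K(T_u, m₁(z), m₂(z))` is the image under `σ ^ m` of `L' = K(1 + ∑ u ^ (j+1) x_j, m₁(g), m₂(g)) = fld A B g`, `g = it σ m`, `z = it σ (2 m)`, `A 0 j = u ^ (j+1)` (the constant `1` does not change the field): `T_u = fr (luN (C u) F) / fr (F 0) = 1 + ∑ u ^ (j+1) g_j = σ ^ m (1 + ∑ u ^ (j+1) x_j)`,
`z_j = σ ^ m (g_j)`. `[E : L] = [E : σ ^ m E] [σ ^ m E : σ ^ m L'] = tp (σ ^ m) [E : L']`, `tp (σ ^ m) = tp σ ^ m` (`iTpPow`). -/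
def StmtXE0 : Prop :=
  ∀ (K : Type) [Field K] [Infinite K] (σ : RF 3 K →ₐ[K] RF 3 K) (m : ℕ) (F : Fin 4 → Pl 3 K),
    1 ≤ tp σ → Wk (it σ m) F → ∀ (u : K) (B : Fin 2 → Fin 3 → K),
    Module.finrank (IntermediateField.adjoin K (insert (fr (luN (MvPolynomial.C u) F) / fr (F 0))
      (Set.range (lf B (it σ (2 * m)))))) (RF 3 K) ≤ tp σ ^ m * md (it σ m)

/-- (XTr) PROOF. `T_u = fr (luN (C u) F) / fr (F 0) = 1 + ∑ u ^ (j+1) g_j`, `g = it σ m`. If `w` is algebraic over `K(T_u)` then, `w` being transcendental over `K`, `T_u` is algebraic over `K(w)`. Suppose this happens for infinitely many `u`, so for four different ones; the algebraic closure of `K(w)` in `E` contains `1` and the four `T_u`, so by Vandermonde the `g_j`.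
So `K(g)` has transcendence degree `≤ 1`, but the `g_j = σ ^ m (gen j)` are algebraically independent. -/
def StmtXTr : Prop :=
  ∀ (K : Type) [Field K] (σ : RF 3 K →ₐ[K] RF 3 K) (m : ℕ) (F : Fin 4 → Pl 3 K), Wk (it σ m) F →
    ∀ w : RF 3 K, Transcendental K w → {u : K | ¬ Transcendental
      (IntermediateField.adjoin K {fr (luN (MvPolynomial.C u) F) / fr (F 0)}) w}.Finite

/-! ## Sections (section 5) -/

/-- The sections: `G(x; z)` of degree `≤ P` in `x`, homogeneous of degree `j` in `z`, `G(x; Z)` is not zero and divisible by `Λ ^ q`. -/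
def Sct {K : Type} [Field K] (Λ : Pl 3 K) (Z : Fin 4 → Pl 3 K) (P j q : ℕ) : Prop :=
  ∃ G : MvPolynomial (Fin 4) (Pl 3 K), G.IsHomogeneous j ∧ (∀ α, (G.coeff α).totalDegree ≤ P) ∧
    MvPolynomial.eval Z G ≠ 0 ∧ Λ ^ q ∣ MvPolynomial.eval Z G

/-- (XSecI) PROOF (uses `StmtXUB2`, `StmtXLB`, `StmtXSub`, `StmtXGen`, `StmtXTr`, `StmtXDgLe`, `StmtXDgGe`, `StmtXMd`, `StmtXE1`). `Δ = md (it σ m)`, `Λ = luN (C u) F`, `T = fr Λ / fr (F 0)`, `κ = K(T)`. `StmtXDgGe` for `Z`: `A, B` with `e := [E : K(l₁, l₂, w)] ≥ D`, `l_i = lf A (gen 3 K) i`, `w = lf B (it σ (2 m)) 0 = fr (μ(Z)) / fr (Z 0)`, `μ(Z) = ∑ j, C (B 0 j) * Z j.succ`. Let `u` be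
such that `Λ` and `F 0` are relatively prime and `w` is transcendental over `κ` (all but finitely many `u`; `l₁, l₂, w` are algebraically independent, so `w` is transcendental over `K`); `Λ ≠ 0` (if `Λ = 0` then `F 0` is a unit and … exclude this `u` too: `Λ = 0` for at most `3` values). UPPER BOUND: `StmtXUB2` for `κ`, `y = gen 3 K`, `w`, `e₀ = d`, `e₁ = 9 d Δ`, `Θ = 1` (`κ`-span of `1`):
`trdeg κ E = 2` (`T` is transcendental over `K`: else `w` … : `T = 1 + ∑ u ^ (j+1) g_j` is not algebraic as `u ≠ 0`, or simply because `Λ, F 0` are relatively prime and not both constant; exclude `u = 0`); `κ(lc A' y) = fld A' B' (it σ m)` with `B' 0 j = u ^ (j+1)`, degree `≤ d` (`StmtXDgLe`); `κ(w, lc A' y)`: `StmtXE1`. So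
`dim_κ (Vd κ y p * Vd κ w j) ≤ (p + C) (p d + 9 d Δ j + C)`. `W = span K {g * Z 0 ^ (j - r) * μ(Z) ^ r : totalDegree g ≤ p, r ≤ j} ⊆ Pl 3 K`, `V = fr (Z 0) ^ j • (Vd κ y p * Vd κ w j)` (the same dimension), `fr W ⊆ V`. LOWER BOUND: `E = K(l₁, l₂, w)(x)` is finite over `K(l₁, l₂, w)`, spanned by monomials in `x`: a basis `θ_k = fr (t_k)`, `k < e`,
`totalDegree t_k ≤ c`. `StmtXLB` (`m = l`, exponents `|β| ≤ p - c`, `r ≤ j`): the `fr (Z 0) ^ j θ_k l ^ β w ^ r ∈ fr W` are `K`-independent, so `dim W ≥ e * cnt 2 (p - c) * (j + 1) ≥ D * cnt 2 (p - c) * (j + 1)`, `2 * cnt 2 a ≥ a ^ 2` (there are `(a+1)(a+2)/2` monomials; prove the lower bound by counting `(β₁, β₂)`, `β₁ ≤ a`, `β₂ ≤ a - β₁`). With `j = 8 d i`, `q = D i`, `p = 9 Δ j = 72 d Δ i`: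
`q dim V ≤ D i (p + C) (2 p d + C) < 4 D d i (p - c) ^ 2 ≤ D ((p-c)^2/2) j ≤ dim W` for large `i` (`p → ∞`, `d, D, Δ ≥ 1`). `StmtXSub` gives `S ∈ W`, `S ≠ 0`, `Λ ^ q ∣ S`; `S = ∑ g_s Z 0 ^ (j - r_s) μ(Z) ^ (r_s)` is `eval Z G` for `G = ∑ C g_s * X 0 ^ (j - r_s) * (∑ j, C (C (B 0 j)) * X j.succ) ^ (r_s)`. -/
def StmtXSecI : Prop :=
  ∀ (K : Type) [Field K] [CharZero K] (σ : RF 3 K →ₐ[K] RF 3 K) (m : ℕ) (F Z : Fin 4 → Pl 3 K)
    (d D : ℕ), 1 ≤ tp σ → 1 ≤ d → 1 ≤ D → Rep (it σ m) F → Rep (it σ (2 * m)) Z →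
    (∀ i, (F i).totalDegree ≤ d) → (∀ i, (Z i).totalDegree ≤ D) → (∃ i, (Z i).totalDegree = D) →
    {u : K | ¬ ∃ i₀ : ℕ, ∀ i, i₀ ≤ i → Sct (luN (MvPolynomial.C u) F) Z (72 * d * md (it σ m) * i)
      (8 * d * i) (D * i)}.Finite

/-- (XSecII) PROOF (uses `StmtXUB2`, `StmtXLB`, `StmtXSub`, `StmtXGen`, `StmtXTr`, `StmtXMd`, `StmtXE1`, `StmtXE0`). `Δ = md (it σ m)`, `Δ' = md (it σ (2 m))`, `τ = tp σ ^ m`, `z = it σ (2 m)`. `StmtXMd` (3): `A : Fin 1`, `B : Fin 2` with `[E : K(l(x), m₁(z), m₂(z))] = Δ' ≥ 1`, `l(x) = lf A (gen 3 K) 0`, `m_i(z) = lf B z i = fr (μ_i(Z)) / fr (Z 0)`. `u` such that `Λ, F 0` are relatively prime,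
`Λ ≠ 0`, `u ≠ 0`, and `l(x)` is transcendental over `κ = K(T)`. `θ_k = fr (t_k)`, `k < Δ'`, a basis of `E` over `K(l(x), m₁(z), m₂(z))` of monomials in `x`, degrees `≤ c`; `Θ` its `κ`-span. UPPER BOUND: `StmtXUB2` for `κ`, `y = z`, `w = l(x)`, `e₀ = τ Δ` (`StmtXE0`), `e₁ = 9 d Δ` (`StmtXE1`), with the roles of `p` and `j` exchanged:
`dim_κ (Θ * Vd κ z j * Vd κ w p) ≤ (j + C) (j τ Δ + 9 d Δ p + C)` (`E` is finite over `K(z) = (σ ^ (2 m)).fieldRange`). `W = span K {t_k * lx ^ r * μ₁(Z) ^ a * μ₂(Z) ^ b * Z 0 ^ (j - a - b) : r ≤ p, a + b ≤ j}` (`lx ∈ Pl 3 K` the linear form), `fr W ⊆ fr (Z 0) ^ j • (Θ * Vd κ z j * Vd κ w p)`. LOWER BOUND: `StmtXLB` (`m = (m₁(z), m₂(z))`, `w = l(x)`):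
`dim W ≥ Δ' * cnt 2 j * (p + 1) ≥ Δ' (j ^ 2 / 2) p`. With `j = 72 d Δ i`, `p = 8 τ Δ i`, `q = Δ' i` we have `9 d p = j τ`, so `q dim V ≤ Δ' i (j + C) (2 j τ Δ + C) < 4 Δ' τ Δ i j ^ 2 = Δ' (j ^ 2/2) p` for large `i`. `StmtXSub` gives `S ∈ W`, a value `eval Z G` with `G` homogeneous of degree `j` whose coefficients have degree `≤ c + p ≤ 2 p = 16 τ Δ i` for large `i`. -/
def StmtXSecII : Prop :=
  ∀ (K : Type) [Field K] [CharZero K] (σ : RF 3 K →ₐ[K] RF 3 K) (m : ℕ) (F Z : Fin 4 → Pl 3 K)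
    (d : ℕ), 1 ≤ tp σ → 1 ≤ d → Rep (it σ m) F → Rep (it σ (2 * m)) Z →
    (∀ i, (F i).totalDegree ≤ d) →
    {u : K | ¬ ∃ i₀ : ℕ, ∀ i, i₀ ≤ i → Sct (luN (MvPolynomial.C u) F) Z
      (16 * tp σ ^ m * md (it σ m) * i) (72 * d * md (it σ m) * i) (md (it σ (2 * m)) * i)}.Finite

/-! ## The height inequality (section 6) -/

/-- The homogeneous coordinates `(1, x_1, …, x_n)`. -/
def hcN {R : Type} [CommRing R] {n : ℕ} (x : Fin n → R) : Fin (n + 1) → R := Fin.cons 1 x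

/-- (XLow) PROOF. (i) Claim: for every finite set `s` of nodes with `N + n ≤ card s`, `X r ^ N` is a `K₀`-combination of the products `∏ u ∈ t, luN u X`, `t ⊆ s`, `card t = N` (in `MvPolynomial (Fin (n + 1)) K₀`). Induction on `N`: for `N + 1` take `n + 1` distinct elements `u_i` of `s`; `X r = ∑ c_i luN u_i X` (Vandermonde) and
`X r ^ (N+1) = ∑ c_i luN u_i X * X r ^ N`; apply the induction hypothesis to `s \ {u_i}`. (ii) `logHeight_eval_ge'` (Mathlib/NumberTheory/Height/MvPolynomial.lean) with constants `q`. (Model: `StmtLow3`, `Low3.lean` in `Lib/MP_16285c_agZ`, for `n = 2`.) -/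
def StmtXLow : Prop :=
  ∀ (K₀ : Type) [Field K₀] (n : ℕ) (s : Finset K₀) (N : ℕ), N + n ≤ s.card →
    ∀ (K : Type) [Field K] [Algebra K₀ K] [Height.AdmissibleAbsValues K], ∃ C : ℝ,
      ∀ a : Fin (n + 1) → K, (N : ℝ) * Height.logHeight a ≤
        Height.logHeight (fun t : ↥(Finset.powersetCard N s) =>
          ∏ u ∈ (t : Finset K₀), luN (algebraMap K₀ K u) a) + C

/-- (XUpB) PROOF. The tuple is the image under a matrix with entries in `K` of the vector of the products `m(hcN x) * m'(z)`, `m` a monomial of degree `P` in four variables, `m'` a monomial of degree `q`. Its height is the sum of the heights of the two vectors (`logHeight_fun_mul_eq`; if `z = 0` and `q ≥ 1` the tuple is `0`), at most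
`P * logHeight (hcN x) + C`, `q * logHeight z + C` (`logHeight_eval_le'`). Use `logHeight_linearMap_apply_le`. (Model: `StmtUpB`, `UpB.lean` in `Lib/MP_16285c_agZ`, for `Fin 2`, `Fin 3`.) -/
def StmtXUpB : Prop :=
  ∀ (K : Type) [Field K] [Height.AdmissibleAbsValues K] (ι : Type) [Finite ι] (P q : ℕ)
    (G : ι → MvPolynomial (Fin 4) (Pl 3 K)), (∀ t, (G t).IsHomogeneous q) →
    (∀ t α, ((G t).coeff α).totalDegree ≤ P) →
    ∃ C : ℝ, ∀ (x : Fin 3 → K) (z : Fin 4 → K),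
      Height.logHeight (fun t => MvPolynomial.eval z (MvPolynomial.map (MvPolynomial.eval x) (G t))) ≤
        P * Height.logHeight (hcN x) + q * Height.logHeight z + C

/-- (XHt) NOT NEEDED as a file: only the variant `StmtXHt'` below is used; the proof is given here. PROOF (uses `StmtXLow` for `n = 3`, `StmtXUpB`). `eval Z (G u) = Λ_u ^ q * S_u`, `S_u ≠ 0`, for all `u` outside a finite set, `Λ_u = luN (C u) F`. The total degree of `eval Z (G u)` is at most `R = P + j * D`, `D` a bound for the degrees of the `Z i`, so `totalDegree S_u ≤ R`. Let `N ≥ 1` with `N * P ≥ 3 * R` and `s` a set of `N + 3` such values `u` (`K₀` infinite).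
`B = ∏ u ∈ s, S_u`. For `t ⊆ s`, `card t = N`: `∏_{u ∈ t} Λ_u ^ q * B = ∏_{u ∈ t} eval Z (G u) * ∏_{u ∈ s \ t} S_u`. Values at `x` with `B(x) ≠ 0`: the left sides form (up to the factor `B(x)`) the `q`-th power of the tuple of `StmtXLow` at `a = F(x)` (`logHeight_pow`, `logHeight_smul_eq_logHeight`), the right sides are the values at `(x, Z(x))` of
`∏_{u ∈ t} G u * ∏_{u ∈ s \ t} C S_u`, homogeneous of degree `N j` with coefficients of total degree `≤ N P + 3 R ≤ 2 N P`. `StmtXUpB`: `q (N h(F(x)) - C₁) ≤ 2 N P h(x) + N j h(Z(x)) + C₂`. Divide by `N`. (Model: `StmtRec`, `Rec.lean` in `Lib/MP_16285c_agZ`.) -/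
def StmtXHt : Prop :=
  ∀ (K₀ : Type) [Field K₀] [CharZero K₀] (F Z : Fin 4 → Pl 3 K₀) (P j q : ℕ), 1 ≤ P → 1 ≤ j → 1 ≤ q →
    {u : K₀ | ¬ Sct (luN (MvPolynomial.C u) F) Z P j q}.Finite →
    ∃ B : Pl 3 K₀, B ≠ 0 ∧ ∀ (K : Type) [Field K] [Algebra K₀ K] [Height.AdmissibleAbsValues K],
      ∃ C : ℝ, ∀ x : Fin 3 → K, MvPolynomial.aeval x B ≠ 0 →
        (q : ℝ) * Height.logHeight (fun i => MvPolynomial.aeval x (F i)) ≤
          2 * P * Height.logHeight (hcN x) +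
            j * Height.logHeight (fun i => MvPolynomial.aeval x (Z i)) + C

/-- (XRec) The two recursive inequalities for orbits. PROOF (uses `StmtXSecI`, `StmtXSecII`, `StmtXHt`, and `iRepE`, `iVal`, `tRep` of the package KLV). Let `F`, `Z` be representatives of `it σ₀ m`, `it σ₀ (2 * m)` of degrees `d`, `D` (`d, D ≥ 1`; the maximal degree of a representative with degrees `≤ dg` is `dg` by minimality). The sets of `StmtXSecI`, `StmtXSecII` are finite, but `i₀` depends on `u`: choose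
a finite number of `u`'s first: `StmtXHt` needs one `i` for all but finitely many `u`. To have this: in `StmtXHt` only `N + 3` values of `u` are used; so apply the following variant: choose `N` for `P = P₁ i`, `j = j₁ i` (`R = (P₁ + j₁ D) i`, so `N` with `N P₁ ≥ 3 (P₁ + j₁ D)` does not depend on `i`), then `N + 3` good values `u`, then a common `i`. (Use `StmtXHt'` below.)
(I) `D i h(F(x)) ≤ 144 d Δ i h(x) + 8 d i h(Z(x)) + C`; (II) `Δ' i h(F(x)) ≤ 32 τ^m Δ i h(x) + 72 d Δ i h(Z(x)) + C` and `32 τ^m Δ ≤ 72 Δ τ^m`. Divide by `i`. `B = B_I * B_II * F 0 * Z 0`. If `B(x n) ≠ 0` then (`iVal` (2) for `σ ^ m`, `Cmp`, `E = map F 0`, `N = map (F i.succ)`, `H = X i`) `F(x n) = F 0 (x n) • hcN (x (n + m))`, `Z(x n) = Z 0 (x n) • hcN (x (n + 2 m))`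
(`logHeight_smul_eq_logHeight`). (Model: `StmtRecV`, `RecV.lean` in `Lib/MP_16285c_agZ`.) -/
def StmtXRec : Prop :=
  ∀ (K₀ : Type) [Field K₀] [CharZero K₀] (σ₀ : RF 3 K₀ →ₐ[K₀] RF 3 K₀) (m : ℕ), 1 ≤ tp σ₀ →
    1 ≤ dg (it σ₀ m) → 1 ≤ dg (it σ₀ (2 * m)) →
    ∃ B : Pl 3 K₀, B ≠ 0 ∧ ∀ (K : Type) [Field K] [Algebra K₀ K] [Height.AdmissibleAbsValues K]
      (σ : RF 3 K →ₐ[K] RF 3 K), Cmp σ₀ σ → ∃ C : ℝ, ∀ x : ℕ → Fin 3 → K, Flow σ x → ∀ t : ℕ,
        MvPolynomial.aeval (x t) B ≠ 0 →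
        (dg (it σ₀ (2 * m)) : ℝ) / (8 * dg (it σ₀ m)) * Height.logHeight (hcN (x (t + m))) ≤
            Height.logHeight (hcN (x (t + 2 * m))) +
              18 * md (it σ₀ m) * Height.logHeight (hcN (x t)) + C ∧
        (md (it σ₀ (2 * m)) : ℝ) / (72 * dg (it σ₀ m) * md (it σ₀ m)) *
            Height.logHeight (hcN (x (t + m))) ≤
            Height.logHeight (hcN (x (t + 2 * m))) +
              (tp σ₀ : ℝ) ^ m / dg (it σ₀ m) * Height.logHeight (hcN (x t)) + C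

/-- (XHt', file `T3/XHtF.lean`, theorem `tXHtF`) The variant of `StmtXHt` for families. PROOF: see `StmtXHt` and the remark in `StmtXRec`: `D` bounds the degrees of the `Z i`, `N ≥ 1` with `N * P₁ ≥ 3 * (P₁ + j₁ * D)`, `s` a set of `N + 3` good values `u`, `i ≥ 1` larger than the `i₀` of all `u ∈ s`; then the proof of `StmtXHt` with `P = P₁ i`, `j = j₁ i`, `q = q₁ i`, and division by `i`. -/
def StmtXHt' : Prop :=
  ∀ (K₀ : Type) [Field K₀] [CharZero K₀] (F Z : Fin 4 → Pl 3 K₀) (P₁ j₁ q₁ : ℕ), 1 ≤ P₁ → 1 ≤ j₁ →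
    1 ≤ q₁ → {u : K₀ | ¬ ∃ i₀ : ℕ, ∀ i, i₀ ≤ i →
      Sct (luN (MvPolynomial.C u) F) Z (P₁ * i) (j₁ * i) (q₁ * i)}.Finite →
    ∃ B : Pl 3 K₀, B ≠ 0 ∧ ∀ (K : Type) [Field K] [Algebra K₀ K] [Height.AdmissibleAbsValues K],
      ∃ C : ℝ, ∀ x : Fin 3 → K, MvPolynomial.aeval x B ≠ 0 →
        (q₁ : ℝ) * Height.logHeight (fun i => MvPolynomial.aeval x (F i)) ≤
          2 * P₁ * Height.logHeight (hcN x) +
            j₁ * Height.logHeight (fun i => MvPolynomial.aeval x (Z i)) + C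

/-! ## Lines (section 9) -/

/-- The points of the line through `c` of direction `w`. -/
def lptN {K : Type} [CommRing K] {n : ℕ} (c w : Fin n → K) (y : K) : Fin n → K := fun i => c i + y * w i

/-- (XLine) PROOF (uses `StmtXGen`, `StmtRk2`, `StmtRk3`). `g_i = F_i(c + Y w)`. (a) Let `totalDegree (F r) = d`, `H` its homogeneous component of degree `d`, `H ≠ 0`: the coefficient of `Y ^ d` in `g_r` is `H(w)`; `H` is a factor of `R`. (b) Choose `u` with `Λ = luN (C u) F` relatively prime to `F 0` and `Λ(c) ≠ 0` or `F 0 (c) ≠ 0` (if `F 0 (c) = 0` then `Λ(c) = ∑ u ^ i F i (c)` is not zero for all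
but finitely many `u`). `S = MvPolynomial (Fin n) K` (variables `W`), `ψ : Pl n K → S[Y]`, `X i ↦ C (C (c i)) + C (X i) * Y`. CLAIM: `ψ Λ`, `ψ (F 0)` have no common root `y` in an algebraic closure `Ω` of `Frac S`. Otherwise `y ≠ 0` (at `y = 0` the values are `Λ(c), F 0 (c)`), `ξ = c + W y ∈ Ω ^ n` is a common zero of `Λ` and `F 0`. `y` is algebraic over `K(W)`; `K(ξ, y)` contains `W = (ξ - c) / y`,
so `trdeg K(ξ, y) = n` and `trdeg K(ξ) ≥ n - 1`. Let `𝔭` be the kernel of `Pl n K → Ω`, `X ↦ ξ`, a prime ideal with `rk 𝔭 ≥ n - 1` containing `Λ` and `F 0`; an irreducible factor `P` of `F 0` is in `𝔭` (`F 0 ≠ 0`), it does not divide `Λ`, so `span {P} < 𝔭`, `rk 𝔭 < rk (span {P})`, `rk (span {P}) + 1 = n`: a contradiction. So the two polynomials are relatively prime over `Frac S`: `a ψ Λ + b ψ (F 0) = R₂`,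
`a, b ∈ S[Y]`, `R₂ ∈ S`, `R₂ ≠ 0`. `R = H * R₂`: for `R(w) ≠ 0` specialise `W = w`. (If `n = 0` or the maximal degree is `0` everything is trivial.) (Compare `CZ.lean`, `Line.lean` in `Lib/MP_16285c_agZ`.) -/
def StmtXLine : Prop :=
  ∀ (K : Type) [Field K] [CharZero K] (n : ℕ) (F : Fin (n + 1) → Pl n K) (d : ℕ),
    (∀ c : Pl n K, (∀ i, c ∣ F i) → IsUnit c) → F 0 ≠ 0 → (∃ i, (F i).totalDegree = d) →
    ∀ c : Fin n → K, (∃ i, MvPolynomial.eval c (F i) ≠ 0) →
    ∃ R : Pl n K, R ≠ 0 ∧ ∀ w : Fin n → K, MvPolynomial.eval w R ≠ 0 →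
      Ideal.span (Set.range fun i => MvPolynomial.aeval
        (fun j => (Polynomial.C (c j) + Polynomial.C (w j) * Polynomial.X : Polynomial K)) (F i)) = ⊤ ∧
      ∃ i, d ≤ (MvPolynomial.aeval
        (fun j => (Polynomial.C (c j) + Polynomial.C (w j) * Polynomial.X : Polynomial K)) (F i)).natDegree

/-- (XBin) PROOF. As `StmtBin` of `Lib/MP_16285c_agZ` (file `Bin.lean`), with `Fin (n + 1)` in place of `Fin 3`: copy. -/
def StmtXBin : Prop :=
  ∀ (K : Type) [Field K] [Height.AdmissibleAbsValues K] (n : ℕ) (g : Fin (n + 1) → Polynomial K)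
    (d : ℕ), (∀ i, (g i).natDegree ≤ d) → (∃ i, (g i).natDegree = d) →
    Ideal.span (Set.range g) = ⊤ →
    ∃ C : ℝ, ∀ y : K, (d : ℝ) * Height.logHeight₁ y ≤
      Height.logHeight (fun i => (g i).eval y) + C

/-- (XLn) Heights on a line, source and target. PROOF (uses `StmtXBin`). First: `hcN (lptN c w y)` is a linear image of `![y, 1]` (`logHeight_linearMap_apply_le`, `logHeight₁_eq_logHeight`). Second: `g_i` = the image in `K[Y]` of `F_i(c + Y w)` over `K₁`; the ideal generated by them is still `⊤` (map `1 = ∑ …`), the degrees do not change (injectivity), `natDegree ≤ totalDegree ≤ d`; `StmtXBin`;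
`(g_i).eval y = aeval (c + y w) (F i)`. -/
def StmtXLn : Prop :=
  (∀ (K : Type) [Field K] [Height.AdmissibleAbsValues K] (n : ℕ) (c w : Fin n → K), ∃ C : ℝ, ∀ y : K,
    Height.logHeight (hcN (lptN c w y)) ≤ Height.logHeight₁ y + C) ∧
  ∀ (K₁ K : Type) [Field K₁] [Field K] [Algebra K₁ K] [Height.AdmissibleAbsValues K] (n : ℕ)
    (F : Fin (n + 1) → Pl n K₁) (d : ℕ), (∀ i, (F i).totalDegree ≤ d) → ∀ c w : Fin n → K₁,
    Ideal.span (Set.range fun i => MvPolynomial.aeval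
        (fun j => (Polynomial.C (c j) + Polynomial.C (w j) * Polynomial.X : Polynomial K₁)) (F i)) = ⊤ →
    (∃ i, d ≤ (MvPolynomial.aeval (fun j =>
      (Polynomial.C (c j) + Polynomial.C (w j) * Polynomial.X : Polynomial K₁)) (F i)).natDegree) →
    ∃ C : ℝ, ∀ y : K, (d : ℝ) * Height.logHeight₁ y ≤
      Height.logHeight (fun i => MvPolynomial.aeval
        (lptN (fun j => algebraMap K₁ K (c j)) (fun j => algebraMap K₁ K (w j)) y) (F i)) + C

end Pool.Agent.Lib.MP_16285c_agN
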