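import Pool.Agent.Lib.MP_16285c_agN.T3.SpecB
import Pool.Agent.Lib.MP_16285c_agN.SpecN

/-!
# Threefolds with `λ₁ > λ₃`: rates, growth, Hilbert points on lines, curves, conclusion (statements)

Notation: see `Defs.lean`, `Degr/Spec.lean`, `T3/SpecA.lean`, `T3/SpecB.lean`. The paper proof is note 4891 on MP_16285c_ag (sections 7, 8, 10 - 13).
-/

set_option autoImplicit false

namespace Pool.Agent.Lib.MP_16285c_agN

open Pool.Agent.Lib.MP_16285c_ag

/-- The dynamical degree of a sequence of degrees. -/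
noncomputable def lam0 (d : ℕ → ℕ) : ℝ :=
  Filter.limsup (fun m : ℕ => (d m : ℝ) ^ ((m : ℝ)⁻¹)) Filter.atTop

/-! ## Rates (section 7) -/

/-- (XFek) PROOF. `log d m` is subadditive and `≥ 0`, so by Fekete (`Subadditive.tendsto_lim`) `log (d m) / m` converges to its infimum `L`, `(d m) ^ (1/m) = exp (log (d m) / m) → exp L = lam0 d =: l` (a convergent sequence has its limit as limit superior), `τ < l`, `l ^ m ≤ d m` for all `m` (for `m = 0`: `1 ≤ d 0`), and `d m ≤ (l (1 + ε)) ^ m` for large `m`.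
(The lemmas `subadd`, `bdd`, `tends` of `Real.lean` in this library do this: import it.) -/
def StmtXFek : Prop :=
  ∀ (d : ℕ → ℕ) (τ : ℕ), (∀ a b, d (a + b) ≤ d a * d b) → (∀ m, 1 ≤ d m) → (τ : ℝ) < lam0 d →
    ∃ l : ℝ, (τ : ℝ) < l ∧ (∀ m, l ^ m ≤ (d m : ℝ)) ∧
      ∀ ε : ℝ, 0 < ε → ∃ m₀ : ℕ, ∀ m, m₀ ≤ m → (d m : ℝ) ≤ (l * (1 + ε)) ^ m

/-- The numerical conditions for `a`, `b`, `d`, `t`. -/
def Gd (a b d t : ℝ) : Prop := 2 ≤ b ∧ 8 * a ≤ b ^ 2 ∧ 4 * a < b * d ∧ t < b / 2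

/-- (XRates) PROOF (uses `StmtXFek`). `l > τ ≥ 1` from `StmtXFek`. Choose `ε ∈ (0, 1)` with `l (1 - ε) ^ 2 > τ` and then `ε' > 0` with `l (1 - ε) ^ 2 > τ (1 + ε')`, `l > τ (1 + ε')` and `(1 + ε') ^ 3 (1 - ε) < 1`. CASE II: `Δ (2m) ≥ (l (1 - ε)) ^ (2m) Δ m` for arbitrarily large `m`. Then for such large `m` the second alternative holds:
`b ≥ (l (1 - ε)) ^ (2m) / (72 (l (1 + ε')) ^ m) = (l (1 - ε) ^ 2 / (1 + ε')) ^ m / 72`, so `b > 2 τ ^ m` and `b ≥ 8` for large `m`, `a = τ ^ m / d m ≤ 1` (`τ ^ m ≤ l ^ m ≤ d m`), so `8 a ≤ 8 ≤ b ^ 2` and `4 a ≤ 4 < 8 ≤ b d`. CASE I: there is `m₀` with `Δ (2m) < (l (1 - ε)) ^ (2m) Δ m ≤ 9 (l (1 - ε)) ^ (2m) (l (1 + ε')) ^ (2m) = 9 μ ^ (2m)` for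
`m ≥ m₀`, `μ = l ^ 2 (1 - ε) (1 + ε')`; as `Δ (2m + 1) ≤ C₀ Δ (2m)` and `μ > 1` (or use `max μ 1`; by the choice of `ε`: `l^2 (1-ε) ≥ l (1-ε)^2 > 1`), `Δ n ≤ 9 C₀ μ ^ n` for all large `n` (`C₀ ≥ 1`). The first alternative holds for large `m`: `b = d (2m) / (8 d m) ≥ (l / (1 + ε')) ^ m / 8 > 2 τ ^ m ≥ 2`;
`8 a = 144 Δ m ≤ 1296 C₀ μ ^ m ≤ (l / (1 + ε')) ^ (2m) / 64 ≤ b ^ 2` since `l ^ 2 / ((1 + ε') ^ 2 μ) = 1 / ((1 + ε') ^ 3 (1 - ε)) > 1`; `4 a = 72 Δ m ≤ 648 C₀ μ ^ m < l ^ (2m) / 8 ≤ d (2m) / 8 = b d` since `μ < l ^ 2`. (All claims are comparisons of geometric growth: `x ^ m ≥ C y ^ m` for large `m` if `x > y > 0`.) -/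
def StmtXRates : Prop :=
  ∀ (d Δ : ℕ → ℕ) (τ C₀ : ℕ), 1 ≤ τ → (∀ a b, d (a + b) ≤ d a * d b) → (∀ m, 1 ≤ d m) →
    (∀ m, 1 ≤ Δ m) → (∀ m, Δ m ≤ 9 * d m ^ 2) → (∀ m, Δ (m + 1) ≤ C₀ * Δ m) → (τ : ℝ) < lam0 d →
    ∃ m : ℕ, 1 ≤ m ∧
      (Gd (18 * Δ m) (d (2 * m) / (8 * d m)) (d m) ((τ : ℝ) ^ m) ∨
        Gd ((τ : ℝ) ^ m / d m) (Δ (2 * m) / (72 * d m * Δ m)) (d m) ((τ : ℝ) ^ m))

/-! ## Growth (section 8) -/

/-- (XRl1) PROOF. `d > 0`. `b (h m) - 4 a (h 0) ≥ b (d η - C') - 4 a (η + C') ≥ 0` and `b (h m) ≥ b (d η - C') ≥ 4 C`, `h m ≥ d η - C' > 0` for `η > H₀` (with `0 ≤ C'` without loss of generality: the hypotheses hold with `|C'|`). `StmtGro` of `Lib/MP_16285c_agZ` (theorem `stmtGro` in `Gro.lean`: import it) for `j ↦ h (m * j)`, `j₀ = 0`. -/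
def StmtXRl1 : Prop :=
  ∀ (a b d C C' : ℝ), 0 ≤ a → 2 ≤ b → 8 * a ≤ b ^ 2 → 4 * a < b * d → ∃ H₀ : ℝ,
    ∀ (h : ℕ → ℝ) (m : ℕ) (η : ℝ), (∀ n, 0 ≤ h n) → H₀ < η → h 0 ≤ η + C' → d * η ≤ h m + C' →
      (∀ t, b * h (t + m) ≤ h (t + 2 * m) + a * h t + C) →
      0 < h m ∧ ∀ j, 1 ≤ j → b / 2 * h (m * j) ≤ h (m * (j + 1))

/-- (XRl2) PROOF. `h (m j) ≥ (b/2) ^ (j - 1) h m` for `j ≥ 1`. `δ ≤ T ^ M`, `T ^ m < b/2`, so `(T ^ M) ^ m < (b/2) ^ M`; choose `ε > 0` with `(T ^ M + ε) ^ m < (b/2) ^ M` (continuity). Then for `i ≥ 1`: `(b/2) ^ (M i - 1) h m ≤ h (m M i) = h (M (m i)) ≤ C (δ + ε) ^ (m i) ≤ |C| ((T ^ M + ε) ^ m) ^ i`, a contradiction for large `i`. -/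
def StmtXRl2 : Prop :=
  ∀ (h : ℕ → ℝ) (m M : ℕ) (b T δ : ℝ), 1 ≤ m → 1 ≤ M → 2 ≤ b → 1 ≤ T → T ^ m < b / 2 → 0 ≤ δ →
    δ ≤ T ^ M → 0 < h m → (∀ j, 1 ≤ j → b / 2 * h (m * j) ≤ h (m * (j + 1))) →
    (∀ ε : ℝ, 0 < ε → ∃ C : ℝ, ∀ t, h (M * t) ≤ C * (δ + ε) ^ t) → False

/-- (XRpB) Relatively prime polynomials over a larger field. PROOF. Let `c` divide all `map F i`, `map F i = c * f i`; suppose `c` is not a unit: `totalDegree c ≥ 1` (`c ≠ 0`; a nonzero constant is a unit), so `totalDegree (f 0) < totalDegree (F 0)` (degrees are additive: `MvPolynomial.totalDegree_mul_of_isDomain`; `map` preserves degrees). `c * (f i * map (F 0) - map (F i) * f 0) = 0`, so `map (F 0) * f i = map (F i) * f 0`. Let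
`l : L →ₗ[K] K` be linear and not zero at some coefficient of `f 0`, `Λ` its application to coefficients: `F 0 * Λ (f i) = F i * Λ (f 0)` (`lam`, `lam_mul`, `lam_deg`, `coeff_lam` in `DgDesc.lean` of this library: import it), `Λ (f 0) ≠ 0`, of degree `≤ totalDegree (f 0)`. `F 0` divides `F i * Λ (f 0)` for all `i`, so `F 0 ∣ Λ (f 0)` (the `F i` have no common factor; see the proof of
`StmtG3`, file `G3.lean`), so `totalDegree (F 0) ≤ totalDegree (f 0)`: a contradiction. -/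
def StmtXRpB : Prop :=
  ∀ (K L : Type) [Field K] [Field L] [Algebra K L] (n : ℕ) (F : Fin (n + 1) → Pl n K), F 0 ≠ 0 →
    (∀ c : Pl n K, (∀ i, c ∣ F i) → IsUnit c) →
    ∀ c : Pl n L, (∀ i, c ∣ MvPolynomial.map (algebraMap K L) (F i)) → IsUnit c

/-- (XFast) Fast orbits through points of a line. PROOF (uses `StmtXRates`, `StmtXRec`, `StmtXMd`, `StmtXMdS`, `StmtXLine`, `StmtXLn`, `StmtXRpB`, `StmtXRl1`, and from the library `tTpPos`, `tDgPos`, `iDgMul`, `iRepE`, `iVal`). Put `d m = dg (it σ₀ m) ≥ 1`, `Δ m = md (it σ₀ m)`, `τ = tp σ₀ ≥ 1`: the hypotheses of `StmtXRates` hold by `StmtXMd`, `StmtXMdS` (`C₀ = 9 * d 1 ^ 2`). So we get `m ≥ 1` and `a, b` with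
`Gd a b (d m) (τ ^ m)`. `B₁` from `StmtXRec` for this `m`; `F` a representative of `it σ₀ m` with degrees `≤ d m`, so `max totalDegree (F i) = d m` (otherwise `dg` would be smaller: `iDgLe`), `B = B₁ * F 0`. Now let `K₁, K, …` be given. `F₁ = map F` over `K₁` satisfies the hypotheses of `StmtXLine` (`StmtXRpB`; `F 0 (c) ≠ 0`): `R`. Let `R(w) ≠ 0`. `StmtXLn` (second part) for `F₁` and `c, w`:
`(d m) h(y) ≤ h(F(c + y w)) + C₁`, first part: `h(hcN(c + y w)) ≤ h(y) + C₂`, `StmtXRec`: `C₃`. `H₀` from `StmtXRl1` for `a, b, d m, C₃, max C₁ C₂`. Let `x` be an orbit as in the statement, `h t = logHeight (hcN (x t))`, `η = logHeight₁ y`. `F(x 0) = F 0 (x 0) • hcN (x m)` (`iVal` as in `StmtXRec`) so `h(F(x 0)) = h m`. The recursion: `StmtXRec` (I) or (II). -/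
def StmtXFast : Prop :=
  ∀ (K₀ : Type) [Field K₀] [CharZero K₀] (σ₀ : RF 3 K₀ →ₐ[K₀] RF 3 K₀),
    (tp σ₀ : ℝ) < lam0 (fun m => dg (it σ₀ m)) →
    ∃ (m : ℕ) (b : ℝ) (B : Pl 3 K₀), 1 ≤ m ∧ 2 ≤ b ∧ (tp σ₀ : ℝ) ^ m < b / 2 ∧ B ≠ 0 ∧
      ∀ (K₁ K : Type) [Field K₁] [CharZero K₁] [Field K] [Algebra K₀ K₁] [Algebra K₀ K] [Algebra K₁ K]
        [IsScalarTower K₀ K₁ K] [Height.AdmissibleAbsValues K] (σ : RF 3 K →ₐ[K] RF 3 K), Cmp σ₀ σ →
      ∀ c : Fin 3 → K₁, MvPolynomial.aeval c B ≠ 0 → ∃ R : Pl 3 K₁, R ≠ 0 ∧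
        ∀ w : Fin 3 → K₁, MvPolynomial.eval w R ≠ 0 → ∃ H₀ : ℝ, ∀ y : K₁,
          H₀ < Height.logHeight₁ (algebraMap K₁ K y) → ∀ x : ℕ → Fin 3 → K,
          x 0 = (fun i => algebraMap K₁ K (lptN c w y i)) → Flow σ x →
          (∀ t, MvPolynomial.aeval (x t) B ≠ 0) →
          0 < Height.logHeight (hcN (x m)) ∧ ∀ j, 1 ≤ j →
            b / 2 * Height.logHeight (hcN (x (m * j))) ≤ Height.logHeight (hcN (x (m * (j + 1))))

/-! ## Hilbert points on lines (section 10) -/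

/-- The substitution `x ↦ c + S x` over the field `K(S)`. -/
noncomputable def lsub {K : Type} [Field K] {n : ℕ} (c : Fin n → K) : Pl n K →+* Pl n (RatFunc K) :=
  MvPolynomial.eval₂Hom (MvPolynomial.C.comp (algebraMap K (RatFunc K)))
    fun i => MvPolynomial.C (algebraMap K (RatFunc K) (c i)) +
      MvPolynomial.C RatFunc.X * MvPolynomial.X i

/-- (XHB) PROOF. `F` is irreducible in `Pl n K [Y]` (Gauss, `F` monic: `Polynomial.Monic.irreducible_iff_irreducible_map_fraction_map`, or `Polynomial.Monic.irreducible_of_irreducible_map`). Let `R = MvPolynomial (Fin n) (Polynomial K)` (a factorial, so integrally closed domain), `F' = F.map (MvPolynomial.map Polynomial.C) ∈ R[Y]`: it is irreducible since its image under `R → Pl n K`, `S ↦ 0`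
(`MvPolynomial.map Polynomial.constantCoeff`) is `F` (`Polynomial.Monic.irreducible_of_irreducible_map`). So `F'` is irreducible over the field of fractions of `R`. `RF n (RatFunc K)` is a field of fractions of `R` via `R → Pl n (RatFunc K)` (injective; every element of `Pl n (RatFunc K)` is a quotient of an element of `R` by a nonzero element of `Polynomial K`: common denominator). So
`F.map (map (algebraMap K (RatFunc K)))` is irreducible over `RF n (RatFunc K)`, hence in `Pl n (RatFunc K) [Y]`; apply the ring automorphism `X i ↦ C (c i) + C S * X i` of `Pl n (RatFunc K)` (inverse `X i ↦ C S⁻¹ * (X i - C (c i))`) and Gauss again. -/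
def StmtXHB : Prop :=
  ∀ (K : Type) [Field K] [CharZero K] (n : ℕ) (F : Polynomial (Pl n K)), F.Monic →
    Irreducible (F.map (algebraMap (Pl n K) (RF n K))) → ∀ c : Fin n → K,
    Irreducible ((F.map (lsub c)).map (algebraMap (Pl n (RatFunc K)) (RF n (RatFunc K))))

/-- (XHL) PROOF (uses `StmtXHB`, `StmtHITK`). `RatFunc K` is finitely generated (by the generators of `K` and `X`). `StmtHITK` over `RatFunc K` for `F.map (lsub c)` (monic, irreducible by `StmtXHB`) and `lsub c G * map R ≠ 0` (`lsub c` is injective) gives `w : Fin n → ℤ` with `F(c + S w, Y)` irreducible over `RatFunc K`, `G(c + S w) ≠ 0`, `R(w) ≠ 0` (in `RatFunc K`, so in `K`). Let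
`θ : Pl n K → MvPolynomial (Fin 1) K`, `X i ↦ C (c i) + C (w i) * X 0`, `F₂ = F.map θ`, monic. Its image under `MvPolynomial (Fin 1) K → RatFunc K`, `X 0 ↦ S`, is `F(c + S w, Y)`, irreducible; so `F₂` is irreducible (`Polynomial.Monic.irreducible_of_irreducible_map`), also after the automorphism `X 0 ↦ C q * X 0` (`q ≠ 0`), and over the field of fractions (Gauss). `StmtHITK` over `K` for `Fin 1` and the polynomial
`(θ G at q X 0) * X 0 ≠ 0` gives `s`. -/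
def StmtXHL : Prop :=
  ∀ (K : Type) [Field K] [CharZero K], (∃ S : Finset K, Subfield.closure (S : Set K) = ⊤) →
    ∀ (n : ℕ) (F : Polynomial (Pl n K)) (G R : Pl n K), F.Monic →
    Irreducible (F.map (algebraMap (Pl n K) (RF n K))) → G ≠ 0 → R ≠ 0 → ∀ c : Fin n → K,
    ∃ w : Fin n → ℤ, MvPolynomial.eval (fun i => (w i : K)) R ≠ 0 ∧ ∀ q : K, q ≠ 0 → ∃ s : ℤ, s ≠ 0 ∧
      Irreducible (F.map (MvPolynomial.eval (lptN c (fun i => (w i : K)) (q * (s : K))))) ∧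
      MvPolynomial.eval (lptN c (fun i => (w i : K)) (q * (s : K))) G ≠ 0

/-! ## Supply (section 11) -/

/-- (XSup) `StmtSup` of `Lib/MP_16285c_agZ` (file `Sup.lean`: import it) with a fixed element `t`. PROOF. Case 1: `k` algebraic over `ℚ`: `K = ℚ(S)`, a number field, `t = p p'`: `p p' t ^ j s` is the integer `N = (p p') ^ (j+1) s`, `|N| ≥ (p p') ^ (j + 1)`. Different integers of absolute value `≤ A` are finitely many, and `{x : K | logHeight₁ x ≤ H}` is finite (`NumberField.finite_setOfPred_logHeight₁_le`), so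
`logHeight₁ N > H` for all integers `N` with `|N|` large: the finite set contains finitely many integers, take `j₀` with `(p p') ^ (j₀ + 1)` larger than their absolute values. Case 2: otherwise: `t`, `F`, `K`, `A`, `A'` as in the proof of `stmtSup` (`exists_t`, `trans`, `admRatP`, `admExtP`). One needs in addition that integers `N ≠ 0` have `logHeight₁ (N : K) = 0` for `A'`: `A'` has no archimedean absolute values
(`A'.archAbsVal = 0` by construction in `Lib/MP_16285c_ag/AdmExt.lean`; the statement `AdmExtProp` does not say it, so restate and copy the proof with the additional conclusion), and `v N ≤ 1` for nonarchimedean `v`, so `mulHeight₁ N = 1` (`Height.mulHeight₁_eq`), also for `N⁻¹` (`logHeight₁_inv`). Then `j h(t) = h(t ^ j) ≤ h(N⁻¹) + h(N t ^ j) = h(N t ^ j)` for `N = p p' s`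
(`logHeight₁_pow`, `logHeight₁_mul_le`), `h(t) > 0`. `t ≠ 0` since `h(0) = 0`. -/
def StmtXSup : Prop :=
  ∀ (k : Type) [Field k] [IsAlgClosed k] [CharZero k]
    (V V' : ValuationSubring k) (p p' : ℕ), p.Prime → p'.Prime → 2 < p → 2 < p' →
    CharP (IsLocalRing.ResidueField V) p → CharP (IsLocalRing.ResidueField V') p' →
    ∀ S : Finset k, ∃ (K : Subfield k) (_ : Height.AdmissibleAbsValues K) (t : K), (S : Set k) ⊆ K ∧
      t ≠ 0 ∧ (t : k) ∈ V ∧ (t : k) ∈ V' ∧ ∀ H : ℝ, ∃ j₀ : ℕ, ∀ j, j₀ ≤ j → ∀ s : ℤ, s ≠ 0 →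
        H < Height.logHeight₁ ((p : K) * p' * t ^ j * s)

/-! ## Curves (section 12) -/

/-- (XPts) PROOF (uses `StmtRk2`, `StmtRk3`). Let `x` be in the set and `𝔪` the (maximal, so prime) ideal of the polynomials vanishing at `x` (kernel of `eval x`); `𝔭 + (Q) ≤ 𝔪`, so `𝔪` contains a minimal prime `𝔮` of `𝔭 ⊔ Ideal.span {Q}` (`Ideal.exists_minimalPrimes_le`); `𝔭 < 𝔮` as `Q ∈ 𝔮`, so `rk 𝔮 < rk 𝔭 = 1` (`StmtRk2`), `rk 𝔮 = 0` and
`𝔮 = 𝔪` by `StmtRk3` (a). So `x ↦ 𝔪` maps the set injectively (`x i` is determined by `X i - C (x i) ∈ 𝔪`) into the finite set of minimal primes (`Ideal.finite_minimalPrimes_of_isNoetherianRing`). -/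
def StmtXPts : Prop :=
  ∀ (K : Type) [Field K] (n : ℕ) (𝔭 : Ideal (Pl n K)) [𝔭.IsPrime], rk 𝔭 = 1 → ∀ Q : Pl n K, Q ∉ 𝔭 →
    {x : Fin n → K | (∀ G ∈ 𝔭, MvPolynomial.eval x G = 0) ∧ MvPolynomial.eval x Q = 0}.Finite

/-- (XGm) Values along a generic orbit. PROOF: `rel_points` in `Lib/MP_16285c_agZ/UPP/Gm.lean`, with `𝔭` in place of `span {P}` and `Fin n` in place of `Fin 2`: copy the file. (`Rst ρ 𝔭 L ρb` for `g = fr H` and its residue `cl 𝔭 H` gives the hypothesis `hres` used there, in the form `Rsd 𝔭 L (ρ (fr H)) (ρb (algebraMap (CR 𝔭) L (cl 𝔭 H)))`.) -/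
def StmtXGm : Prop :=
  ∀ (K : Type) [Field K] (n : ℕ) (𝔭 : Ideal (Pl n K)) [𝔭.IsPrime] (L : Type) [Field L]
    [Algebra (CR 𝔭) L] [IsFractionRing (CR 𝔭) L] [Algebra K L] [IsScalarTower K (CR 𝔭) L]
    (ρ : RF n K →ₐ[K] RF n K) (ρb : L →ₐ[K] L), Rst ρ 𝔭 L ρb →
    ∀ z : ℕ → Fin n → K, Flow ρ z → (∀ t, ∀ G ∈ 𝔭, MvPolynomial.eval (z t) G = 0) →
    (∀ Q : Pl n K, Q ∉ 𝔭 → ∃ t₀, ∀ t ≥ t₀, MvPolynomial.eval (z t) Q ≠ 0) →
    ∀ (N : ℕ) (g g' : Pl n K) (G : Polynomial (Polynomial K)),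
      Polynomial.eval₂ (Polynomial.eval₂RingHom (algebraMap K L) (algebraMap (CR 𝔭) L (cl 𝔭 g)))
        ((ρb ^ N) (algebraMap (CR 𝔭) L (cl 𝔭 g'))) G = 0 →
      ∃ t₀, ∀ t ≥ t₀, (G.map (Polynomial.evalRingHom (MvPolynomial.eval (z t) g))).eval
        (MvPolynomial.eval (z (t + N)) g') = 0

/-- (XCv) Relations on a curve. PROOF. `L` has transcendence degree `1` over `K` (`rk 𝔭 = 1`; `L` is algebraic over `CR 𝔭`), it is generated as a field by the classes `x̄_j` of the variables, so one of them, `v = x̄_i`, is transcendental. `δ = [L : ρb L] ≥ 1` (`StmtG1` (a), or: `L` is finite over `K(ρb v)`), `c = [L : K(v)]`, finite (finitely generated and algebraic). `[L : K(ρb ^ N v)] = c δ ^ N`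
(`finrank_pow'` in `Lib/MP_16285c_agZ/UPP/Dh.lean`). `u = ρb ^ N v` is transcendental; `v` is algebraic over `K(u)` of degree `≤ c δ ^ N`; `exchange`, `biv_rel` (`UPP/Dg.lean`) give `Φ ≠ 0` with `Φ(v, u) = 0` and all `natDegree (Φ.coeff j) ≤ c δ ^ N` (degree in `v`), as in `rel_exists` (`UPP/Dh.lean`). The second claim: `x̄_j` is algebraic over `K(v)`: clear denominators in a minimal polynomial. -/
def StmtXCv : Prop :=
  ∀ (K : Type) [Field K] (n : ℕ) (𝔭 : Ideal (Pl n K)) [𝔭.IsPrime], rk 𝔭 = 1 → ∀ (L : Type) [Field L]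
    [Algebra (CR 𝔭) L] [IsFractionRing (CR 𝔭) L] [Algebra K L] [IsScalarTower K (CR 𝔭) L]
    (ρb : L →ₐ[K] L), 1 ≤ Module.finrank ρb.fieldRange L ∧ ∃ (i : Fin n) (c : ℕ),
      Transcendental K (algebraMap (CR 𝔭) L (cl 𝔭 (MvPolynomial.X i))) ∧
      (∀ N : ℕ, ∃ Φ : Polynomial (Polynomial K), Φ ≠ 0 ∧
        (∀ j, (Φ.coeff j).natDegree ≤ c * Module.finrank ρb.fieldRange L ^ N) ∧
        Polynomial.eval₂ (Polynomial.eval₂RingHom (algebraMap K L)
          (algebraMap (CR 𝔭) L (cl 𝔭 (MvPolynomial.X i))))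
          ((ρb ^ N) (algebraMap (CR 𝔭) L (cl 𝔭 (MvPolynomial.X i)))) Φ = 0) ∧
      ∀ j : Fin n, ∃ Φ : Polynomial (Polynomial K), Φ ≠ 0 ∧
        Polynomial.eval₂ (Polynomial.eval₂RingHom (algebraMap K L)
          (algebraMap (CR 𝔭) L (cl 𝔭 (MvPolynomial.X i))))
          (algebraMap (CR 𝔭) L (cl 𝔭 (MvPolynomial.X j))) Φ = 0

/-- (XUpp) Growth of heights on a curve. PROOF (uses `StmtXCv`, `StmtXGm`, `StmtXPts`). The same as `upp` in `Lib/MP_16285c_agZ/UPP/Fin.lean`: `hD` (every `Q ∉ 𝔭` is not zero at `z t` for large `t`) follows from `StmtXPts` and the injectivity of `z`. `lead_ne` for the transcendental coordinate `i` of `StmtXCv`. The relations of `StmtXGm` are over `K₁`; map them to `K` and use `root_sharp` (`UPP/Rt.lean`) over `K`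
(the values are in the image of `K₁`): `h(z (t+N) i) ≤ c δ ^ N h(z t i) + C` and `h(z t j) ≤ a_j h(z t i) + C_j` for large `t`; `grow_le` (`UPP/Fin.lean`), and `logHeight (hcN x) ≤ ∑ j, logHeight₁ (x j)` (`vecP` of `Lib/MP_16285c_ag/Vec.lean`, as used in `upp`). -/
def StmtXUpp : Prop :=
  ∀ (K₁ K : Type) [Field K₁] [Field K] [Algebra K₁ K] [Height.AdmissibleAbsValues K] (n : ℕ)
    (ρ : RF n K₁ →ₐ[K₁] RF n K₁) (𝔭 : Ideal (Pl n K₁)) [𝔭.IsPrime], rk 𝔭 = 1 → ∀ (L : Type) [Field L]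
    [Algebra (CR 𝔭) L] [IsFractionRing (CR 𝔭) L] [Algebra K₁ L] [IsScalarTower K₁ (CR 𝔭) L]
    (ρb : L →ₐ[K₁] L), Rst ρ 𝔭 L ρb →
    ∀ z : ℕ → Fin n → K₁, Flow ρ z → (∀ t, ∀ G ∈ 𝔭, MvPolynomial.eval (z t) G = 0) →
    Function.Injective z → ∀ ε : ℝ, 0 < ε → ∃ C : ℝ, ∀ t,
      Height.logHeight (hcN (fun i => algebraMap K₁ K (z t i))) ≤
        C * ((Module.finrank ρb.fieldRange L : ℝ) + ε) ^ t

/-- (XPrE) The degree on subvarieties. PROOF. `E = RF n K` is finite and separable over `ρ E`: `E = (ρ E)(θ)`, `θ = fr u / fr v`, `1, θ, …, θ ^ (T-1)`, `T = tp ρ`, is a basis of `E` over `ρ E`: `fr (X i) = ∑ j < T, ρ (a_(i j)) θ ^ j`, `θ ^ T = ∑ j < T, ρ (b_j) θ ^ j` with `a_(i j), b_j ∈ E`. Let `D ≠ 0` be a polynomial with `a_(i j) * fr D`, `b_j * fr D` polynomials, `h = v * D`. Let `h ∉ 𝔭`: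
`a_(i j)`, `b_j`, `θ` have residues in `L` (`Rsd`); by `Rst` and the uniqueness, additivity and multiplicativity of residues (see `Low.lean`, `Irr.lean` of this library) `x̄_i = ∑ ρb (ā_(i j)) θ̄ ^ j` and `θ̄ ^ T = ∑ ρb (b̄_j) θ̄ ^ j` in `L`. So the `ρb L`-span `W` of `1, θ̄, …, θ̄ ^ (T-1)` is closed under multiplication by `θ̄`, so it is a subring of `L`, an integral domain of finite dimension over the field
`ρb L`, so a field, and contains the `x̄_i` and `K`: it is `L`. So `[L : ρb L] ≤ T`. -/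
def StmtXPrE : Prop :=
  ∀ (K : Type) [Field K] [CharZero K] (n : ℕ) (ρ : RF n K →ₐ[K] RF n K), 1 ≤ tp ρ →
    ∃ h : Pl n K, h ≠ 0 ∧ ∀ (𝔭 : Ideal (Pl n K)) [𝔭.IsPrime], h ∉ 𝔭 → ∀ (L : Type) [Field L]
      [Algebra (CR 𝔭) L] [IsFractionRing (CR 𝔭) L] [Algebra K L] [IsScalarTower K (CR 𝔭) L]
      (ρb : L →ₐ[K] L), Rst ρ 𝔭 L ρb → Module.finrank ρb.fieldRange L ≤ tp ρ

/-- (XEnd) The curve case is impossible. PROOF (uses `StmtXUpp`, `StmtXRl2`, and from the library `StmtResF` (as a hypothesis), `tVal`/`iVal`). `L = FractionRing (CR 𝔭)`, `ρb` with `Rst (σ ^ M) 𝔭 L ρb` (`StmtResF`), `δ = finrank ρb.fieldRange L ≤ tp σ ^ M`. `z t = x (M t)` is a flow of `σ ^ M` (`tVal` in `KLV/Val.lean`). `h t = logHeight (hcN (x t in K))`. `z` is injective: if `x s = x t`, `s < t`, then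
`x (s + i) = x (t + i)` for all `i` (values are unique: last part of `tVal`, `H = X j`), so `x` has finitely many values and `h` is bounded; but `h (m j) ≥ (b/2) ^ (j - 1) h m` for `j ≥ 1` with `b/2 > tp σ ^ m ≥ 1` and `h m > 0` is unbounded. `StmtXUpp` for `σ ^ M`, `z` and `StmtXRl2` with `T = tp σ`. -/
def StmtXEnd : Prop :=
  ∀ (K₁ K : Type) [Field K₁] [Field K] [Algebra K₁ K] [Height.AdmissibleAbsValues K] (n : ℕ)
    (σ : RF n K₁ →ₐ[K₁] RF n K₁) (m M : ℕ) (b : ℝ) (x : ℕ → Fin n → K₁), 1 ≤ m → 1 ≤ M → 2 ≤ b →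
    1 ≤ tp σ → (tp σ : ℝ) ^ m < b / 2 → Flow σ x →
    0 < Height.logHeight (hcN (fun i => algebraMap K₁ K (x m i))) →
    (∀ j, 1 ≤ j → b / 2 * Height.logHeight (hcN (fun i => algebraMap K₁ K (x (m * j) i))) ≤
      Height.logHeight (hcN (fun i => algebraMap K₁ K (x (m * (j + 1)) i)))) →
    (van x M).IsPrime → rk (van x M) = 1 → Pres (σ ^ M) (van x M) →
    (∀ (L : Type) [Field L] [Algebra (CR (van x M)) L] [IsFractionRing (CR (van x M)) L] [Algebra K₁ L]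
      [IsScalarTower K₁ (CR (van x M)) L] (ρb : L →ₐ[K₁] L), Rst (σ ^ M) (van x M) L ρb →
      Module.finrank ρb.fieldRange L ≤ tp σ ^ M) → False

/-! ## Conclusion (section 13) -/

/-- (XCore) The core argument. PROOF (uses `StmtXPrE`; the other hypotheses are those of `tCoreN` in `CoreN.lean`). The same as `tCoreN` without `NoFull`: copy it; `G = v * G₁ * Γ * h` with `h` from `StmtXPrE` for `ρ = σ ^ M`. If `van z M ≠ ⊥` and not `rk + 2 ≤ n` there is a contradiction as in `tCoreN` (which uses `tp σ ^ M ≤ [L : ρb L]`, not `NoFull`, in this case). If `rk + 2 ≤ n` the second alternative holds: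
`h(z 0) ≠ 0`, so `h ∉ van z M`, and `tp (σ ^ M) = tp σ ^ M`. -/
def StmtXCore : Prop :=
  ∀ (K : Type) [Field K] [CharZero K] (n : ℕ) (f : RM K n) (σ : RF n K →ₐ[K] RF n K), 1 ≤ n → Of f σ →
    1 ≤ tp σ → NoI σ → ∀ M : ℕ, 1 ≤ M →
    ∃ (F : Polynomial (Pl n K)) (G : Pl n K), F.Monic ∧
      Irreducible (F.map (algebraMap (Pl n K) (RF n K))) ∧ G ≠ 0 ∧
      ∀ (N N' p p' : ℕ), p.Prime → p'.Prime → p ≠ p' → N * N' = M →
      ∀ z : ℕ → Fin n → K, f.Orb z → (∀ m, MvPolynomial.eval (z m) (jac f) ≠ 0) →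
        Pool.Agent.ZDO.ClN N p z → Pool.Agent.ZDO.ClN N' p' z →
        Irreducible (F.map (MvPolynomial.eval (z 0))) → MvPolynomial.eval (z 0) G ≠ 0 →
        van z M = ⊥ ∨ ((van z M).IsPrime ∧ 1 ≤ rk (van z M) ∧ rk (van z M) + 2 ≤ n ∧
          Pres (σ ^ M) (van z M) ∧
          ∀ (L : Type) [Field L] [Algebra (CR (van z M)) L] [IsFractionRing (CR (van z M)) L]
            [Algebra K L] [IsScalarTower K (CR (van z M)) L] (ρb : L →ₐ[K] L),
            Rst (σ ^ M) (van z M) L ρb → Module.finrank ρb.fieldRange L ≤ tp σ ^ M)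

/-- (XLs) PROOF. `d m ≤ d' m ≤ d' 1 ^ m` for `m ≥ 1` (induction), so both sequences of roots are bounded (between `0` and `max 1 (d' 1)`), and the limit superior is monotone (`Filter.limsup_le_limsup`). -/
def StmtXLs : Prop :=
  ∀ d d' : ℕ → ℕ, (∀ a b, d' (a + b) ≤ d' a * d' b) → (∀ m, d m ≤ d' m) → lam0 d ≤ lam0 d'

/-- (XFin) THEOREM T for `λ₁ > λ₃`. PROOF (uses `StmtXFast`, `StmtXSup`, `StmtXHL`, `StmtXCore`, `StmtXEnd`, `StmtXLs`, and as in `StmtFinNN` (task FinNN, file of helper79) from the library: `iLiftC2`, `iDesc`, `iTpGe`, `iTpPow`, `iJac`, `iDgMul`, `iVal`, `cDgMul` (third part: degrees over larger fields), `tTpPos`, `box2`, `descP`, `orb_unique`). Models: `Fin2.lean` of `Lib/MP_16285c_agZ` and the file of `StmtFinNN`.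
(1) `S₁` from `iTpGe` for `σ`; `S` = `S₁` and the coefficients of `f`; `K₀ = Subfield.closure S ≤ k`, `f₀`, `σ₀` with `Cmp σ₀ σ`, `tp σ₀ = tp σ`; `tp σ₀ < lam0 (dg (it σ₀ ·))` by `StmtXLs` (`dg (it σ m) ≤ dg (it σ₀ m)`: third part of `cDgMul`). `m, b', B₀` from `StmtXFast` (`b'` the real number). (2) `box2` for `B = b * jac f * map B₀` twice (`p₀ = 2`, then `p₀ = p`): `V, p, a, N`, `V', p', a', N'`; `M = N * N'`.
`c` from `iLiftC2`; the orbit of `box2` through `c` shows `B₀(c) ≠ 0`. (3) `StmtXSup` for `S ∪ {c i}`: `K ≥ K₀`, `t`. `K₁ = Subfield.closure (S ∪ {c i} ∪ {t}) ≤ K`, finitely generated; `f₁`, `σ₁` over `K₁`, `σK` over `K`, all compatible (`Cmp`), `tp σ₁ = tp σ`, `NoI σ₁`. (4) `F, G` from `StmtXCore` for `f₁, σ₁, M`; `R` from `StmtXFast` for `K₁, K, σK, c`; `w` from `StmtXHL`; `H₀` from `StmtXFast` for `w`;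
`j₀` from `StmtXSup` for `H₀`, `q = p p' t ^ j₀ ∈ K₁`, `q ≠ 0`; `s` from `StmtXHL`; `y = q s`, `x₀ = c + y w`. (5) `Lies V (x₀ i) (a i)`: `y w i = p * (p' t ^ j₀ s w i)` is in `V` with residue `0` (`lies_mul` in `Sup.lean`; `(t : k) ∈ V`), the same for `V'`. The orbits of `box2` through `x₀` coincide (`orb_unique`): `x`, in `K₁ ^ 3` (induction): `x1`; `f₁.Orb x1`, `jac f₁ ≠ 0` and `B₀ ≠ 0` along it,
`ClN N p x1`, `ClN N' p' x1`. `StmtXCore`: if `van x1 M = ⊥` then `x1` is dense over `K₁`, so `x` is dense over `k` (`descP`). Otherwise `rk (van x1 M) = 1` (`n = 3`) and `StmtXEnd` for `K₁, K, σ₁, m, M, b', x1` gives a contradiction: `Flow σ₁ x1`; the growth by `StmtXFast` for `σK` and `xK` = the image of `x1` in `K` (`Flow σK xK`, `xK 0 = lptN c w y`, `logHeight₁ y > H₀`). -/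
def StmtXFin : Prop :=
  ∀ (k : Type) [Field k] [IsAlgClosed k] [CharZero k] (σ : RF 3 k →ₐ[k] RF 3 k), NoI σ →
    (tp σ : ℝ) < lam0 (fun m => dg (it σ m)) → ∀ f : RM k 3, Of f σ → ∀ b : Pl 3 k, b ≠ 0 →
    ∃ x : ℕ → Fin 3 → k, f.Orb x ∧ (∀ m, MvPolynomial.eval (x m) b ≠ 0) ∧ Dns x

end Pool.Agent.Lib.MP_16285c_agN
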