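import Pool.Agent.Lib.MP_16285c_agN.T3.All

/-!
# Rational self-maps of three-space with `λ₁ ≠ λ₃`
-/

set_option autoImplicit false

namespace Pool.Agent.Lib.MP_16285c_agN

open Pool.Agent.Lib.MP_16285c_ag

/-- The theorem for three-space. -/
theorem x3 (k : Type) [Field k] [IsAlgClosed k] [CharZero k] (σ : RF 3 k →ₐ[k] RF 3 k)
    (hno : NoI σ) (hlam : lam0 (fun m => dg (it σ m)) ≠ (tp σ : ℝ)) (f : RM k 3) (hOf : Of f σ)
    (b : Pl 3 k) (hb : b ≠ 0) :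
    ∃ x : ℕ → Fin 3 → k, f.Orb x ∧ (∀ m, MvPolynomial.eval (x m) b ≠ 0) ∧ Dns x := by
  refine xAll k 3 σ (by norm_num) hno (fun _ h => ?_) (fun h => absurd h (by norm_num)) f hOf b hb
  rw [T3CombM.lam_eq tXDgLe aXDgGe, ← ENNReal.ofReal_natCast] at h
  obtain ⟨L, -, -, hL⟩ := RealM.tends (d := fun m => dg (it σ m)) (fun a b => iDgMul k 3 σ a b)
    (fun m => tDgPos iRepE k 3 σ m (by norm_num))
  have h0 : 0 ≤ lam0 (fun m => dg (it σ m)) := by
    unfold lam0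
    rw [hL]
    exact (Real.exp_pos _).le
  exact hlam ((ENNReal.ofReal_eq_ofReal_iff h0 (Nat.cast_nonneg _)).1 h)

end Pool.Agent.Lib.MP_16285c_agN
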