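import Pool.Agent.Lib.MP_16285c_agN.T3.SpecA

/-!
# Evaluation at `q + 1` points (`StmtXEv`)
-/

set_option autoImplicit false

namespace Pool.Agent.Lib.MP_16285c_agN

open Pool.Agent.Lib.MP_16285c_ag Polynomial

namespace T3XEvM

variable {κ E : Type} [Field κ] [Field E] [Algebra κ E]

/-- Directness in terms of polynomials with coefficients in `B`. -/
lemma dir {T : E} {B : Submodule κ E}
    (hB : ∀ b : ℕ →₀ B, (b.sum fun i x => T ^ i * (x : E)) = 0 → b = 0)
    (p : E[X]) (hp : ∀ i, p.coeff i ∈ B) (h0 : p.eval T = 0) : p = 0 := by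
  classical
  let b : ℕ →₀ B := Finsupp.onFinset p.support (fun i => ⟨p.coeff i, hp i⟩) (by
    intro i hi
    rw [Polynomial.mem_support_iff]
    intro h
    apply hi
    ext
    exact h)
  have h1 : (b.sum fun i x => T ^ i * (x : E)) = 0 := by
    rw [← h0, Polynomial.eval_eq_sum, Polynomial.sum_def, Finsupp.onFinset_sum]
    · exact Finset.sum_congr rfl fun i _ => mul_comm _ _
    · intro i
      simp
  have h2 := hB b h1
  ext i
  have h3 := DFunLike.congr_fun h2 i
  have h4 : ((b i : B) : E) = p.coeff i := rfl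
  rw [← h4, h3]
  simp

/-- Lifts of elements of `V` to polynomials. -/
lemma lift {T : E} {B : Submodule κ E}
    (hB : ∀ b : ℕ →₀ B, (b.sum fun i x => T ^ i * (x : E)) = 0 → b = 0)
    (V : Submodule κ E) (q : ℕ)
    (hV : ∀ v ∈ V, ∃ b : ℕ → E, (∀ i, b i ∈ B) ∧
      v = ∑ i ∈ Finset.range (q + 1), T ^ i * b i) :
    ∃ L : V →ₗ[κ] E[X], (∀ v i, (L v).coeff i ∈ B) ∧ (∀ v, (L v).natDegree ≤ q) ∧
      ∀ v, (L v).eval T = v := by
  have h1 : ∀ v : V, ∃ p : E[X], (∀ i, p.coeff i ∈ B) ∧ p.natDegree ≤ q ∧ p.eval T = v := by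
    intro v
    obtain ⟨b, hb, hv⟩ := hV v v.2
    refine ⟨∑ i ∈ Finset.range (q + 1), Polynomial.monomial i (b i), ?_, ?_, ?_⟩
    · intro i
      rw [Polynomial.finsetSum_coeff]
      refine Submodule.sum_mem _ fun j _ => ?_
      rw [Polynomial.coeff_monomial]
      split_ifs
      · exact hb j
      · exact B.zero_mem
    · refine Polynomial.natDegree_sum_le_of_forall_le _ _ fun i hi => ?_
      refine (Polynomial.natDegree_monomial_le _).trans ?_
      rw [Finset.mem_range] at hi
      omega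
    · rw [Polynomial.eval_finsetSum, hv]
      refine Finset.sum_congr rfl fun i _ => ?_
      rw [Polynomial.eval_monomial, mul_comm]
  choose f hf1 hf2 hf3 using h1
  refine ⟨{ toFun := f, map_add' := ?_, map_smul' := ?_ }, hf1, hf2, hf3⟩
  · intro v w
    rw [← sub_eq_zero]
    refine dir hB _ (fun i => ?_) ?_
    · rw [Polynomial.coeff_sub, Polynomial.coeff_add]
      exact B.sub_mem (hf1 _ i) (B.add_mem (hf1 _ i) (hf1 _ i))
    · simp [hf3]
  · intro c v
    rw [← sub_eq_zero]
    refine dir hB _ (fun i => ?_) ?_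
    · rw [Polynomial.coeff_sub, RingHom.id_apply, Polynomial.coeff_smul]
      exact B.sub_mem (hf1 _ i) (B.smul_mem _ (hf1 _ i))
    · rw [Polynomial.eval_sub, RingHom.id_apply, Polynomial.eval_smul, hf3, hf3]
      simp

/-- Clearing denominators for one element. -/
lemma clear1 (T : E) (b : Set E) [Fintype b] (e : E)
    (he : e ∈ Submodule.span (IntermediateField.adjoin κ {T}) b) :
    ∃ Q : κ[X], Q ≠ 0 ∧ ∃ P : b → κ[X], aeval T Q * e = ∑ x, aeval T (P x) * (x : E) := by
  classical
  induction he using Submodule.span_induction with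
  | mem x hx =>
    refine ⟨1, one_ne_zero, Pi.single ⟨x, hx⟩ 1, ?_⟩
    rw [Finset.sum_eq_single ⟨x, hx⟩]
    · simp
    · intro y _ hy
      simp [Pi.single_eq_of_ne hy]
    · intro h
      exact absurd (Finset.mem_univ _) h
  | zero => exact ⟨1, one_ne_zero, 0, by simp⟩
  | add e₁ e₂ _ _ h₁ h₂ =>
    obtain ⟨Q₁, hQ₁, P₁, h₁⟩ := h₁
    obtain ⟨Q₂, hQ₂, P₂, h₂⟩ := h₂
    refine ⟨Q₁ * Q₂, mul_ne_zero hQ₁ hQ₂, fun x => Q₂ * P₁ x + Q₁ * P₂ x, ?_⟩
    have h3 : ∑ x : b, aeval T (Q₂ * P₁ x + Q₁ * P₂ x) * (x : E) =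
        aeval T Q₂ * ∑ x : b, aeval T (P₁ x) * (x : E) +
          aeval T Q₁ * ∑ x : b, aeval T (P₂ x) * (x : E) := by
      rw [Finset.mul_sum, Finset.mul_sum, ← Finset.sum_add_distrib]
      refine Finset.sum_congr rfl fun x _ => ?_
      simp only [map_add, map_mul]
      ring
    rw [h3, ← h₁, ← h₂, map_mul]
    ring
  | smul a e _ h =>
    obtain ⟨Q, hQ, P, h⟩ := h
    obtain ⟨r, s, hrs⟩ := IntermediateField.mem_adjoin_simple_iff κ (a : E) |>.1 a.2
    by_cases hs : aeval T s = 0
    · refine ⟨1, one_ne_zero, 0, ?_⟩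
      rw [hs, div_zero] at hrs
      have h1 : a • e = (a : E) * e := rfl
      rw [h1, hrs]
      simp
    · refine ⟨s * Q, mul_ne_zero (fun h' => hs (by rw [h', map_zero])) hQ, fun x => r * P x, ?_⟩
      have h3 : ∑ x : b, aeval T (r * P x) * (x : E) =
          aeval T r * ∑ x : b, aeval T (P x) * (x : E) := by
        rw [Finset.mul_sum]
        refine Finset.sum_congr rfl fun x _ => ?_
        simp only [map_mul]
        ring
      have h1 : a • e = (a : E) * e := rfl
      rw [h3, ← h, h1, hrs, map_mul]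
      field_simp

/-- Clearing denominators uniformly. -/
lemma clear (T : E) (b : Set E) [Fintype b] (V : Submodule κ E) (hfg : V.FG)
    (hV : ∀ v ∈ V, v ∈ Submodule.span (IntermediateField.adjoin κ {T}) b) :
    ∃ Q : κ[X], Q ≠ 0 ∧ ∀ v ∈ V, ∃ P : b → κ[X],
      aeval T Q * v = ∑ x, aeval T (P x) * (x : E) := by
  classical
  revert hV
  refine Submodule.fg_induction (motive := fun N _ => (∀ v ∈ N, v ∈ Submodule.span
    (IntermediateField.adjoin κ {T}) b) → ∃ Q : κ[X], Q ≠ 0 ∧ ∀ v ∈ N, ∃ P : b → κ[X],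
      aeval T Q * v = ∑ x, aeval T (P x) * (x : E)) ?_ ?_ V hfg
  · intro e he
    obtain ⟨Q, hQ, P, h⟩ := clear1 T b e (he e (Submodule.mem_span_singleton_self e))
    refine ⟨Q, hQ, fun v hv => ?_⟩
    obtain ⟨c, rfl⟩ := Submodule.mem_span_singleton.1 hv
    refine ⟨fun x => C c * P x, ?_⟩
    have h3 : ∑ x : b, aeval T (C c * P x) * (x : E) =
        algebraMap κ E c * ∑ x : b, aeval T (P x) * (x : E) := by
      rw [Finset.mul_sum]
      refine Finset.sum_congr rfl fun x _ => ?_
      simp only [map_mul, aeval_C]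
      ring
    rw [h3, ← h, Algebra.smul_def]
    ring
  · intro M₁ M₂ _ _ h₁ h₂ hle
    obtain ⟨Q₁, hQ₁, h₁⟩ := h₁ fun v hv => hle v (Submodule.mem_sup_left hv)
    obtain ⟨Q₂, hQ₂, h₂⟩ := h₂ fun v hv => hle v (Submodule.mem_sup_right hv)
    refine ⟨Q₁ * Q₂, mul_ne_zero hQ₁ hQ₂, fun v hv => ?_⟩
    obtain ⟨v₁, hv₁, v₂, hv₂, rfl⟩ := Submodule.mem_sup.1 hv
    obtain ⟨P₁, h₁⟩ := h₁ v₁ hv₁
    obtain ⟨P₂, h₂⟩ := h₂ v₂ hv₂
    refine ⟨fun x => Q₂ * P₁ x + Q₁ * P₂ x, ?_⟩
    have h3 : ∑ x : b, aeval T (Q₂ * P₁ x + Q₁ * P₂ x) * (x : E) =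
        aeval T Q₂ * ∑ x : b, aeval T (P₁ x) * (x : E) +
          aeval T Q₁ * ∑ x : b, aeval T (P₂ x) * (x : E) := by
      rw [Finset.mul_sum, Finset.mul_sum, ← Finset.sum_add_distrib]
      refine Finset.sum_congr rfl fun x _ => ?_
      simp only [map_add, map_mul]
      ring
    rw [h3, ← h₁, ← h₂, map_mul]
    ring

/-- Evaluation of a lift at `c` as a linear map. -/
noncomputable def ev {V : Submodule κ E} (L : V →ₗ[κ] E[X]) (c : κ) : V →ₗ[κ] E where
  toFun v := (L v).eval (algebraMap κ E c)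
  map_add' v w := by simp
  map_smul' a v := by simp

lemma ev_mem {T : E} {B : Submodule κ E}
    (hB : ∀ b : ℕ →₀ B, (b.sum fun i x => T ^ i * (x : E)) = 0 → b = 0)
    {V : Submodule κ E} (L : V →ₗ[κ] E[X]) (hL1 : ∀ v i, (L v).coeff i ∈ B)
    (hL3 : ∀ v, (L v).eval T = v) (b : Set E) [Fintype b] (hbV : b ⊆ (V : Set E)) (Q : κ[X])
    (hQ : ∀ v ∈ V, ∃ P : b → κ[X], aeval T Q * v = ∑ x, aeval T (P x) * (x : E))
    (c : κ) (hc : Q.eval c ≠ 0) (v : V) :
    ev L c v ∈ Submodule.span κ (Set.range fun x : b => ev L c ⟨x, hbV x.2⟩) := by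
  have hmul : ∀ (P : κ[X]) (p : E[X]), (∀ i, p.coeff i ∈ B) →
      ∀ i, ((P.map (algebraMap κ E)) * p).coeff i ∈ B := by
    intro P p hp i
    rw [Polynomial.coeff_mul]
    refine Submodule.sum_mem _ fun x _ => ?_
    rw [Polynomial.coeff_map, ← Algebra.smul_def]
    exact B.smul_mem _ (hp _)
  obtain ⟨P, hP⟩ := hQ v v.2
  have h1 : (Q.map (algebraMap κ E)) * L v -
      ∑ x : b, ((P x).map (algebraMap κ E)) * L ⟨x, hbV x.2⟩ = 0 := by
    refine dir hB _ (fun i => ?_) ?_
    · rw [Polynomial.coeff_sub, Polynomial.finsetSum_coeff]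
      exact B.sub_mem (hmul _ _ (hL1 _) i)
        (Submodule.sum_mem _ fun x _ => hmul _ _ (hL1 _) i)
    · rw [Polynomial.eval_sub, Polynomial.eval_finsetSum, Polynomial.eval_mul, hL3,
        Polynomial.eval_map_algebraMap, hP, sub_eq_zero]
      refine Finset.sum_congr rfl fun x _ => ?_
      rw [Polynomial.eval_mul, hL3, Polynomial.eval_map_algebraMap]
  have h2 : algebraMap κ E (Q.eval c) * ev L c v =
      ∑ x : b, algebraMap κ E ((P x).eval c) * ev L c ⟨x, hbV x.2⟩ := by
    have h3 := congrArg (Polynomial.eval (algebraMap κ E c)) (sub_eq_zero.1 h1)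
    rw [Polynomial.eval_mul, Polynomial.eval_finsetSum, Polynomial.eval_map_algebraMap,
      Polynomial.aeval_algebraMap_apply] at h3
    simp only [Polynomial.coe_aeval_eq_eval] at h3
    refine h3.trans (Finset.sum_congr rfl fun x _ => ?_)
    rw [Polynomial.eval_mul, Polynomial.eval_map_algebraMap,
      Polynomial.aeval_algebraMap_apply]
    rfl
  have h4 : ev L c v = (Q.eval c)⁻¹ • ∑ x : b, ((P x).eval c) • ev L c ⟨x, hbV x.2⟩ := by
    rw [eq_inv_smul_iff₀ hc, Algebra.smul_def, h2]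
    exact Finset.sum_congr rfl fun x _ => (Algebra.smul_def _ _).symm
  rw [h4]
  exact Submodule.smul_mem _ _ (Submodule.sum_mem _ fun x _ =>
    Submodule.smul_mem _ _ (Submodule.subset_span ⟨x, rfl⟩))

end T3XEvM

open T3XEvM in
theorem tXEv : StmtXEv := by
  classical
  intro κ E _ _ _ _ T B hB V q hVf hV
  obtain ⟨L, hL1, hL2, hL3⟩ := lift hB V q hV
  have hfg : V.FG := (Submodule.fg_top V).1 hVf.1
  obtain ⟨s, hs⟩ := hfg
  obtain ⟨b, hbV, hbs, hbl⟩ :=
    exists_linearIndependent (IntermediateField.adjoin κ {T}) (V : Set E)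
  have hspan : Submodule.span (IntermediateField.adjoin κ {T}) (V : Set E) =
      Submodule.span (IntermediateField.adjoin κ {T}) (s : Set E) := by
    apply le_antisymm
    · rw [Submodule.span_le, ← hs]
      exact Submodule.span_subset_span κ (IntermediateField.adjoin κ {T}) (s : Set E)
    · apply Submodule.span_mono
      rw [← hs]
      exact Submodule.subset_span
  have hfin : Module.Finite (IntermediateField.adjoin κ {T})
      (Submodule.span (IntermediateField.adjoin κ {T}) (V : Set E)) := by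
    rw [hspan]
    exact FiniteDimensional.span_of_finite _ s.finite_toSet
  rw [← hbs] at hfin
  have hbf : Finite b := by
    have h1 := (Module.Basis.span hbl)
    rw [Subtype.range_coe] at h1
    exact Module.Finite.finite_basis h1
  have : Fintype b := Fintype.ofFinite b
  have hn : Module.finrank (IntermediateField.adjoin κ {T})
      (Submodule.span (IntermediateField.adjoin κ {T}) (V : Set E)) = Fintype.card b := by
    rw [← hbs]
    have h1 := finrank_span_eq_card hbl
    rw [Subtype.range_coe] at h1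
    exact h1
  rw [hn]
  obtain ⟨Q, hQ0, hQ⟩ := clear T b V ((Submodule.fg_top V).1 hVf.1) fun v hv => by
    rw [hbs]
    exact Submodule.subset_span hv
  -- the points
  have hinf : {c : κ | Q.eval c ≠ 0}.Infinite := by
    have h1 : {c : κ | Q.eval c = 0}.Finite := by
      refine (Q.roots.toFinset.finite_toSet).subset fun c hc => ?_
      rw [Finset.mem_coe, Multiset.mem_toFinset, Polynomial.mem_roots hQ0]
      exact hc
    have h2 : {c : κ | Q.eval c ≠ 0} = {c : κ | Q.eval c = 0}ᶜ := rfl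
    rw [h2]
    exact h1.infinite_compl
  let ν := Set.Infinite.natEmbedding {c : κ | Q.eval c ≠ 0} hinf
  let c : Fin (q + 1) → κ := fun k => (ν k : κ)
  have hc : ∀ k, Q.eval (c k) ≠ 0 := fun k => (ν k).2
  have hci : Function.Injective c := fun k k' h =>
    Fin.ext (ν.injective (Subtype.ext h))
  have hrk : ∀ k, Module.finrank κ (LinearMap.range (ev L (c k))) ≤ Fintype.card b := by
    intro k
    have h1 : LinearMap.range (ev L (c k)) ≤
        Submodule.span κ (Set.range fun x : b => ev L (c k) ⟨x, hbV x.2⟩) := by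
      rintro _ ⟨v, rfl⟩
      exact ev_mem hB L hL1 hL3 b hbV Q hQ (c k) (hc k) v
    have h2 : Module.Finite κ
        (Submodule.span κ (Set.range fun x : b => ev L (c k) ⟨x, hbV x.2⟩)) :=
      FiniteDimensional.span_of_finite κ (Set.finite_range _)
    exact (Submodule.finrank_mono h1).trans (finrank_range_le_card _)
  let Ψ : V →ₗ[κ] (∀ k : Fin (q + 1), LinearMap.range (ev L (c k))) :=
    LinearMap.pi fun k => (ev L (c k)).rangeRestrict
  have hΨ : Function.Injective Ψ := by
    rw [← LinearMap.ker_eq_bot, LinearMap.ker_eq_bot']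
    intro v hv
    have h1 : L v = 0 := by
      refine Polynomial.eq_zero_of_natDegree_lt_card_of_eval_eq_zero (L v)
        (f := fun k : Fin (q + 1) => algebraMap κ E (c k))
        (fun k k' h => hci ((algebraMap κ E).injective h)) (fun k => ?_) ?_
      · have h2 := congrArg Subtype.val (congrFun hv k)
        exact h2
      · rw [Fintype.card_fin]
        have := hL2 v
        omega
    have h2 := hL3 v
    rw [h1, Polynomial.eval_zero] at h2
    exact Subtype.ext h2.symm
  calc Module.finrank κ V ≤ Module.finrank κ (∀ k : Fin (q + 1), LinearMap.range (ev L (c k))) :=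
        LinearMap.finrank_le_finrank_of_injective hΨ
    _ = ∑ k : Fin (q + 1), Module.finrank κ (LinearMap.range (ev L (c k))) :=
        Module.finrank_pi_fintype κ
    _ ≤ ∑ _k : Fin (q + 1), Fintype.card b := Finset.sum_le_sum fun k _ => hrk k
    _ = (q + 1) * Fintype.card b := by simp

end Pool.Agent.Lib.MP_16285c_agN
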