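import Pool.Agent.Lib.MP_16285c_agN.T3.SpecB
import Mathlib.RingTheory.Polynomial.GaussLemma
import Mathlib.Algebra.MvPolynomial.Nilpotent

/-!
# `StmtXLine`: the restriction to a generic line through a point
-/

set_option autoImplicit false

namespace Pool.Agent.Lib.MP_16285c_agN

open Pool.Agent.Lib.MP_16285c_ag

namespace T3XLineM

/-! ## Relatively prime polynomials over a factorial ring -/

theorem clear {S : Type} [CommRing S] [IsDomain S] (r : Polynomial (FractionRing S)) :
    ∃ (s : S) (r' : Polynomial S), s ≠ 0 ∧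
      r'.map (algebraMap S (FractionRing S)) = Polynomial.C (algebraMap S (FractionRing S) s) * r := by
  obtain ⟨b, hb, hb2⟩ := IsLocalization.integerNormalization_spec (nonZeroDivisors S) r
  refine ⟨b, IsLocalization.integerNormalization (nonZeroDivisors S) r,
    nonZeroDivisors.ne_zero hb, ?_⟩
  rw [hb2]
  ext i
  rw [Polynomial.coeff_smul, Polynomial.coeff_C_mul, Algebra.smul_def]

theorem bez {S : Type} [CommRing S] [IsDomain S] [NormalizedGCDMonoid S] (f g : Polynomial S)
    (hf : f ≠ 0) (h : IsRelPrime f g) : ∃ (a b : Polynomial S) (r : S), r ≠ 0 ∧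
      a * f + b * g = Polynomial.C r := by
  have hinj : Function.Injective (Polynomial.map (algebraMap S (FractionRing S))) :=
    Polynomial.map_injective _ (IsFractionRing.injective S _)
  have hrp : IsRelPrime (f.map (algebraMap S (FractionRing S)))
      (g.map (algebraMap S (FractionRing S))) := by
    intro z hzf hzg
    have hz0 : z ≠ 0 := by
      rintro rfl
      rw [zero_dvd_iff] at hzf
      exact hf (hinj (by rw [hzf, Polynomial.map_zero]))
    refine Polynomial.isUnit_or_eq_zero_of_isUnit_integerNormalization_primPart (R := S) hz0 ?_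
    set q := IsLocalization.integerNormalization (nonZeroDivisors S) z with hq
    have hqz : q.primPart.map (algebraMap S (FractionRing S)) ∣ z := by
      obtain ⟨b, hb, hb2⟩ := IsLocalization.integerNormalization_spec (nonZeroDivisors S) z
      have hb0 : algebraMap S (FractionRing S) b ≠ 0 :=
        (map_ne_zero_iff _ (IsFractionRing.injective S _)).2 (nonZeroDivisors.ne_zero hb)
      have h1 : q.primPart.map (algebraMap S (FractionRing S)) ∣ q.map (algebraMap S (FractionRing S)) :=
        Polynomial.map_dvd _ q.primPart_dvd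
      have h2 : q.map (algebraMap S (FractionRing S)) =
          Polynomial.C (algebraMap S (FractionRing S) b) * z := by
        rw [hq, hb2]
        ext i
        rw [Polynomial.coeff_smul, Polynomial.coeff_C_mul, Algebra.smul_def]
      rw [h2] at h1
      exact ((Polynomial.isUnit_C.2 (isUnit_iff_ne_zero.2 hb0)).dvd_mul_left).1 h1
    exact h (q.isPrimitive_primPart.dvd_of_fraction_map_dvd_fraction_map (hqz.trans hzf))
      (q.isPrimitive_primPart.dvd_of_fraction_map_dvd_fraction_map (hqz.trans hzg))
  obtain ⟨a, b, hab⟩ := hrp.isCoprime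
  obtain ⟨s, a', hs, ha'⟩ := clear a
  obtain ⟨t, b', ht, hb'⟩ := clear b
  refine ⟨Polynomial.C t * a', Polynomial.C s * b', s * t, mul_ne_zero hs ht, hinj ?_⟩
  rw [Polynomial.map_add, Polynomial.map_mul, Polynomial.map_mul, Polynomial.map_mul,
    Polynomial.map_mul, Polynomial.map_C, Polynomial.map_C, Polynomial.map_C, ha', hb', map_mul,
    Polynomial.C_mul]
  linear_combination Polynomial.C (algebraMap S (FractionRing S) s) *
    Polynomial.C (algebraMap S (FractionRing S) t) * hab

/-! ## The generic line -/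

section line

variable {K : Type} [Field K] {n : ℕ} (c : Fin n → K)

/-- The polynomial on the generic line through `c`. -/
noncomputable def psi : Pl n K →ₐ[K] Polynomial (Pl n K) :=
  MvPolynomial.aeval fun i => Polynomial.C (MvPolynomial.C (c i)) +
    Polynomial.C (MvPolynomial.X i) * Polynomial.X

/-- The points `c + y W`, over an extension field. -/
noncomputable def trL (L : Type) [Field L] [Algebra K L] (y : L) :
    Pl n K →ₐ[K] MvPolynomial (Fin n) L :=
  MvPolynomial.aeval fun i => MvPolynomial.C (algebraMap K L (c i)) + MvPolynomial.X i * MvPolynomial.C y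

/-- The inverse substitution. -/
noncomputable def inL (L : Type) [Field L] [Algebra K L] (y : L) :
    MvPolynomial (Fin n) L →ₐ[L] MvPolynomial (Fin n) L :=
  MvPolynomial.aeval fun i => (MvPolynomial.X i - MvPolynomial.C (algebraMap K L (c i))) *
    MvPolynomial.C y⁻¹

theorem inL_trL (L : Type) [Field L] [Algebra K L] (y : L) (hy : y ≠ 0) (G : Pl n K) :
    inL c L y (trL c L y G) = MvPolynomial.map (algebraMap K L) G := by
  have h : ((inL c L y).toRingHom.comp (trL c L y).toRingHom) = MvPolynomial.map (algebraMap K L) := by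
    refine MvPolynomial.ringHom_ext (fun a => ?_) (fun i => ?_)
    · simp [inL, trL, MvPolynomial.algebraMap_eq]
    · simp only [AlgHom.toRingHom_eq_coe, RingHom.coe_comp, RingHom.coe_coe, Function.comp_apply,
        trL, inL, MvPolynomial.aeval_X, map_add, map_mul, MvPolynomial.map_X,
        MvPolynomial.algHom_C]
      have h1 : (MvPolynomial.C y⁻¹ * MvPolynomial.C y : MvPolynomial (Fin n) L) = 1 := by
        rw [← MvPolynomial.C_mul, inv_mul_cancel₀ hy, MvPolynomial.C_1]
      simp only [MvPolynomial.algebraMap_eq]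
      linear_combination (MvPolynomial.X i - MvPolynomial.C (algebraMap K L (c i))) * h1
  exact DFunLike.congr_fun h G

/-- Specialisation of the parameter. -/
noncomputable def spc (L : Type) [Field L] [Algebra K L] (y : L) :
    Polynomial (Pl n K) →+* MvPolynomial (Fin n) L :=
  Polynomial.eval₂RingHom (MvPolynomial.map (algebraMap K L)) (MvPolynomial.C y)

theorem spc_psi (L : Type) [Field L] [Algebra K L] (y : L) (G : Pl n K) :
    spc L y (psi c G) = trL c L y G := by
  have h : ((spc L y).comp (psi c).toRingHom) = (trL c L y).toRingHom := by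
    refine MvPolynomial.ringHom_ext (fun a => ?_) (fun i => ?_)
    · simp [spc, psi, trL, MvPolynomial.algebraMap_eq, Polynomial.algebraMap_apply]
    · simp [spc, psi, trL]
  exact DFunLike.congr_fun h G

theorem trL_inL (t : K) (ht : t ≠ 0) (G : MvPolynomial (Fin n) K) : trL c K t (inL c K t G) = G := by
  have h : ((trL c K t).toRingHom.comp (inL c K t).toRingHom) = RingHom.id _ := by
    refine MvPolynomial.ringHom_ext (fun a => ?_) (fun i => ?_)
    · simp [inL, trL, MvPolynomial.algebraMap_eq]
    · simp only [AlgHom.toRingHom_eq_coe, RingHom.coe_comp, RingHom.coe_coe, Function.comp_apply,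
        trL, inL, MvPolynomial.aeval_X, map_sub, map_mul, MvPolynomial.algHom_C, RingHom.id_apply]
      have h1 : (MvPolynomial.C t⁻¹ * MvPolynomial.C t : MvPolynomial (Fin n) K) = 1 := by
        rw [← MvPolynomial.C_mul, inv_mul_cancel₀ ht, MvPolynomial.C_1]
      simp only [MvPolynomial.algebraMap_eq]
      linear_combination MvPolynomial.X i * h1
  exact DFunLike.congr_fun h G

/-- The values at `t ≠ 0` of a common divisor are units. -/
theorem unit_spc {A G : Pl n K} (h : IsRelPrime A G) {d : Polynomial (Pl n K)} (hA : d ∣ psi c A)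
    (hG : d ∣ psi c G) (t : K) (ht : t ≠ 0) : IsUnit (spc K t d) := by
  have key : ∀ B : Pl n K, d ∣ psi c B → inL c K t (spc K t d) ∣ B := by
    intro B hB
    have h1 : spc K t d ∣ trL c K t B := by
      rw [← spc_psi]
      exact map_dvd (spc K t) hB
    have h2 := map_dvd (inL c K t) h1
    rw [inL_trL c K t ht, Algebra.algebraMap_self, MvPolynomial.map_id] at h2
    exact h2
  have h3 : IsUnit (inL c K t (spc K t d)) := h (key A hA) (key G hG)
  have h4 := h3.map (trL c K t)
  rw [trL_inL c t ht] at h4
  exact h4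

/-- A polynomial all of whose values at `t ≠ 0` are units has constant coefficients. -/
theorem const [Infinite K] {d : Polynomial (Pl n K)} (h : ∀ t : K, t ≠ 0 → IsUnit (spc K t d)) :
    d = (d.map (MvPolynomial.constantCoeff : Pl n K →+* K)).map MvPolynomial.C := by
  ext j α
  rw [Polynomial.coeff_map, Polynomial.coeff_map, MvPolynomial.coeff_C]
  by_cases hα : 0 = α
  · rw [if_pos hα, ← hα]
    rfl
  rw [if_neg hα]
  set q : Polynomial K := ∑ j ∈ Finset.range (d.natDegree + 1),
    Polynomial.C (MvPolynomial.coeff α (d.coeff j)) * Polynomial.X ^ j with hq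
  have hq0 : q = 0 := by
    refine Polynomial.eq_zero_of_infinite_isRoot q ?_
    refine ((Set.finite_singleton (0 : K)).infinite_compl).mono fun t ht => ?_
    have ht0 : t ≠ 0 := ht
    obtain ⟨a, -, ha⟩ := MvPolynomial.isUnit_iff_eq_C_of_isReduced.1 (h t ht0)
    have h1 : MvPolynomial.coeff α (spc K t d) = 0 := by
      rw [ha, MvPolynomial.coeff_C, if_neg hα]
    show q.eval t = 0
    rw [← h1, spc, Polynomial.coe_eval₂RingHom, Polynomial.eval₂_eq_sum_range,
      MvPolynomial.coeff_sum, hq, Polynomial.eval_finsetSum]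
    refine Finset.sum_congr rfl fun i _ => ?_
    rw [Algebra.algebraMap_self, MvPolynomial.map_id, ← MvPolynomial.C_pow, mul_comm (_ : Pl n K),
      MvPolynomial.coeff_C_mul, Polynomial.eval_mul, Polynomial.eval_C, Polynomial.eval_pow,
      Polynomial.eval_X, mul_comm]
  rcases lt_or_ge d.natDegree j with hj | hj
  · rw [Polynomial.coeff_eq_zero_of_natDegree_lt hj, MvPolynomial.coeff_zero]
  · have h2 := congrArg (fun p : Polynomial K => p.coeff j) hq0
    simp only [hq, Polynomial.finsetSum_coeff, Polynomial.coeff_C_mul_X_pow, Polynomial.coeff_zero,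
      Finset.sum_ite_eq, Finset.mem_range] at h2
    rw [if_pos (by omega)] at h2
    exact h2

theorem relPrime [Infinite K] {A G : Pl n K} (h : IsRelPrime A G) (hG : G ≠ 0)
    (hc : MvPolynomial.eval c A ≠ 0) : IsRelPrime (psi c A) (psi c G) := by
  intro d hdA hdG
  have hd := const (unit_spc c h hdA hdG)
  set p := d.map (MvPolynomial.constantCoeff : Pl n K →+* K) with hp
  by_cases hdeg : p.degree = 0
  · rw [hd]
    exact (Polynomial.isUnit_iff_degree_eq_zero.2 hdeg).map (Polynomial.mapRingHom MvPolynomial.C)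
  exfalso
  obtain ⟨y, hy⟩ := IsAlgClosed.exists_aeval_eq_zero (AlgebraicClosure K) p hdeg
  have h1 : spc (AlgebraicClosure K) y d = 0 := by
    rw [hd, spc, Polynomial.coe_eval₂RingHom, Polynomial.eval₂_map]
    have h2 : (MvPolynomial.map (algebraMap K (AlgebraicClosure K))).comp
        (MvPolynomial.C : K →+* Pl n K) =
        (MvPolynomial.C : AlgebraicClosure K →+* MvPolynomial (Fin n) (AlgebraicClosure K)).comp
          (algebraMap K (AlgebraicClosure K)) := by
      ext a
      simp
    rw [h2, ← Polynomial.hom_eval₂]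
    have h3 : p.eval₂ (algebraMap K (AlgebraicClosure K)) y = 0 := hy
    rw [h3, map_zero]
  have hz : ∀ B : Pl n K, d ∣ psi c B → trL c (AlgebraicClosure K) y B = 0 := by
    rintro B ⟨e, he⟩
    rw [← spc_psi, he, map_mul, h1, zero_mul]
  by_cases hy0 : y = 0
  · have h2 := hz A hdA
    have h3 : trL c (AlgebraicClosure K) 0 A =
        MvPolynomial.C (algebraMap K (AlgebraicClosure K) (MvPolynomial.eval c A)) := by
      have h : (trL c (AlgebraicClosure K) 0).toRingHom =
          (MvPolynomial.C.comp (algebraMap K (AlgebraicClosure K))).comp (MvPolynomial.eval c) := by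
        refine MvPolynomial.ringHom_ext (fun a => ?_) (fun i => ?_)
        · simp [trL, MvPolynomial.algebraMap_apply]
        · simp [trL]
      exact DFunLike.congr_fun h A
    rw [hy0, h3, MvPolynomial.C_eq_zero] at h2
    exact hc ((map_eq_zero _).1 h2)
  · have h2 := inL_trL c (AlgebraicClosure K) y hy0 G
    rw [hz G hdG, map_zero] at h2
    refine hG (MvPolynomial.map_injective _ (algebraMap K (AlgebraicClosure K)).injective ?_)
    rw [← h2, map_zero]

/-! ### The leading coefficient -/

/-- The translation. -/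
noncomputable def tr1 : Pl n K →ₐ[K] Pl n K :=
  MvPolynomial.aeval fun i => MvPolynomial.X i + MvPolynomial.C (c i)

theorem tr1_inv (G : Pl n K) : tr1 (-c) (tr1 c G) = G := by
  have h : (tr1 (-c)).comp (tr1 c) = AlgHom.id K (Pl n K) := by
    refine MvPolynomial.algHom_ext fun i => ?_
    simp [tr1, MvPolynomial.algHom_C, MvPolynomial.algebraMap_eq]
  exact DFunLike.congr_fun h G

theorem deg_tr1_le (G : Pl n K) : (tr1 c G).totalDegree ≤ G.totalDegree := by
  conv_lhs => rw [G.as_sum]
  rw [map_sum]
  refine MvPolynomial.totalDegree_finsetSum_le fun m hm => ?_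
  rw [tr1, MvPolynomial.aeval_monomial]
  refine (MvPolynomial.totalDegree_mul _ _).trans ?_
  rw [MvPolynomial.algebraMap_eq, MvPolynomial.totalDegree_C, zero_add, Finsupp.prod]
  refine (MvPolynomial.totalDegree_finsetProd _ _).trans ?_
  have h1 : ∀ i : Fin n, (MvPolynomial.X i + MvPolynomial.C (c i) : Pl n K).totalDegree ≤ 1 := by
    intro i
    refine (MvPolynomial.totalDegree_add _ _).trans (max_le ?_ ?_)
    · rw [MvPolynomial.totalDegree_X]
    · rw [MvPolynomial.totalDegree_C]
      exact Nat.zero_le _
  calc ∑ i ∈ m.support, ((MvPolynomial.X i + MvPolynomial.C (c i) : Pl n K) ^ m i).totalDegree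
      ≤ ∑ i ∈ m.support, m i := by
        refine Finset.sum_le_sum fun i _ => (MvPolynomial.totalDegree_pow _ _).trans ?_
        calc m i * _ ≤ m i * 1 := Nat.mul_le_mul le_rfl (h1 i)
          _ = m i := mul_one _
    _ ≤ G.totalDegree := MvPolynomial.le_totalDegree hm

theorem deg_tr1 (G : Pl n K) : (tr1 c G).totalDegree = G.totalDegree := by
  refine le_antisymm (deg_tr1_le c G) ?_
  have h := deg_tr1_le (-c) (tr1 c G)
  rw [tr1_inv] at h
  exact h

/-- The polynomials on the lines through the origin. -/
noncomputable def psi0 : Pl n K →ₐ[K] Polynomial (Pl n K) :=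
  MvPolynomial.aeval fun i => Polynomial.C (MvPolynomial.X i) * Polynomial.X

theorem psi_eq (G : Pl n K) : psi c G = psi0 (tr1 c G) := by
  have h : psi c = psi0.comp (tr1 c) := by
    refine MvPolynomial.algHom_ext fun i => ?_
    simp only [psi, psi0, tr1, MvPolynomial.aeval_X, AlgHom.comp_apply, map_add,
      MvPolynomial.algHom_C]
    rw [add_comm]
    rfl
  exact DFunLike.congr_fun h G

theorem coeff_psi0 (G : Pl n K) (m : Fin n →₀ ℕ) :
    MvPolynomial.coeff m ((psi0 G).coeff (m.sum fun _ e => e)) = MvPolynomial.coeff m G := by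
  induction G using MvPolynomial.induction_on' with
  | monomial u a =>
    have h1 : psi0 (MvPolynomial.monomial u a : Pl n K) =
        Polynomial.C (MvPolynomial.monomial u a) * Polynomial.X ^ (u.sum fun _ e => e) := by
      rw [psi0, MvPolynomial.aeval_monomial, MvPolynomial.monomial_eq]
      simp only [Finsupp.prod, Finsupp.sum, mul_pow, Finset.prod_mul_distrib,
        Finset.prod_pow_eq_pow_sum, Polynomial.C_mul, map_prod, Polynomial.C_pow]
      rw [mul_assoc]
      rfl
    rw [h1, Polynomial.coeff_C_mul_X_pow]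
    by_cases h : u = m
    · rw [h, if_pos rfl]
    · rw [MvPolynomial.coeff_monomial, if_neg h]
      by_cases h2 : (m.sum fun _ e => e) = u.sum fun _ e => e
      · rw [if_pos h2, MvPolynomial.coeff_monomial, if_neg h]
      · rw [if_neg h2, MvPolynomial.coeff_zero]
  | add p q hp hq =>
    rw [map_add, Polynomial.coeff_add, MvPolynomial.coeff_add, MvPolynomial.coeff_add, hp, hq]

theorem coeff_psi_ne (G : Pl n K) (hG : G ≠ 0) : (psi c G).coeff G.totalDegree ≠ 0 := by
  have h0 : tr1 c G ≠ 0 := by
    intro h
    apply hG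
    rw [← tr1_inv c G, h, map_zero]
  obtain ⟨m, hm, hdeg⟩ := (tr1 c G).support.exists_mem_eq_sup
    (MvPolynomial.support_nonempty.2 h0) fun m => m.sum fun _ e => e
  have h1 : (m.sum fun _ e => e) = G.totalDegree := by
    rw [← deg_tr1 c G]
    exact hdeg.symm
  intro h
  have h2 := coeff_psi0 (tr1 c G) m
  rw [h1, ← psi_eq, h, MvPolynomial.coeff_zero] at h2
  exact MvPolynomial.mem_support_iff.1 hm h2.symm

/-- Specialisation of the direction. -/
theorem map_psi (w : Fin n → K) (G : Pl n K) : (psi c G).map (MvPolynomial.eval w) =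
    MvPolynomial.aeval (fun j => (Polynomial.C (c j) + Polynomial.C (w j) * Polynomial.X :
      Polynomial K)) G := by
  have h : (Polynomial.mapRingHom (MvPolynomial.eval w)).comp (psi c).toRingHom =
      (MvPolynomial.aeval (fun j => (Polynomial.C (c j) + Polynomial.C (w j) * Polynomial.X :
        Polynomial K))).toRingHom := by
    refine MvPolynomial.ringHom_ext (fun a => ?_) (fun i => ?_)
    · simp [psi, Polynomial.algebraMap_apply]
    · simp [psi]
  exact DFunLike.congr_fun h G

end line

end T3XLineM

open T3XLineM in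
theorem tXLine : StmtXGen → StmtRk2 → StmtRk3 → StmtXLine := by
  classical
  intro hGen _ _ K _ _ n F d hcop hF0 hd c hc
  obtain ⟨r, hr⟩ := hd
  obtain ⟨i₀, hi₀⟩ := hc
  have hinf : Infinite K := inferInstance
  -- the choice of `u`
  set q : Polynomial K := ∑ i : Fin (n + 1),
    Polynomial.C (MvPolynomial.eval c (F i)) * Polynomial.X ^ (i : ℕ) with hq
  have hq0 : q ≠ 0 := by
    intro h
    have h1 := congrArg (fun p : Polynomial K => p.coeff (i₀ : ℕ)) h
    simp only [hq, Polynomial.finsetSum_coeff, Polynomial.coeff_C_mul_X_pow,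
      Polynomial.coeff_zero, Fin.val_inj, Finset.sum_ite_eq, Finset.mem_univ, if_true] at h1
    exact hi₀ h1
  have hqf : {u : K | q.eval u = 0}.Finite := by
    refine (q.roots.toFinset.finite_toSet).subset fun u hu => ?_
    rw [Finset.mem_coe, Multiset.mem_toFinset, Polynomial.mem_roots hq0]
    exact hu
  obtain ⟨u, hu⟩ := ((hGen K n F hcop hF0).union hqf).infinite_compl.nonempty
  rw [Set.mem_compl_iff, Set.mem_union, not_or] at hu
  obtain ⟨hu1, hu2⟩ := hu
  have hrel : IsRelPrime (luN (MvPolynomial.C u) F) (F 0) := not_not.1 hu1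
  have hev : MvPolynomial.eval c (luN (MvPolynomial.C u) F) ≠ 0 := by
    intro h
    apply hu2
    have h3 : MvPolynomial.eval c (luN (MvPolynomial.C u) F) = q.eval u := by
      rw [hq, luN, map_sum, Polynomial.eval_finsetSum]
      refine Finset.sum_congr rfl fun i _ => ?_
      rw [map_mul, map_pow, MvPolynomial.eval_C, Polynomial.eval_mul, Polynomial.eval_C,
        Polynomial.eval_pow, Polynomial.eval_X, mul_comm]
    rw [h3] at h
    exact h
  have hpsi0 : psi c (F 0) ≠ 0 := by
    intro h
    apply coeff_psi_ne c (F 0) hF0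
    rw [h, Polynomial.coeff_zero]
  let _ : StrongNormalizationMonoid (Pl n K) := UniqueFactorizationMonoid.strongNormalizationMonoid
  let _ : NormalizedGCDMonoid (Pl n K) := UniqueFactorizationMonoid.toNormalizedGCDMonoid _
  obtain ⟨a, b, R₂, hR₂, hab⟩ := bez (psi c (F 0)) (psi c (luN (MvPolynomial.C u) F)) hpsi0
    (relPrime c hrel hF0 hev).symm
  have hR₁ : ∃ R₁ : Pl n K, R₁ ≠ 0 ∧ ∀ w : Fin n → K, MvPolynomial.eval w R₁ ≠ 0 →
      d ≤ (MvPolynomial.aeval (fun j => (Polynomial.C (c j) + Polynomial.C (w j) * Polynomial.X :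
        Polynomial K)) (F r)).natDegree := by
    by_cases h : F r = 0
    · refine ⟨1, one_ne_zero, fun w _ => ?_⟩
      rw [← hr, h, MvPolynomial.totalDegree_zero]
      exact Nat.zero_le _
    · refine ⟨(psi c (F r)).coeff d, ?_, fun w hw => ?_⟩
      · rw [← hr]
        exact coeff_psi_ne c (F r) h
      · refine Polynomial.le_natDegree_of_ne_zero ?_
        rw [← map_psi, Polynomial.coeff_map]
        exact hw
  obtain ⟨R₁, hR₁0, hR₁⟩ := hR₁
  refine ⟨R₁ * R₂, mul_ne_zero hR₁0 hR₂, fun w hw => ?_⟩
  rw [map_mul] at hw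
  refine ⟨?_, r, hR₁ w (left_ne_zero_of_mul hw)⟩
  have h1 := congrArg (Polynomial.map (MvPolynomial.eval w)) hab
  rw [Polynomial.map_add, Polynomial.map_mul, Polynomial.map_mul, map_psi, map_psi,
    Polynomial.map_C] at h1
  refine Ideal.eq_top_of_isUnit_mem _ ?_
    (Polynomial.isUnit_C.2 (isUnit_iff_ne_zero.2 (right_ne_zero_of_mul hw)))
  rw [← h1]
  have hmem : ∀ i, MvPolynomial.aeval (fun j => (Polynomial.C (c j) + Polynomial.C (w j) *
      Polynomial.X : Polynomial K)) (F i) ∈ Ideal.span (Set.range fun i => MvPolynomial.aeval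
        (fun j => (Polynomial.C (c j) + Polynomial.C (w j) * Polynomial.X : Polynomial K)) (F i)) :=
    fun i => Ideal.subset_span ⟨i, rfl⟩
  refine Ideal.add_mem _ (Ideal.mul_mem_left _ _ (hmem 0)) (Ideal.mul_mem_left _ _ ?_)
  rw [luN, map_sum]
  refine Ideal.sum_mem _ fun i _ => ?_
  rw [map_mul]
  exact Ideal.mul_mem_left _ _ (hmem i)

end Pool.Agent.Lib.MP_16285c_agN
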