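import Pool.Agent.Lib.MP_16285c_agN.T3.SpecC

/-!
# The contradiction of the growth rates (proof of `StmtXRl2`)
-/

set_option autoImplicit false

namespace Pool.Agent.Lib.MP_16285c_agN.T3XRl2M

/-- Continuity: a little room. -/
theorem room (x y : ℝ) (m : ℕ) (h : x ^ m < y) : ∃ ε : ℝ, 0 < ε ∧ (x + ε) ^ m < y := by
  have hc : Filter.Tendsto (fun e : ℝ => (x + e) ^ m) (nhdsWithin 0 (Set.Ioi 0))
      (nhds ((x + 0) ^ m)) := by
    have h1 : Continuous fun e : ℝ => (x + e) ^ m := by fun_prop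
    exact (h1.tendsto 0).mono_left nhdsWithin_le_nhds
  rw [add_zero] at hc
  have h2 : ∀ᶠ e in nhdsWithin (0 : ℝ) (Set.Ioi 0), (x + e) ^ m < y :=
    hc.eventually_lt_const h
  obtain ⟨e, he, he'⟩ := (h2.and self_mem_nhdsWithin).exists
  exact ⟨e, he', he⟩

/-- Two geometric rates. -/
theorem rates (r s c D : ℝ) (hr : 0 < r) (hs : r < s) (hc : 0 < c)
    (h : ∀ i : ℕ, 1 ≤ i → s ^ i * c ≤ D * r ^ i) : False := by
  have h1 : 1 < s / r := (one_lt_div hr).2 hs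
  obtain ⟨n, hn⟩ := pow_unbounded_of_one_lt (D / c) h1
  have h2 : (s / r) ^ n ≤ (s / r) ^ (n + 1) := pow_le_pow_right₀ h1.le (Nat.le_succ n)
  have h3 := h (n + 1) (by omega)
  have h4 : D / c < (s / r) ^ (n + 1) := lt_of_lt_of_le hn h2
  rw [div_pow, div_lt_div_iff₀ hc (pow_pos hr _)] at h4
  linarith

end Pool.Agent.Lib.MP_16285c_agN.T3XRl2M

namespace Pool.Agent.Lib.MP_16285c_agN

/-- Proof of `StmtXRl2`. -/
theorem tXRl2 : StmtXRl2 := by
  intro h m M b T δ hm hM hb hT hTb hδ hδT hpos hgrow hub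
  have hq : 1 ≤ b / 2 := by linarith
  have hq0 : 0 < b / 2 := by linarith
  have hiter : ∀ j : ℕ, (b / 2) ^ j * h m ≤ h (m * (j + 1)) := by
    intro j
    induction j with
    | zero => simp
    | succ j ih =>
      have h1 := hgrow (j + 1) (by omega)
      have h2 : (b / 2) ^ (j + 1) * h m = b / 2 * ((b / 2) ^ j * h m) := by ring
      rw [h2]
      exact le_trans (mul_le_mul_of_nonneg_left ih hq0.le) h1
  have hlt : (T ^ M) ^ m < (b / 2) ^ M := by
    rw [← pow_mul, mul_comm M m, pow_mul]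
    exact pow_lt_pow_left₀ hTb (by positivity) (by omega)
  obtain ⟨ε, hε, hroom⟩ := T3XRl2M.room (T ^ M) ((b / 2) ^ M) m hlt
  obtain ⟨C, hC⟩ := hub ε hε
  have hr : 0 < (δ + ε) ^ m := by positivity
  have hrs : (δ + ε) ^ m < (b / 2) ^ M :=
    lt_of_le_of_lt (pow_le_pow_left₀ (by positivity) (by linarith) m) hroom
  refine T3XRl2M.rates ((δ + ε) ^ m) ((b / 2) ^ M) (h m) (b / 2 * C) hr hrs hpos ?_
  intro i hi
  obtain ⟨j, hj⟩ : ∃ j, M * i = j + 1 := ⟨M * i - 1, by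
    have : 1 ≤ M * i := Nat.mul_pos (by omega) (by omega)
    omega⟩
  have h1 := hiter j
  have h2 := hC (m * i)
  have h3 : m * (j + 1) = M * (m * i) := by
    rw [← hj]
    ring
  rw [h3] at h1
  have h4 := h1.trans h2
  have h5 : ((b / 2) ^ M) ^ i = b / 2 * (b / 2) ^ j := by
    rw [← pow_mul, hj, pow_succ']
  have h6 : (δ + ε) ^ (m * i) = ((δ + ε) ^ m) ^ i := pow_mul _ _ _
  rw [h5, ← h6]
  calc b / 2 * (b / 2) ^ j * h m = b / 2 * ((b / 2) ^ j * h m) := by ring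
    _ ≤ b / 2 * (C * (δ + ε) ^ (m * i)) := mul_le_mul_of_nonneg_left h4 hq0.le
    _ = b / 2 * C * (δ + ε) ^ (m * i) := by ring

end Pool.Agent.Lib.MP_16285c_agN
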